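import Pool.Agent.H895Z.ADDefs

set_option autoImplicit false

/-! Basic facts on `ℕ*`, and the regular open set spanned by a tower. -/

open Cardinal Filter Set Topology

namespace Pool.Agent.H895Z.AD

/-- the basic clopen set -/
def N (y : Set ℕ) : Set NStar := {p | y ∈ p.1}

theorem isOpen_N (y : Set ℕ) : IsOpen (N y) :=
  (ultrafilter_isOpen_basic y).preimage continuous_subtype_val

theorem not_finite {p : NStar} {y : Set ℕ} (h : p ∈ N y) : y.Infinite := by
  intro hf
  obtain ⟨n, -, hn⟩ := Ultrafilter.eq_pure_of_finite_mem hf h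
  exact p.2 n hn

theorem exists_mem_N {y : Set ℕ} (h : y.Infinite) : ∃ p, p ∈ N y := by
  have h1 : (cofinite ⊓ 𝓟 y).NeBot := by
    rw [← frequently_mem_iff_neBot]
    exact frequently_cofinite_iff_infinite.2 h
  obtain ⟨p, hp⟩ := Ultrafilter.exists_le (cofinite ⊓ 𝓟 y)
  refine ⟨⟨p, fun n hn => ?_⟩, (hp.trans inf_le_right) (mem_principal_self y)⟩
  have h2 : ({n}ᶜ : Set ℕ) ∈ p := (hp.trans inf_le_left) (Set.finite_singleton n).compl_mem_cofinite
  rw [hn] at h2
  simp at h2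

theorem N_inter (y z : Set ℕ) : N (y ∩ z) = N y ∩ N z := by
  ext p; exact Filter.inter_mem_iff (f := (p.1 : Filter ℕ))

theorem N_union (y z : Set ℕ) : N (y ∪ z) = N y ∪ N z := by
  ext p; simp [N, Ultrafilter.union_mem_iff]

theorem N_empty : N ∅ = ∅ := by
  ext p; simp [N]

theorem mem_N_compl {p : NStar} {y : Set ℕ} : p ∈ N yᶜ ↔ p ∉ N y :=
  Ultrafilter.compl_mem_iff_notMem

theorem N_subset {y z : Set ℕ} : N y ⊆ N z ↔ (y \ z).Finite := by
  constructor
  · intro h
    by_contra hc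
    obtain ⟨p, hp⟩ := exists_mem_N hc
    rw [Set.diff_eq, N_inter] at hp
    exact mem_N_compl.1 hp.2 (h hp.1)
  · intro h p hp
    by_contra hc
    have : p ∈ N (y \ z) := by
      rw [Set.diff_eq, N_inter]; exact ⟨hp, mem_N_compl.2 hc⟩
    exact not_finite this h

theorem exists_N {U : Set NStar} (hU : IsOpen U) {p : NStar} (hp : p ∈ U) :
    ∃ y, p ∈ N y ∧ N y ⊆ U := by
  obtain ⟨V, hV, rfl⟩ := isOpen_induced_iff.1 hU
  obtain ⟨s, ⟨y, rfl⟩, h1, h2⟩ := ultrafilterBasis_is_basis.exists_subset_of_mem_open hp hV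
  exact ⟨y, h1, fun q hq => h2 hq⟩

theorem isCompact_N (y : Set ℕ) : IsCompact (N y) := by
  rw [Subtype.isCompact_iff]
  apply IsClosed.isCompact
  have : Subtype.val '' N y = {p : Ultrafilter ℕ | y ∈ p} ∩ ⋂ n : ℕ, {p | ({n}ᶜ : Set ℕ) ∈ p} := by
    ext p
    simp only [mem_image, mem_inter_iff, mem_setOf_eq, mem_iInter]
    constructor
    · rintro ⟨q, hq, rfl⟩
      refine ⟨hq, fun n => ?_⟩
      by_contra hc
      exact not_finite (p := q) (y := {n}) (by_contra fun h => hc (mem_N_compl.2 h))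
        (Set.finite_singleton n)
    · rintro ⟨h1, h2⟩
      refine ⟨⟨p, fun n hn => ?_⟩, h1, rfl⟩
      have := h2 n
      rw [hn] at this
      simp at this
  rw [this]
  exact (ultrafilter_isClosed_basic y).inter
    (isClosed_iInter fun n => ultrafilter_isClosed_basic _)

theorem eq_N {U : Set NStar} (hU : IsOpen U) (hc : IsCompact U) : ∃ y, U = N y := by
  have h : ∃ y, U ⊆ N y ∧ N y ⊆ U := by
    refine hc.induction_on (p := fun s => ∃ y, s ⊆ N y ∧ N y ⊆ U)
      ⟨∅, by simp, by simp [N_empty]⟩ ?_ ?_ ?_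
    · rintro s t hst ⟨y, h1, h2⟩
      exact ⟨y, hst.trans h1, h2⟩
    · rintro s t ⟨y, h1, h2⟩ ⟨z, h3, h4⟩
      exact ⟨y ∪ z, by rw [N_union]; exact union_subset_union h1 h3,
        by rw [N_union]; exact union_subset h2 h4⟩
    · intro p hp
      obtain ⟨y, h1, h2⟩ := exists_N hU hp
      exact ⟨N y, mem_nhdsWithin_of_mem_nhds ((isOpen_N y).mem_nhds h1), y, Subset.rfl, h2⟩
  obtain ⟨y, h1, h2⟩ := h
  exact ⟨y, Subset.antisymm h1 h2⟩

/-- the regular open set spanned by a family of sets of naturals -/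
def span {I : Type} (x : I → Set ℕ) : Set NStar := interior (closure (⋃ i, N (x i)))

theorem span_reg {I : Type} (x : I → Set ℕ) : span x = interior (closure (span x)) := by
  unfold span
  apply Subset.antisymm
  · exact interior_maximal subset_closure isOpen_interior
  · exact interior_mono (closure_minimal interior_subset isClosed_closure)

theorem N_subset_span {I : Type} (x : I → Set ℕ) (i : I) : N (x i) ⊆ span x :=
  interior_maximal ((subset_iUnion (fun i => N (x i)) i).trans subset_closure) (isOpen_N _)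

theorem exists_of_subset {I : Type} {x : I → Set ℕ} {z : Set ℕ} (hz : z.Infinite)
    (h : N z ⊆ span x) : ∃ i, (z ∩ x i).Infinite := by
  obtain ⟨p, hp⟩ := exists_mem_N hz
  obtain ⟨q, hq1, hq2⟩ := mem_closure_iff.1 (interior_subset (h hp)) _ (isOpen_N z) hp
  obtain ⟨i, hi⟩ := mem_iUnion.1 hq2
  exact ⟨i, not_finite (p := q) (by rw [N_inter]; exact ⟨hq1, hi⟩)⟩

theorem span_inter {I : Type} {x x' : I → Set ℕ} {γ : I}
    (h : ∀ i j, ((x i ∩ x' j) \ (x γ ∩ x' γ)).Finite) :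
    span x ∩ span x' = N (x γ ∩ x' γ) := by
  apply Subset.antisymm
  · intro p hp
    by_contra hc
    obtain ⟨z, hz1, hz2⟩ := exists_N ((isOpen_interior.inter isOpen_interior).inter (isOpen_N _))
      (⟨hp, mem_N_compl.2 hc⟩ : p ∈ span x ∩ span x' ∩ N (x γ ∩ x' γ)ᶜ)
    obtain ⟨i, hi⟩ := exists_of_subset (not_finite hz1) fun q hq => (hz2 hq).1.1
    obtain ⟨j, hj⟩ := exists_of_subset (x := x') hi fun q hq => by
      rw [N_inter] at hq; exact (hz2 hq.1).1.2
    have h1 : (z \ (x γ ∩ x' γ)ᶜ).Finite := N_subset.1 fun q hq => (hz2 hq).2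
    refine hj (((h i j).union h1).subset fun n hn => ?_)
    by_cases hn' : n ∈ x γ ∩ x' γ
    · exact Or.inr ⟨hn.1.1, fun h => h hn'⟩
    · exact Or.inl ⟨⟨hn.1.2, hn.2⟩, hn'⟩
  · rw [N_inter]
    exact inter_subset_inter (N_subset_span x γ) (N_subset_span x' γ)

/-- a family of towers whose pairwise intersections stabilise -/
structure Fam {T I : Type} (x : T → I → Set ℕ) : Prop where
  grow : ∀ t i, ∃ j, (x t j \ x t i).Infinite
  stab : ∀ t t', t ≠ t' → ∃ γ, ∀ i j, ((x t i ∩ x t' j) \ (x t γ ∩ x t' γ)).Finite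

theorem Fam.compact {T I : Type} {x : T → I → Set ℕ} (h : Fam x) {t t' : T} (htt : t ≠ t') :
    IsCompact (span (x t) ∩ span (x t')) := by
  obtain ⟨γ, hγ⟩ := h.stab t t' htt
  rw [span_inter hγ]
  exact isCompact_N _

theorem Fam.injective {T I : Type} {x : T → I → Set ℕ} (h : Fam x) :
    Function.Injective fun t => span (x t) := by
  intro t t' heq
  by_contra htt
  obtain ⟨γ, hγ⟩ := h.stab t t' htt
  have h1 := span_inter hγ
  simp only at heq
  rw [← heq, inter_self] at h1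
  obtain ⟨j, hj⟩ := h.grow t γ
  have h2 := N_subset_span (x t) j
  rw [h1] at h2
  exact hj ((N_subset.1 h2).subset fun n hn => ⟨hn.1, fun h => hn.2 h.1⟩)

theorem Fam.isAD {T I : Type} {x : T → I → Set ℕ} (h : Fam x) (S : Set T)
    (hS : ∀ t ∈ S, ¬ IsCompact (span (x t))) :
    IsAD ((fun t => span (x t)) '' S) ∧ #((fun t => span (x t)) '' S) = #S := by
  refine ⟨⟨?_, ?_⟩, Cardinal.mk_image_eq h.injective⟩
  · rintro _ ⟨t, ht, rfl⟩
    exact ⟨span_reg _, hS t ht⟩
  · rintro _ ⟨t, -, rfl⟩ _ ⟨t', -, rfl⟩ hne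
    exact h.compact fun h => hne (by rw [h])

theorem Fam.few_compact {T I : Type} {x : T → I → Set ℕ} (h : Fam x) :
    #{t | IsCompact (span (x t))} ≤ 𝔠 := by
  have h1 : ∀ t : {t | IsCompact (span (x t))}, ∃ y, span (x t) = N y := fun t =>
    eq_N isOpen_interior t.2
  choose y hy using h1
  have h2 : Function.Injective y := fun t t' htt =>
    Subtype.ext (h.injective (by simp only; rw [hy t, hy t', htt]))
  simpa using Cardinal.mk_le_of_injective h2

theorem not_compact_of_seq {x : ℕ → Set ℕ} (hm : Monotone x) (hg : ∀ i, ∃ j, (x j \ x i).Infinite) :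
    ¬ IsCompact (span x) := by
  intro hc
  obtain ⟨z, hz⟩ := eq_N isOpen_interior hc
  have h1 : ∀ i, (x i \ z).Finite := fun i => N_subset.1 (hz ▸ N_subset_span x i)
  have h2 : ∀ i, ∃ n, i ≤ n ∧ n ∈ z ∧ n ∉ x i := by
    intro i
    obtain ⟨j, hj⟩ := hg i
    obtain ⟨n, hn1, hn2⟩ := hj.exists_notMem_finite ((h1 j).union (Set.finite_lt_nat i))
    simp only [mem_union, mem_diff, not_or, not_and, not_not, mem_setOf_eq, not_lt] at hn2
    exact ⟨n, hn2.2, hn2.1 hn1.1, hn1.2⟩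
  choose n hn1 hn2 hn3 using h2
  have h3 : (range n).Infinite := by
    intro hf
    obtain ⟨B, hB⟩ := hf.bddAbove
    have := hB ⟨B + 1, rfl⟩
    have := hn1 (B + 1)
    omega
  obtain ⟨i, hi⟩ := exists_of_subset (x := x) h3 (by
    unfold span
    rw [hz, N_subset]
    refine Set.finite_empty.subset ?_
    rintro _ ⟨⟨k, rfl⟩, hk⟩
    exact hk (hn2 k))
  refine hi (((Set.finite_lt_nat i).image n).subset ?_)
  rintro _ ⟨⟨k, rfl⟩, hk⟩
  refine ⟨k, ?_, rfl⟩
  by_contra hlt
  exact hn3 k (hm (not_lt.1 hlt) hk)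

/-- transfinite recursion with a binary invariant -/
theorem wf_rec {Ω V : Type} [LinearOrder Ω] [WellFoundedLT Ω] [Nonempty V]
    (Good : Ω → V → Prop) (Rel : Ω → V → Ω → V → Prop)
    (step : ∀ α (f : Ω → V), (∀ γ, γ < α → Good γ (f γ)) →
      (∀ γ δ, γ < δ → δ < α → Rel γ (f γ) δ (f δ)) →
      ∃ v, Good α v ∧ ∀ γ, γ < α → Rel γ (f γ) α v) :
    ∃ f : Ω → V, (∀ α, Good α (f α)) ∧ ∀ γ α, γ < α → Rel γ (f γ) α (f α) := by
  classical
  let F : (α : Ω) → ((γ : Ω) → γ < α → V) → V := fun α g =>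
    Classical.epsilon fun v => Good α v ∧ ∀ γ (h : γ < α), Rel γ (g γ h) α v
  let f : Ω → V := (wellFounded_lt (α := Ω)).fix F
  have hf : ∀ α, f α = F α fun γ _ => f γ := fun α => WellFounded.fix_eq _ _ _
  have key : ∀ α, Good α (f α) ∧ ∀ γ, γ < α → Rel γ (f γ) α (f α) := by
    intro α
    induction α using WellFoundedLT.induction with
    | ind α ih =>
      have h1 := step α f (fun γ h => (ih γ h).1) (fun γ δ h1 h2 => (ih δ h2).2 γ h1)
      rw [hf α]
      exact Classical.epsilon_spec h1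
  exact ⟨f, fun α => (key α).1, fun γ α h => (key α).2 γ h⟩

end Pool.Agent.H895Z.AD
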