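import Pool.Agent.Helper539.SPForcing

set_option autoImplicit false

/-! A combinatorial principle of the Cohen model and its translation to the forcing language. -/

namespace Pool.Agent.H895Z.AD

open Pool.Agent.Helper539.SPForcing

/-- The principle: `|W| ≤ |X| ≤ 𝔠`, for each `w` in `W` the subsets of `{v | v < w} × ℕ` can be
listed by `X`, and no sequence of subsets of `ℕ` indexed by `W` is strictly increasing modulo
finite sets. -/
def CohenPr (W X : Type) [LinearOrder W] : Prop :=
  (∃ e : W → X, Function.Injective e) ∧
  (∃ E : X → Set ℕ, Function.Injective E) ∧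
  (∀ w : W, ∃ S : X → Set (Set.Iio w × ℕ), ∀ τ, ∃ x, τ = S x) ∧
  ¬ ∃ C : W → Set ℕ, ∀ v w, v < w →
    (∃ m, ∀ n, m ≤ n ∧ n ∈ C v → n ∈ C w) ∧ ∀ m, ∃ n, m ≤ n ∧ n ∈ C w ∧ n ∉ C v

/-- the subsets of `X` named by `A` and `B` are equal -/
def GEq {P : Type} [Preorder P] {X : Type} (A B : X → Set P) : Set P :=
  fand (fall fun x => fimp (meets (A x)) (meets (B x)))
    (fall fun x => fimp (meets (B x)) (meets (A x)))

/-- the named family of subsets of `X`, indexed by `Z`, is injective -/
def GInj {P : Type} [Preorder P] {X Z : Type} (C : Z → X → Set P) : Set P :=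
  fall fun z => fall fun z' => fimp (GEq (C z) (C z')) (fground (z = z'))

/-- the named family of subsets of `X`, indexed by `Z`, contains all subsets of `X` -/
def GAll {P : Type} [Preorder P] {X Z : Type} (C : Z → X → Set P) : Set P :=
  fall fun τ : X → Set P => fex fun z => GEq τ (C z)

/-- the set of the conditions of `P` which force `CohenPr W X` -/
def FCohenPr (P : Type) [Preorder P] (W X : Type) [LinearOrder W] : Set P :=
  fand (fground (∃ e : W → X, Function.Injective e))
    (fand (fex fun E : X → ℕ → Set P => GInj E)
    (fand (fall fun w : W => fex fun S : X → Set.Iio w × ℕ → Set P => GAll S)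
      (fnot (fex fun C : W → ℕ → Set P => fall fun v => fall fun w => fimp (fground (v < w))
        (fand (fex fun m => fall fun n =>
            fimp (fand (fground (m ≤ n)) (meets (C v n))) (meets (C w n)))
          (fall fun m => fex fun n =>
            fand (fground (m ≤ n)) (fand (meets (C w n)) (fnot (meets (C v n))))))))))

end Pool.Agent.H895Z.AD
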