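import Mathlib
import Pool.Agent.Helper539.SPForcing

set_option autoImplicit false

namespace Pool.Agent.H895Z.Wei

open Cardinal Pool.Agent.Helper539.SPForcing

/-- support of a partial function -/
def supp {J : Type} (f : J → Option Bool) : Set J := {j | f j ≠ none}

/-- compatibility of partial functions -/
def Compat {J : Type} (f g : J → Option Bool) : Prop :=
  ∀ j a b, f j = some a → g j = some b → a = b

theorem Compat.symm {J : Type} {f g : J → Option Bool} (h : Compat f g) : Compat g f :=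
  fun j a b h1 h2 => (h j b a h2 h1).symm

/-- countable partial functions `J → Bool` with finite support on `R` -/
@[ext] structure Cond (J : Type) (R : Set J) where
  f : J → Option Bool
  cnt : (supp f).Countable
  fin : (supp f ∩ R).Finite

variable {J : Type} {R : Set J}

instance : Preorder (Cond J R) where
  le p q := ∀ j b, q.f j = some b → p.f j = some b
  le_refl _ _ _ h := h
  le_trans _ _ _ h h' j b hj := h j b (h' j b hj)

theorem le_def' {p q : Cond J R} : p ≤ q ↔ ∀ j b, q.f j = some b → p.f j = some b := Iff.rfl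

theorem compat_of_le {r p q : Cond J R} (h : r ≤ p) (h' : r ≤ q) : Compat p.f q.f := by
  intro j a b h1 h2
  have := (h j a h1).symm.trans (h' j b h2)
  simpa using this

/-- the empty condition -/
def Cond.top (J : Type) (R : Set J) : Cond J R :=
  ⟨fun _ => none, by simp [supp], by simp [supp]⟩

/-- union of conditions -/
def Cond.union (p q : Cond J R) : Cond J R where
  f j := (p.f j).or (q.f j)
  cnt := (p.cnt.union q.cnt).mono (by
    intro j hj
    simp only [supp, ne_eq, Set.mem_ofPred_eq, Option.or_eq_none_iff, not_and_or] at hj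
    exact hj)
  fin := (p.fin.union q.fin).subset (by
    rintro j ⟨hj, hR⟩
    simp only [supp, ne_eq, Set.mem_ofPred_eq, Option.or_eq_none_iff, not_and_or] at hj
    rcases hj with hj | hj
    · exact Or.inl ⟨hj, hR⟩
    · exact Or.inr ⟨hj, hR⟩)

theorem union_le_left (p q : Cond J R) : p.union q ≤ p := by
  intro j b h
  simp [Cond.union, h]

theorem union_le_right {p q : Cond J R} (h : Compat p.f q.f) : p.union q ≤ q := by
  intro j b hj
  simp only [Cond.union]
  cases hp : p.f j with
  | none => simpa using hj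
  | some a => simp [h j a b hp hj]

theorem le_union {r p q : Cond J R} (h : r ≤ p) (h' : r ≤ q) : r ≤ p.union q := by
  intro j b hj
  simp only [Cond.union] at hj
  cases hp : p.f j with
  | none => rw [hp] at hj; exact h' j b (by simpa using hj)
  | some a =>
    rw [hp] at hj
    have : a = b := by simpa using hj
    exact h j b (this ▸ hp)

open Classical in
/-- restriction of a condition -/
noncomputable def Cond.res (p : Cond J R) (A : Set J) : Cond J R where
  f j := if j ∈ A then p.f j else none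
  cnt := p.cnt.mono (by
    intro j hj
    simp only [supp, ne_eq, Set.mem_ofPred_eq, ite_eq_right_iff, not_forall] at hj
    exact hj.2)
  fin := p.fin.subset (by
    rintro j ⟨hj, hR⟩
    simp only [supp, ne_eq, Set.mem_ofPred_eq, ite_eq_right_iff, not_forall] at hj
    exact ⟨hj.2, hR⟩)

theorem res_of_mem (p : Cond J R) {A : Set J} {j : J} (h : j ∈ A) : (p.res A).f j = p.f j := by
  simp [Cond.res, h]

theorem res_of_notMem (p : Cond J R) {A : Set J} {j : J} (h : j ∉ A) : (p.res A).f j = none := by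
  simp [Cond.res, h]

theorem res_some {p : Cond J R} {A : Set J} {j : J} {b : Bool} :
    (p.res A).f j = some b ↔ j ∈ A ∧ p.f j = some b := by
  by_cases h : j ∈ A
  · simp [res_of_mem p h, h]
  · simp [res_of_notMem p h, h]

theorem le_res (p : Cond J R) (A : Set J) : p ≤ p.res A := fun _ _ h => (res_some.1 h).2

theorem supp_res (p : Cond J R) (A : Set J) : supp (p.res A).f ⊆ A := by
  intro j hj
  by_contra h
  exact hj (res_of_notMem p h)

theorem mem_supp_of_some {f : J → Option Bool} {j : J} {b : Bool} (h : f j = some b) :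
    j ∈ supp f := by simp [supp, h]

open Classical in
/-- a condition with one value -/
noncomputable def Cond.single (R : Set J) (j : J) (b : Bool) : Cond J R where
  f i := if i = j then some b else none
  cnt := (Set.countable_singleton j).mono (by
    intro i hi
    simp only [supp, ne_eq, Set.mem_ofPred_eq, ite_eq_right_iff, not_forall] at hi
    exact hi.1)
  fin := (Set.finite_singleton j).subset (by
    rintro i ⟨hi, -⟩
    simp only [supp, ne_eq, Set.mem_ofPred_eq, ite_eq_right_iff, not_forall] at hi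
    exact hi.1)

theorem exists_ext (q : Cond J R) {j : J} (hj : j ∉ supp q.f) (b : Bool) :
    ∃ r ≤ q, r.f j = some b ∧ ∀ i, i ≠ j → r.f i = q.f i := by
  have hj' : q.f j = none := by simpa [supp] using hj
  refine ⟨q.union (Cond.single R j b), union_le_left _ _, ?_, fun i hi => ?_⟩
  · simp [Cond.union, Cond.single, hj']
  · simp [Cond.union, Cond.single, hi]

/-! ### regular sets of conditions -/

/-- a set of conditions which is closed downwards and contains each condition below which it is
dense -/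
structure Reg {P : Type} [Preorder P] (U : Set P) : Prop where
  down : ∀ {p q : P}, q ≤ p → p ∈ U → q ∈ U
  dense : ∀ {p : P}, (∀ q ≤ p, ∃ r ≤ q, r ∈ U) → p ∈ U

theorem reg_meets {P : Type} [Preorder P] (N : Set P) : Reg (meets N) :=
  ⟨fun h hp => down_meets N _ hp _ h, meets_of_dense⟩

theorem Reg.exists_not {P : Type} [Preorder P] {U : Set P} (hU : Reg U) {p : P} (h : p ∉ U) :
    ∃ q ≤ p, ∀ r ≤ q, r ∉ U := by
  by_contra hc
  push Not at hc
  exact h (hU.dense hc)

/-- two generic coordinates differ -/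
theorem coord_ne (q : Cond J R) {j j' : J} (hne : j ≠ j') (hj : j ∉ supp q.f)
    (hj' : j' ∉ supp q.f) :
    ∃ r ≤ q, r ∈ meets {p : Cond J R | p.f j = some true} ∧
      ∀ s ≤ r, s ∉ meets {p : Cond J R | p.f j' = some true} := by
  obtain ⟨r1, h1, h2, h3⟩ := exists_ext q hj true
  have : j' ∉ supp r1.f := by
    simp only [supp, ne_eq, Set.mem_ofPred_eq, not_not] at hj' ⊢
    rw [h3 j' hne.symm, hj']
  obtain ⟨r2, h4, h5, -⟩ := exists_ext r1 this false
  refine ⟨r2, h4.trans h1, meets_of_mem (h4 j true h2), fun s hs hm => ?_⟩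
  obtain ⟨t, ht, u, hu, htu⟩ := hm s le_rfl
  have a1 := htu j' true hu
  have a2 := (ht.trans hs) j' false h5
  rw [a1] at a2
  simp at a2

/-! ### the chain condition -/

/-- Hewitt, Marczewski, Pondiczery; Engelking, Karlowicz -/
theorem exists_code {I : Type} (hI : #I ≤ 2 ^ 𝔠) (s : I → J → Option Bool)
    (hs : ∀ i, (supp (s i)).Countable) :
    ∃ (Γ : Type) (φ : I → Γ), #Γ ≤ 𝔠 ∧ ∀ i i', φ i = φ i' → Compat (s i) (s i') := by
  classical
  let T := ℕ → Bool
  have hT : #T = 𝔠 := by simp [T]
  let D : Set J := ⋃ i, supp (s i)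
  have hD : #D ≤ #(T → Bool) := by
    have h1 : #D ≤ #I * ℵ₀ := by
      refine (mk_iUnion_le _).trans ?_
      refine mul_le_mul_right ?_ _
      exact ciSup_le' (fun i => le_aleph0_iff_set_countable.2 (hs i))
    have h2 : #(T → Bool) = 2 ^ 𝔠 := by simp [hT]
    have h3 : ℵ₀ ≤ (2 : Cardinal.{0}) ^ 𝔠 := aleph0_le_continuum.trans (cantor _).le
    rw [h2]
    calc #D ≤ #I * ℵ₀ := h1
      _ ≤ 2 ^ 𝔠 * 2 ^ 𝔠 := mul_le_mul' hI h3
      _ = 2 ^ 𝔠 := mul_eq_self h3
  obtain ⟨e⟩ := (le_def _ _).1 hD
  have hsep : ∀ i, ∃ t : ℕ → T, ∀ a b : D, a.1 ∈ supp (s i) → b.1 ∈ supp (s i) →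
      (fun n => e a (t n)) = (fun n => e b (t n)) → a = b := by
    intro i
    have h1 : ∀ p : D × D, ∃ u : T, p.1 ≠ p.2 → e p.1 u ≠ e p.2 u := by
      intro p
      by_cases h : p.1 = p.2
      · exact ⟨fun _ => true, fun h' => absurd h h'⟩
      · obtain ⟨u, hu⟩ := Function.ne_iff.1 (e.injective.ne h)
        exact ⟨u, fun _ => hu⟩
    choose u hu using h1
    have h2 : {a : D | a.1 ∈ supp (s i)}.Countable :=
      (hs i).preimage_of_injOn (Subtype.val_injective.injOn)
    have h3 : (insert (fun _ => true)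
        (u '' ({a : D | a.1 ∈ supp (s i)} ×ˢ {a : D | a.1 ∈ supp (s i)}))).Countable :=
      ((h2.prod h2).image u).insert _
    obtain ⟨t, ht⟩ := h3.exists_eq_range (Set.insert_nonempty _ _)
    refine ⟨t, fun a b ha hb hab => ?_⟩
    by_contra hne
    have h4 : u (a, b) ∈ Set.range t := by
      rw [← ht]
      exact Set.mem_insert_of_mem _ ⟨(a, b), ⟨ha, hb⟩, rfl⟩
    obtain ⟨n, hn⟩ := h4
    have := congrFun hab n
    simp only [hn] at this
    exact hu (a, b) hne this
  choose t ht using hsep
  let H : I → Set (ℕ → Bool) := fun i =>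
    (fun a : D => fun n => e a (t i n)) '' {a : D | s i a.1 = some true}
  have hH : ∀ i, #(H i) ≤ ℵ₀ := by
    intro i
    refine le_aleph0_iff_set_countable.2 (Set.Countable.image ?_ _)
    exact ((hs i).preimage_of_injOn (Subtype.val_injective.injOn)).mono
      (fun a ha => mem_supp_of_some ha)
  refine ⟨(ℕ → T) × {H : Set (ℕ → Bool) // #H ≤ ℵ₀}, fun i => (t i, ⟨H i, hH i⟩), ?_, ?_⟩
  · have h1 : #(ℕ → T) = 𝔠 := by simp [hT]
    have h2 : #{H : Set (ℕ → Bool) // #H ≤ ℵ₀} ≤ 𝔠 := by
      refine (mk_bounded_set_le_of_infinite _ _).trans ?_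
      simp
    rw [mk_prod, lift_id, lift_id, h1]
    calc _ ≤ 𝔠 * 𝔠 := mul_le_mul_right h2 _
      _ = 𝔠 := continuum_mul_self
  · have key : ∀ i i', t i = t i' → H i = H i' → ∀ j b, s i j = some true → s i' j = some b →
        b = true := by
      intro i i' h1 h2 j b h3 h4
      have hj : j ∈ D := Set.mem_iUnion.2 ⟨i, mem_supp_of_some h3⟩
      have h5 : (fun n => e ⟨j, hj⟩ (t i n)) ∈ H i' := by
        rw [← h2]
        exact ⟨⟨j, hj⟩, h3, rfl⟩
      obtain ⟨a, ha, h6⟩ := h5
      rw [h1] at h6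
      have := ht i' a ⟨j, hj⟩ (mem_supp_of_some ha) (mem_supp_of_some h4) h6
      rw [this] at ha
      have h7 : s i' j = some true := ha
      rw [h4] at h7
      simpa using h7
    intro i i' h j a b h1 h2
    have h3 : t i = t i' := congrArg Prod.fst h
    have h4 : H i = H i' := congrArg (fun p => p.2.1) h
    cases a
    · cases b
      · rfl
      · exact key i' i h3.symm h4.symm j false h2 h1
    · exact (key i i' h3 h4 j b h1 h2).symm

/-- the properties of the well order of type `𝔠⁺` which are used -/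
structure Good (X : Type) [LinearOrder X] : Prop where
  bdd : ∀ S : Set X, #S ≤ 𝔠 → ∃ j, ∀ i ∈ S, i < j
  iio : ∀ a : X, #(Set.Iio a) ≤ 𝔠
  le : #X ≤ 2 ^ 𝔠
  lt_imp : ∀ c : Cardinal.{0}, c < #X → c ≤ 𝔠

variable {X : Type} [LinearOrder X]

theorem Good.lt (hX : Good X) : 𝔠 < #X := by
  by_contra hc
  push Not at hc
  obtain ⟨j, hj⟩ := hX.bdd Set.univ (by simpa using hc)
  exact lt_irrefl j (hj j trivial)

theorem Good.knaster (hX : Good X) (s : X → J → Option Bool)
    (hs : ∀ i, (supp (s i)).Countable) (f : X → X) :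
    ∃ i j, f i < j ∧ Compat (s i) (s j) := by
  obtain ⟨Γ, φ, hΓ, hφ⟩ := exists_code hX.le s hs
  let g : Set.range φ → X := fun γ => γ.2.choose
  have hg : ∀ γ, φ (g γ) = γ.1 := fun γ => γ.2.choose_spec
  obtain ⟨j, hj⟩ := hX.bdd (Set.range (fun γ => f (g γ)))
    (mk_range_le.trans ((mk_set_le _).trans hΓ))
  exact ⟨g ⟨φ j, j, rfl⟩, j, hj _ ⟨_, rfl⟩, hφ _ _ (hg _)⟩

theorem Good.antichain (hX : Good X) (B : Set (Cond J R))
    (hB : B.Pairwise (fun a b => ¬ Compat a.f b.f)) : #B ≤ 𝔠 := by
  apply hX.lt_imp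
  by_contra hc
  push Not at hc
  obtain ⟨e⟩ := (le_def _ _).1 hc
  obtain ⟨i, j, hij, h⟩ := hX.knaster (fun i => (e i).1.f) (fun i => (e i).1.cnt) id
  refine hB (e i).2 (e j).2 (fun h' => ?_) h
  exact hij.ne (e.injective (Subtype.ext h'))

/-- a small predense subset -/
theorem Good.predense (hX : Good X) (U : Set (Cond J R)) :
    ∃ B ⊆ U, #B ≤ 𝔠 ∧ ∀ s ∈ U, ∃ b ∈ B, Compat s.f b.f := by
  obtain ⟨B, hB⟩ := zorn_subset
    {B : Set (Cond J R) | B ⊆ U ∧ B.Pairwise (fun a b => ¬ Compat a.f b.f)} (by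
      intro c hc hchain
      refine ⟨⋃₀ c, ⟨Set.sUnion_subset (fun B hB => (hc hB).1), ?_⟩,
        fun B hB => Set.subset_sUnion_of_mem hB⟩
      exact (Set.pairwise_sUnion hchain.directedOn).2 (fun B hB => (hc hB).2))
  refine ⟨B, hB.prop.1, hX.antichain B hB.prop.2, fun s hs => ?_⟩
  by_contra hc
  push Not at hc
  have h1 : insert s B ⊆ B := hB.le_of_ge (y := insert s B)
    ⟨Set.insert_subset hs hB.prop.1, hB.prop.2.insert (fun b hb _ =>
      ⟨hc b hb, fun h => hc b hb h.symm⟩)⟩ (Set.subset_insert _ _)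
  exact hc s (h1 (Set.mem_insert _ _)) (fun j a b h1 h2 => by simpa using h1.symm.trans h2)

end Pool.Agent.H895Z.Wei
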