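import Mathlib

set_option autoImplicit false

namespace Pool.Agent.H895Z.Wei

/-- the word of the first `n` values of a point of Baire space -/
def pre (x : ℕ → ℕ) (n : ℕ) : List ℕ := (List.range n).map x

/-- the word function `φ` computes `q` from `p`: it sends the initial segments of `p` to initial
segments of `q` whose lengths tend to infinity -/
def Computes (φ : List ℕ → List ℕ) (p q : ℕ → ℕ) : Prop :=
  ∃ k : ℕ → ℕ, Filter.Tendsto k Filter.atTop Filter.atTop ∧ ∀ m, φ (pre p m) = pre q (k m)

/-- the pairing `⟨p, q⟩` on Baire space -/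
def join (p q : ℕ → ℕ) : ℕ → ℕ := fun n => if n % 2 = 0 then p (n / 2) else q (n / 2)

/-- a problem: a partial multivalued function on Baire space, `sol x` being the set of the
solutions of `x`; its domain is the set of the `x` with `sol x` nonempty -/
structure Problem where
  sol : (ℕ → ℕ) → Set (ℕ → ℕ)

/-- Weihrauch reducibility `f ≤_W g`; the partial computable functionals `Φ`, `Ψ` are given by
computable word functions `φ`, `ψ` -/
def WLE (f g : Problem) : Prop :=
  ∃ φ ψ : List ℕ → List ℕ, Computable φ ∧ Computable ψ ∧
    ∀ x, (f.sol x).Nonempty → ∃ x', Computes φ x x' ∧ (g.sol x').Nonempty ∧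
      ∀ y ∈ g.sol x', ∃ z, Computes ψ (join x y) z ∧ z ∈ f.sol x

end Pool.Agent.H895Z.Wei
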