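import Mathlib
import Pool.Agent.H895Z.WDefs

set_option autoImplicit false

namespace Pool.Agent.H895Z.Wei

open Filter

theorem pre_length (x : ℕ → ℕ) (n : ℕ) : (pre x n).length = n := by simp [pre]

theorem pre_getD (x : ℕ → ℕ) {n i : ℕ} (h : i < n) : (pre x n).getD i 0 = x i := by
  rw [List.getD_eq_getElem _ _ (by simpa [pre] using h)]
  simp [pre]

theorem pre_congr {x y : ℕ → ℕ} {n : ℕ} (h : ∀ i < n, x i = y i) : pre x n = pre y n := by
  unfold pre
  exact List.map_congr_left (fun i hi => h i (List.mem_range.1 hi))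

theorem Computes.unique {φ : List ℕ → List ℕ} {p q q' : ℕ → ℕ} (h : Computes φ p q)
    (h' : Computes φ p q') : q = q' := by
  obtain ⟨k, hk, h⟩ := h
  obtain ⟨k', -, h'⟩ := h'
  funext n
  obtain ⟨m, hm⟩ := (hk.eventually (eventually_gt_atTop n)).exists
  have h1 : pre q (k m) = pre q' (k' m) := (h m).symm.trans (h' m)
  have h2 : k m = k' m := by simpa [pre_length] using congrArg List.length h1
  rw [← pre_getD q hm, h1, pre_getD q' (h2 ▸ hm)]

theorem computes_id (p : ℕ → ℕ) : Computes id p p := ⟨id, tendsto_id, fun _ => rfl⟩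

theorem Computes.comp {φ ψ : List ℕ → List ℕ} {p q r : ℕ → ℕ} (h' : Computes ψ q r)
    (h : Computes φ p q) : Computes (fun w => ψ (φ w)) p r := by
  obtain ⟨k, hk, h⟩ := h
  obtain ⟨k', hk', h'⟩ := h'
  exact ⟨fun m => k' (k m), hk'.comp hk, fun m => by simp only [h m, h' (k m)]⟩

/-- letters at the even places -/
def evens (w : List ℕ) : List ℕ := (List.range (w.length / 2)).map (fun i => w.getD (2 * i) 0)

/-- letters at the odd places -/
def odds (w : List ℕ) : List ℕ := (List.range (w.length / 2)).map (fun i => w.getD (2 * i + 1) 0)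

/-- interleaving of two words -/
def inter (u v : List ℕ) : List ℕ :=
  (List.range (2 * min u.length v.length)).map
    (fun n => if n % 2 = 0 then u.getD (n / 2) 0 else v.getD (n / 2) 0)

theorem primrec_evens : Primrec evens :=
  Primrec.list_map (Primrec.list_range.comp (Primrec.nat_div.comp Primrec.list_length (.const 2)))
    ((Primrec.list_getD 0).comp Primrec.fst
      (Primrec.nat_mul.comp (.const 2) Primrec.snd)).to₂

theorem primrec_odds : Primrec odds :=
  Primrec.list_map (Primrec.list_range.comp (Primrec.nat_div.comp Primrec.list_length (.const 2)))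
    ((Primrec.list_getD 0).comp Primrec.fst
      (Primrec.succ.comp (Primrec.nat_mul.comp (.const 2) Primrec.snd))).to₂

theorem primrec_inter : Primrec₂ inter := by
  have h : Primrec (fun p : List ℕ × List ℕ => inter p.1 p.2) :=
    Primrec.list_map
      (Primrec.list_range.comp (Primrec.nat_mul.comp (.const 2)
        (Primrec.nat_min.comp (Primrec.list_length.comp Primrec.fst)
          (Primrec.list_length.comp Primrec.snd))))
      (Primrec.ite (Primrec.eq.comp (Primrec.nat_mod.comp Primrec.snd (.const 2)) (.const 0))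
        ((Primrec.list_getD 0).comp (Primrec.fst.comp Primrec.fst)
          (Primrec.nat_div.comp Primrec.snd (.const 2)))
        ((Primrec.list_getD 0).comp (Primrec.snd.comp Primrec.fst)
          (Primrec.nat_div.comp Primrec.snd (.const 2)))).to₂
  exact h

theorem tendsto_half : Tendsto (fun m : ℕ => m / 2) atTop atTop :=
  Nat.tendsto_div_const_atTop (by norm_num)

theorem computes_evens (p q : ℕ → ℕ) : Computes evens (join p q) p := by
  refine ⟨fun m => m / 2, tendsto_half, fun m => ?_⟩
  unfold evens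
  rw [pre_length]
  refine List.map_congr_left (fun i hi => ?_)
  have := List.mem_range.1 hi
  rw [pre_getD _ (by omega)]
  simp [join]

theorem computes_odds (p q : ℕ → ℕ) : Computes odds (join p q) q := by
  refine ⟨fun m => m / 2, tendsto_half, fun m => ?_⟩
  unfold odds
  rw [pre_length]
  refine List.map_congr_left (fun i hi => ?_)
  have := List.mem_range.1 hi
  rw [pre_getD _ (by omega)]
  have h1 : (2 * i + 1) % 2 = 1 := by omega
  have h2 : (2 * i + 1) / 2 = i := by omega
  simp [join, h1, h2]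

theorem Computes.inter {φ ψ : List ℕ → List ℕ} {r p q : ℕ → ℕ} (h : Computes φ r p)
    (h' : Computes ψ r q) : Computes (fun w => inter (φ w) (ψ w)) r (join p q) := by
  obtain ⟨k, hk, h⟩ := h
  obtain ⟨k', hk', h'⟩ := h'
  refine ⟨fun m => 2 * min (k m) (k' m), ?_, fun m => ?_⟩
  · refine tendsto_atTop.2 (fun b => ?_)
    filter_upwards [tendsto_atTop.1 hk b, tendsto_atTop.1 hk' b] with m h1 h2
    omega
  · simp only [h m, h' m, Wei.inter, pre_length]
    refine List.map_congr_left (fun i hi => ?_)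
    have := List.mem_range.1 hi
    rw [pre_getD _ (by omega), pre_getD _ (by omega)]
    rfl

theorem WLE.of_sub {f g : Problem}
    (h : ∀ x, (f.sol x).Nonempty → (g.sol x).Nonempty ∧ g.sol x ⊆ f.sol x) : WLE f g :=
  ⟨id, odds, Computable.id, primrec_odds.to_comp, fun x hx =>
    ⟨x, computes_id x, (h x hx).1, fun y hy => ⟨y, computes_odds x y, (h x hx).2 hy⟩⟩⟩

theorem WLE.refl (f : Problem) : WLE f f := WLE.of_sub (fun _ hx => ⟨hx, subset_rfl⟩)

theorem WLE.trans {f g h : Problem} (h1 : WLE f g) (h2 : WLE g h) : WLE f h := by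
  obtain ⟨φ₁, ψ₁, hφ₁, hψ₁, h1⟩ := h1
  obtain ⟨φ₂, ψ₂, hφ₂, hψ₂, h2⟩ := h2
  refine ⟨fun w => φ₂ (φ₁ w),
    fun w => ψ₁ (inter (evens w) (ψ₂ (inter (φ₁ (evens w)) (odds w)))), hφ₂.comp hφ₁, ?_, ?_⟩
  · exact hψ₁.comp (primrec_inter.to_comp.comp primrec_evens.to_comp
      (hψ₂.comp (primrec_inter.to_comp.comp (hφ₁.comp primrec_evens.to_comp)
        primrec_odds.to_comp)))
  · intro x hx
    obtain ⟨x', c1, hx', h1⟩ := h1 x hx
    obtain ⟨x'', c2, hx'', h2⟩ := h2 x' hx'
    refine ⟨x'', c2.comp c1, hx'', fun y hy => ?_⟩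
    obtain ⟨z, c3, hz⟩ := h2 y hy
    obtain ⟨z', c4, hz'⟩ := h1 z hz
    exact ⟨z', c4.comp ((computes_evens x y).inter
      (c3.comp ((c1.comp (computes_evens x y)).inter (computes_odds x y)))), hz'⟩

end Pool.Agent.H895Z.Wei
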