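import Mathlib
import Pool.Agent.H895Z.WDefs
import Pool.Agent.H895Z.WTrans
import Pool.Agent.Helper539.SPForcing

set_option autoImplicit false

namespace Pool.Agent.H895Z.Wei

open Pool.Agent.Helper539.SPForcing

/-- problems are preordered by Weihrauch reducibility -/
instance : Preorder Problem where
  le := WLE
  le_refl := WLE.refl
  le_trans := fun _ _ _ => WLE.trans

/-- the partial order of the Weihrauch degrees -/
abbrev Degree : Type := Antisymmetrization Problem (· ≤ ·)

/-- The principle: `|X| = 𝔠` (some family of subsets of `ℕ` indexed by `X` contains all subsets of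
`ℕ`, and some such family is injective), `|Z| ≤ 2 ^ |X|` (there is an injective family of subsets
of `X` indexed by `Z`), and no injective family of subsets of `X` indexed by `Z` is a chain for
inclusion. -/
def Principle (X Z : Type) : Prop :=
  (∃ E : X → Set ℕ, ∀ τ : Set ℕ, ∃ x, τ = E x) ∧
  (∃ E : X → Set ℕ, Function.Injective E) ∧
  (∃ S : Z → Set X, Function.Injective S) ∧
  ¬ ∃ C : Z → Set X, Function.Injective C ∧ ∀ z z', C z ⊆ C z' ∨ C z' ⊆ C z

section

variable {P : Type} [Preorder P]

/-- the subset of `X` named by `A` is contained in the one named by `B` -/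
def FSub {X : Type} (A B : X → Set P) : Set P :=
  fall fun x => fimp (meets (A x)) (meets (B x))

/-- the subsets of `X` named by `A` and `B` are equal -/
def FEq {X : Type} (A B : X → Set P) : Set P := fand (FSub A B) (FSub B A)

/-- the named family of subsets of `X`, indexed by `Z`, is injective -/
def FInj {X Z : Type} (C : Z → X → Set P) : Set P :=
  fall fun z => fall fun z' => fimp (FEq (C z) (C z')) (fground (z = z'))

/-- the named family of subsets of `X`, indexed by `Z`, contains all subsets of `X` -/
def FAll {X Z : Type} (C : Z → X → Set P) : Set P :=
  fall fun τ : X → Set P => fex fun z => FEq τ (C z)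

/-- the named family of subsets of `X`, indexed by `Z`, is a chain for inclusion -/
def FChain {X Z : Type} (C : Z → X → Set P) : Set P :=
  fall fun z => fall fun z' => for' (FSub (C z) (C z')) (FSub (C z') (C z))

end

/-- the set of the conditions of `P` which force `Principle X Z` -/
def FPrinciple (P : Type) [Preorder P] (X Z : Type) : Set P :=
  fand (fex fun E : X → ℕ → Set P => FAll E)
    (fand (fex fun E : X → ℕ → Set P => FInj E)
    (fand (fex fun S : Z → X → Set P => FInj S)
      (fnot (fex fun C : Z → X → Set P => fand (FInj C) (FChain C)))))

end Pool.Agent.H895Z.Wei
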