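import Mathlib
import Pool.Agent.H895Z.WDeg
import Pool.Agent.H895Z.WCond

set_option autoImplicit false

namespace Pool.Agent.H895Z.Wei

open Cardinal Pool.Agent.Helper539.SPForcing

theorem mem_FSub {P : Type} [Preorder P] {X : Type} {A B : X → Set P} {p : P} :
    p ∈ FSub A B ↔ ∀ x, ∀ q ≤ p, q ∈ meets (A x) → q ∈ meets (B x) := by
  simp only [FSub, mem_fall, mem_fimp]
  constructor
  · intro h x q hq hA
    exact (reg_meets _).dense (fun r hr =>
      h x r (hr.trans hq) ((reg_meets _).down hr hA))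
  · intro h x q hq hA
    exact ⟨q, le_rfl, h x q hq hA⟩

theorem mem_FInj {P : Type} [Preorder P] {X Z : Type} {C : Z → X → Set P} {p : P} :
    p ∈ FInj C ↔ ∀ z z', ∀ q ≤ p, q ∈ FSub (C z) (C z') → q ∈ FSub (C z') (C z) → z = z' := by
  simp only [FInj, mem_fall, mem_fimp, FEq, mem_fand, mem_fground]
  constructor
  · intro h z z' q hq h1 h2
    obtain ⟨r, -, hr⟩ := h z z' q hq ⟨h1, h2⟩
    exact hr
  · intro h z z' q hq h1
    exact ⟨q, le_rfl, h z z' q hq h1.1 h1.2⟩

theorem down_FSub {P : Type} [Preorder P] {X : Type} (A B : X → Set P) : Down (FSub A B) :=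
  down_fall fun _ => down_fimp _ _

theorem down_FEq {P : Type} [Preorder P] {X : Type} (A B : X → Set P) : Down (FEq A B) :=
  down_fand (down_FSub _ _) (down_FSub _ _)

theorem down_FInj {P : Type} [Preorder P] {X Z : Type} (C : Z → X → Set P) : Down (FInj C) :=
  down_fall fun _ => down_fall fun _ => down_fimp _ _

theorem down_FAll {P : Type} [Preorder P] {X Z : Type} (C : Z → X → Set P) : Down (FAll C) :=
  down_fall fun _ => down_fex _

theorem down_FChain {P : Type} [Preorder P] {X Z : Type} (C : Z → X → Set P) :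
    Down (FChain C) := down_fall fun _ => down_fall fun _ => down_for _ _

variable {J : Type} {R : Set J} {X Z : Type}

/-- the conditions forcing that `x` lies in each member of the family containing `y` -/
def Le (C : Z → X → Set (Cond J R)) (x y : X) : Set (Cond J R) :=
  {s | ∀ z, ∀ q ≤ s, q ∈ meets (C z y) → q ∈ meets (C z x)}

theorem reg_Le (C : Z → X → Set (Cond J R)) (x y : X) : Reg (Le C x y) := by
  refine ⟨fun h hp z q hq => hp z q (hq.trans h), fun {p} h z q hq hy => ?_⟩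
  refine (reg_meets _).dense (fun r hr => ?_)
  obtain ⟨s, hs, h1⟩ := h r (hr.trans hq)
  exact ⟨s, hs, h1 z s le_rfl ((reg_meets _).down (hs.trans hr) hy)⟩

theorem Le_total {C : Z → X → Set (Cond J R)} {p : Cond J R} (hp : p ∈ FChain C) (x y : X)
    {q : Cond J R} (hq : q ≤ p) : ∃ r ≤ q, r ∈ Le C x y ∨ r ∈ Le C y x := by
  by_cases h : q ∈ Le C x y
  · exact ⟨q, le_rfl, Or.inl h⟩
  simp only [Le, Set.mem_ofPred_eq, not_forall] at h
  obtain ⟨z, q1, h1, h2, h3⟩ := h
  obtain ⟨q2, h4, h5⟩ := (reg_meets _).exists_not h3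
  refine ⟨q2, h4.trans h1, Or.inr fun z' q3 h6 h7 => ?_⟩
  refine (reg_meets _).dense (fun q4 h8 => ?_)
  obtain ⟨r, hr, h9⟩ := mem_for.1 (hp z z') q4 (h8.trans (h6.trans (h4.trans (h1.trans hq))))
  rcases h9 with h9 | h9
  · exact ⟨r, hr, mem_FSub.1 h9 y r le_rfl
      ((reg_meets _).down (hr.trans (h8.trans (h6.trans h4))) h2)⟩
  · exact absurd (mem_FSub.1 h9 x r le_rfl ((reg_meets _).down (hr.trans h8) h7))
      (h5 r (hr.trans (h8.trans h6)))

/-- agreement on a set of coordinates -/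
def Agree (A : Set J) (s s' : Cond J R) : Prop := ∀ j ∈ A, s.f j = s'.f j

theorem compat_res {A : Set J} {s s' t' : Cond J R} (h : Agree A s s') (ht : t' ≤ s') :
    Compat s.f (t'.res A).f := by
  intro j a b h1 h2
  obtain ⟨hj, h2⟩ := res_some.1 h2
  have := ht j a (by rw [← h j hj, h1])
  simpa using this.symm.trans h2

theorem agree_union_res {A : Set J} {s s' t' : Cond J R} (h : Agree A s s') (ht : t' ≤ s') :
    Agree A (s.union (t'.res A)) t' := by
  intro j hj
  cases h1 : t'.f j with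
  | some b => exact union_le_right (compat_res h ht) j b (res_some.2 ⟨hj, h1⟩)
  | none =>
    simp only [Cond.union, res_of_mem _ hj, h1, Option.or_none]
    cases h2 : s.f j with
    | none => rfl
    | some a =>
      have := ht j a (by rw [← h j hj, h2])
      rw [h1] at this
      cases this

theorem transfer {A : Set J} {U B : Set (Cond J R)} (hU : Reg U) (hBU : B ⊆ U)
    (hB : ∀ s ∈ U, ∃ b ∈ B, Compat s.f b.f) (hA : ∀ b ∈ B, supp b.f ⊆ A) {s s' : Cond J R}
    (hs : s ∈ U) (h : Agree A s s') : s' ∈ U := by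
  refine hU.dense (fun t' ht => ?_)
  obtain ⟨b, hb, hc⟩ := hB _ (hU.down (union_le_left s (t'.res A)) hs)
  have : Compat t'.f b.f := by
    intro j a c h1 h2
    have hj := hA b hb (mem_supp_of_some h2)
    exact hc j a c (by rw [agree_union_res h ht j hj, h1]) h2
  exact ⟨t'.union b, union_le_left _ _, hU.down (union_le_right this) (hBU hb)⟩

theorem eq_of_predense {U U' B : Set (Cond J R)} (hU' : Reg U') (hU : Reg U) (hBU : B ⊆ U')
    (hB : ∀ s ∈ U, ∃ b ∈ B, Compat s.f b.f) {s : Cond J R} (hs : s ∈ U) : s ∈ U' := by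
  refine hU'.dense (fun t ht => ?_)
  obtain ⟨b, hb, hc⟩ := hB t (hU.down ht hs)
  exact ⟨t.union b, union_le_left _ _, hU'.down (union_le_right hc) (hBU hb)⟩

variable [LinearOrder X]

/-- `q` forces that the part of `C z` below `α` is cofinal in `C z` -/
def Case1 (C : Z → X → Set (Cond J R)) (z : Z) (q : Cond J R) (α : X) : Prop :=
  ∀ x, ∀ r ≤ q, r ∈ meets (C z x) → ∃ r' ≤ r, ∃ y < α, r' ∈ meets (C z y) ∧ r' ∈ Le C x y

/-- below `q` the set `C z` only depends on the coordinates in `A` -/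
def Det (A : Set J) (C : Z → X → Set (Cond J R)) (z : Z) (q : Cond J R) : Prop :=
  ∀ x, ∀ r ≤ q, ∀ r' ≤ q, Agree A r r' → r ∈ meets (C z x) → r' ∈ meets (C z x)

theorem det_of_not_case1 (hX : Good X) {C : Z → X → Set (Cond J R)} {p : Cond J R}
    (hp : p ∈ FChain C) {A : Set J}
    (hA : ∀ x y (s s' : Cond J R), s ∈ Le C x y → Agree A s s' → s' ∈ Le C x y) (z : Z)
    (h : ¬ ∃ q ≤ p, ∃ α, Case1 C z q α) : ∃ q ≤ p, Det A C z q := by
  by_contra hc
  have h1 : ∀ α : X, ∃ x, ∃ q ≤ p, q ∈ meets (C z x) ∧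
      ∀ r ≤ q, ∀ y < α, r ∈ meets (C z y) → r ∈ Le C y x := by
    intro α
    have : ¬ Case1 C z p α := fun h' => h ⟨p, le_rfl, α, h'⟩
    unfold Case1 at this
    push Not at this
    obtain ⟨x, q, hq, h2, h3⟩ := this
    refine ⟨x, q, hq, h2, fun r hr y hy h4 => ?_⟩
    refine (reg_Le C y x).dense (fun r1 h5 => ?_)
    obtain ⟨r2, h6, h7⟩ := Le_total hp x y (h5.trans (hr.trans hq))
    rcases h7 with h7 | h7
    · exact absurd h7 (h3 r2 (h6.trans (h5.trans hr)) y hy ((reg_meets _).down (h6.trans h5) h4))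
    · exact ⟨r2, h6, h7⟩
  choose x q hq hx h1 using h1
  have h2 : ∀ α : X, ∃ w, ∃ r ≤ q α, ∃ r' ≤ q α, Agree A r r' ∧ r ∈ meets (C z w) ∧
      ∀ s ≤ r', s ∉ meets (C z w) := by
    intro α
    have : ¬ Det A C z (q α) := fun h' => hc ⟨q α, hq α, h'⟩
    unfold Det at this
    push Not at this
    obtain ⟨w, r, hr, r', hr', h3, h4, h5⟩ := this
    obtain ⟨r'', h6, h7⟩ := (reg_meets _).exists_not h5
    exact ⟨w, r.union (r''.res A), (union_le_left _ _).trans hr, r'', h6.trans hr',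
      agree_union_res h3 h6, (reg_meets _).down (union_le_left _ _) h4, h7⟩
  choose w r hr r' hr' hag hw hnw using h2
  obtain ⟨i, j, hij, hcomp⟩ := hX.knaster (J := J ⊕ J)
    (fun α => Sum.elim (r α).f (r' α).f) (fun α => by
      refine (((r α).cnt.image Sum.inl).union ((r' α).cnt.image Sum.inr)).mono ?_
      rintro (a | a) ha
      · exact Or.inl ⟨a, ha, rfl⟩
      · exact Or.inr ⟨a, ha, rfl⟩) w
  have c1 : Compat (r i).f (r j).f := fun a => hcomp (Sum.inl a)
  have c2 : Compat (r' i).f (r' j).f := fun a => hcomp (Sum.inr a)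
  have h3 : Agree A ((r i).union (r j)) ((r' i).union (r' j)) := by
    intro a ha
    simp only [Cond.union, hag i a ha, hag j a ha]
  have h4 : (r i).union (r j) ∈ Le C (w i) (x j) :=
    h1 j _ ((union_le_right c1).trans (hr j)) (w i) hij
      ((reg_meets _).down (union_le_left _ _) (hw i))
  have h5 := hA _ _ _ _ h4 h3
  exact hnw i _ (union_le_left _ _) (h5 z _ le_rfl
    ((reg_meets _).down ((union_le_right c2).trans (hr' j)) (hx j)))

theorem mk_Cond_le : #(Cond J R) ≤ #{s : Set (J × Bool) // #s ≤ 𝔠} := by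
  refine mk_le_of_injective (f := fun p : Cond J R =>
    (⟨{a | p.f a.1 = some a.2}, ?_⟩ : {s : Set (J × Bool) // #s ≤ 𝔠})) ?_
  · refine le_trans (le_aleph0_iff_set_countable.2 ?_) aleph0_le_continuum
    exact (p.cnt.prod (Set.countable_univ (α := Bool))).mono
      (fun a ha => Set.mk_mem_prod (mem_supp_of_some ha) (Set.mem_univ _))
  · intro p q h
    have h1 : {a : J × Bool | p.f a.1 = some a.2} = {a | q.f a.1 = some a.2} :=
      congrArg Subtype.val h
    ext j b
    exact Set.ext_iff.1 h1 (j, b)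

/-- no condition forces an injective chain indexed by a set of size larger than `μ` -/
theorem no_chain (hX : Good X) (μ : Cardinal.{0}) (hJ : #J ≤ μ)
    (hμc : ∀ α : Type, #α ≤ μ → #{s : Set α // #s ≤ 𝔠} ≤ μ) (hμ2 : (2 : Cardinal.{0}) ^ ((2 : Cardinal.{0}) ^ #X) ≤ μ)
    (hZ : μ < #Z) {C : Z → X → Set (Cond J R)} {p : Cond J R} (hinj : p ∈ FInj C)
    (hp : p ∈ FChain C) : False := by
  classical
  have hX0 : ℵ₀ ≤ #X := aleph0_le_continuum.trans hX.lt.le
  have hXμ : #X ≤ μ := (cantor _).le.trans ((cantor _).le.trans hμ2)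
  have hμ0 : ℵ₀ ≤ μ := hX0.trans hXμ
  have hmul : ∀ {a b : Cardinal.{0}}, a ≤ μ → b ≤ μ → a * b ≤ μ := fun ha hb =>
    (mul_le_mul' ha hb).trans (mul_eq_self hμ0).le
  have hP : #(Cond J R) ≤ μ := by
    refine mk_Cond_le.trans (hμc _ ?_)
    rw [mk_prod, lift_id, lift_id]
    exact hmul hJ ((mk_le_aleph0).trans hμ0)
  choose B hBU hBc hB using fun (xy : X × X) => hX.predense (Le C xy.1 xy.2)
  let A : Set J := ⋃ xy : X × X, ⋃ b : B xy, supp b.1.f
  have hA : ∀ x y (s s' : Cond J R), s ∈ Le C x y → Agree A s s' → s' ∈ Le C x y :=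
    fun x y s s' hs h => transfer (reg_Le C x y) (hBU (x, y)) (hB (x, y))
      (fun b hb j hj => Set.mem_iUnion.2 ⟨(x, y), Set.mem_iUnion.2 ⟨⟨b, hb⟩, hj⟩⟩) hs h
  have hAc : #A ≤ #X := by
    refine (mk_iUnion_le _).trans ?_
    have h1 : #(X × X) = #X := by simp [mul_eq_self hX0]
    rw [h1]
    refine le_trans (mul_le_mul_right ?_ _) (mul_eq_self hX0).le
    refine ciSup_le' (fun xy => (mk_iUnion_le _).trans ?_)
    refine le_trans (mul_le_mul' ((hBc xy).trans hX.lt.le) ?_) (mul_eq_self hX0).le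
    exact ciSup_le' (fun b => (le_aleph0_iff_set_countable.2 b.1.cnt).trans hX0)
  choose B' hBU' hBc' hB' using fun (z : Z) (y : X) => hX.predense (meets (C z y))
  let N : Z → X → Set (X × Cond J R) := fun z α => {a | a.1 < α ∧ a.2 ∈ B' z a.1}
  have hN : ∀ z α, #(N z α) ≤ 𝔠 := by
    intro z α
    have h1 : N z α ⊆ ⋃ y : Set.Iio α, (fun b => (y.1, b)) '' B' z y.1 := by
      rintro ⟨y, b⟩ ⟨h1, h2⟩
      exact Set.mem_iUnion.2 ⟨⟨y, h1⟩, b, h2, rfl⟩
    refine (mk_le_mk_of_subset h1).trans ((mk_iUnion_le _).trans ?_)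
    refine le_trans (mul_le_mul' (hX.iio α) ?_) continuum_mul_self.le
    exact ciSup_le' (fun y => mk_image_le.trans (hBc' z y))
  let T : Z → Cond J R → Set ((A → Option Bool) × X) := fun z q =>
    {a | ∃ r ≤ q, (fun j : A => r.f j.1) = a.1 ∧ r ∈ meets (C z a.2)}
  let Γ := (Cond J R × X × {s : Set (X × Cond J R) // #s ≤ 𝔠}) ⊕
    (Cond J R × Set ((A → Option Bool) × X))
  have hΓ : #Γ ≤ μ := by
    have h1 : #{s : Set (X × Cond J R) // #s ≤ 𝔠} ≤ μ := by
      refine hμc _ ?_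
      rw [mk_prod, lift_id, lift_id]
      exact hmul hXμ hP
    have h2 : #(Set ((A → Option Bool) × X)) ≤ μ := by
      rw [mk_set]
      refine le_trans (power_le_power_left two_ne_zero ?_) hμ2
      have h3 : #(A → Option Bool) ≤ 2 ^ #X := by
        rw [← power_def]
        calc #(Option Bool) ^ #A ≤ #X ^ #A := power_le_power_right (mk_le_aleph0.trans hX0)
          _ ≤ #X ^ #X := power_le_power_left (ne_of_gt (aleph0_pos.trans_le hX0)) hAc
          _ = 2 ^ #X := power_self_eq hX0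
      rw [mk_prod, lift_id, lift_id]
      exact (mul_le_mul' h3 (cantor _).le).trans (mul_eq_self (hX0.trans (cantor _).le)).le
    simp only [Γ, mk_sum, mk_prod, lift_id]
    refine le_trans (add_le_add (hmul hP (hmul hXμ h1)) (hmul hP h2)) (add_eq_self hμ0).le
  let V : Z → Γ → Prop := fun z γ =>
    match γ with
    | Sum.inl a => a.1 ≤ p ∧ Case1 C z a.1 a.2.1 ∧ a.2.2.1 = N z a.2.1
    | Sum.inr a => a.1 ≤ p ∧ Det A C z a.1 ∧ a.2 = T z a.1
  have hV : ∀ z, ∃ γ, V z γ := by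
    intro z
    by_cases h : ∃ q ≤ p, ∃ α, Case1 C z q α
    · obtain ⟨q, hq, α, h⟩ := h
      exact ⟨Sum.inl (q, α, ⟨N z α, hN z α⟩), hq, h, rfl⟩
    · obtain ⟨q, hq, h⟩ := det_of_not_case1 hX hp hA z h
      exact ⟨Sum.inr (q, T z q), hq, h, rfl⟩
  have hsub : ∀ z z' γ, V z γ → V z' γ →
      (Sum.elim (fun a => a.1) (fun a => a.1) γ : Cond J R) ∈ FSub (C z) (C z') := by
    rintro z z' (⟨q, α, s⟩ | ⟨q, s⟩) ⟨-, h1, h2⟩ ⟨-, h3, h4⟩
    · refine mem_FSub.2 (fun x r hr hx => (reg_meets _).dense (fun r1 h5 => ?_))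
      obtain ⟨r', h6, y, hy, h7, h8⟩ := h1 x r1 (h5.trans hr) ((reg_meets _).down h5 hx)
      refine ⟨r', h6, h8 z' r' le_rfl ?_⟩
      refine eq_of_predense (reg_meets _) (reg_meets _) (B := B' z y) (fun b hb => ?_)
        (hB' z y) h7
      have h9 : (y, b) ∈ N z' α := by
        rw [← h4, h2]
        exact ⟨hy, hb⟩
      exact hBU' z' y h9.2
    · refine mem_FSub.2 (fun x r hr hx => ?_)
      have h5 : ((fun j : A => r.f j.1), x) ∈ T z' q := by
        have h6 : T z' q = T z q := h4.symm.trans h2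
        rw [h6]
        exact ⟨r, hr, rfl, hx⟩
      obtain ⟨r', h6, h7, h8⟩ := h5
      exact h3 x r' h6 r hr (fun j hj => congrFun h7 ⟨j, hj⟩) h8
  choose γ hγ using hV
  have hγinj : Function.Injective γ := by
    intro z z' h
    have h1 := hγ z'
    rw [← h] at h1
    refine mem_FInj.1 hinj z z' _ ?_ (hsub z z' _ (hγ z) h1) (hsub z' z _ h1 (hγ z))
    have := hγ z
    rcases hg : γ z with a | a
    · rw [hg] at this; exact this.1
    · rw [hg] at this; exact this.1
  exact absurd ((mk_le_of_injective hγinj).trans hΓ) (not_le.2 hZ)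

end Pool.Agent.H895Z.Wei
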