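import Mathlib
import Pool.Agent.H895Z.WChain

set_option autoImplicit false

namespace Pool.Agent.H895Z.Wei

open Cardinal Pool.Agent.Helper539.SPForcing

variable {J : Type} {R : Set J}

theorem exists_chain {α : Type} (S : α → α → Prop) (h : ∀ a, ∃ b, S a b) (a : α) :
    ∃ f : ℕ → α, f 0 = a ∧ ∀ k, S (f k) (f (k + 1)) := by
  choose g hg using h
  exact ⟨fun k => g^[k] a, rfl, fun k => by
    simp only [Function.iterate_succ_apply']
    exact hg _⟩

/-- conditions with no value on `R` -/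
def IsQ (q : Cond J R) : Prop := ∀ j ∈ R, q.f j = none

theorem exists_lower (q : ℕ → Cond J R) (hQ : ∀ k, IsQ (q k)) (h : ∀ k, q (k + 1) ≤ q k) :
    ∃ r : Cond J R, IsQ r ∧ ∀ k, r ≤ q k := by
  classical
  have hanti : Antitone q := antitone_nat_of_succ_le h
  let f : J → Option Bool := fun j =>
    if hj : ∃ k, (q k).f j ≠ none then (q hj.choose).f j else none
  have hf : ∀ j, f j ≠ none → ∃ k, (q k).f j ≠ none := by
    intro j hj
    by_contra hc
    exact hj (by simp only [f, dif_neg hc])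
  have hR : ∀ j ∈ R, f j = none := by
    intro j hj
    by_contra hc
    obtain ⟨k, hk⟩ := hf j hc
    exact hk (hQ k j hj)
  refine ⟨⟨f, ?_, ?_⟩, hR, fun k j b hj => ?_⟩
  · exact (Set.countable_iUnion (fun k => (q k).cnt)).mono
      (fun j hj => Set.mem_iUnion.2 (hf j hj))
  · exact Set.finite_empty.subset (fun j hj => hj.1 (hR j hj.2))
  · have hj' : ∃ k, (q k).f j ≠ none := ⟨k, by simp [hj]⟩
    simp only [f, dif_pos hj']
    rcases le_total k hj'.choose with h1 | h1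
    · exact hanti h1 j b hj
    · obtain ⟨c, hc⟩ := Option.ne_none_iff_exists'.1 hj'.choose_spec
      have := hanti h1 j c hc
      rw [hc, ← this, hj]

theorem baire {I : Type} [Countable I] (D : I → Cond J R → Prop)
    (hopen : ∀ i q q', q' ≤ q → D i q → D i q')
    (hdense : ∀ i q, IsQ q → ∃ q' ≤ q, IsQ q' ∧ D i q') (q : Cond J R) (hq : IsQ q) :
    ∃ q' ≤ q, IsQ q' ∧ ∀ i, D i q' := by
  rcases isEmpty_or_nonempty I with hI | hI
  · exact ⟨q, le_rfl, hq, fun i => hI.elim i⟩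
  obtain ⟨e, he⟩ := exists_surjective_nat I
  obtain ⟨f, f0, hf⟩ := exists_chain (α := ℕ × {q : Cond J R // IsQ q})
    (fun a b => b.1 = a.1 + 1 ∧ b.2.1 ≤ a.2.1 ∧ D (e a.1) b.2.1) (fun a => by
      obtain ⟨q', h1, h2, h3⟩ := hdense (e a.1) a.2.1 a.2.2
      exact ⟨(a.1 + 1, ⟨q', h2⟩), rfl, h1, h3⟩) (0, ⟨q, hq⟩)
  have h1 : ∀ k, (f k).1 = k := by
    intro k
    induction k with
    | zero => rw [f0]
    | succ k ih => rw [(hf k).1, ih]
  obtain ⟨r, hr, h2⟩ := exists_lower (fun k => (f k).2.1) (fun k => (f k).2.2)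
    (fun k => (hf k).2.1)
  refine ⟨r, ?_, hr, fun i => ?_⟩
  · have := h2 0
    simp only [f0] at this
    exact this
  · obtain ⟨k, rfl⟩ := he i
    have := (hf k).2.2
    rw [h1] at this
    exact hopen _ _ _ (h2 (k + 1)) this

/-- the pair `q`, `c` decides whether the generic filter meets `U` -/
def Dec (U : Set (Cond J R)) (q c : Cond J R) : Prop :=
  (∀ r ≤ q, r ≤ c → r ∈ U) ∨ (∀ r ≤ q, r ≤ c → r ∉ U)

theorem dec_step {U : Set (Cond J R)} (hU : Reg U) (q c : Cond J R) (hq : IsQ q)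
    (hc : supp c.f ⊆ R) : ∃ q' ≤ q, IsQ q' ∧ ∃ c' ≤ c, supp c'.f ⊆ R ∧ Dec U q' c' := by
  have hcomp : Compat q.f c.f := by
    intro j a b h1 h2
    rw [hq j (hc (mem_supp_of_some h2))] at h1
    cases h1
  have key : ∀ r ≤ q.union c, r.res Rᶜ ≤ q ∧ IsQ (r.res Rᶜ) ∧ r.res R ≤ c ∧
      ∀ s ≤ r.res Rᶜ, s ≤ r.res R → s ≤ r := by
    intro r hr
    refine ⟨fun j b hj => res_some.2 ⟨fun hR => ?_, (hr.trans (union_le_left _ _)) j b hj⟩,
      fun j hj => res_of_notMem _ (fun h => h hj),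
      fun j b hj => res_some.2 ⟨hc (mem_supp_of_some hj), (hr.trans (union_le_right hcomp)) j b hj⟩,
      fun s h1 h2 j b hj => ?_⟩
    · rw [hq j hR] at hj
      cases hj
    · by_cases hR : j ∈ R
      · exact h2 j b (res_some.2 ⟨hR, hj⟩)
      · exact h1 j b (res_some.2 ⟨hR, hj⟩)
  by_cases h : q.union c ∈ U
  · obtain ⟨h1, h2, h3, h4⟩ := key _ le_rfl
    exact ⟨_, h1, h2, _, h3, supp_res _ _, Or.inl (fun s h5 h6 => hU.down (h4 s h5 h6) h)⟩
  · obtain ⟨r, hr, h⟩ := hU.exists_not h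
    obtain ⟨h1, h2, h3, h4⟩ := key r hr
    exact ⟨_, h1, h2, _, h3, supp_res _ _, Or.inr (fun s h5 h6 => h s (h4 s h5 h6))⟩

/-- the graph of a condition -/
def graph (c : Cond J R) : Set (J × Bool) := {a | c.f a.1 = some a.2}

theorem graph_injective : Function.Injective (graph : Cond J R → Set (J × Bool)) := by
  intro p q h
  ext j b
  exact Set.ext_iff.1 h (j, b)

theorem graph_finite {c : Cond J R} (hc : supp c.f ⊆ R) : (graph c).Finite :=
  (c.fin.prod (Set.finite_univ (α := Bool))).subset (fun _ ha =>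
    Set.mk_mem_prod ⟨mem_supp_of_some ha, hc (mem_supp_of_some ha)⟩ (Set.mem_univ _))

theorem countable_conds {S : Set J} (hS : S.Countable) (hR : S ⊆ R) :
    {c : Cond J R | supp c.f ⊆ S}.Countable := by
  have h1 := Set.countable_setOf_finite_subset (hS.prod (Set.countable_univ (α := Bool)))
  refine (h1.preimage_of_injOn (f := graph) graph_injective.injOn).mono (fun c hc => ?_)
  exact ⟨graph_finite (hc.trans hR), fun a ha =>
    Set.mk_mem_prod (hc (mem_supp_of_some ha)) (Set.mem_univ _)⟩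

theorem level (U : ℕ → Set (Cond J R)) (hU : ∀ n, Reg (U n)) (q : Cond J R) (hq : IsQ q)
    (S : Set J) (hS : S.Countable) (hR : S ⊆ R) :
    ∃ q' ≤ q, IsQ q' ∧ ∃ S' : Set J, S'.Countable ∧ S' ⊆ R ∧ S ⊆ S' ∧
      ∀ c : Cond J R, supp c.f ⊆ S → ∀ n, ∃ c' ≤ c, supp c'.f ⊆ S' ∧ Dec (U n) q' c' := by
  have : Countable {c : Cond J R | supp c.f ⊆ S} := countable_conds hS hR
  obtain ⟨q', h1, h2, h3⟩ := baire (I := {c : Cond J R | supp c.f ⊆ S} × ℕ)
    (fun i q => ∃ c' ≤ i.1.1, supp c'.f ⊆ R ∧ Dec (U i.2) q c')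
    (fun i q q' h ⟨c', h1, h2, h3⟩ => ⟨c', h1, h2, h3.imp
      (fun h4 r hr => h4 r (hr.trans h)) (fun h4 r hr => h4 r (hr.trans h))⟩)
    (fun i q hq => dec_step (hU i.2) q i.1.1 hq (Set.Subset.trans i.1.2 hR)) q hq
  choose c' h3 h4 h5 using h3
  refine ⟨q', h1, h2, S ∪ ⋃ i, supp (c' i).f,
    hS.union (Set.countable_iUnion (fun i => (c' i).cnt)),
    Set.union_subset hR (Set.iUnion_subset h4), Set.subset_union_left, fun c hc n => ?_⟩
  exact ⟨c' (⟨c, hc⟩, n), h3 _, Set.subset_union_of_subset_right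
    (Set.subset_iUnion (fun i => supp (c' i).f) _) _, h5 _⟩

theorem closure (U : ℕ → Set (Cond J R)) (hU : ∀ n, Reg (U n)) (q : Cond J R) (hq : IsQ q) :
    ∃ q' ≤ q, IsQ q' ∧ ∃ S : Set J, S.Countable ∧ S ⊆ R ∧
      ∀ c : Cond J R, supp c.f ⊆ S → ∀ n, ∃ c' ≤ c, supp c'.f ⊆ S ∧ Dec (U n) q' c' := by
  obtain ⟨f, f0, hf⟩ := exists_chain
    (α := {q : Cond J R // IsQ q} × {S : Set J // S.Countable ∧ S ⊆ R})
    (fun a b => b.1.1 ≤ a.1.1 ∧ a.2.1 ⊆ b.2.1 ∧ ∀ c : Cond J R, supp c.f ⊆ a.2.1 →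
      ∀ n, ∃ c' ≤ c, supp c'.f ⊆ b.2.1 ∧ Dec (U n) b.1.1 c') (fun a => by
      obtain ⟨q', h1, h2, S', h3, h4, h5, h6⟩ := level U hU a.1.1 a.1.2 a.2.1 a.2.2.1 a.2.2.2
      exact ⟨(⟨q', h2⟩, ⟨S', h3, h4⟩), h1, h5, h6⟩)
    (⟨q, hq⟩, ⟨∅, Set.countable_empty, Set.empty_subset _⟩)
  obtain ⟨r, hrQ, h2⟩ := exists_lower (fun k => (f k).1.1) (fun k => (f k).1.2) (fun k => (hf k).1)
  have hmono : Monotone (fun k => (f k).2.1) := monotone_nat_of_le_succ (fun k => (hf k).2.1)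
  have hR : (⋃ k, (f k).2.1) ⊆ R := Set.iUnion_subset (fun k => (f k).2.2.2)
  refine ⟨r, ?_, hrQ, ⋃ k, (f k).2.1, Set.countable_iUnion (fun k => (f k).2.2.1), hR,
    fun c hc n => ?_⟩
  · have := h2 0
    simp only [f0] at this
    exact this
  · have hfin : (supp c.f).Finite := c.fin.subset (fun j hj => ⟨hj, hR (hc hj)⟩)
    obtain ⟨k, hk⟩ : ∃ k, supp c.f ⊆ (f k).2.1 := by
      have h3 : ∀ j : supp c.f, ∃ k, j.1 ∈ (f k).2.1 := fun j => Set.mem_iUnion.1 (hc j.2)
      choose k hk using h3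
      have : Finite (supp c.f) := hfin
      obtain ⟨K, hK⟩ := (Set.finite_range k).bddAbove
      exact ⟨K, fun j hj => hmono (hK ⟨⟨j, hj⟩, rfl⟩) (hk ⟨j, hj⟩)⟩
    obtain ⟨c', h3, h4, h5⟩ := (hf k).2.2 c hk n
    exact ⟨c', h3, h4.trans (Set.subset_iUnion (fun k => (f k).2.1) (k + 1)), h5.imp
      (fun h r' hr => h r' (hr.trans (h2 (k + 1)))) (fun h r' hr => h r' (hr.trans (h2 (k + 1))))⟩

/-- the names for subsets of `ℕ` which only use the finite part of the forcing -/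
def Name (J : Type) (R : Set J) : Type :=
  ℕ → {B : Set {c : Cond J R // supp c.f ⊆ R} // #B ≤ ℵ₀}

/-- the name itself -/
def Name.val (ν : Name J R) (n : ℕ) : Set (Cond J R) := Subtype.val '' (ν n).1

theorem exists_name (τ : ℕ → Set (Cond J R)) (p : Cond J R) :
    ∃ q ≤ p, ∃ ν : Name J R, q ∈ FEq τ ν.val := by
  obtain ⟨q, hq, hQ, S, hS, hR, h⟩ := closure (fun n => meets (τ n)) (fun n => reg_meets _)
    (p.res Rᶜ) (fun j hj => res_of_notMem _ (fun h => h hj))
  have hcomp : Compat q.f (p.res R).f := by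
    intro j a b h1 h2
    rw [hQ j (res_some.1 h2).1] at h1
    cases h1
  let ν : Name J R := fun n => ⟨{c | supp c.1.f ⊆ S ∧ ∀ r ≤ q, r ≤ c.1 → r ∈ meets (τ n)},
    le_aleph0_iff_set_countable.2
      (((countable_conds hS hR).preimage_of_injOn Subtype.val_injective.injOn).mono
        (fun c hc => hc.1))⟩
  refine ⟨q.union (p.res R), fun j b hj => ?_, ν, mem_FSub.2 ?_, mem_FSub.2 ?_⟩
  · by_cases hj' : j ∈ R
    · exact union_le_right hcomp j b (res_some.2 ⟨hj', hj⟩)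
    · exact ((union_le_left _ _).trans hq) j b (res_some.2 ⟨hj', hj⟩)
  · intro n r hr hτ r1 h1
    obtain ⟨c', h2, h3, h4⟩ := h (r1.res S) (supp_res _ _) n
    have hc : Compat r1.f c'.f := by
      intro j a b h5 h6
      have := h2 j a (res_some.2 ⟨h3 (mem_supp_of_some h6), h5⟩)
      simpa using this.symm.trans h6
    have h5 : r1.union c' ≤ q := (union_le_left _ _).trans (h1.trans (hr.trans (union_le_left _ _)))
    rcases h4 with h4 | h4
    · exact ⟨r1.union c', union_le_left _ _, c', ⟨⟨c', h3.trans hR⟩, ⟨h3, h4⟩, rfl⟩,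
        union_le_right hc⟩
    · exact absurd ((reg_meets _).down ((union_le_left _ _).trans h1) hτ)
        (h4 _ h5 (union_le_right hc))
  · intro n r hr hν
    refine (reg_meets _).dense (fun r1 h1 => ?_)
    obtain ⟨r2, h2, _, ⟨c, hc, rfl⟩, h3⟩ := hν r1 h1
    exact ⟨r2, h2, hc.2 r2 (h2.trans (h1.trans (hr.trans (union_le_left _ _)))) h3⟩

theorem mk_Name_le (κ : Cardinal.{0}) (h0 : ℵ₀ ≤ κ) (hκ : κ ^ ℵ₀ ≤ κ) (hR : #R ≤ κ) :
    #(Name J R) ≤ κ := by
  have h1 : #{c : Cond J R // supp c.f ⊆ R} ≤ κ := by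
    have h2 : #{c : Cond J R // supp c.f ⊆ R} ≤ #{s : Set (R × Bool) // #s ≤ ℵ₀} := by
      refine mk_le_of_injective (f := fun c =>
        (⟨{a | c.1.f a.1.1 = some a.2}, ?_⟩ : {s : Set (R × Bool) // #s ≤ ℵ₀})) ?_
      · refine le_aleph0_iff_set_countable.2 ?_
        exact ((c.1.cnt.preimage_of_injOn (f := fun a : R => a.1)
          Subtype.val_injective.injOn).prod (Set.countable_univ (α := Bool))).mono
          (fun a ha => Set.mk_mem_prod (mem_supp_of_some (f := c.1.f) ha) (Set.mem_univ _))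
      · intro c c' h
        have h3 : {a : R × Bool | c.1.f a.1.1 = some a.2} = {a | c'.1.f a.1.1 = some a.2} :=
          congrArg Subtype.val h
        apply Subtype.ext
        ext j b
        constructor
        · intro hj
          exact (Set.ext_iff.1 h3 (⟨j, c.2 (mem_supp_of_some hj)⟩, b)).1 hj
        · intro hj
          exact (Set.ext_iff.1 h3 (⟨j, c'.2 (mem_supp_of_some hj)⟩, b)).2 hj
    refine h2.trans ((mk_bounded_set_le _ _).trans (le_trans (power_le_power_right ?_) hκ))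
    refine max_le ?_ h0
    rw [mk_prod, lift_id, lift_id]
    exact (mul_le_mul' hR (mk_le_aleph0.trans h0)).trans (mul_eq_self h0).le
  have h2 : #{B : Set {c : Cond J R // supp c.f ⊆ R} // #B ≤ ℵ₀} ≤ κ :=
    (mk_bounded_set_le _ _).trans (le_trans (power_le_power_right (max_le h1 h0)) hκ)
  unfold Name
  rw [← power_def, mk_nat]
  exact (power_le_power_right h2).trans hκ

/-! ### the cardinals -/

/-- the well order of type `𝔠⁺` -/
abbrev XX : Type := (Order.succ 𝔠 : Cardinal.{0}).ord.ToType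

theorem mk_XX : #XX = Order.succ 𝔠 := mk_ord_toType _

theorem good_XX : Good XX := by
  refine ⟨fun S hS => ?_, fun a => ?_, ?_, fun c hc => ?_⟩
  · rw [← not_isCofinal_iff]
    intro h
    have h1 := Order.cof_le h
    rw [Ordinal.cof_toType, (isRegular_succ aleph0_le_continuum).cof_ord] at h1
    exact absurd (h1.trans hS) (not_le.2 (Order.lt_succ _))
  · have := mk_Iio_lt a (by simp)
    rw [mk_XX] at this
    exact Order.lt_succ_iff.1 this
  · rw [mk_XX]
    exact Order.succ_le_of_lt (cantor _)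
  · rw [mk_XX] at hc
    exact Order.lt_succ_iff.1 hc

theorem Good.power {X : Type} [LinearOrder X] (hX : Good X) : #X ^ ℵ₀ ≤ #X := by
  have h1 : ∀ g : ℕ → X, ∃ a, ∀ n, g n < a := by
    intro g
    obtain ⟨a, ha⟩ := hX.bdd (Set.range g) (mk_range_le.trans (by simp [aleph0_le_continuum]))
    exact ⟨a, fun n => ha _ ⟨n, rfl⟩⟩
  choose a ha using h1
  have h2 : #(ℕ → X) ≤ #(Σ a : X, (ℕ → Set.Iio a)) := by
    refine mk_le_of_surjective (f := fun s : (Σ a : X, (ℕ → Set.Iio a)) => fun n => (s.2 n).1) ?_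
    intro g
    exact ⟨⟨a g, fun n => ⟨g n, ha g n⟩⟩, rfl⟩
  rw [← power_def, mk_nat] at h2
  refine h2.trans ?_
  rw [mk_sigma]
  refine (sum_le_mk_mul_iSup _).trans ?_
  refine le_trans (mul_le_mul_right (ciSup_le' (fun a => ?_)) _)
    (mul_eq_self (aleph0_le_continuum.trans hX.lt.le)).le
  rw [← power_def, mk_nat]
  refine le_trans (power_le_power_right (hX.iio a)) ?_
  rw [continuum_power_aleph0]
  exact hX.lt.le

theorem exists_mu : ∃ M : Type, (∀ α : Type, #α ≤ #M → #{s : Set α // #s ≤ 𝔠} ≤ #M) ∧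
    (2 : Cardinal.{0}) ^ ((2 : Cardinal.{0}) ^ #XX) ≤ #M ∧ #M < #(XX → M) := by
  let o : Ordinal.{0} := (Order.succ 𝔠 : Cardinal.{0}).ord
  have h0 : ℵ₀ ≤ (Order.succ 𝔠 : Cardinal.{0}) := aleph0_le_continuum.trans (Order.le_succ _)
  have ho : Order.IsSuccLimit o := isSuccLimit_ord h0
  let μ : Cardinal.{0} := ℶ_ o
  have hsl : IsStrongLimit μ := isStrongLimit_beth.2 ho.isSuccPrelimit
  have hcof : μ.ord.cof = Order.succ 𝔠 := by
    have := Ordinal.cof_map_of_isNormal (f := fun a => (ℶ_ a).ord)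
      (isNormal_ord.comp isNormal_beth) ho
    rw [this]
    exact (isRegular_succ aleph0_le_continuum).cof_ord
  have h1 : ℵ₀ < μ := by
    rw [← beth_zero]
    exact beth_lt_beth.2 ho.pos
  have h2 : #XX < μ := lt_of_le_of_lt good_XX.le
    (hsl.two_power_lt (by rw [← two_power_aleph0]; exact hsl.two_power_lt h1))
  refine ⟨μ.out, fun α hα => ?_, ?_, ?_⟩
  · obtain ⟨e⟩ := (le_def _ _).1 hα
    have h3 := mk_subset_mk_lt_cof (α := μ.out) (by rw [mk_out]; exact hsl.isStrongPrelimit)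
    rw [← h3]
    refine mk_le_of_injective (f := fun s => ⟨e '' s.1, ?_⟩) ?_
    · rw [mk_out, hcof]
      exact lt_of_le_of_lt (mk_image_le.trans s.2) (Order.lt_succ _)
    · intro s s' h
      exact Subtype.ext (Set.image_injective.2 e.injective (congrArg Subtype.val h))
  · rw [mk_out]
    exact (hsl.two_power_lt (hsl.two_power_lt h2)).le
  · rw [← power_def, mk_out, mk_XX, ← hcof]
    exact lt_power_cof_ord h1.le

theorem forcing_part : ∃ (P : Type) (_ : Preorder P) (X Z : Type), Nonempty P ∧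
    ∀ p : P, p ∈ FPrinciple P X Z := by
  obtain ⟨M, hM1, hM2, hM3⟩ := exists_mu
  have hX := good_XX
  have hX0 : ℵ₀ ≤ #XX := aleph0_le_continuum.trans hX.lt.le
  have hXM : #XX ≤ #M := (cantor _).le.trans ((cantor _).le.trans hM2)
  let J := (M × XX) ⊕ (XX × ℕ)
  let R : Set J := Set.range Sum.inr
  refine ⟨Cond J R, inferInstance, XX, XX → M, ⟨Cond.top J R⟩, fun p => ⟨?_, ?_, ?_, ?_⟩⟩
  · have h1 : #(Name J R) ≤ #XX := by
      refine mk_Name_le _ hX0 hX.power (mk_range_le.trans ?_)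
      rw [mk_prod, lift_id, lift_id, mk_nat]
      exact (mul_le_mul_right hX0 _).trans (mul_eq_self hX0).le
    obtain ⟨e⟩ := (le_def _ _).1 h1
    have : Nonempty (Name J R) := ⟨fun _ => ⟨∅, by simp⟩⟩
    refine mem_fex_of_mem (fun x => (Function.invFun e x).val) (down_FAll _) (fun τ => ?_)
    refine mem_fex.2 (fun q _ => ?_)
    obtain ⟨r, hr, ν, h⟩ := exists_name τ q
    refine ⟨r, hr, e ν, ?_⟩
    simp only [Function.leftInverse_invFun e.injective ν]
    exact h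
  · refine mem_fex_of_mem (fun x n => {p : Cond J R | p.f (Sum.inr (x, n)) = some true})
      (down_FInj _) (mem_FInj.2 (fun x x' q _ h _ => ?_))
    by_contra hne
    have h1 : ∀ y : XX, {n : ℕ | (Sum.inr (y, n) : J) ∈ supp q.f}.Finite := by
      intro y
      refine (q.fin.preimage (f := fun n : ℕ => (Sum.inr (y, n) : J)) ?_).subset
        (fun n hn => ⟨hn, _, rfl⟩)
      intro a _ b _ hab
      exact (Prod.mk.inj (Sum.inr.inj hab)).2
    obtain ⟨n, hn⟩ := ((h1 x).union (h1 x')).exists_notMem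
    obtain ⟨r, hr, h2, h3⟩ := coord_ne q (j := Sum.inr (x, n)) (j' := Sum.inr (x', n))
      (fun h => hne (Prod.mk.inj (Sum.inr.inj h)).1) (fun h => hn (Or.inl h)) (fun h => hn (Or.inr h))
    exact h3 r le_rfl (mem_FSub.1 h n r hr h2)
  · obtain ⟨e⟩ : Nonempty (XX ≃ XX × XX) := Cardinal.eq.1 (by
      rw [mk_prod, lift_id, mul_eq_self hX0])
    refine mem_fex_of_mem
      (fun g x => {p : Cond J R | p.f (Sum.inl (g (e x).1, (e x).2)) = some true})
      (down_FInj _) (mem_FInj.2 (fun g g' q _ h _ => ?_))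
    by_contra hne
    obtain ⟨i, hi⟩ := Function.ne_iff.1 hne
    have h1 : ∀ m : M, {ξ : XX | (Sum.inl (m, ξ) : J) ∈ supp q.f}.Countable := by
      intro m
      refine q.cnt.preimage_of_injOn (f := fun ξ : XX => (Sum.inl (m, ξ) : J)) ?_
      intro a _ b _ hab
      exact (Prod.mk.inj (Sum.inl.inj hab)).2
    obtain ⟨ξ, hξ⟩ := hX.bdd _ ((le_aleph0_iff_set_countable.2
      ((h1 (g i)).union (h1 (g' i)))).trans aleph0_le_continuum)
    obtain ⟨r, hr, h2, h3⟩ := coord_ne q (j := Sum.inl (g i, ξ)) (j' := Sum.inl (g' i, ξ))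
      (fun h => hi (Prod.mk.inj (Sum.inl.inj h)).1) (fun h => lt_irrefl _ (hξ ξ (Or.inl h)))
      (fun h => lt_irrefl _ (hξ ξ (Or.inr h)))
    have := mem_FSub.1 h (e.symm (i, ξ)) r hr (by simpa using h2)
    exact h3 r le_rfl (by simpa using this)
  · intro q _ h
    obtain ⟨r, -, C, h1, h2⟩ := mem_fex.1 h q le_rfl
    have hM0 : ℵ₀ ≤ #M := hX0.trans hXM
    refine no_chain hX #M ?_ hM1 hM2 hM3 h1 h2
    simp only [J, mk_sum, mk_prod, lift_id, mk_nat]
    refine le_trans (add_le_add (mul_le_mul_right hXM _) (mul_le_mul' hXM hM0)) ?_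
    rw [mul_eq_self hM0, add_eq_self hM0]

end Pool.Agent.H895Z.Wei
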