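import Pool.Agent.H895Z.ADBasic
import Pool.Agent.H895Z.ADPrinciple
import Pool.Agent.H895Z.WReals

set_option autoImplicit false

/-! Without long chains in `P(ℕ)/fin` the almost disjoint families on `ℕ*` are small; Kunen's
theorem that Cohen forcing adds no long chains. -/

open Cardinal Set

namespace Pool.Agent.H895Z.AD

open Pool.Agent.Helper539.SPForcing Pool.Agent.H895Z.Wei

theorem zfc_part {W X : Type} [LinearOrder W] [WellFoundedLT W] (h : CohenPr W X)
    (𝒜 : Set (Set NStar)) (hA : IsAD 𝒜) : #𝒜 ≤ 𝔠 := by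
  classical
  obtain ⟨⟨e, he⟩, ⟨E, hE⟩, hS, hC⟩ := h
  choose S hS using hS
  have key : ∀ U : 𝒜, ∃ (w : W) (f : W → Set ℕ), (∀ v, v < w → N (f v) ⊆ U.1) ∧
      ¬ ∃ y, N y ⊆ U.1 ∧ ∀ v, v < w → (f v \ y).Finite ∧ (y \ f v).Infinite := by
    intro U
    by_contra hc
    push Not at hc
    obtain ⟨f, -, hf⟩ := wf_rec (Ω := W) (V := Set ℕ) (fun _ y => N y ⊆ U.1)
      (fun _ y _ z => (y \ z).Finite ∧ (z \ y).Infinite) (fun α f h1 _ => hc α f h1)
    refine hC ⟨f, fun v w hvw => ⟨?_, fun m => ?_⟩⟩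
    · obtain ⟨B, hB⟩ := (hf v w hvw).1.bddAbove
      refine ⟨B + 1, fun n hn => ?_⟩
      by_contra hn'
      have := hB ⟨hn.2, hn'⟩
      omega
    · obtain ⟨n, h1, h2⟩ := (hf v w hvw).2.exists_notMem_finite (Set.finite_lt_nat m)
      exact ⟨n, not_lt.1 h2, h1⟩
  choose w f hf1 hf2 using key
  choose x hx using fun U : 𝒜 => hS (w U) {p | p.2 ∈ f U p.1.1}
  have hinj : Function.Injective fun U : 𝒜 => (w U, x U) := by
    intro U V huv
    by_contra hne
    have h1 : w U = w V := congrArg Prod.fst huv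
    have h2 : x U = x V := congrArg Prod.snd huv
    have h3 : ∀ v, v < w U → f U v = f V v := by
      intro v hv
      have a1 := hx U
      have a2 := hx V
      generalize w U = a at *
      subst h1
      rw [h2, ← a2] at a1
      ext n
      exact Set.ext_iff.1 a1 (⟨v, hv⟩, n)
    have hoU : IsOpen U.1 := by rw [(hA.1 U U.2).1]; exact isOpen_interior
    have hoV : IsOpen V.1 := by rw [(hA.1 V V.2).1]; exact isOpen_interior
    obtain ⟨y, hy⟩ := eq_N (hoU.inter hoV) (hA.2 U U.2 V V.2 fun h => hne (Subtype.ext h))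
    have h4 : N y ⊆ U.1 := hy ▸ inter_subset_left
    have h5 : ¬ U.1 ⊆ N y := fun h => (hA.1 U U.2).2 (by
      rw [Subset.antisymm h h4]; exact isCompact_N y)
    obtain ⟨p, hp1, hp2⟩ := not_subset.1 h5
    obtain ⟨z, hz1, hz2⟩ := exists_N hoU hp1
    refine hf2 U ⟨y ∪ z, by rw [N_union]; exact union_subset h4 hz2, fun v hv => ?_⟩
    have h6 : (f U v \ y).Finite := by
      rw [← N_subset, ← hy]
      exact subset_inter (hf1 U v hv) (by rw [h3 v hv]; exact hf1 V v (h1 ▸ hv))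
    refine ⟨h6.subset fun n hn => ⟨hn.1, fun h => hn.2 (Or.inl h)⟩, fun h7 => ?_⟩
    have h8 : (z \ y).Finite := by
      refine (h6.union h7).subset fun n hn => ?_
      by_cases h : n ∈ f U v
      · exact Or.inl ⟨h, hn.2⟩
      · exact Or.inr ⟨Or.inr hn.1, h⟩
    exact hp2 (N_subset.2 h8 hz1)
  have hX : #X ≤ 𝔠 := by simpa using mk_le_of_injective hE
  refine (mk_le_of_injective hinj).trans ?_
  rw [mk_prod, lift_id, lift_id]
  exact (mul_le_mul' ((mk_le_of_injective he).trans hX) hX).trans continuum_mul_self.le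

variable {J : Type}

/-- Cohen forcing -/
abbrev Coh (J : Type) : Type := Cond J Set.univ

theorem exists_supp (U : ℕ → Set (Coh J)) (hU : ∀ n, Reg (U n)) :
    ∃ S : Set J, S.Countable ∧ ∀ n, ∀ s ∈ U n, ∃ b ∈ U n, supp b.f ⊆ S ∧ Compat s.f b.f := by
  obtain ⟨q, -, hQ, S, hS, -, h⟩ := Wei.closure U hU (Cond.top J Set.univ) (fun _ _ => rfl)
  have hq : ∀ r : Coh J, r ≤ q := fun r j b hj => by
    rw [hQ j trivial] at hj; cases hj
  refine ⟨S, hS, fun n s hs => ?_⟩
  obtain ⟨c', h2, h3, h4⟩ := h (s.res S) (supp_res _ _) n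
  have hc : Compat s.f c'.f := by
    intro j a b h5 h6
    have := h2 j a (res_some.2 ⟨h3 (mem_supp_of_some h6), h5⟩)
    simpa using this.symm.trans h6
  rcases h4 with h4 | h4
  · exact ⟨c', h4 c' (hq _) le_rfl, h3, hc⟩
  · exact absurd ((hU n).down (union_le_left _ _) hs) (h4 _ (hq _) (union_le_right hc))

theorem cohen_name (τ : ℕ → Set (Coh J)) :
    ∃ ν : Name J Set.univ, ∀ n, meets (ν.val n) = meets (τ n) := by
  obtain ⟨S, hS, h⟩ := exists_supp (fun n => meets (τ n)) fun n => reg_meets _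
  refine ⟨fun n => ⟨{c | supp c.1.f ⊆ S ∧ c.1 ∈ meets (τ n)},
    le_aleph0_iff_set_countable.2
      (((countable_conds hS (subset_univ _)).preimage_of_injOn Subtype.val_injective.injOn).mono
        (fun c hc => hc.1))⟩, fun n => Subset.antisymm (fun r hr => ?_) fun r hr q hq => ?_⟩
  · refine (reg_meets _).dense fun r1 h1 => ?_
    obtain ⟨r2, h2, _, ⟨c, hc, rfl⟩, h3⟩ := hr r1 h1
    exact ⟨r2, h2, (reg_meets _).down h3 hc.2⟩
  · obtain ⟨b, h1, h2, h3⟩ := h n q ((reg_meets _).down hq hr)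
    exact ⟨q.union b, union_le_left _ _, b, ⟨⟨b, subset_univ _⟩, ⟨h2, h1⟩, rfl⟩,
      union_le_right h3⟩

/-- pulling a condition back along an injection -/
def pull {K : Type} (e : K → J) (he : Function.Injective e) (r : Coh J) : Coh K where
  f := fun k => r.f (e k)
  cnt := r.cnt.preimage_of_injOn he.injOn
  fin := (r.fin.preimage he.injOn).subset fun _ hk => ⟨hk.1, trivial⟩

theorem pull_mono {K : Type} (e : K → J) (he : Function.Injective e) {r s : Coh J} (h : r ≤ s) :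
    pull e he r ≤ pull e he s := fun k b hk => h (e k) b hk

theorem exists_enum [Infinite J] (U : ℕ → Set (Coh J)) (hU : ∀ n, Reg (U n)) :
    ∃ (e : ℕ → J) (he : Function.Injective e), ∀ n r, r ∈ U n ↔ pull e he r ∈ pull e he '' U n := by
  obtain ⟨S, hS, h⟩ := exists_supp U hU
  let e0 := Infinite.natEmbedding J
  have h1 : (S ∪ range e0).Countable := hS.union (countable_range _)
  have h2 : (S ∪ range e0).Infinite :=
    (Set.infinite_range_of_injective e0.injective).mono subset_union_right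
  haveI := h1.to_subtype
  haveI := h2.to_subtype
  obtain ⟨e⟩ : Nonempty (ℕ ≃ ↥(S ∪ range e0)) := nonempty_equiv_of_countable
  refine ⟨fun k => e k, Subtype.val_injective.comp e.injective, fun n r =>
    ⟨fun hr => ⟨r, hr, rfl⟩, ?_⟩⟩
  rintro ⟨r', h3, h4⟩
  refine transfer (A := S) (B := {b | b ∈ U n ∧ supp b.f ⊆ S}) (hU n) (fun b hb => hb.1)
    (fun s hs => ?_) (fun b hb => hb.2) h3 fun j hj => ?_
  · obtain ⟨b, a1, a2, a3⟩ := h n s hs
    exact ⟨b, ⟨a1, a2⟩, a3⟩
  · have := congrFun (congrArg Cond.f h4) (e.symm ⟨j, Or.inl hj⟩)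
    simpa [pull] using this

/-- two of `𝔠⁺` many sequences with the same label are aligned -/
theorem exists_aligned {W Γ : Type} (hW : 𝔠 < #W) (hJ : #J ≤ 2 ^ 𝔠) (hΓ : #Γ ≤ 𝔠)
    (e : W → ℕ → J) (he : ∀ w, Function.Injective (e w)) (φ : W → Γ) :
    ∃ w w', w ≠ w' ∧ φ w = φ w' ∧ ∀ k l, e w k = e w' l → k = l := by
  classical
  let T := ℕ → Bool
  have hT : #T = 𝔠 := by simp [T]
  obtain ⟨c⟩ := (le_def J (T → Bool)).1 (by simpa [hT] using hJ)
  have h1 : ∀ w (p : ℕ × ℕ), ∃ u : T, p.1 ≠ p.2 → c (e w p.1) u ≠ c (e w p.2) u := by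
    intro w p
    by_cases h : p.1 = p.2
    · exact ⟨fun _ => true, fun h' => absurd h h'⟩
    · obtain ⟨u, hu⟩ := Function.ne_iff.1 (c.injective.ne ((he w).ne h))
      exact ⟨u, fun _ => hu⟩
  choose u hu using h1
  let ψ : W → Γ × (ℕ × ℕ → T) × (ℕ → ℕ × ℕ → Bool) := fun w =>
    (φ w, u w, fun k p => c (e w k) (u w p))
  have h2 : #(Γ × (ℕ × ℕ → T) × (ℕ → ℕ × ℕ → Bool)) ≤ 𝔠 := by
    rw [mk_prod, lift_id, lift_id]
    refine (mul_le_mul' hΓ (le_of_eq ?_)).trans continuum_mul_self.le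
    simp [hT]
  have h3 : ¬ Function.Injective ψ := fun h => absurd ((mk_le_of_injective h).trans h2) (not_le.2 hW)
  obtain ⟨w, w', h4, h5⟩ := Function.not_injective_iff.1 h3
  refine ⟨w, w', h5, congrArg Prod.fst h4, fun k l hkl => ?_⟩
  by_contra hne
  have a1 : u w = u w' := congrArg (fun s => s.2.1) h4
  have a2 : c (e w l) (u w (k, l)) = c (e w' l) (u w' (k, l)) :=
    congrFun (congrFun (congrArg (fun s => s.2.2) h4) l) (k, l)
  apply hu w (k, l) hne
  rw [a2, hkl, a1]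

theorem exists_swap (e e' : ℕ → J) (he : Function.Injective e) (he' : Function.Injective e')
    (h : ∀ k l, e k = e' l → k = l) : ∃ π : J → J, Function.Involutive π ∧
      (∀ k, π (e k) = e' k) ∧ (∀ k, π (e' k) = e k) ∧
      ∀ j, π j = j ∨ ∃ k, j = e k ∨ j = e' k := by
  classical
  let π : J → J := fun j => if h1 : ∃ k, j = e k then e' h1.choose else
    if h2 : ∃ k, j = e' k then e h2.choose else j
  have h1 : ∀ k, π (e k) = e' k := by
    intro k
    have h1 : ∃ l, e k = e l := ⟨k, rfl⟩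
    simp only [π, dif_pos h1]
    rw [← he h1.choose_spec]
  have h2 : ∀ k, π (e' k) = e k := by
    intro k
    by_cases h3 : ∃ l, e' k = e l
    · obtain ⟨l, hl⟩ := h3
      obtain rfl := h l k hl.symm
      rw [hl, h1, hl]
    · have h4 : ∃ l, e' k = e' l := ⟨k, rfl⟩
      simp only [π, dif_neg h3, dif_pos h4]
      rw [← he' h4.choose_spec]
  have h3 : ∀ j, π j = j ∨ ∃ k, j = e k ∨ j = e' k := by
    intro j
    by_cases a1 : ∃ k, j = e k
    · obtain ⟨k, hk⟩ := a1
      exact Or.inr ⟨k, Or.inl hk⟩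
    by_cases a2 : ∃ k, j = e' k
    · obtain ⟨k, hk⟩ := a2
      exact Or.inr ⟨k, Or.inr hk⟩
    exact Or.inl (by simp only [π, dif_neg a1, dif_neg a2])
  refine ⟨π, fun j => ?_, h1, h2, h3⟩
  rcases h3 j with a | ⟨k, rfl | rfl⟩
  · rw [a, a]
  · rw [h1, h2]
  · rw [h2, h1]

theorem kunen [Infinite J] {W : Type} [LinearOrder W] (hW : 𝔠 < #W) (hJ : #J ≤ 2 ^ 𝔠)
    (U : W → ℕ → Set (Coh J)) (hU : ∀ w n, Reg (U w n)) (p : Coh J)
    (h1 : ∀ v w, v < w → ∃ q ≤ p, ∃ m, ∀ n, m ≤ n → ∀ r ≤ q, r ∈ U v n → r ∈ U w n)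
    (h2 : ∀ v w, v < w → ∀ m, ∀ q ≤ p, ∃ r ≤ q, ∃ n, m ≤ n ∧ r ∈ U w n ∧ r ∉ U v n) : False := by
  choose e he hE using fun w => exists_enum (U w) (hU w)
  haveI : Countable (Coh ℕ) := by
    have := countable_conds (J := ℕ) (R := Set.univ) countable_univ Subset.rfl
    simpa [← Set.countable_univ_iff] using this
  have hΓ : #(Coh ℕ × (ℕ → Set (Coh ℕ))) ≤ 𝔠 := by
    rw [mk_prod, lift_id, lift_id]
    refine (mul_le_mul' (mk_le_aleph0.trans aleph0_le_continuum) ?_).trans continuum_mul_self.le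
    rw [← power_def, mk_nat, mk_set]
    refine (power_le_power_right (power_le_power_left two_ne_zero mk_le_aleph0)).trans ?_
    simp
  have key : ∀ v w, v < w → pull (e v) (he v) p = pull (e w) (he w) p →
      (∀ n, pull (e v) (he v) '' U v n = pull (e w) (he w) '' U w n) →
      (∀ k l, e v k = e w l → k = l) → False := by
    intro v w hvw a1 a2 a3
    obtain ⟨π, b1, b2, b3, b4⟩ := exists_swap _ _ (he v) (he w) a3
    have c1 : ∀ r, pull (e v) (he v) (pull π b1.injective r) = pull (e w) (he w) r := by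
      intro r; ext k b; simp [pull, b2]
    have c2 : ∀ r, pull (e w) (he w) (pull π b1.injective r) = pull (e v) (he v) r := by
      intro r; ext k b; simp [pull, b3]
    have c3 : ∀ r, pull π b1.injective (pull π b1.injective r) = r := by
      intro r; ext k b; simp [pull, b1 k]
    have c4 : pull π b1.injective p = p := by
      have a4 : ∀ k, p.f (e v k) = p.f (e w k) := fun k => congrFun (congrArg Cond.f a1) k
      ext j b
      rcases b4 j with a | ⟨k, rfl | rfl⟩
      · simp [pull, a]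
      · simp [pull, b2, a4]
      · simp [pull, b3, a4]
    obtain ⟨q, hq, m, hm⟩ := h1 v w hvw
    obtain ⟨r, hr, n, d1, d2, d3⟩ := h2 v w hvw m (pull π b1.injective q)
      (by rw [← c4]; exact pull_mono _ _ hq)
    have d4 : pull π b1.injective r ∈ U v n := by
      rw [hE, c1, a2, ← hE]; exact d2
    have d5 := hm n d1 _ (by rw [← c3 q]; exact pull_mono _ _ hr) d4
    rw [hE, c2, ← a2, ← hE] at d5
    exact d3 d5
  obtain ⟨w, w', a1, a2, a3⟩ := exists_aligned hW hJ hΓ e he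
    (fun w => (pull (e w) (he w) p, fun n => pull (e w) (he w) '' U w n))
  have a4 := congrArg Prod.fst a2
  have a5 := congrFun (congrArg Prod.snd a2)
  rcases lt_or_gt_of_ne a1 with h | h
  · exact key w w' h a4 a5 a3
  · exact key w' w h a4.symm (fun n => (a5 n).symm) fun k l hkl => (a3 l k hkl.symm).symm

theorem forcing_part : ∃ (P : Type) (_ : Preorder P) (W : Type) (_ : LinearOrder W)
    (_ : WellFoundedLT W) (X : Type), Nonempty P ∧ ∀ p : P, p ∈ FCohenPr P W X := by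
  have hW := good_XX
  let X := Set (ℕ → Bool)
  have hX : #X = 2 ^ 𝔠 := by simp [X]
  have h0 : ℵ₀ ≤ (2 : Cardinal.{0}) ^ 𝔠 := aleph0_le_continuum.trans (cantor _).le
  have hp : ((2 : Cardinal.{0}) ^ 𝔠) ^ (𝔠 : Cardinal.{0}) = 2 ^ 𝔠 := by
    rw [← power_mul, continuum_mul_self]
  have hJ : #(X × ℕ) ≤ 2 ^ 𝔠 := by
    rw [mk_prod, lift_id, lift_id, mk_nat, hX]
    exact (mul_le_mul_right h0 _).trans (mul_eq_self h0).le
  refine ⟨Coh (X × ℕ), inferInstance, XX, inferInstance, inferInstance, X, ⟨Cond.top _ _⟩,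
    fun p => ⟨?_, ?_, fun w => ?_, ?_⟩⟩
  · obtain ⟨e⟩ := (le_def XX X).1 (hW.le.trans hX.ge)
    exact ⟨e, e.injective⟩
  · refine mem_fex_of_mem (fun x n => {p : Coh (X × ℕ) | p.f (x, n) = some true})
      (down_FInj _) (mem_FInj.2 (fun x x' q _ h _ => ?_))
    by_contra hne
    have h1 : ∀ y : X, {n : ℕ | (y, n) ∈ supp q.f}.Finite := by
      intro y
      refine (q.fin.preimage (f := fun n : ℕ => (y, n)) ?_).subset (fun n hn => ⟨hn, trivial⟩)
      intro a _ b _ hab
      exact (Prod.mk.inj hab).2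
    obtain ⟨n, hn⟩ := ((h1 x).union (h1 x')).exists_notMem
    obtain ⟨r, hr, h2, h3⟩ := coord_ne q (j := (x, n)) (j' := (x', n))
      (fun h => hne (Prod.mk.inj h).1) (fun h => hn (Or.inl h)) (fun h => hn (Or.inr h))
    exact h3 r le_rfl (mem_FSub.1 h n r hr h2)
  · have h1 : #(Name (X × ℕ) Set.univ) ≤ 2 ^ 𝔠 := by
      refine mk_Name_le _ h0 ?_ (by simpa using hJ)
      exact (power_le_power_left (aleph0_pos.trans_le h0).ne' aleph0_le_continuum).trans hp.le
    have h2 : #(Set.Iio w → Name (X × ℕ) Set.univ) ≤ #X := by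
      rw [← power_def, hX]
      exact (power_le_power_right h1).trans
        ((power_le_power_left (aleph0_pos.trans_le h0).ne' (hW.iio w)).trans hp.le)
    obtain ⟨e⟩ := (le_def _ _).1 h2
    have : Nonempty (Name (X × ℕ) Set.univ) := ⟨fun _ => ⟨∅, by simp⟩⟩
    refine mem_fex_of_mem (fun x a => (Function.invFun e x a.1).val a.2) (down_FAll _)
      (fun τ => ?_)
    choose ν hν using fun v : Set.Iio w => cohen_name fun n => τ (v, n)
    refine mem_fex_of_mem (e ν) (down_FEq _ _) ?_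
    simp only [Function.leftInverse_invFun e.injective ν]
    exact ⟨mem_FSub.2 fun a q _ h => by rw [hν]; exact h,
      mem_FSub.2 fun a q _ h => by rw [hν] at h; exact h⟩
  · intro q _ h
    obtain ⟨r, -, C, hC⟩ := mem_fex.1 h q le_rfl
    refine kunen hW.lt hJ (fun w n => meets (C w n)) (fun _ _ => reg_meets _) r ?_ ?_
    · intro v w hvw
      obtain ⟨r1, a1, a2, -⟩ := mem_fimp.1 (hC v w) r le_rfl hvw
      obtain ⟨r2, a3, m, a4⟩ := mem_fex.1 a2 r1 le_rfl
      refine ⟨r2, a3.trans a1, m, fun n hn s hs h1 => (reg_meets _).dense fun s' hs' => ?_⟩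
      exact mem_fimp.1 (a4 n) s' (hs'.trans hs) ⟨hn, (reg_meets _).down hs' h1⟩
    · intro v w hvw m s hs
      obtain ⟨r1, a1, -, a2⟩ := mem_fimp.1 (hC v w) s hs hvw
      obtain ⟨r2, a3, n, a4, a5, a6⟩ := mem_fex.1 (a2 m) r1 le_rfl
      exact ⟨r2, a3.trans a1, n, a4, a5, a6 r2 le_rfl⟩

end Pool.Agent.H895Z.AD
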