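import Mathlib

set_option autoImplicit false

/-! Almost disjoint families of regular open sets in the remainder `ℕ* = βℕ \ ℕ`. -/

namespace Pool.Agent.H895Z.AD

/-- the space `ℕ*` of the nonprincipal ultrafilters on `ℕ`, a subspace of the Stone space `βℕ` -/
abbrev NStar : Type := {p : Ultrafilter ℕ // ∀ n : ℕ, p ≠ pure n}

/-- an almost disjoint family on a space `Y`: noncompact regular open sets, any two of which have
a compact intersection -/
def IsAD {Y : Type} [TopologicalSpace Y] (𝒜 : Set (Set Y)) : Prop :=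
  (∀ U ∈ 𝒜, U = interior (closure U) ∧ ¬ IsCompact U) ∧
  ∀ U ∈ 𝒜, ∀ V ∈ 𝒜, U ≠ V → IsCompact (U ∩ V)

end Pool.Agent.H895Z.AD
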