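import Pool.Agent.H895Z.ADBasic

set_option autoImplicit false

/-! A copy of the tree `2^{<ω₁}` inside `P(ℕ)/fin` which preserves meets, and the almost disjoint
family of size `2^ℵ₁` on `ℕ*`. -/

open Cardinal Filter Set Topology

namespace Pool.Agent.H895Z.AD

theorem slow (P Q : ℕ → ℕ → Prop) (hP : ∀ j, ∀ᶠ n in atTop, P j n)
    (hQ : ∀ j, ∃ᶠ n in atTop, Q j n) : ∃ lev : ℕ → ℕ, Tendsto lev atTop atTop ∧
      (∀ᶠ n in atTop, P (lev n) n) ∧ ∃ᶠ n in atTop, Q (lev n) n := by
  classical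
  choose M hM using fun j => eventually_atTop.1 (hP j)
  choose q hq1 hq2 using fun j => frequently_atTop.1 (hQ j)
  obtain ⟨m, hm0, hm⟩ : ∃ m : ℕ → ℕ, m 0 = M 0 ∧
      ∀ j, m (j + 1) = max (M (j + 1)) (q j (m j) + 1) :=
    ⟨fun j => Nat.rec (M 0) (fun j r => max (M (j + 1)) (q j r + 1)) j, rfl, fun j => rfl⟩
  have hs : StrictMono m := strictMono_nat_of_lt_succ fun j => by
    have := hq1 j (m j)
    rw [hm]; omega
  have hMm : ∀ j, M j ≤ m j := by
    rintro (_ | j)
    · exact hm0.ge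
    · rw [hm]; omega
  let lev : ℕ → ℕ := fun n => @Nat.findGreatest (fun j => m j ≤ n) (fun j => Nat.decLe _ _) n
  have h1 : ∀ j n, m j ≤ n → j ≤ lev n := fun j n h =>
    @Nat.le_findGreatest j (fun j => m j ≤ n) (fun j => Nat.decLe _ _) n (hs.le_apply.trans h) h
  have h2 : ∀ n, m 0 ≤ n → m (lev n) ≤ n := fun n h =>
    @Nat.findGreatest_spec 0 (fun j => m j ≤ n) (fun j => Nat.decLe _ _) n (Nat.zero_le n) h
  refine ⟨lev, tendsto_atTop.2 fun j => eventually_atTop.2 ⟨m j, h1 j⟩,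
    eventually_atTop.2 ⟨m 0, fun n hn => hM _ _ ((hMm _).trans (h2 n hn))⟩,
    frequently_atTop.2 fun j => ⟨q j (m j), hs.le_apply.trans (hq1 _ _), ?_⟩⟩
  have h3 : lev (q j (m j)) = j := by
    apply le_antisymm _ (h1 _ _ (hq1 _ _))
    have h4 := h2 (q j (m j)) ((hs.monotone (Nat.zero_le j)).trans (hq1 _ _))
    have h5 : q j (m j) < m (j + 1) := by rw [hm]; omega
    exact Nat.lt_succ_iff.1 (hs.lt_iff_lt.1 (lt_of_le_of_lt h4 h5))
  rw [h3]
  exact hq2 _ _

variable {Ω : Type} [LinearOrder Ω]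

/-- the finite set of pairs is part of the graph of `t` -/
def Sub (σ : Finset (Ω × Bool)) (t : Ω → Bool) : Prop := ∀ p ∈ σ, t p.1 = p.2

/-- coherence of two levels -/
structure Rel (γ : Ω) (u v : ℕ → Option (Finset (Ω × Bool))) : Prop where
  coh : ∀ᶠ n in atTop, u n ≠ none → v n = u n
  dom : ∀ᶠ n in atTop, u n = none → ∀ σ, v n = some σ → ∃ b, (γ, b) ∈ σ
  grow : ∀ t, ∃ᶠ n in atTop, u n = none ∧ ∃ σ, v n = some σ ∧ Sub σ t

theorem step (α : Ω) (hα : (Iio α).Countable) (f : Ω → ℕ → Option (Finset (Ω × Bool)))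
    (h1 : ∀ γ, γ < α → ∃ᶠ n in atTop, f γ n = none)
    (h2 : ∀ γ δ, γ < δ → δ < α → Rel γ (f γ) (f δ)) :
    ∃ v : ℕ → Option (Finset (Ω × Bool)), (∃ᶠ n in atTop, v n = none) ∧
      ∀ γ, γ < α → Rel γ (f γ) v := by
  classical
  rcases (Iio α).eq_empty_or_nonempty with he | hne
  · exact ⟨fun _ => none, Frequently.of_forall fun _ => rfl,
      fun γ hγ => (Set.eq_empty_iff_forall_notMem.1 he γ hγ).elim⟩
  obtain ⟨g, hg⟩ := hα.exists_eq_range hne
  have hgα : ∀ i, g i < α := fun i => (hg ▸ mem_range_self i : g i ∈ Iio α)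
  let d : ℕ → Ω := fun j => Nat.rec (g 0) (fun j r => max r (g (j + 1))) j
  have hd : ∀ j, d (j + 1) = max (d j) (g (j + 1)) := fun j => rfl
  have hdα : ∀ j, d j < α := by
    intro j
    induction j with
    | zero => exact hgα 0
    | succ j ih => rw [hd]; exact max_lt ih (hgα _)
  have hgd : ∀ j i, i ≤ j → g i ≤ d j := by
    intro j
    induction j with
    | zero => intro i hi; obtain rfl : i = 0 := by omega
              exact le_rfl
    | succ j ih =>
      intro i hi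
      rw [hd]
      rcases Nat.lt_or_eq_of_le hi with hi | rfl
      · exact (ih i (by omega)).trans (le_max_left _ _)
      · exact le_max_right _ _
  obtain ⟨lev, hl1, hl2, hl3⟩ := slow
    (fun j n => ∀ i ∈ Finset.range (j + 1), (f (g i) n ≠ none → f (d j) n = f (g i) n) ∧
      (f (g i) n = none → ∀ σ, f (d j) n = some σ → ∃ b, (g i, b) ∈ σ))
    (fun j n => f (d j) n = none) (by
      intro j
      rw [eventually_all_finset]
      intro i hi
      rcases (hgd j i (by simpa [Nat.lt_succ_iff] using hi)).lt_or_eq with h | h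
      · exact (h2 _ _ h (hdα j)).coh.and (h2 _ _ h (hdα j)).dom
      · refine Eventually.of_forall fun n => ⟨fun _ => by rw [h], fun h3 σ h4 => ?_⟩
        rw [← h, h3] at h4
        cases h4) (fun j => h1 _ (hdα j))
  have hZ : {n | f (d (lev n)) n = none}.Infinite := Nat.frequently_atTop_iff_infinite.1 hl3
  haveI := hZ.to_subtype
  obtain ⟨e⟩ : Nonempty ({n | f (d (lev n)) n = none} ≃ ℕ ⊕ List Bool) :=
    nonempty_equiv_of_countable
  let pat : ℕ ⊕ List Bool → Option (Finset (Ω × Bool)) := fun s =>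
    match s with
    | Sum.inl _ => none
    | Sum.inr l => some ((Finset.range l.length).image fun i => (g i, l.getD i false))
  let v : ℕ → Option (Finset (Ω × Bool)) := fun n =>
    if h : f (d (lev n)) n = none then pat (e ⟨n, h⟩) else f (d (lev n)) n
  have hv : ∀ s, v (e.symm s) = pat s := by
    intro s
    have h : f (d (lev (e.symm s))) (e.symm s) = none := (e.symm s).2
    simp only [v, dif_pos h]
    congr 1
    exact e.apply_symm_apply s
  have hfreq : ∀ (k : ℕ → ℕ ⊕ List Bool), Function.Injective k → ∀ R : ℕ → Prop,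
      (∀ i, R (e.symm (k i))) → ∃ᶠ n in atTop, R n := by
    intro k hk R hR
    rw [Nat.frequently_atTop_iff_infinite]
    refine (Set.infinite_range_of_injective
      (Subtype.val_injective.comp (e.symm.injective.comp hk))).mono ?_
    rintro _ ⟨i, rfl⟩
    exact hR i
  refine ⟨v, hfreq Sum.inl Sum.inl_injective _ fun i => hv _, fun γ hγ => ?_⟩
  obtain ⟨i, rfl⟩ : γ ∈ range g := hg ▸ hγ
  have hi : ∀ᶠ n in atTop, (f (g i) n ≠ none → f (d (lev n)) n = f (g i) n) ∧
      (f (g i) n = none → ∀ σ, f (d (lev n)) n = some σ → ∃ b, (g i, b) ∈ σ) := by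
    filter_upwards [hl2, hl1.eventually_ge_atTop i] with n h3 h4
    exact h3 i (Finset.mem_range.2 (by omega))
  refine ⟨?_, ?_, fun t => ?_⟩
  · filter_upwards [hi] with n hn h3
    have h4 := hn.1 h3
    simp only [v]
    rw [dif_neg (by rw [h4]; exact h3), h4]
  · have hfin : ((fun l : List Bool => (e.symm (Sum.inr l) : ℕ)) ''
        {l | l.length ≤ i}).Finite := (List.finite_length_le Bool i).image _
    have h5 := hfin.compl_mem_cofinite
    rw [Nat.cofinite_eq_atTop] at h5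
    filter_upwards [hi, h5] with n hn hn' h3 σ h4
    by_cases h : f (d (lev n)) n = none
    · simp only [v, dif_pos h] at h4
      rcases hs : e ⟨n, h⟩ with k | l
      · rw [hs] at h4; cases h4
      · rw [hs] at h4
        have h6 : ¬ l.length ≤ i := fun h6 => hn' ⟨l, h6, by simp [← hs]⟩
        obtain rfl := Option.some.inj h4
        exact ⟨_, Finset.mem_image.2 ⟨i, Finset.mem_range.2 (by omega), rfl⟩⟩
    · simp only [v, dif_neg h] at h4
      exact hn.2 h3 σ h4
  · have h3 := hfreq (fun k => Sum.inr ((List.range k).map fun i => t (g i)))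
      (fun k k' h => by simpa using congrArg List.length (Sum.inr.inj h))
      (fun n => f (d (lev n)) n = none ∧ ∃ σ, v n = some σ ∧ Sub σ t) (fun k => ⟨(e.symm _).2, _,
        hv _, by
          intro p hp
          obtain ⟨j, hj, rfl⟩ := Finset.mem_image.1 hp
          have hj' : j < k := by simpa using hj
          simp [List.getD_eq_getElem?_getD, hj']⟩)
    refine (h3.and_eventually hi).mono ?_
    rintro n ⟨⟨h4, h5⟩, h6⟩
    refine ⟨?_, h5⟩
    by_contra h7
    exact h7 ((h6.1 h7).symm.trans h4)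

theorem finite_of_eventually {s : Set ℕ} (h : ∀ᶠ n in atTop, n ∉ s) : s.Finite := by
  rw [← Nat.cofinite_eq_atTop] at h
  simpa using h

theorem exists_fam [WellFoundedLT Ω] [NoMaxOrder Ω] (hΩ : ∀ α : Ω, (Iio α).Countable) :
    ∃ x : (Ω → Bool) → Ω → Set ℕ, Fam x := by
  obtain ⟨f, -, hf⟩ := wf_rec (Ω := Ω) (V := ℕ → Option (Finset (Ω × Bool)))
    (fun _ v => ∃ᶠ n in atTop, v n = none) (fun γ u _ v => Rel γ u v)
    (fun α f h1 h2 => step α (hΩ α) f h1 h2)
  have hcoh : ∀ γ α, γ ≤ α → ∀ᶠ n in atTop, f γ n ≠ none → f α n = f γ n := by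
    intro γ α h
    rcases h.lt_or_eq with h | rfl
    · exact (hf γ α h).coh
    · exact Eventually.of_forall fun _ _ => rfl
  refine ⟨fun t α => {n | ∃ σ, f α n = some σ ∧ Sub σ t}, fun t i => ?_, fun t t' htt => ?_⟩
  · obtain ⟨j, hj⟩ := exists_gt i
    refine ⟨j, (Nat.frequently_atTop_iff_infinite.1 ((hf i j hj).grow t)).mono ?_⟩
    rintro n ⟨h1, h2⟩
    refine ⟨h2, ?_⟩
    rintro ⟨σ, h3, -⟩
    rw [h1] at h3
    cases h3
  · obtain ⟨γ, hγ⟩ := Function.ne_iff.1 htt
    refine ⟨γ, fun i j => ?_⟩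
    obtain ⟨δ, hδ⟩ := exists_gt (max γ (max i j))
    have h1 : γ < δ := lt_of_le_of_lt (le_max_left _ _) hδ
    have h2 : i ≤ δ := ((le_max_left _ _).trans (le_max_right _ _)).trans hδ.le
    have h3 : j ≤ δ := ((le_max_right _ _).trans (le_max_right _ _)).trans hδ.le
    apply finite_of_eventually
    filter_upwards [hcoh i δ h2, hcoh j δ h3, (hf γ δ h1).coh, (hf γ δ h1).dom] with n a1 a2 a3 a4
    rintro ⟨⟨⟨σ, b1, b2⟩, ⟨σ', b3, b4⟩⟩, hn⟩
    have c1 : f δ n = some σ := by rw [a1 (by simp [b1]), b1]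
    have c2 : f δ n = some σ' := by rw [a2 (by simp [b3]), b3]
    obtain rfl : σ = σ' := Option.some.inj (c1.symm.trans c2)
    by_cases h : f γ n = none
    · obtain ⟨b, hb⟩ := a4 h σ c1
      exact hγ ((b2 _ hb).trans (b4 _ hb).symm)
    · have c3 : f γ n = some σ := by rw [← a3 h, c1]
      exact hn ⟨⟨σ, c3, b2⟩, ⟨σ, c3, b4⟩⟩

/-- the columns along a branch -/
def cols (t : ℕ → Bool) (i : ℕ) : Set ℕ :=
  {n | ∃ k, k ≤ i ∧ (Nat.unpair n).1 = Encodable.encode ((List.range k).map t)}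

theorem cols_mono (t : ℕ → Bool) : Monotone (cols t) :=
  fun _ _ h _ ⟨k, h1, h2⟩ => ⟨k, h1.trans h, h2⟩

theorem fam_cols : Fam cols := by
  refine ⟨fun t i => ⟨i + 1, ?_⟩, fun t t' htt => ?_⟩
  · refine (Set.infinite_range_of_injective (f := fun m =>
      Nat.pair (Encodable.encode ((List.range (i + 1)).map t)) m)
      fun _ _ h => (Nat.pair_eq_pair.1 h).2).mono ?_
    rintro _ ⟨m, rfl⟩
    refine ⟨⟨i + 1, le_rfl, by simp⟩, ?_⟩
    rintro ⟨k, h1, h2⟩
    rw [Nat.unpair_pair] at h2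
    have := congrArg List.length (Encodable.encode_injective h2)
    simp at this
    omega
  · obtain ⟨γ, hγ⟩ := Function.ne_iff.1 htt
    refine ⟨γ, fun i j => Set.finite_empty.subset ?_⟩
    rintro n ⟨⟨⟨k, -, h1⟩, ⟨k', -, h2⟩⟩, hn⟩
    have h3 := Encodable.encode_injective (h1.symm.trans h2)
    obtain rfl : k = k' := by simpa using congrArg List.length h3
    have h4 : k ≤ γ := by
      by_contra hlt
      have h5 : γ < k := by omega
      have := congrArg (fun s => s.getD γ false) h3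
      apply hγ
      simpa [List.getD_eq_getElem?_getD, h5] using this
    exact hn ⟨⟨k, h4, h1⟩, ⟨k, h4, h2⟩⟩

theorem main_Q1 : ∃ 𝒜 : Set (Set NStar), IsAD 𝒜 ∧ #𝒜 = 2 ^ ℵ₁ := by
  have h0 : (𝔠 : Cardinal.{0}) ≤ 2 ^ ℵ₁ := by
    rw [← two_power_aleph0]
    exact power_le_power_left two_ne_zero aleph0_lt_aleph_one.le
  rcases h0.lt_or_eq with h | h
  · let Ω := (ℵ₁ : Cardinal.{0}).ord.ToType
    have hΩ : #Ω = ℵ₁ := mk_ord_toType _
    haveI : NoMaxOrder Ω := Cardinal.noMaxOrder aleph0_lt_aleph_one.le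
    obtain ⟨x, hx⟩ := exists_fam (Ω := Ω) fun α => by
      have := mk_Iio_lt α (by simp [Ω])
      exact le_aleph0_iff_set_countable.1
        (Order.lt_succ_iff.1 (lt_of_lt_of_eq this (hΩ.trans succ_aleph0.symm)))
    obtain ⟨h1, h2⟩ := hx.isAD {t | IsCompact (span (x t))}ᶜ fun t ht => ht
    refine ⟨_, h1, h2.trans ?_⟩
    have h3 : #(Ω → Bool) = 2 ^ ℵ₁ := by simp [hΩ]
    rw [← h3]
    haveI : Infinite (Ω → Bool) := Cardinal.aleph0_le_mk_iff.1
      (by rw [h3]; exact aleph0_le_continuum.trans h0)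
    exact mk_compl_of_infinite _ (by rw [h3]; exact lt_of_le_of_lt hx.few_compact h)
  · obtain ⟨h1, h2⟩ := fam_cols.isAD Set.univ fun t _ =>
      not_compact_of_seq (cols_mono t) (fam_cols.grow t)
    exact ⟨_, h1, by rw [h2, ← h]; simp⟩

end Pool.Agent.H895Z.AD
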