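import Mathlib

set_option autoImplicit false

namespace Pool.Agent.H895Z.Dehn

/-- A finite presentation `⟨X ∣ R⟩`: the alphabet is `X = Fin n`, a letter `(i, true)` is the
generator `i`, a letter `(i, false)` is its inverse, and `R` is a finite set of words. -/
structure Pres where
  n : ℕ
  rels : Finset (List (Fin n × Bool))

/-- the sum of the lengths of the relators -/
def Pres.relLength (P : Pres) : ℕ := ∑ r ∈ P.rels, r.length

/-- the size of a presentation: `|X|` plus the sum of the lengths of the relators -/
def Pres.size (P : Pres) : ℕ := P.n + P.relLength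

/-- the relators as elements of the free group on `X` -/
def Pres.relSet (P : Pres) : Set (FreeGroup (Fin P.n)) := FreeGroup.mk '' (P.rels : Set _)

/-- the group `F(X) / ⟨⟨R⟩⟩` defined by the presentation -/
abbrev Pres.group (P : Pres) : Type := PresentedGroup P.relSet

/-- the Cayley graph of the presented group with respect to the generators `X` -/
def Pres.cayley (P : Pres) : SimpleGraph P.group :=
  SimpleGraph.mulCayley (Set.range (fun i : Fin P.n => (PresentedGroup.of i : P.group)))

/-- the presented group is word-hyperbolic: for some `δ`, each side of every geodesic triangle in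
the Cayley graph lies in the `δ`-neighbourhood of the union of the other two sides -/
def Pres.IsHyperbolic (P : Pres) : Prop :=
  ∃ δ : ℕ, ∀ (x y z : P.group) (p : P.cayley.Walk x y) (q : P.cayley.Walk y z)
    (r : P.cayley.Walk z x), p.length = P.cayley.dist x y → q.length = P.cayley.dist y z →
    r.length = P.cayley.dist z x →
    ∀ v ∈ p.support, ∃ w, (w ∈ q.support ∨ w ∈ r.support) ∧ P.cayley.dist v w ≤ δ

/-- `R*`: the cyclic permutations of the relators and of their inverses, freely reduced -/
def Pres.symmRels (P : Pres) : Set (List (Fin P.n × Bool)) :=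
  {r | ∃ r₀ ∈ P.rels, ∃ c, (c ~r r₀ ∨ c ~r FreeGroup.invRev r₀) ∧ r = FreeGroup.reduce c}

/-- Dehn presentation: every nonempty freely reduced word representing the identity contains a
subword `u` such that some `r ∈ R*` is `r = u v` with `|v| < |u|` -/
def Pres.IsDehn (P : Pres) : Prop :=
  ∀ w : List (Fin P.n × Bool), w ≠ [] → FreeGroup.IsReduced w →
    PresentedGroup.mk P.relSet (FreeGroup.mk w) = 1 →
    ∃ u, u <:+: w ∧ ∃ r ∈ P.symmRels, ∃ v, r = u ++ v ∧ v.length < u.length

end Pool.Agent.H895Z.Dehn
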