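import Mathlib

set_option autoImplicit false

namespace Pool.Agent.H895Z.Dehn

open Turing

/-- an upper bound for the number of pushes executed by a statement -/
def pushes {K : Type} {Γ : K → Type} {Λ σ : Type} : TM2.Stmt Γ Λ σ → ℕ
  | .push _ _ q => pushes q + 1
  | .peek _ _ q => pushes q
  | .pop _ _ q => pushes q
  | .load _ q => pushes q
  | .branch _ q₁ q₂ => pushes q₁ + pushes q₂
  | .goto _ => 0
  | .halt => 0

theorem stepAux_length {K : Type} [DecidableEq K] {Γ : K → Type} {Λ σ : Type}
    (q : TM2.Stmt Γ Λ σ) (k : K) : ∀ (v : σ) (S : ∀ k, List (Γ k)),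
    ((TM2.stepAux q v S).stk k).length ≤ (S k).length + pushes q := by
  induction q with
  | push k' f q ih =>
    intro v S
    refine (ih _ _).trans ?_
    simp only [pushes]
    by_cases h : k = k'
    · subst h
      simp
      omega
    · rw [Function.update_of_ne h]
      omega
  | peek k' f q ih => intro v S; exact ih _ _
  | pop k' f q ih =>
    intro v S
    refine (ih _ _).trans ?_
    simp only [pushes]
    by_cases h : k = k'
    · subst h
      simp
    · rw [Function.update_of_ne h]
  | load a q ih => intro v S; exact ih _ _
  | branch f q₁ q₂ ih₁ ih₂ =>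
    intro v S
    simp only [TM2.stepAux, pushes]
    cases f v
    · have := ih₂ v S
      simp only [cond_false]
      omega
    · have := ih₁ v S
      simp only [cond_true]
      omega
  | goto f => intro v S; simp [pushes]
  | halt => intro v S; simp [pushes]

theorem iterate_none {α : Type} (f : α → Option α) (t : ℕ) :
    (flip bind f)^[t] (none : Option α) = none := by
  induction t with
  | zero => rfl
  | succ t ih => rw [Function.iterate_succ_apply]; exact ih

theorem iterate_length (M : FinTM2) (C : ℕ) (hC : ∀ l, pushes (M.m l) ≤ C) (k : M.K) (t : ℕ) :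
    ∀ (a b : M.Cfg), (flip bind M.step)^[t] (some a) = some b →
      (b.stk k).length ≤ (a.stk k).length + C * t := by
  induction t with
  | zero =>
    intro a b h
    simp only [Function.iterate_zero, id_eq, Option.some.injEq] at h
    subst h
    simp
  | succ t ih =>
    intro a b h
    rw [Function.iterate_succ_apply] at h
    obtain ⟨l, v, S⟩ := a
    cases l with
    | none =>
      have : (flip bind M.step) (some (⟨none, v, S⟩ : M.Cfg)) = none := rfl
      rw [this, iterate_none] at h
      cases h
    | some l =>
      have : (flip bind M.step) (some (⟨some l, v, S⟩ : M.Cfg))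
          = some (TM2.stepAux (M.m l) v S) := rfl
      rw [this] at h
      have h1 := ih _ _ h
      have h2 := stepAux_length (M.m l) k v S
      have h3 := hC l
      change (b.stk k).length ≤ (S k).length + C * (t + 1)
      have h4 : C * (t + 1) = C * t + C := by ring
      omega

/-- the output is not much longer than the input plus the running time -/
theorem output_length (M : FinTM2) : ∃ C, ∀ (x : List (M.Γ M.k₀)) (y : List (M.Γ M.k₁)) (T : ℕ),
    Nonempty (TM2OutputsInTime M x (some y) T) → y.length ≤ x.length + C * T := by
  have := M.ΛFin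
  refine ⟨∑ l, pushes (M.m l), fun x y T h => ?_⟩
  obtain ⟨⟨⟨t, ht⟩, hle⟩⟩ := h
  change t ≤ T at hle
  have h1 := iterate_length M (∑ l, pushes (M.m l))
    (fun l => Finset.single_le_sum (f := fun l => pushes (M.m l)) (fun _ _ => Nat.zero_le _)
      (Finset.mem_univ l)) M.k₁ t (initList M x) (haltList M y) ht
  have h2 : ((haltList M y).stk M.k₁).length = y.length := by
    simp [haltList]
  have h3 : ((initList M x).stk M.k₁).length ≤ x.length := by
    simp only [initList]
    split_ifs with h
    · generalize M.k₁ = k at h
      subst h
      simp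
    · simp
  have h4 : (∑ l, pushes (M.m l)) * t ≤ (∑ l, pushes (M.m l)) * T := Nat.mul_le_mul_left _ hle
  omega

theorem poly_tendsto (P : Polynomial ℕ) :
    Filter.Tendsto (fun k : ℕ => ((P.eval k : ℕ) : ℝ) / 2 ^ k) Filter.atTop (nhds 0) := by
  induction P using Polynomial.induction_on' with
  | add p q hp hq =>
    have := hp.add hq
    simp only [add_zero] at this
    refine this.congr (fun k => ?_)
    simp [add_div]
  | monomial n a =>
    have := (tendsto_pow_const_div_const_pow_of_one_lt n (r := 2) (by norm_num)).const_mul (a : ℝ)
    simp only [mul_zero] at this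
    refine this.congr (fun k => ?_)
    simp [mul_div_assoc]

theorem poly_lt (P : Polynomial ℕ) : ∃ k : ℕ, 1 ≤ k ∧ P.eval k < 2 ^ k := by
  have h := (poly_tendsto P).eventually (gt_mem_nhds (show (0 : ℝ) < 1 by norm_num))
  obtain ⟨k, hk, hk1⟩ := (h.and (Filter.eventually_ge_atTop 1)).exists
  refine ⟨k, hk1, ?_⟩
  rw [div_lt_one (by positivity)] at hk
  exact_mod_cast hk

theorem poly_mono (P : Polynomial ℕ) {a b : ℕ} (h : a ≤ b) : P.eval a ≤ P.eval b := by
  induction P using Polynomial.induction_on' with
  | add p q hp hq => simp only [Polynomial.eval_add]; omega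
  | monomial n c =>
    simp only [Polynomial.eval_monomial]
    exact Nat.mul_le_mul_left _ (Nat.pow_le_pow_left h _)

end Pool.Agent.H895Z.Dehn
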