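import Mathlib
import Pool.Agent.H895Z.DehnDefs
import Pool.Agent.H895Z.DehnTM

set_option autoImplicit false

namespace Pool.Agent.H895Z.Dehn

/-- the value of a word in the presented group -/
def Pres.ev (P : Pres) (w : List (Fin P.n × Bool)) : P.group :=
  PresentedGroup.mk P.relSet (FreeGroup.mk w)

theorem Pres.ev_nil (P : Pres) : P.ev [] = 1 := by
  have : (FreeGroup.mk [] : FreeGroup (Fin P.n)) = 1 := rfl
  simp [Pres.ev, this]

theorem Pres.ev_append (P : Pres) (u v : List (Fin P.n × Bool)) :
    P.ev (u ++ v) = P.ev u * P.ev v := by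
  simp [Pres.ev, ← FreeGroup.mul_mk]

theorem Pres.ev_invRev (P : Pres) (u : List (Fin P.n × Bool)) :
    P.ev (FreeGroup.invRev u) = (P.ev u)⁻¹ := by
  simp [Pres.ev, ← FreeGroup.inv_mk]

theorem Pres.ev_true (P : Pres) (i : Fin P.n) : P.ev [(i, true)] = PresentedGroup.of i := rfl

theorem Pres.ev_false (P : Pres) (i : Fin P.n) :
    P.ev [(i, false)] = (PresentedGroup.of i)⁻¹ := by
  rw [← P.ev_true, ← P.ev_invRev]
  rfl

theorem Pres.ev_rel (P : Pres) {r : List (Fin P.n × Bool)} (hr : r ∈ P.rels) : P.ev r = 1 :=
  PresentedGroup.one_of_mem ⟨r, hr, rfl⟩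

theorem Pres.ev_rotate (P : Pres) {r : List (Fin P.n × Bool)} (hr : P.ev r = 1) (k : ℕ) :
    P.ev (r.rotate k) = 1 := by
  rw [List.rotate_eq_drop_append_take_mod, P.ev_append]
  have := List.take_append_drop (k % r.length) r
  rw [← this, P.ev_append] at hr
  exact mul_eq_one_comm.1 hr

theorem Pres.ev_symm (P : Pres) {r : List (Fin P.n × Bool)} (hr : r ∈ P.symmRels) :
    P.ev r = 1 := by
  obtain ⟨r₀, h₀, c, hc, rfl⟩ := hr
  have h1 : P.ev (FreeGroup.reduce c) = P.ev c := by
    simp [Pres.ev, FreeGroup.reduce.self]
  rw [h1]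
  rcases hc with hc | hc
  · obtain ⟨k, rfl⟩ := hc.symm
    exact P.ev_rotate (P.ev_rel h₀) k
  · obtain ⟨k, rfl⟩ := hc.symm
    refine P.ev_rotate ?_ k
    rw [P.ev_invRev, P.ev_rel h₀, inv_one]

/-- value of a positive word -/
def Pres.val (P : Pres) (w : List (Fin P.n)) : P.group :=
  (w.map (fun i => (PresentedGroup.of i : P.group))).prod

theorem Pres.val_append (P : Pres) (u v : List (Fin P.n)) :
    P.val (u ++ v) = P.val u * P.val v := by
  simp [Pres.val]

theorem Pres.ev_eq_val (P : Pres) (hexp : ∀ g : P.group, g * g = 1)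
    (w : List (Fin P.n × Bool)) : P.ev w = P.val (w.map Prod.fst) := by
  induction w with
  | nil => simp [P.ev_nil, Pres.val]
  | cons a w ih =>
    have h1 : a :: w = [a] ++ w := rfl
    rw [h1, P.ev_append, ih, List.map_append, P.val_append]
    congr 1
    obtain ⟨i, b⟩ := a
    cases b
    · rw [P.ev_false]
      simp only [Pres.val, List.map_cons, List.map_nil, List.prod_cons, List.prod_nil, mul_one]
      exact inv_eq_of_mul_eq_one_right (hexp _)
    · rw [P.ev_true]
      simp [Pres.val]

theorem comm_of_exp {G : Type} [Group G] (hexp : ∀ g : G, g * g = 1) (a b : G) :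
    a * b = b * a := by
  have hinv : ∀ g : G, g⁻¹ = g := fun g => inv_eq_of_mul_eq_one_right (hexp g)
  rw [← hinv (a * b), mul_inv_rev, hinv, hinv]

theorem Pres.val_perm (P : Pres) (hexp : ∀ g : P.group, g * g = 1) {u v : List (Fin P.n)}
    (h : u.Perm v) : P.val u = P.val v := by
  unfold Pres.val
  refine List.Perm.prod_eq' (h.map _) ?_
  exact List.Pairwise.imp_of_mem (R := fun _ _ => True)
    (fun {a b} _ _ _ => comm_of_exp hexp a b) (List.pairwise_of_forall (fun _ _ => trivial))

theorem Pres.val_surj (P : Pres) (hexp : ∀ g : P.group, g * g = 1) (g : P.group) :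
    ∃ w, P.val w = g := by
  obtain ⟨x, rfl⟩ := PresentedGroup.mk_surjective _ g
  refine ⟨x.toWord.map Prod.fst, ?_⟩
  rw [← P.ev_eq_val hexp, Pres.ev, FreeGroup.mk_toWord]

theorem infix_double {α : Type} {a u b y : List α} (h : a ++ u ++ b = y ++ y) :
    u.take y.length = (y.rotate a.length).take u.length := by
  have hlen : a.length + u.length + b.length = y.length + y.length := by
    simpa [Nat.add_assoc] using congrArg List.length h
  apply List.ext_getElem
  · simp [Nat.min_comm]
  · intro j h1 h2
    simp only [List.length_take, lt_min_iff] at h1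
    simp only [List.getElem_take, List.getElem_rotate]
    have h3 : (a ++ u ++ b)[a.length + j]'(by simp; omega) = u[j] := by
      rw [List.getElem_append_left (by simp; omega), List.getElem_append_right (by omega)]
      simp
    rw [← h3]
    simp only [h]
    by_cases hc : a.length + j < y.length
    · rw [List.getElem_append_left hc]
      congr 1
      rw [Nat.add_comm, Nat.mod_eq_of_lt (by omega)]
    · rw [List.getElem_append_right (by omega)]
      congr 1
      rw [Nat.mod_eq_sub_mod (by omega), Nat.mod_eq_of_lt (by omega)]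
      omega

theorem isReduced_pos {n : ℕ} (y : List (Fin n)) :
    FreeGroup.IsReduced (y.map (fun i => (i, true))) := by
  unfold FreeGroup.IsReduced
  rw [List.isChain_map]
  exact List.Pairwise.isChain (List.pairwise_of_forall (fun _ _ _ => rfl))

theorem two_pow_le (D : ℕ) : 2 ^ D * (D + 1) ≤ 6 * D.factorial := by
  induction D with
  | zero => simp
  | succ D ih =>
    rcases Nat.lt_or_ge D 2 with h | h
    · interval_cases D <;> simp [Nat.factorial]
    · rw [Nat.factorial_succ, pow_succ]
      have h1 : 2 * (D + 1 + 1) ≤ (D + 1) * (D + 1) := by nlinarith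
      calc 2 ^ D * 2 * (D + 1 + 1) = 2 ^ D * (2 * (D + 1 + 1)) := by ring
        _ ≤ 2 ^ D * ((D + 1) * (D + 1)) := Nat.mul_le_mul_left _ h1
        _ = (2 ^ D * (D + 1)) * (D + 1) := by ring
        _ ≤ (6 * D.factorial) * (D + 1) := Nat.mul_le_mul_right _ ih
        _ = 6 * ((D + 1) * D.factorial) := by ring

/-- every generator occurs in a relator -/
theorem Pres.n_le (P : Pres) (hexp : ∀ g : P.group, g * g = 1) (hD : P.IsDehn) :
    P.n ≤ P.relLength := by
  classical
  have h : ∀ i : Fin P.n, ∃ r₀ ∈ P.rels, i ∈ r₀.map Prod.fst := by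
    intro i
    have hw : PresentedGroup.mk P.relSet (FreeGroup.mk ([i, i].map (fun i => (i, true)))) = 1 := by
      have := P.ev_eq_val hexp ([i, i].map (fun i => (i, true)))
      unfold Pres.ev at this
      rw [this]
      simpa [Pres.val] using hexp _
    obtain ⟨u, hu, r, ⟨r₀, h₀, c, hc, rfl⟩, v, hr, hlen⟩ := hD _ (by simp) (isReduced_pos _) hw
    obtain ⟨a, ha⟩ := List.exists_mem_of_length_pos (l := u) (by omega)
    have ha1 : a = (i, true) := by
      have := hu.subset ha
      simpa using this
    have ha2 : a ∈ c := by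
      have : a ∈ FreeGroup.reduce c := by rw [hr]; exact List.mem_append_left _ ha
      exact (FreeGroup.Red.sublist FreeGroup.reduce.red).subset this
    refine ⟨r₀, h₀, ?_⟩
    rcases hc with hc | hc
    · exact List.mem_map.2 ⟨a, hc.perm.subset ha2, by simp [ha1]⟩
    · have := hc.perm.subset ha2
      simp only [FreeGroup.invRev, List.mem_reverse, List.mem_map] at this
      obtain ⟨b, hb, hb2⟩ := this
      refine List.mem_map.2 ⟨b, hb, ?_⟩
      rw [ha1] at hb2
      exact (Prod.ext_iff.1 hb2).1
  have h1 : (Finset.univ : Finset (Fin P.n)) ⊆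
      P.rels.biUnion (fun r => (r.map Prod.fst).toFinset) := by
    intro i _
    obtain ⟨r₀, h₀, hi⟩ := h i
    exact Finset.mem_biUnion.2 ⟨r₀, h₀, List.mem_toFinset.2 hi⟩
  calc P.n = (Finset.univ : Finset (Fin P.n)).card := by simp
    _ ≤ _ := Finset.card_le_card h1
    _ ≤ ∑ r ∈ P.rels, (r.map Prod.fst).toFinset.card := Finset.card_biUnion_le
    _ ≤ P.relLength := Finset.sum_le_sum (fun r _ => by
        simpa using List.toFinset_card_le (r.map Prod.fst))

/-- a geodesic word of length `D` forces `2 ^ D ≤ 12 L` -/
theorem Pres.geodesic_bound (P : Pres) (hexp : ∀ g : P.group, g * g = 1) (hD : P.IsDehn)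
    (y : List (Fin P.n)) (hy : y ≠ []) (hgeo : ∀ v, P.val v = P.val y → y.length ≤ v.length) :
    2 ^ y.length ≤ 12 * P.relLength := by
  classical
  have geo : ∀ u c v : List (Fin P.n), (u ++ c).Perm y → P.val v = P.val u →
      u.length ≤ v.length := by
    intro u c v h1 h2
    have h3 : P.val (v ++ c) = P.val y := by
      rw [P.val_append, h2, ← P.val_append, P.val_perm hexp h1]
    have h4 := hgeo _ h3
    have h5 := h1.length_eq
    simp only [List.length_append] at h4 h5
    omega
  have hnd : y.Nodup := by
    rw [List.nodup_iff_sublist]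
    intro i hi
    obtain ⟨c, hc⟩ := hi.exists_perm_append
    have := geo [i, i] c [] hc.symm (by simpa [Pres.val] using (hexp _).symm)
    simp at this
  let T : Finset ((Σ _ : List (Fin P.n × Bool), ℕ) × Bool × ℕ) :=
    (P.rels.sigma (fun r => Finset.range r.length)) ×ˢ
      ((Finset.univ : Finset Bool) ×ˢ Finset.range (y.length + 1))
  let φ : ((Σ _ : List (Fin P.n × Bool), ℕ) × Bool × ℕ) → List (Fin P.n) := fun t =>
    (((FreeGroup.reduce ((if t.2.1 then t.1.1 else FreeGroup.invRev t.1.1).rotate t.1.2)).map
      Prod.fst).take y.length).rotate t.2.2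
  have hsub : y.permutations.toFinset ⊆ T.image φ := by
    intro y' hy'
    rw [List.mem_toFinset, List.mem_permutations] at hy'
    have hlen : y'.length = y.length := hy'.length_eq
    have hw : PresentedGroup.mk P.relSet
        (FreeGroup.mk ((y' ++ y').map (fun i => (i, true)))) = 1 := by
      have := P.ev_eq_val hexp ((y' ++ y').map (fun i => (i, true)))
      unfold Pres.ev at this
      rw [this, List.map_map]
      have h2 : (Prod.fst ∘ fun i : Fin P.n => (i, true)) = id := rfl
      rw [h2, List.map_id, P.val_append]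
      exact hexp _
    have hne : (y' ++ y').map (fun i => (i, true)) ≠ [] := by
      intro h
      have := congrArg List.length h
      simp only [List.length_map, List.length_append, List.length_nil] at this
      have h2 : y.length ≠ 0 := by simpa using hy
      omega
    obtain ⟨u, ⟨a, b, hab⟩, r, hr, v, hruv, hlt⟩ := hD _ hne (isReduced_pos _) hw
    have hab' : a.map Prod.fst ++ u.map Prod.fst ++ b.map Prod.fst = y' ++ y' := by
      have := congrArg (List.map Prod.fst) hab
      rw [List.map_map] at this
      have h2 : (Prod.fst ∘ fun i : Fin P.n => (i, true)) = id := rfl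
      rw [h2, List.map_id] at this
      simpa using this
    have hkey := infix_double hab'
    simp only [List.length_map] at hkey
    have hev : P.val (v.map Prod.fst) = P.val (u.map Prod.fst) := by
      have h1 := P.ev_symm hr
      rw [hruv, P.ev_append, P.ev_eq_val hexp, P.ev_eq_val hexp] at h1
      have h2 := hexp (P.val (u.map Prod.fst))
      rw [← h1] at h2
      exact (mul_left_cancel h2).symm
    have hlong : y.length < u.length := by
      by_contra hc
      push Not at hc
      rw [List.take_of_length_le (by simp; omega)] at hkey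
      have := geo (u.map Prod.fst) ((y'.rotate a.length).drop u.length) (v.map Prod.fst)
        (by
          rw [hkey]
          simp only [List.take_append_drop]
          exact (List.rotate_perm _ _).trans hy') hev
      simp only [List.length_map] at this
      omega
    rw [List.take_of_length_le (l := y'.rotate a.length) (by simp; omega), hlen] at hkey
    have hrot : (r.map Prod.fst).take y.length ~r y' := by
      rw [hruv, List.map_append, List.take_append_of_le_length (by simp; omega), hkey]
      exact (List.IsRotated.forall _ _)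
    obtain ⟨k, hk, hk2⟩ := List.isRotated_iff_mod.1 hrot
    have hk' : k < y.length + 1 := by
      have : ((r.map Prod.fst).take y.length).length ≤ y.length := by simp
      omega
    obtain ⟨r₀, h₀, c, hc, hrc⟩ := hr
    have hr0 : 0 < r₀.length := by
      have h1 : r.length ≤ c.length := by
        rw [hrc]; exact (FreeGroup.Red.sublist FreeGroup.reduce.red).length_le
      have h2 : c.length = r₀.length := by
        rcases hc with hc | hc
        · exact hc.perm.length_eq
        · rw [hc.perm.length_eq, FreeGroup.invRev_length]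
      have h3 : r.length = u.length + v.length := by rw [hruv]; simp
      omega
    rcases hc with hc | hc
    · obtain ⟨j, hj⟩ := hc.symm
      refine Finset.mem_image.2 ⟨(⟨r₀, j % r₀.length⟩, true, k), ?_, ?_⟩
      · simp [T, h₀, Nat.mod_lt _ hr0, hk']
      · simp only [φ, if_true, List.rotate_mod, hj, ← hrc, hk2]
    · obtain ⟨j, hj⟩ := hc.symm
      refine Finset.mem_image.2 ⟨(⟨r₀, j % r₀.length⟩, false, k), ?_, ?_⟩
      · simp [T, h₀, Nat.mod_lt _ hr0, hk']
      · have h1 : (FreeGroup.invRev r₀).rotate (j % r₀.length) = c := by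
          rw [← hj, ← FreeGroup.invRev_length (L₁ := r₀), List.rotate_mod]
        simp only [φ, Bool.false_eq_true, if_false, h1, ← hrc, hk2]
  have hT : T.card = P.relLength * (2 * (y.length + 1)) := by
    simp [T, Finset.card_sigma, Pres.relLength]
  have h1 : y.length.factorial ≤ P.relLength * (2 * (y.length + 1)) := by
    rw [← hT, ← List.length_permutations,
      ← List.toFinset_card_of_nodup (List.nodup_permutations y hnd)]
    exact (Finset.card_le_card hsub).trans Finset.card_image_le
  have h2 := two_pow_le y.length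
  have h3 : 2 ^ y.length * (y.length + 1) ≤ (12 * P.relLength) * (y.length + 1) := by
    calc _ ≤ 6 * y.length.factorial := h2
      _ ≤ 6 * (P.relLength * (2 * (y.length + 1))) := Nat.mul_le_mul_left _ h1
      _ = _ := by ring
  exact Nat.le_of_mul_le_mul_right h3 (by omega)

/-- size lower bound for Dehn presentations of elementary abelian 2-groups -/
theorem Pres.dehn_bound (P : Pres) (hexp : ∀ g : P.group, g * g = 1) (hD : P.IsDehn)
    (k : ℕ) (hk : 12 * P.relLength < 2 ^ k) (hk1 : 1 ≤ k) :
    Nat.card P.group ≤ (P.relLength + 1) ^ (k - 1) := by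
  classical
  have h1 : ∀ g : P.group, ∃ w, P.val w = g ∧ w.length ≤ k - 1 := by
    intro g
    have hex : ∃ m, ∃ w : List (Fin P.n), P.val w = g ∧ w.length = m := by
      obtain ⟨w, hw⟩ := P.val_surj hexp g
      exact ⟨_, w, hw, rfl⟩
    obtain ⟨y, hy, hym⟩ := Nat.find_spec hex
    refine ⟨y, hy, ?_⟩
    by_cases hne : y = []
    · simp [hne]
    · have := P.geodesic_bound hexp hD y hne (fun v hv => by
        rw [hym]
        exact Nat.find_min' hex ⟨v, hv.trans hy, rfl⟩)
      have h2 : 2 ^ y.length < 2 ^ k := lt_of_le_of_lt this hk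
      have := (Nat.pow_lt_pow_iff_right (by norm_num)).1 h2
      omega
  let ψ : (Fin (k - 1) → Option (Fin P.n)) → P.group := fun f =>
    P.val ((List.ofFn f).filterMap id)
  have hψ : Function.Surjective ψ := by
    intro g
    obtain ⟨w, hw, hlen⟩ := h1 g
    refine ⟨fun i => w[i.1]?, ?_⟩
    simp only [ψ]
    rw [← hw]
    congr 1
    have : List.ofFn (fun i : Fin (k - 1) => w[i.1]?)
        = w.map some ++ List.replicate (k - 1 - w.length) none := by
      apply List.ext_getElem
      · simp; omega
      · intro i h1 h2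
        simp only [List.getElem_ofFn]
        by_cases hi : i < w.length
        · rw [List.getElem_append_left (by simpa using hi)]
          simp [hi]
        · rw [List.getElem_append_right (by simpa using hi)]
          simp only [List.getElem_replicate]
          exact List.getElem?_eq_none (by omega)
    rw [this]
    simp [List.filterMap_append]
  have h2 := Nat.card_le_card_of_surjective ψ hψ
  refine h2.trans ?_
  simp only [Nat.card_eq_fintype_card, Fintype.card_pi, Fintype.card_option, Fintype.card_fin,
    Finset.prod_const, Finset.card_univ]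
  exact Nat.pow_le_pow_left (by have := P.n_le hexp hD; omega) _

/-- the relators of the standard presentation of `(ℤ/2)^n` -/
def elemRels (n : ℕ) : Finset (List (Fin n × Bool)) :=
  (Finset.univ.image (fun i : Fin n => [(i, true), (i, true)])) ∪
    (Finset.univ.image (fun p : Fin n × Fin n =>
      [(p.1, true), (p.2, true), (p.1, false), (p.2, false)]))

/-- the standard presentation of `(ℤ/2)^n` -/
@[reducible] def elem (n : ℕ) : Pres := ⟨n, elemRels n⟩

theorem mem_elemRels {n : ℕ} {r : List (Fin n × Bool)} : r ∈ elemRels n ↔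
    (∃ i, [(i, true), (i, true)] = r) ∨
      ∃ i j, [(i, true), (j, true), (i, false), (j, false)] = r := by
  simp [elemRels]

theorem elem_size (n : ℕ) : (elem n).size ≤ 9 * n ^ 2 := by
  classical
  have h1 : (elem n).relLength ≤ (elemRels n).card • 4 := by
    refine Finset.sum_le_card_nsmul _ _ _ (fun r hr => ?_)
    rcases mem_elemRels.1 hr with ⟨i, rfl⟩ | ⟨i, j, rfl⟩ <;> simp
  have h4 : (elemRels n).card ≤ n + n ^ 2 := by
    refine (Finset.card_union_le _ _).trans (Nat.add_le_add ?_ ?_)
    · exact Finset.card_image_le.trans (by simp)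
    · exact Finset.card_image_le.trans (by simp [sq])
  have h2 : n ≤ n ^ 2 := Nat.le_self_pow (by norm_num) n
  have h3 : (elem n).n = n := rfl
  unfold Pres.size
  simp only [smul_eq_mul] at h1
  omega

theorem elem_sq (n : ℕ) (i : Fin n) :
    (PresentedGroup.of i : (elem n).group) * PresentedGroup.of i = 1 := by
  have := (elem n).ev_rel (r := [(i, true)] ++ [(i, true)]) (mem_elemRels.2 (Or.inl ⟨i, rfl⟩))
  rwa [Pres.ev_append, Pres.ev_true] at this

theorem elem_comm (n : ℕ) (i j : Fin n) :
    (PresentedGroup.of i : (elem n).group) * PresentedGroup.of j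
      = PresentedGroup.of j * PresentedGroup.of i := by
  have := (elem n).ev_rel (r := [(i, true)] ++ [(j, true)] ++ [(i, false)] ++ [(j, false)])
    (mem_elemRels.2 (Or.inr ⟨i, j, rfl⟩))
  rw [Pres.ev_append, Pres.ev_append, Pres.ev_append, Pres.ev_true, Pres.ev_true, Pres.ev_false,
    Pres.ev_false] at this
  rw [mul_inv_eq_one, mul_inv_eq_iff_eq_mul] at this
  exact this

theorem elem_comm' (n : ℕ) (a b : (elem n).group) : a * b = b * a := by
  have h1 : ∀ (i : Fin n) (g : (elem n).group),
      g ∈ Subgroup.centralizer {(PresentedGroup.of i : (elem n).group)} := by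
    intro i g
    refine PresentedGroup.generated_by _ _ (fun j => ?_) g
    rw [Subgroup.mem_centralizer_singleton_iff]
    exact elem_comm n j i
  have h2 : a ∈ Subgroup.center (elem n).group := by
    refine PresentedGroup.generated_by _ _ (fun j => ?_) a
    rw [Subgroup.mem_center_iff]
    intro g
    exact Subgroup.mem_centralizer_singleton_iff.1 (h1 j g)
  exact (Subgroup.mem_center_iff.1 h2 b).symm

theorem elem_exp (n : ℕ) (g : (elem n).group) : g * g = 1 := by
  let H : Subgroup (elem n).group :=
    { carrier := {g | g * g = 1}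
      one_mem' := by simp
      mul_mem' := by
        intro a b ha hb
        simp only [Set.mem_ofPred_eq] at ha hb ⊢
        calc a * b * (a * b) = a * (b * a) * b := by group
          _ = a * (a * b) * b := by rw [elem_comm' n b a]
          _ = (a * a) * (b * b) := by group
          _ = 1 := by rw [ha, hb, one_mul]
      inv_mem' := by
        intro a ha
        simp only [Set.mem_ofPred_eq] at ha ⊢
        rw [← mul_inv_rev, ha, inv_one] }
  exact PresentedGroup.generated_by _ H (fun j => elem_sq n j) g

theorem elem_finite (n : ℕ) : Finite (elem n).group := by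
  let _ : CommGroup (elem n).group :=
    { (inferInstance : Group (elem n).group) with mul_comm := elem_comm' n }
  have : Group.FG (elem n).group :=
    Group.fg_iff.2 ⟨_, PresentedGroup.closure_range_of _, Set.finite_range _⟩
  refine CommGroup.finite_of_fg_isMulTorsion _ (fun g => ?_)
  exact isOfFinOrder_iff_pow_eq_one.2 ⟨2, by norm_num, by rw [sq]; exact elem_exp n g⟩

theorem elem_card (n : ℕ) : 2 ^ n ≤ Nat.card (elem n).group := by
  classical
  have := elem_finite n
  let f : Fin n → Multiplicative (Fin n → ZMod 2) := fun i => Multiplicative.ofAdd (Pi.single i 1)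
  have hexp : ∀ g : Multiplicative (Fin n → ZMod 2), g * g = 1 := by
    intro g
    apply Multiplicative.toAdd.injective
    ext i
    simp [CharTwo.add_self_eq_zero]
  have hf : ∀ r ∈ (elem n).relSet, FreeGroup.lift f r = 1 := by
    rintro _ ⟨r, hr, rfl⟩
    rcases mem_elemRels.1 hr with ⟨i, rfl⟩ | ⟨i, j, rfl⟩
    · simpa using hexp (f i)
    · simp [mul_comm, mul_left_comm]
  have hsurj : Function.Surjective (PresentedGroup.toGroup hf) := by
    rw [← MonoidHom.range_eq_top, eq_top_iff]
    intro g _
    have hg : g = ∏ i, (f i) ^ (Multiplicative.toAdd g i).val := by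
      apply Multiplicative.toAdd.injective
      ext j
      simp only [f, toAdd_prod, Finset.sum_apply, toAdd_pow, toAdd_ofAdd, Pi.smul_apply]
      rw [Finset.sum_eq_single j]
      · rw [Pi.single_eq_same, nsmul_one, ZMod.natCast_zmod_val]
      · intro i _ hi
        rw [Pi.single_eq_of_ne (Ne.symm hi), smul_zero]
      · simp
    rw [hg]
    refine Subgroup.prod_mem _ (fun i _ => Subgroup.pow_mem _ ?_ _)
    exact ⟨PresentedGroup.of i, PresentedGroup.toGroup.of hf⟩
  have := Nat.card_le_card_of_surjective _ hsurj
  simpa using this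

theorem hyperbolic_of_finite (P : Pres) [Finite P.group] : P.IsHyperbolic := by
  obtain ⟨δ, hδ⟩ := (Set.finite_range (fun p : P.group × P.group => P.cayley.dist p.1 p.2)).bddAbove
  refine ⟨δ, fun x y z p q r _ _ _ v _ => ⟨y, Or.inl q.start_mem_support, ?_⟩⟩
  exact hδ ⟨(v, y), rfl⟩

/-- any Dehn presentation of `(ℤ/2)^(k^2)` has relators of total length at least `2^k/12` -/
theorem elem_dehn (k : ℕ) (hk : 1 ≤ k) (P' : Pres) (hD : P'.IsDehn)
    (e : (elem (k ^ 2)).group ≃* P'.group) : 2 ^ k ≤ 12 * P'.relLength := by
  by_contra hc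
  push Not at hc
  have hexp : ∀ g : P'.group, g * g = 1 := by
    intro g
    obtain ⟨g, rfl⟩ := e.surjective g
    rw [← map_mul, elem_exp, map_one]
  have h1 := P'.dehn_bound hexp hD k hc hk
  have h2 := elem_card (k ^ 2)
  rw [Nat.card_congr e.toEquiv] at h2
  have h3 : P'.relLength + 1 ≤ 2 ^ k := by omega
  have h4 : (P'.relLength + 1) ^ (k - 1) ≤ (2 ^ k) ^ (k - 1) := Nat.pow_le_pow_left h3 _
  have h5 : 2 ^ (k ^ 2) ≤ 2 ^ (k * (k - 1)) := by
    rw [pow_mul]
    omega
  have h6 := (Nat.pow_le_pow_iff_right (by norm_num)).1 h5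
  obtain ⟨j, rfl⟩ : ∃ j, k = j + 1 := ⟨k - 1, by omega⟩
  simp only [Nat.add_sub_cancel] at h6
  nlinarith

open Turing in
theorem main {Γ₀ Γ₁ : Type} (ea : Pres → List Γ₀) (eb : Pres → List Γ₁)
    (hea : ∃ q : Polynomial ℕ, ∀ P, (ea P).length ≤ q.eval P.size)
    (heb : ∀ P, P.relLength ≤ (eb P).length)
    (M : TM2ComputableAux Γ₀ Γ₁) (p : Polynomial ℕ) :
    ¬ ∀ P : Pres, P.IsHyperbolic → ∃ P' : Pres,
      Nonempty (TM2OutputsInTime M.tm ((ea P).map M.inputAlphabet.symm)
        (some ((eb P').map M.outputAlphabet.symm)) (p.eval P.size)) ∧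
      P'.IsDehn ∧ Nonempty (P.group ≃* P'.group) := by
  intro h
  obtain ⟨q, hq⟩ := hea
  obtain ⟨C, hC⟩ := output_length M.tm
  obtain ⟨k, hk1, hk⟩ := poly_lt
    ((12 * (q + Polynomial.C C * p)).comp (9 * (Polynomial.X ^ 2) ^ 2))
  have := elem_finite (k ^ 2)
  obtain ⟨P', hrun, hD, ⟨e⟩⟩ := h (elem (k ^ 2)) (hyperbolic_of_finite _)
  have h1 := hC _ _ _ hrun
  simp only [List.length_map] at h1
  have h2 := elem_dehn k hk1 P' hD e
  have h3 := heb P'
  have h4 := hq (elem (k ^ 2))
  have h5 := elem_size (k ^ 2)
  have h6 := poly_mono q h5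
  have h7 := Nat.mul_le_mul_left C (poly_mono p h5)
  simp only [Polynomial.eval_comp, Polynomial.eval_mul, Polynomial.eval_add, Polynomial.eval_C,
    Polynomial.eval_pow, Polynomial.eval_X, Polynomial.eval_ofNat] at hk
  omega

end Pool.Agent.H895Z.Dehn
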