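import Mathlib

set_option autoImplicit false

/-!
# The constant evasion number is at most cov(M), hence at most the dominating number

`ED F` says that every function `ℕ → ℕ` is everywhere different from some member of `F`.
The least size `κ` of such a family is the covering number of the meager ideal.
-/

open Cardinal

namespace Pool.Agent.H895Z.Evasion

/-- every function is everywhere different from some member of `F` -/
def ED (F : Set (ℕ → ℕ)) : Prop := ∀ g : ℕ → ℕ, ∃ f ∈ F, ∀ n, f n ≠ g n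

/-- fewer than `κ` functions can be met once by a single function -/
def Small (κ : Cardinal.{0}) : Prop :=
  ∀ (ι : Type) (f : ι → ℕ → ℕ), #ι < κ → ∃ g : ℕ → ℕ, ∀ i, ∃ n, f i n = g n

theorem ED.aleph0_lt {F : Set (ℕ → ℕ)} (h : ED F) : ℵ₀ < #F := by
  by_contra hc
  push Not at hc
  have hcount : F.Countable := by
    rwa [← Cardinal.le_aleph0_iff_set_countable]
  obtain ⟨f0, hf0, -⟩ := h (fun _ => 0)
  obtain ⟨e, he⟩ := hcount.exists_eq_range ⟨f0, hf0⟩
  obtain ⟨f, hf, hne⟩ := h (fun n => e n n)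
  rw [he] at hf
  obtain ⟨n, rfl⟩ := hf
  exact hne n rfl

theorem exists_min_ED (F0 : Set (ℕ → ℕ)) (h0 : ED F0) :
    ∃ F : Set (ℕ → ℕ), ED F ∧ #F ≤ #F0 ∧ Small #F := by
  classical
  obtain ⟨F, hF, hmin⟩ := (wellFounded_lt (α := Cardinal.{0})).has_min
    {c | ∃ F : Set (ℕ → ℕ), ED F ∧ #F = c} ⟨#F0, F0, h0, rfl⟩
  obtain ⟨F, hF, rfl⟩ := hF
  refine ⟨F, hF, not_lt.1 (hmin _ ⟨F0, h0, rfl⟩), ?_⟩
  intro ι f hι
  by_contra hc
  push Not at hc
  have hED : ED (Set.range f) := by
    intro g
    obtain ⟨i, hi⟩ := hc g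
    exact ⟨f i, ⟨i, rfl⟩, hi⟩
  exact hmin _ ⟨_, hED, rfl⟩ (lt_of_le_of_lt Cardinal.mk_range_le hι)

theorem Small.gen {κ : Cardinal.{0}} (h : Small κ) (ι V : Type) [Countable V] [Nonempty V]
    (f : ι → ℕ → V) (hι : #ι < κ) : ∃ g : ℕ → V, ∀ i, ∃ n, f i n = g n := by
  obtain ⟨e, he⟩ := exists_injective_nat V
  obtain ⟨g, hg⟩ := h ι (fun i n => e (f i n)) hι
  refine ⟨fun n => Function.invFun e (g n), fun i => ?_⟩
  obtain ⟨n, hn⟩ := hg i
  refine ⟨n, ?_⟩
  simp only at hn ⊢
  rw [← hn, Function.leftInverse_invFun he]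

theorem mk_Iic_lt {κ : Cardinal.{0}} (hκ : ℵ₀ < κ) (t : κ.ord.ToType) :
    #(Set.Iic t) < κ := by
  have h1 : #(Set.Iio t) < κ := by
    have := Cardinal.mk_Iio_lt t (by simp)
    simpa using this
  rw [← Set.Iio_insert]
  refine lt_of_le_of_lt Cardinal.mk_insert_le ?_
  exact Cardinal.add_lt_of_lt hκ.le h1 (lt_trans Cardinal.one_lt_aleph0 hκ)

/-- the least size of an `ED` family has uncountable cofinality -/
theorem bounded_seq {F : Set (ℕ → ℕ)} (hF : ED F) (hS : Small #F)
    (α : ℕ → (#F).ord.ToType) : ∃ t, ∀ j, α j ≤ t := by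
  by_contra hc
  push Not at hc
  have hκ := hF.aleph0_lt
  obtain ⟨e⟩ : Nonempty ((#F).ord.ToType ≃ F) := Cardinal.eq.1 (by simp)
  have : ∀ j : ℕ, ∃ g : ℕ → ℕ, ∀ i : Set.Iic (α j), ∃ n, (e i.1).1 (Nat.pair j n) = g n :=
    fun j => hS (Set.Iic (α j)) (fun i n => (e i.1).1 (Nat.pair j n)) (mk_Iic_lt hκ _)
  choose g hg using this
  obtain ⟨f, hf, hne⟩ := hF (fun m => g m.unpair.1 m.unpair.2)
  obtain ⟨j, hj⟩ := hc (e.symm ⟨f, hf⟩)
  obtain ⟨n, hn⟩ := hg j ⟨e.symm ⟨f, hf⟩, hj.le⟩
  apply hne (Nat.pair j n)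
  simpa using hn

/-- step (a): an interval partition that often swallows the intervals of each family member -/
theorem Small.partition {κ : Cardinal.{0}} (h : Small κ) (hκ : ℵ₀ < κ) (ι : Type)
    (l : ι → ℕ → ℕ) (hι : #ι < κ) :
    ∃ j : ℕ → ℕ, StrictMono j ∧ ∀ i, {m | j m + l i (j m) ≤ j (m + 1)}.Infinite := by
  let L : ι → ℕ → ℕ := fun i n => n + (Finset.range (n + 1)).sup (l i) + 1
  have hLmono : ∀ i, Monotone (L i) := by
    intro i a b hab
    have : (Finset.range (a + 1)).sup (l i) ≤ (Finset.range (b + 1)).sup (l i) :=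
      Finset.sup_mono (Finset.range_mono (by omega))
    simp only [L]
    omega
  have hLlt : ∀ i n, n < L i n := by
    intro i n
    simp only [L]
    omega
  have hLl : ∀ i n, n + l i n ≤ L i n := by
    intro i n
    have : l i n ≤ (Finset.range (n + 1)).sup (l i) :=
      Finset.le_sup (f := l i) (Finset.mem_range.2 (by omega))
    simp only [L]
    omega
  have hcard : #(ι × ℕ) < κ := by
    rw [Cardinal.mk_prod]
    simp only [Cardinal.lift_id, Cardinal.mk_nat]
    exact Cardinal.mul_lt_of_lt hκ.le hι hκ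
  obtain ⟨g, hg⟩ := h (ι × ℕ) (fun p m => (L p.1)^[2 * m] 0 + p.2 + 1) hcard
  let j : ℕ → ℕ := fun m => m + (Finset.range (m + 1)).sup g
  have hjmono : StrictMono j := by
    apply strictMono_nat_of_lt_succ
    intro m
    have : (Finset.range (m + 1)).sup g ≤ (Finset.range (m + 1 + 1)).sup g :=
      Finset.sup_mono (Finset.range_mono (by omega))
    simp only [j]
    omega
  have hgj : ∀ m, g m ≤ j m := by
    intro m
    have : g m ≤ (Finset.range (m + 1)).sup g :=
      Finset.le_sup (f := g) (Finset.mem_range.2 (by omega))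
    simp only [j]
    omega
  refine ⟨j, hjmono, fun i => ?_⟩
  intro hfin
  obtain ⟨m1, hm1⟩ := hfin.bddAbove
  set m0 := m1 + 1 with hm0
  have hbad : ∀ m, m0 ≤ m → j (m + 1) ≤ L i (j m) := by
    intro m hm
    by_contra hc
    have : m ∈ {m | j m + l i (j m) ≤ j (m + 1)} := by
      have := hLl i (j m)
      simp only [Set.mem_ofPred_eq]
      omega
    have := hm1 this
    omega
  have h1 : ∀ r, j (m0 + r) ≤ (L i)^[r] (j m0) := by
    intro r
    induction r with
    | zero => simp
    | succ r ih =>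
      rw [Function.iterate_succ_apply']
      exact le_trans (hbad (m0 + r) (by omega)) (hLmono i ih)
  have h2 : ∀ n, n ≤ (L i)^[n] 0 := by
    intro n
    induction n with
    | zero => simp
    | succ n ih =>
      rw [Function.iterate_succ_apply']
      have := hLlt i ((L i)^[n] 0)
      omega
  have h3 : Monotone (fun n => (L i)^[n] 0) := by
    apply monotone_nat_of_le_succ
    intro n
    rw [Function.iterate_succ_apply']
    exact (hLlt i _).le
  have h4 : ∀ m, m0 + j m0 ≤ m → g m ≤ (L i)^[2 * m] 0 := by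
    intro m hm
    obtain ⟨r, rfl⟩ : ∃ r, m = m0 + r := ⟨m - m0, by omega⟩
    calc g (m0 + r) ≤ j (m0 + r) := hgj _
      _ ≤ (L i)^[r] (j m0) := h1 r
      _ ≤ (L i)^[r] ((L i)^[j m0] 0) := (hLmono i).iterate r (h2 _)
      _ = (L i)^[r + j m0] 0 := (Function.iterate_add_apply _ _ _ _).symm
      _ ≤ (L i)^[2 * (m0 + r)] 0 := h3 (by omega)
  obtain ⟨n, hn⟩ := hg (i, (Finset.range (m0 + j m0)).sup g)
  simp only at hn
  by_cases hc : m0 + j m0 ≤ n
  · have := h4 n hc
    omega
  · have : g n ≤ (Finset.range (m0 + j m0)).sup g :=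
      Finset.le_sup (f := g) (Finset.mem_range.2 (by omega))
    omega

/-- step (b): fewer than `κ` sequences of words are matched by a single real -/
theorem Small.hit {κ : Cardinal.{0}} (h : Small κ) (hκ : ℵ₀ < κ) (ι : Type)
    (z : ι → ℕ → List Bool) (hι : #ι < κ) :
    ∃ x : ℕ → Bool, ∀ i, ∃ n, ∀ p, p < (z i n).length → x (n + p) = (z i n).getD p false := by
  classical
  obtain ⟨j, hj, hinf⟩ := h.partition hκ ι (fun i n => (z i n).length) hι
  have hS : ∀ i (r : ℕ), ∃ S : Finset ℕ,
      (↑S : Set ℕ) ⊆ {m | j m + (z i (j m)).length ≤ j (m + 1)} ∧ S.card = r + 1 :=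
    fun i r => (hinf i).exists_subset_card_eq (r + 1)
  choose S hSsub hScard using hS
  obtain ⟨g, hg⟩ := h.gen ι (Finset ℕ × List (List Bool))
    (fun i r => (S i r, (List.range ((S i r).sup id + 1)).map (fun m => z i (j m)))) hι
  let t : ℕ → Finset ℕ := fun r => if r + 1 ≤ (g r).1.card then (g r).1 else Finset.range (r + 1)
  have ht : ∀ r, r + 1 ≤ (t r).card := by
    intro r
    simp only [t]
    split_ifs with h1
    · exact h1
    · simp
  have hall : ∀ s : Finset ℕ, s.card ≤ (s.biUnion t).card := by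
    intro s
    rcases s.eq_empty_or_nonempty with rfl | hs
    · simp
    · have h1 : s ⊆ Finset.range (s.max' hs + 1) := by
        intro a ha
        exact Finset.mem_range.2 (Nat.lt_succ_of_le (s.le_max' a ha))
      have h2 : t (s.max' hs) ⊆ s.biUnion t := Finset.subset_biUnion_of_mem t (s.max'_mem hs)
      calc s.card ≤ (Finset.range (s.max' hs + 1)).card := Finset.card_le_card h1
        _ = s.max' hs + 1 := Finset.card_range _
        _ ≤ (t (s.max' hs)).card := ht _
        _ ≤ _ := Finset.card_le_card h2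
  obtain ⟨μ, hμinj, hμ⟩ := (Finset.all_card_le_biUnion_card_iff_exists_injective t).1 hall
  let x : ℕ → Bool := fun p =>
    if hp : ∃ r, j (μ r) ≤ p ∧ p < j (μ r + 1) then
      ((g hp.choose).2.getD (μ hp.choose) []).getD (p - j (μ hp.choose)) false else false
  have hx : ∀ r p, j (μ r) ≤ p → p < j (μ r + 1) →
      x p = ((g r).2.getD (μ r) []).getD (p - j (μ r)) false := by
    intro r p h1 h2
    have hp : ∃ r, j (μ r) ≤ p ∧ p < j (μ r + 1) := ⟨r, h1, h2⟩
    have hc := hp.choose_spec
    have heq : hp.choose = r := by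
      apply hμinj
      have a1 : j (μ hp.choose) < j (μ r + 1) := lt_of_le_of_lt hc.1 h2
      have a2 : j (μ r) < j (μ hp.choose + 1) := lt_of_le_of_lt h1 hc.2
      have b1 := hj.lt_iff_lt.1 a1
      have b2 := hj.lt_iff_lt.1 a2
      omega
    simp only [x, dif_pos hp, heq]
  refine ⟨x, fun i => ?_⟩
  obtain ⟨r, hr⟩ := hg i
  have hg1 : (g r).1 = S i r := by rw [← hr]
  have hg2 : (g r).2 = (List.range ((S i r).sup id + 1)).map (fun m => z i (j m)) := by rw [← hr]
  have hμS : μ r ∈ S i r := by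
    have := hμ r
    simp only [t, hg1, hScard, le_refl, if_true] at this
    exact this
  have hA : j (μ r) + (z i (j (μ r))).length ≤ j (μ r + 1) := hSsub i r hμS
  have hlt : μ r < (S i r).sup id + 1 :=
    Nat.lt_succ_of_le (Finset.le_sup (f := id) hμS)
  refine ⟨j (μ r), fun p hp => ?_⟩
  rw [hx r (j (μ r) + p) (by omega) (by omega), hg2]
  have : ((List.range ((S i r).sup id + 1)).map (fun m => z i (j m))).getD (μ r) []
      = z i (j (μ r)) := by
    rw [List.getD_eq_getElem _ _ (by simpa using hlt)]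
    simp
  rw [this]
  simp

/-- the initial segment of length `n` of a real -/
def pre (x : ℕ → Bool) (n : ℕ) : List Bool := (List.range n).map x

theorem pre_length (x : ℕ → Bool) (n : ℕ) : (pre x n).length = n := by simp [pre]

theorem pre_add (x : ℕ → Bool) (n : ℕ) (w : List Bool)
    (h : ∀ p, p < w.length → x (n + p) = w.getD p false) :
    pre x (n + w.length) = pre x n ++ w := by
  unfold pre
  rw [List.range_add, List.map_append]
  congr 1
  apply List.ext_getElem
  · simp
  · intro p h1 h2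
    have := h p h2
    rw [List.getD_eq_getElem _ _ h2] at this
    simpa using this

theorem fold_ext (W : List Bool → List Bool) (hW : ∀ s, s <+: W s) (S : List (List Bool)) :
    ∃ w : List Bool, ∀ s ∈ S, ∃ s', W s' <+: s ++ w := by
  induction S with
  | nil => exact ⟨[], by simp⟩
  | cons a S ih =>
    obtain ⟨w, hw⟩ := ih
    obtain ⟨u, hu⟩ := hW (a ++ w)
    refine ⟨w ++ u, fun s hs => ?_⟩
    rcases List.mem_cons.1 hs with rfl | hs
    · exact ⟨s ++ w, by rw [← List.append_assoc, hu]⟩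
    · obtain ⟨s', hs'⟩ := hw s hs
      refine ⟨s', hs'.trans ?_⟩
      rw [← List.append_assoc]
      exact List.prefix_append _ _

/-- fewer than `κ` dense open sets have a common point -/
theorem Small.cohen {κ : Cardinal.{0}} (h : Small κ) (hκ : ℵ₀ < κ) (ι : Type)
    (W : ι → List Bool → List Bool) (hW : ∀ i s, s <+: W i s) (hι : #ι < κ) :
    ∃ x : ℕ → Bool, ∀ i, ∃ s m, W i s <+: pre x m := by
  have hz : ∀ i (n : ℕ), ∃ w : List Bool, ∀ s : List Bool, s.length = n →
      ∃ s', W i s' <+: s ++ w := by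
    intro i n
    obtain ⟨w, hw⟩ := fold_ext (W i) (hW i) (List.finite_length_eq Bool n).toFinset.toList
    exact ⟨w, fun s hs => hw s (by simpa using hs)⟩
  choose z hz using hz
  obtain ⟨x, hx⟩ := h.hit hκ ι z hι
  refine ⟨x, fun i => ?_⟩
  obtain ⟨n, hn⟩ := hx i
  obtain ⟨s', hs'⟩ := hz i n (pre x n) (pre_length x n)
  exact ⟨s', n + (z i n).length, by rw [pre_add x n _ hn]; exact hs'⟩

/-- the nested extension maps -/
def Phi : List (List Bool × (ℕ → ℕ)) → List Bool → List Bool
  | [] => fun s => s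
  | (o, h) :: l => fun s => (fun u => Phi l (u ++ o))^[h (Encodable.encode s)] (Phi l s)

theorem iterate_prefix (G : List Bool → List Bool) (hG : ∀ u, u <+: G u) (u : List Bool)
    {a b : ℕ} (hab : a ≤ b) : G^[a] u <+: G^[b] u := by
  induction b, hab using Nat.le_induction with
  | base => exact List.prefix_refl _
  | succ b _ ih =>
    rw [Function.iterate_succ_apply']
    exact ih.trans (hG _)

theorem prefix_Phi (l : List (List Bool × (ℕ → ℕ))) : ∀ s, s <+: Phi l s := by
  induction l with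
  | nil => intro s; exact List.prefix_refl _
  | cons a l ih =>
    intro s
    obtain ⟨o, h⟩ := a
    have := iterate_prefix (fun u => Phi l (u ++ o))
      (fun u => (List.prefix_append u o).trans (ih _)) (Phi l s)
      (Nat.zero_le (h (Encodable.encode s)))
    exact (ih s).trans this

/-- `t` contains, after `s`, a word `o` at a place where `o` is a failure -/
def Hit (R : List Bool → List Bool → Prop) (s t : List Bool) : Prop :=
  ∃ s' o, s <+: s' ∧ R s' o ∧ s' ++ o <+: t

theorem rounds {F : Set (ℕ → ℕ)} (hF : ED F) (R : List Bool → List Bool → Prop)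
    (O : List (List Bool)) :
    ∃ l : List (List Bool × F), ∀ s,
      Hit R s (Phi (l.map (fun p => (p.1, p.2.1))) s) ∨
        ∀ o ∈ O, ¬ R (Phi (l.map (fun p => (p.1, p.2.1))) s) o := by
  classical
  induction O with
  | nil => exact ⟨[], fun s => Or.inr (by simp)⟩
  | cons o O ih =>
    obtain ⟨l, hl⟩ := ih
    set l' := l.map (fun p => (p.1, p.2.1)) with hl'
    let G : List Bool → List Bool := fun u => Phi l' (u ++ o)
    have hG : ∀ u, u <+: G u := fun u => (List.prefix_append u o).trans (prefix_Phi l' _)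
    let n : List Bool → ℕ := fun s =>
      if hs : ∃ m, R (G^[m] (Phi l' s)) o then Nat.find hs else 0
    obtain ⟨h, hh, hne⟩ := hF (fun m => n ((Encodable.decode m).getD []))
    refine ⟨(o, ⟨h, hh⟩) :: l, fun s => ?_⟩
    have hne' : h (Encodable.encode s) ≠ n s := by
      have := hne (Encodable.encode s)
      simpa using this
    have hPhi : Phi (((o, (⟨h, hh⟩ : F)) :: l).map (fun p => (p.1, p.2.1))) s
        = G^[h (Encodable.encode s)] (Phi l' s) := rfl
    rw [hPhi]
    set a := h (Encodable.encode s) with ha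
    have hsu : ∀ m, s <+: G^[m] (Phi l' s) := fun m =>
      (prefix_Phi l' s).trans (iterate_prefix G hG _ (Nat.zero_le m))
    by_cases hR : R (G^[a] (Phi l' s)) o
    · left
      have hs : ∃ m, R (G^[m] (Phi l' s)) o := ⟨a, hR⟩
      have hn : n s = Nat.find hs := by simp only [n, dif_pos hs]
      have hle : Nat.find hs ≤ a := Nat.find_min' hs hR
      have hlt : Nat.find hs + 1 ≤ a := by omega
      refine ⟨G^[Nat.find hs] (Phi l' s), o, hsu _, Nat.find_spec hs, ?_⟩
      refine List.IsPrefix.trans ?_ (iterate_prefix G hG _ hlt)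
      rw [Function.iterate_succ_apply']
      exact prefix_Phi l' _
    · obtain ⟨s1, hs1, hs2⟩ : ∃ s1, s <+: s1 ∧ G^[a] (Phi l' s) = Phi l' s1 := by
        rcases a with _ | a
        · exact ⟨s, List.prefix_refl _, rfl⟩
        · refine ⟨G^[a] (Phi l' s) ++ o, (hsu a).trans (List.prefix_append _ _), ?_⟩
          rw [Function.iterate_succ_apply']
      rw [hs2] at hR ⊢
      rcases hl s1 with ⟨s', o', h1, h2, h3⟩ | h2
      · exact Or.inl ⟨s', o', hs1.trans h1, h2, h3⟩
      · right
        intro o' ho'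
        rcases List.mem_cons.1 ho' with rfl | ho'
        · exact hR
        · exact h2 o' ho'

/-- `o` is a word of length `k` all of whose letters the predictor gets wrong after `s` -/
def Run (π : List Bool → Bool) (k : ℕ) (s o : List Bool) : Prop :=
  o.length = k ∧ ∀ (x : ℕ → Bool) (m : ℕ), s ++ o <+: pre x m →
    ∀ i ∈ Finset.Ico s.length (s.length + k), x i ≠ π (pre x i)

theorem pre_of_prefix {x : ℕ → Bool} {m : ℕ} {u : List Bool} {b : Bool}
    (h : u ++ [b] <+: pre x m) : pre x u.length = u ∧ x u.length = b := by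
  have hlen : u.length + 1 ≤ m := by
    have := h.length_le
    simpa [pre] using this
  have h1 : pre x (u.length + 1) <+: pre x m := by
    obtain ⟨c, rfl⟩ : ∃ c, m = u.length + 1 + c := ⟨m - (u.length + 1), by omega⟩
    unfold pre
    rw [List.range_add (n := u.length + 1), List.map_append]
    exact List.prefix_append _ _
  have h2 : u ++ [b] = pre x (u.length + 1) := by
    apply (List.prefix_of_prefix_length_le h h1 (by simp [pre])).eq_of_length
    simp [pre]
  have h3 : pre x (u.length + 1) = pre x u.length ++ [x u.length] := by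
    simp [pre, List.range_succ]
  rw [h3] at h2
  have := List.append_inj h2 (by simp [pre])
  exact ⟨this.1.symm, by simpa using this.2.symm⟩

theorem exists_run (π : List Bool → Bool) (k : ℕ) (s : List Bool) : ∃ o, Run π k s o := by
  induction k with
  | zero => exact ⟨[], rfl, by simp⟩
  | succ k ih =>
    obtain ⟨o, ho, hrun⟩ := ih
    refine ⟨o ++ [!π (s ++ o)], by simp [ho], fun x m hm i hi => ?_⟩
    rw [← List.append_assoc] at hm
    rw [Finset.mem_Ico] at hi
    by_cases hc : i < s.length + k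
    · exact hrun x m ((List.prefix_append _ _).trans hm) i (Finset.mem_Ico.2 ⟨hi.1, hc⟩)
    · have hi' : i = (s ++ o).length := by simp [ho]; omega
      obtain ⟨h1, h2⟩ := pre_of_prefix hm
      rw [hi', h1, h2]
      cases π (s ++ o) <;> simp

/-- main theorem: from any `ED` family we get an evading family which is not larger -/
theorem evade_of_ED (F0 : Set (ℕ → ℕ)) (h0 : ED F0) :
    ∃ E : Set (ℕ → Bool), #E ≤ #F0 ∧
      ∀ π : List Bool → Bool, ∃ f ∈ E, ∀ k : ℕ,
        ∃ n, ∀ i ∈ Finset.Ico n (n + k), f i ≠ π (pre f i) := by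
  obtain ⟨F, hF, hle, hS⟩ := exists_min_ED F0 h0
  have hκ := hF.aleph0_lt
  have hinf : Infinite F := Cardinal.infinite_iff.2 hκ.le
  have hcard : #((#F).ord.ToType) = #(List (List Bool × F)) := by
    rw [Cardinal.mk_list_eq_mk, Cardinal.mk_prod]
    simp only [Cardinal.lift_id, Cardinal.mk_ord_toType]
    rw [Cardinal.mk_eq_aleph0 (List Bool), Cardinal.aleph0_mul_eq hκ.le]
  obtain ⟨e⟩ := Cardinal.eq.1 hcard
  have hx : ∀ t : (#F).ord.ToType, ∃ x : ℕ → Bool, ∀ i : Set.Iic t,
      ∃ s m, Phi ((e i.1).map (fun p => (p.1, p.2.1))) s <+: pre x m :=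
    fun t => hS.cohen hκ (Set.Iic t) (fun i => Phi ((e i.1).map (fun p => (p.1, p.2.1))))
      (fun i => prefix_Phi _) (mk_Iic_lt hκ t)
  choose x hx using hx
  refine ⟨Set.range x, ?_, fun π => ?_⟩
  · refine le_trans Cardinal.mk_range_le ?_
    simpa using hle
  have hl : ∀ k : ℕ, ∃ l : List (List Bool × F), ∀ s,
      Hit (Run π k) s (Phi (l.map (fun p => (p.1, p.2.1))) s) := by
    intro k
    obtain ⟨l, hl⟩ := rounds hF (Run π k) (List.finite_length_eq Bool k).toFinset.toList
    refine ⟨l, fun s => ?_⟩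
    rcases hl s with h | h
    · exact h
    · exfalso
      obtain ⟨o, ho⟩ := exists_run π k (Phi (l.map (fun p => (p.1, p.2.1))) s)
      exact h o (by simpa using ho.1) ho
  choose l hl using hl
  obtain ⟨t, ht⟩ := bounded_seq hF hS (fun k => e.symm (l k))
  refine ⟨x t, ⟨t, rfl⟩, fun k => ?_⟩
  obtain ⟨s, m, hsm⟩ := hx t ⟨e.symm (l k), ht k⟩
  simp only [Equiv.apply_symm_apply] at hsm
  obtain ⟨s', o, -, hR, hpre⟩ := hl k s
  exact ⟨s'.length, hR.2 (x t) m (hpre.trans hsm)⟩

theorem main (D : Set (ℕ → ℕ))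
    (hD : ∀ g : ℕ → ℕ, ∃ f ∈ D, ∀ᶠ n in Filter.atTop, g n ≤ f n) :
    ∃ E : Set (ℕ → Bool), #E ≤ #D ∧
      ∀ π : List Bool → Bool, ∃ f ∈ E, ∀ k : ℕ,
        ∃ᶠ n in Filter.atTop, ∀ i ∈ Finset.Ico n (n + k), f i ≠ π ((List.range i).map f) := by
  let φ : D × ℕ → ℕ → ℕ := fun p n => p.1.1 n + p.2 + 1
  have hED : ED (Set.range φ) := by
    intro g
    obtain ⟨f, hf, hev⟩ := hD g
    obtain ⟨N, hN⟩ := Filter.eventually_atTop.1 hev
    refine ⟨φ (⟨f, hf⟩, (Finset.range N).sup g), ⟨_, rfl⟩, fun n => ?_⟩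
    simp only [φ]
    by_cases hc : N ≤ n
    · have := hN n hc
      omega
    · have : g n ≤ (Finset.range N).sup g :=
        Finset.le_sup (f := g) (Finset.mem_range.2 (by omega))
      omega
  have h1 : #(Set.range φ) ≤ #D * ℵ₀ := by
    refine le_trans Cardinal.mk_range_le ?_
    simp
  have h2 : ℵ₀ ≤ #D := by
    by_contra hc
    push Not at hc
    have h3 : #D * ℵ₀ ≤ ℵ₀ * ℵ₀ := mul_le_mul_left hc.le _
    rw [Cardinal.aleph0_mul_aleph0] at h3
    exact absurd (lt_of_lt_of_le hED.aleph0_lt (h1.trans h3)) (lt_irrefl _)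
  rw [Cardinal.mul_aleph0_eq h2] at h1
  obtain ⟨E, hE, hπ⟩ := evade_of_ED _ hED
  refine ⟨E, hE.trans h1, fun π => ?_⟩
  obtain ⟨f, hf, hk⟩ := hπ π
  refine ⟨f, hf, fun k => ?_⟩
  rw [Filter.frequently_atTop]
  intro a
  obtain ⟨n, hn⟩ := hk (a + k)
  refine ⟨n + a, by omega, fun i hi => ?_⟩
  rw [Finset.mem_Ico] at hi
  exact hn i (Finset.mem_Ico.2 ⟨by omega, by omega⟩)

end Pool.Agent.H895Z.Evasion
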