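import Mathlib

set_option autoImplicit false

/-!
# Generic sequences below the covering number of the meager ideal; chopped reals
-/

open Cardinal Filter Set

namespace Pool.Agent.H895Z.Free

/-- two sequences agree below `m` -/
def Agree {V : Type} (m : ℕ) (a b : ℕ → V) : Prop := ∀ j, j < m → a j = b j

theorem Agree.refl {V : Type} (m : ℕ) (a : ℕ → V) : Agree m a a := fun _ _ => rfl

theorem Agree.symm {V : Type} {m : ℕ} {a b : ℕ → V} (h : Agree m a b) : Agree m b a :=
  fun j hj => (h j hj).symm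

theorem Agree.trans {V : Type} {m : ℕ} {a b c : ℕ → V} (h : Agree m a b) (h' : Agree m b c) :
    Agree m a c := fun j hj => (h j hj).trans (h' j hj)

theorem Agree.mono {V : Type} {m m' : ℕ} {a b : ℕ → V} (h : Agree m a b) (hm : m' ≤ m) :
    Agree m' a b := fun j hj => h j (lt_of_lt_of_le hj hm)

/-- `D` contains a dense open set of sequences -/
def DO {V : Type} (D : Set (ℕ → V)) : Prop :=
  ∀ (a : ℕ → V) (m : ℕ), ∃ a' m', Agree m a a' ∧ ∀ a'', Agree m' a' a'' → a'' ∈ D

/-- the reals are not covered by an `α`-indexed family of meager sets -/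
def Cov (α : Type) : Prop :=
  ∀ M : α → Set ℝ, (∀ i, IsMeagre (M i)) → (⋃ i, M i) ≠ Set.univ

theorem cov_of_countable (α : Type) [Countable α] : Cov α := by
  intro M hM hU
  have h1 : IsMeagre (⋃ i, M i) := isMeagre_iUnion hM
  rw [hU] at h1
  have h2 : (∅ : Set ℝ) ∈ residual ℝ := by
    simpa [IsMeagre] using h1
  have := dense_of_mem_residual h2
  simpa using this.nonempty

theorem Cov.of_le {α β : Type} (h : Cov α) (hβ : #β ≤ max ℵ₀ #α) : Cov β := by
  classical
  by_cases hc : #α ≤ ℵ₀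
  · have : Countable β := by
      rw [max_eq_left hc] at hβ
      exact Cardinal.mk_le_aleph0_iff.1 hβ
    exact cov_of_countable β
  · rw [max_eq_right (le_of_not_ge hc)] at hβ
    obtain ⟨e⟩ := (Cardinal.le_def β α).1 hβ
    intro M hM hU
    refine h (Function.extend e M (fun _ => ∅)) ?_ ?_
    · intro i
      by_cases hi : ∃ b, e b = i
      · obtain ⟨b, rfl⟩ := hi
        rw [e.injective.extend_apply]
        exact hM b
      · rw [Function.extend_apply' _ _ _ hi]
        exact IsMeagre.empty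
    · apply Set.eq_univ_of_forall
      intro x
      have : x ∈ ⋃ i, M i := hU ▸ Set.mem_univ x
      obtain ⟨b, hb⟩ := Set.mem_iUnion.1 this
      exact Set.mem_iUnion.2 ⟨e b, by rw [e.injective.extend_apply]; exact hb⟩

theorem Cov.le_continuum {α : Type} (h : Cov α) : #α ≤ 𝔠 := by
  by_contra hc
  have h1 : #ℝ ≤ #α := by rw [Cardinal.mk_real]; exact le_of_not_ge hc
  have h2 : Cov ℝ := h.of_le (h1.trans (le_max_right _ _))
  refine h2 (fun x => {x}) (fun x => ?_) (Set.iUnion_of_singleton ℝ)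
  apply IsNowhereDense.isMeagre
  rw [isClosed_singleton.isNowhereDense_iff]
  simp

/-- binary digits of a real -/
noncomputable def dig (x : ℝ) (j : ℕ) : Bool := decide (⌊(2 : ℝ) ^ (j + 1) * x⌋ % 2 = 1)

theorem floor_half (x : ℝ) (j : ℕ) : ⌊(2 : ℝ) ^ j * x⌋ = ⌊(2 : ℝ) ^ (j + 1) * x⌋ / 2 := by
  have h := Int.floor_div_natCast ((2 : ℝ) ^ (j + 1) * x) 2
  have h2 : (2 : ℝ) ^ (j + 1) * x / ((2 : ℕ) : ℝ) = 2 ^ j * x := by
    push_cast; ring
  rw [h2] at h
  exact_mod_cast h

theorem floor_down {x y : ℝ} {n : ℕ} (h : ⌊(2 : ℝ) ^ n * x⌋ = ⌊(2 : ℝ) ^ n * y⌋) :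
    ∀ j, j ≤ n → ⌊(2 : ℝ) ^ j * x⌋ = ⌊(2 : ℝ) ^ j * y⌋ := by
  induction n with
  | zero => intro j hj; obtain rfl : j = 0 := by omega
            exact h
  | succ n ih =>
    intro j hj
    rcases Nat.lt_or_eq_of_le hj with hj | rfl
    · exact ih (by rw [floor_half x n, floor_half y n, h]) j (by omega)
    · exact h

theorem agree_dig {x y : ℝ} {n : ℕ} (h : ⌊(2 : ℝ) ^ n * x⌋ = ⌊(2 : ℝ) ^ n * y⌋) :
    Agree n (dig x) (dig y) := by
  intro j hj
  unfold dig
  rw [floor_down h (j + 1) hj]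

theorem dig_step (x : ℝ) (n : ℕ) (b : Bool) :
    ∃ y : ℝ, ⌊(2 : ℝ) ^ n * y⌋ = ⌊(2 : ℝ) ^ n * x⌋ ∧ dig y n = b := by
  set N := ⌊(2 : ℝ) ^ n * x⌋ with hN
  have key : ∀ c : ℤ, ⌊(2 : ℝ) ^ (n + 1) * (((2 * N + c : ℤ) : ℝ) / 2 ^ (n + 1))⌋ = 2 * N + c := by
    intro c
    rw [mul_div_cancel₀ _ (by positivity), Int.floor_intCast]
  cases b with
  | false =>
    refine ⟨((2 * N + 0 : ℤ) : ℝ) / 2 ^ (n + 1), ?_, ?_⟩
    · rw [floor_half, key]; omega
    · unfold dig; rw [key]; simp
  | true =>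
    refine ⟨((2 * N + 1 : ℤ) : ℝ) / 2 ^ (n + 1), ?_, ?_⟩
    · rw [floor_half, key]; omega
    · unfold dig; rw [key]; simp

theorem dig_word (x : ℝ) (n : ℕ) (a : ℕ → Bool) (ha : Agree n (dig x) a) (k : ℕ) :
    ∃ y : ℝ, ⌊(2 : ℝ) ^ n * y⌋ = ⌊(2 : ℝ) ^ n * x⌋ ∧ Agree (n + k) (dig y) a := by
  induction k with
  | zero => exact ⟨x, rfl, ha⟩
  | succ k ih =>
    obtain ⟨y, hy1, hy2⟩ := ih
    obtain ⟨z, hz1, hz2⟩ := dig_step y (n + k) (a (n + k))
    refine ⟨z, (floor_down hz1 n (by omega)).trans hy1, ?_⟩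
    intro j hj
    rcases Nat.lt_or_eq_of_le (Nat.lt_succ_iff.1 hj) with hj | rfl
    · exact ((agree_dig hz1).trans hy2) j hj
    · exact hz2

theorem meagre_dig {D : Set (ℕ → Bool)} (hD : DO D) : IsMeagre {x : ℝ | dig x ∉ D} := by
  apply IsNowhereDense.isMeagre
  unfold IsNowhereDense
  apply Set.eq_empty_of_forall_notMem
  intro x hx
  obtain ⟨ε, hε, hball⟩ := Metric.isOpen_iff.1 isOpen_interior x hx
  obtain ⟨n, hn⟩ := exists_pow_lt_of_lt_one hε (by norm_num : (1 / 2 : ℝ) < 1)
  obtain ⟨a', m', ha', hm'⟩ := hD (dig x) n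
  obtain ⟨y, hy1, hy2⟩ := dig_word x n a' ha' m'
  set N := ⌊(2 : ℝ) ^ (n + m') * y⌋ with hN
  have hp : (0 : ℝ) < 2 ^ (n + m') := by positivity
  set O : Set ℝ := Set.Ioo ((N : ℝ) / 2 ^ (n + m')) ((N + 1 : ℝ) / 2 ^ (n + m')) with hO
  have hfl : ∀ z ∈ O, ⌊(2 : ℝ) ^ (n + m') * z⌋ = N := by
    intro z hz
    rw [Int.floor_eq_iff]
    obtain ⟨h1, h2⟩ := hz
    rw [div_lt_iff₀ hp] at h1
    rw [lt_div_iff₀ hp] at h2
    constructor <;> nlinarith
  have hne : O.Nonempty := Set.nonempty_Ioo.2 (by gcongr; linarith)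
  obtain ⟨z, hz⟩ := hne
  have hzx : z ∈ Metric.ball x ε := by
    have h1 : ⌊(2 : ℝ) ^ n * z⌋ = ⌊(2 : ℝ) ^ n * x⌋ :=
      (floor_down ((hfl z hz).trans hN) n (by omega)).trans hy1
    have h2 := Int.abs_sub_lt_one_of_floor_eq_floor h1
    rw [← mul_sub, abs_mul, abs_of_pos (by positivity : (0 : ℝ) < 2 ^ n)] at h2
    rw [Metric.mem_ball, Real.dist_eq]
    have h3 : |z - x| < (1 / 2) ^ n := by
      rw [one_div, inv_pow, ← one_div, lt_div_iff₀ (by positivity)]
      linarith
    linarith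
  have hzc : z ∈ closure {x : ℝ | dig x ∉ D} := interior_subset (hball hzx)
  obtain ⟨u, huO, hu⟩ := mem_closure_iff.1 hzc O isOpen_Ioo hz
  apply hu
  apply hm'
  have h1 : Agree (n + m') (dig u) (dig y) := agree_dig ((hfl u huO).trans hN)
  exact (h1.trans hy2).symm.mono (by omega)

theorem Cov.bool {α : Type} (h : Cov α) (D : α → Set (ℕ → Bool)) (hD : ∀ i, DO (D i)) :
    ∃ a, ∀ i, a ∈ D i := by
  have h1 := h (fun i => {x : ℝ | dig x ∉ D i}) (fun i => meagre_dig (hD i))
  obtain ⟨x, hx⟩ := (Set.ne_univ_iff_exists_notMem _).1 h1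
  refine ⟨dig x, fun i => ?_⟩
  by_contra hc
  exact hx (Set.mem_iUnion.2 ⟨i, hc⟩)

open Classical in
/-- the automaton reading a binary sequence as a descending chain -/
noncomputable def run {P : Type} (r : P → P → Prop) (e : ℕ → P) (p0 : P) (a : ℕ → Bool) :
    ℕ → P × ℕ
  | 0 => (p0, 0)
  | n + 1 => if a n = true then
      (if r (e (run r e p0 a n).2) (run r e p0 a n).1 then e (run r e p0 a n).2
        else (run r e p0 a n).1, 0)
      else ((run r e p0 a n).1, (run r e p0 a n).2 + 1)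

theorem run_agree {P : Type} (r : P → P → Prop) (e : ℕ → P) (p0 : P) {a b : ℕ → Bool} {n : ℕ}
    (h : Agree n a b) : run r e p0 a n = run r e p0 b n := by
  induction n with
  | zero => rfl
  | succ n ih =>
    simp only [run]
    rw [ih (h.mono (by omega)), h n (by omega)]

theorem run_zeros {P : Type} (r : P → P → Prop) (e : ℕ → P) (p0 : P) (a : ℕ → Bool) (n k : ℕ)
    (h : ∀ j, n ≤ j → j < n + k → a j = false) :
    run r e p0 a (n + k) = ((run r e p0 a n).1, (run r e p0 a n).2 + k) := by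
  induction k with
  | zero => rfl
  | succ k ih =>
    have h1 := ih (fun j h1 h2 => h j h1 (by omega))
    have h2 : a (n + k) = false := h _ (by omega) (by omega)
    show run r e p0 a (n + k + 1) = _
    simp only [run]
    rw [h1, h2]
    simp [add_assoc]

theorem machine {P : Type} [Countable P] (r : P → P → Prop) (p0 : P) :
    ∃ st : (ℕ → Bool) → ℕ → P, (∀ a, st a 0 = p0) ∧
      (∀ a n, st a (n + 1) = st a n ∨ r (st a (n + 1)) (st a n)) ∧
      (∀ a b n, Agree n a b → st a n = st b n) ∧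
      (∀ a n q, r q (st a n) → ∃ b n', n ≤ n' ∧ Agree n a b ∧ st b n' = q) := by
  classical
  have : Nonempty P := ⟨p0⟩
  obtain ⟨e0, he0⟩ := exists_surjective_nat P
  let e : ℕ → P := fun k => e0 (Nat.unpair k).1
  refine ⟨fun a n => (run r e p0 a n).1, fun a => rfl, ?_, ?_, ?_⟩
  · intro a n
    simp only [run]
    split_ifs with h1 h2
    · exact Or.inr h2
    · exact Or.inl rfl
    · exact Or.inl rfl
  · intro a b n h
    simp only [run_agree r e p0 h]
  · intro a n q hq
    obtain ⟨i, hi⟩ := he0 q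
    set c := (run r e p0 a n).2 with hc
    have hle : c ≤ Nat.pair i c := Nat.right_le_pair i c
    obtain ⟨k, hk⟩ := Nat.exists_eq_add_of_le hle
    let b : ℕ → Bool := fun j => if j < n then a j else decide (j = n + k)
    have hab : Agree n a b := fun j hj => by simp [b, hj]
    have h1 := run_zeros r e p0 b n k (fun j h1 h2 => by
      have : ¬ j < n := by omega
      have h3 : j ≠ n + k := by omega
      simp [b, this, h3])
    rw [← run_agree r e p0 hab, ← hc, ← hk] at h1
    refine ⟨b, n + k + 1, by omega, hab, ?_⟩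
    have h2 : b (n + k) = true := by simp [b]
    have h3 : e (Nat.pair i c) = q := by simp [e, hi]
    simp only [run]
    rw [h1, h2]
    simp only [h3, if_true]
    rw [if_pos hq]

/-- a sequence meeting fewer than `cov(M)` dense open sets -/
theorem Cov.generic {α V : Type} [Countable V] [Nonempty V] (h : Cov α)
    (D : α → Set (ℕ → V)) (hD : ∀ i, DO (D i)) : ∃ x, ∀ i, x ∈ D i := by
  classical
  obtain ⟨v0⟩ := ‹Nonempty V›
  obtain ⟨st, -, h2, h3, h4⟩ := machine (P := List V) (fun q p => p <+: q) []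
  have hmono : ∀ a n k, st a n <+: st a (n + k) := by
    intro a n k
    induction k with
    | zero => exact List.prefix_refl _
    | succ k ih =>
      rcases h2 a (n + k) with h | h
      · rw [← add_assoc, h]; exact ih
      · exact ih.trans h
  obtain ⟨a, ha⟩ := h.bool
    (fun i => {a | ∃ n, ∀ x : ℕ → V, (∀ j, j < (st a n).length → x j = (st a n).getD j v0) →
      x ∈ D i}) (by
    intro i a n
    obtain ⟨x', m', hx1, hx2⟩ := hD i (fun j => (st a n).getD j v0) (st a n).length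
    let q : List V := (List.range (max m' (st a n).length)).map x'
    have hq : st a n <+: q := by
      rw [List.prefix_iff_getElem]
      refine ⟨by simp [q], fun j hj => ?_⟩
      have := hx1 j hj
      simp only [List.getD_eq_getElem _ _ hj] at this
      simp [q, this]
    obtain ⟨b, n', -, hb1, hb2⟩ := h4 a n q hq
    refine ⟨b, n', hb1, fun c hc => ⟨n', fun x hx => hx2 x fun j hj => ?_⟩⟩
    rw [← h3 b c n' hc, hb2] at hx
    have hj' : j < q.length := by simp [q, hj]
    rw [hx j hj', List.getD_eq_getElem _ _ hj']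
    simp [q])
  let x : ℕ → V := fun j =>
    if hj : ∃ n, j < (st a n).length then (st a (Nat.find hj)).getD j v0 else v0
  refine ⟨x, fun i => ?_⟩
  obtain ⟨n, hn⟩ := ha i
  apply hn
  intro j hj
  have hex : ∃ n, j < (st a n).length := ⟨n, hj⟩
  have hle : Nat.find hex ≤ n := Nat.find_min' hex hj
  obtain ⟨k, hk⟩ := Nat.exists_eq_add_of_le hle
  have hp := hmono a (Nat.find hex) k
  rw [← hk] at hp
  have hj0 := Nat.find_spec hex
  simp only [x, dif_pos hex]
  rw [List.getD_eq_getElem _ _ hj, List.getD_eq_getElem _ _ hj0]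
  exact hp.getElem hj0

/-- one block that forces a dense open set whatever comes before it -/
theorem chop {Y : Type} [Finite Y] [Nonempty Y] {D : Set (ℕ → Y)} (hD : DO D) (m : ℕ) :
    ∃ (L : ℕ) (w : ℕ → Y), ∀ a : ℕ → Y, (∀ j, m ≤ j → j < L → a j = w j) → a ∈ D := by
  classical
  obtain ⟨y0⟩ := ‹Nonempty Y›
  have key : ∀ S : Finset (Fin m → Y), ∃ (L : ℕ) (w : ℕ → Y), m ≤ L ∧ ∀ a : ℕ → Y,
      (fun j : Fin m => a j) ∈ S → (∀ j, m ≤ j → j < L → a j = w j) → a ∈ D := by
    intro S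
    induction S using Finset.induction_on with
    | empty => exact ⟨m, fun _ => y0, le_rfl, fun a ha => by simp at ha⟩
    | insert s S _ ih =>
      obtain ⟨L, w, hL, hw⟩ := ih
      obtain ⟨a', m', h1, h2⟩ := hD (fun j => if hj : j < m then s ⟨j, hj⟩ else w j) L
      refine ⟨max L m', a', le_trans hL (le_max_left _ _), fun a ha haw => ?_⟩
      rcases Finset.mem_insert.1 ha with ha | ha
      · apply h2
        intro j hj
        by_cases hjm : j < m
        · have := h1 j (by omega)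
          simp only [dif_pos hjm] at this
          rw [← this, ← ha]
        · exact (haw j (by omega) (by omega)).symm
      · apply hw a ha
        intro j hj1 hj2
        have := h1 j hj2
        simp only [dif_neg (show ¬ j < m by omega)] at this
        rw [haw j hj1 (by omega), this]
  have : Fintype (Fin m → Y) := Fintype.ofFinite _
  obtain ⟨L, w, -, hw⟩ := key Finset.univ
  exact ⟨L, w, fun a ha => hw a (Finset.mem_univ _) ha⟩

theorem DO.inter {V : Type} {D E : Set (ℕ → V)} (hD : DO D) (hE : DO E) : DO (D ∩ E) := by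
  intro a m
  obtain ⟨a1, m1, h1, h2⟩ := hD a m
  obtain ⟨a2, m2, h3, h4⟩ := hE a1 (max m m1)
  refine ⟨a2, max m1 m2, h1.trans (h3.mono (le_max_left _ _)), fun b hb => ⟨?_, ?_⟩⟩
  · exact h2 b ((h3.mono (le_max_right _ _)).trans (hb.mono (le_max_left _ _)))
  · exact h4 b (hb.mono (le_max_right _ _))

/-- chopped real for a countable family of dense open sets -/
theorem chop_seq {Y : Type} [Finite Y] [Nonempty Y] (D : ℕ → Set (ℕ → Y)) (hD : ∀ k, DO (D k)) :
    ∃ (L : ℕ → ℕ) (w : ℕ → ℕ → Y), ∀ a : ℕ → Y,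
      (∃ᶠ m in atTop, ∀ j, m ≤ j → j < L m → a j = w m j) → ∀ k, a ∈ D k := by
  have h1 : ∀ m, DO {a | ∀ k, k < m → a ∈ D k} := by
    intro m
    induction m with
    | zero => exact fun a m => ⟨a, 0, Agree.refl _ _, fun _ _ k hk => by omega⟩
    | succ m ih =>
      have := ih.inter (hD m)
      intro a n
      obtain ⟨a', m', h1, h2⟩ := this a n
      refine ⟨a', m', h1, fun b hb k hk => ?_⟩
      rcases Nat.lt_or_eq_of_le (Nat.lt_succ_iff.1 hk) with hk | rfl
      · exact (h2 b hb).1 k hk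
      · exact (h2 b hb).2
  choose L w hw using fun m => chop (h1 m) m
  refine ⟨L, w, fun a ha k => ?_⟩
  obtain ⟨m, hm, hm'⟩ := (frequently_atTop.1 ha) (k + 1)
  exact hw m a hm' k (by omega)

end Pool.Agent.H895Z.Free
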