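import Pool.Agent.H895Z.FreeBase

set_option autoImplicit false

/-!
# Non-meager filters and generic patterns
-/

open Cardinal Filter Set

namespace Pool.Agent.H895Z.Free

/-- every `α`-indexed family of functions is eventually dominated -/
def Bdd (α : Type) : Prop := ∀ f : α → ℕ → ℕ, ∃ g : ℕ → ℕ, ∀ i, ∀ᶠ m in atTop, f i m ≤ g m

/-- finite intersections are infinite -/
def Cent {T : Type} (A : T → Set ℕ) : Prop :=
  ∀ s : Finset T, ∃ᶠ m in atTop, ∀ t ∈ s, m ∈ A t

/-- some member of the family misses infinitely many of the given intervals -/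
def NM {T : Type} (A : T → Set ℕ) : Prop :=
  ∀ L : ℕ → ℕ, ∃ t, ∃ᶠ m in atTop, ∀ j, m ≤ j → j < L m → j ∉ A t

/-- the pattern `P` matches the chopped reals on blocks inside the members of the family -/
def Pat {ι T : Type} (n : ι → ℕ) (L : ι → ℕ → ℕ) (w : ∀ i, ℕ → ℕ → Fin (n i) → Bool)
    (A : T → Set ℕ) (P : (ℕ → Bool) → ℕ → Bool) : Prop :=
  ∀ (i : ι) (t : Fin (n i) → T) (r : Fin (n i) → ℕ → Bool), Function.Injective r →
    ∃ᶠ m in atTop, ∀ j, m ≤ j → j < L i m → ∀ k, j ∈ A (t k) ∧ P (r k) j = w i m j k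

theorem bdd_of_countable (α : Type) [Countable α] : Bdd α := by
  intro f
  obtain ⟨e, he⟩ := exists_injective_nat α
  let f' : ℕ → ℕ → ℕ := Function.extend e f (fun _ _ => 0)
  refine ⟨fun m => (Finset.range (m + 1)).sup (fun c => f' c m), fun i => ?_⟩
  filter_upwards [eventually_ge_atTop (e i)] with m hm
  have h1 : f' (e i) = f i := he.extend_apply _ _ _
  rw [← h1]
  exact Finset.le_sup (f := fun c => f' c m) (Finset.mem_range.2 (by omega))

theorem Bdd.of_le {α β : Type} (h : Bdd α) (hβ : #β ≤ max ℵ₀ #α) : Bdd β := by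
  classical
  by_cases hc : #α ≤ ℵ₀
  · have : Countable β := by
      rw [max_eq_left hc] at hβ
      exact Cardinal.mk_le_aleph0_iff.1 hβ
    exact bdd_of_countable β
  · rw [max_eq_right (le_of_not_ge hc)] at hβ
    obtain ⟨e⟩ := (Cardinal.le_def β α).1 hβ
    intro f
    obtain ⟨g, hg⟩ := h (Function.extend e f (fun _ _ => 0))
    refine ⟨g, fun b => ?_⟩
    have := hg (e b)
    rwa [e.injective.extend_apply] at this

theorem mk_prod_le {α β : Type} {κ : Cardinal.{0}} (hκ : ℵ₀ ≤ κ) (ha : #α ≤ κ) (hb : #β ≤ κ) :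
    #(α × β) ≤ κ := by
  rw [Cardinal.mk_prod, Cardinal.lift_id, Cardinal.lift_id]
  calc #α * #β ≤ κ * κ := mul_le_mul' ha hb
    _ = κ := Cardinal.mul_eq_self hκ

/-- initial segment of a binary sequence -/
def pre (x : ℕ → Bool) (n : ℕ) : List Bool := (List.range n).map x

theorem pre_length (x : ℕ → Bool) (n : ℕ) : (pre x n).length = n := by simp [pre]

theorem take_pre (x : ℕ → Bool) {l j : ℕ} (h : l ≤ j) : (pre x j).take l = pre x l := by
  unfold pre
  rw [← List.map_take, List.take_range, min_eq_left h]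

theorem pre_eq {x y : ℕ → Bool} {l : ℕ} (h : pre x l = pre y l) : Agree l x y := by
  intro j hj
  have := congrArg (fun s => s.getD j false) h
  simpa [pre, List.getD_eq_getElem?_getD, hj] using this

theorem exists_sep {n : ℕ} (r : Fin n → ℕ → Bool) (hr : Function.Injective r) :
    ∃ l, Function.Injective fun k => pre (r k) l := by
  have h1 : ∀ p : Fin n × Fin n, ∃ j, p.1 ≠ p.2 → r p.1 j ≠ r p.2 j := by
    intro p
    by_cases hp : p.1 = p.2
    · exact ⟨0, fun h => (h hp).elim⟩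
    · obtain ⟨j, hj⟩ := Function.ne_iff.1 (hr.ne hp)
      exact ⟨j, fun _ => hj⟩
  choose J hJ using h1
  refine ⟨Finset.univ.sup J + 1, fun k k' hkk => ?_⟩
  by_contra hne
  apply hJ (k, k') hne
  apply pre_eq hkk
  exact Nat.lt_succ_of_le (Finset.le_sup (f := J) (Finset.mem_univ _))

/-- a finite set of words of length `j` with prescribed signs above the stems `σ` -/
theorem exists_signs {n : ℕ} (σ : Fin n → List Bool) (l j : ℕ) (hlj : l ≤ j)
    (hσ : Function.Injective σ) (ε : Fin n → Bool) :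
    ∃ S : Finset (List Bool), ∀ (r : ℕ → Bool) (k : Fin n), pre r l = σ k →
      decide (pre r j ∈ S) = ε k := by
  classical
  refine ⟨(List.finite_length_eq Bool j).toFinset.filter
    (fun s => ∃ k, s.take l = σ k ∧ ε k = true), fun r k hk => ?_⟩
  have h1 : (pre r j).take l = σ k := (take_pre r hlj).trans hk
  cases hε : ε k with
  | true =>
    simp only [decide_eq_true_eq, Finset.mem_filter, Set.Finite.mem_toFinset, Set.mem_setOf_eq]
    exact ⟨pre_length r j, k, h1, hε⟩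
  | false =>
    simp only [decide_eq_false_iff_not, Finset.mem_filter, not_and]
    rintro - ⟨k', hk', hε'⟩
    obtain rfl : k = k' := hσ (h1.symm.trans hk')
    simp [hε] at hε'

/-- the generic object: thresholds `h` and a pattern `P` -/
theorem exists_generic {ι : Type} (hc : Cov ι) (n : ι → ℕ) (L : ι → ℕ → ℕ)
    (w : ∀ i, ℕ → ℕ → Fin (n i) → Bool) (f : ι → ℕ → ℕ) :
    ∃ (h : ℕ → ℕ) (x : ℕ → Finset (List Bool)), ∀ (i : ι) (τ : List ι) (σ : List (List Bool))
      (l N : ℕ), (Function.Injective fun k : Fin (n i) => σ.getD k []) →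
      ∃ m, N ≤ m ∧ ∀ j, m ≤ j → j < L i m → (∀ t ∈ τ, f t j < h j) ∧
        ∀ (r : ℕ → Bool) (k : Fin (n i)), pre r l = σ.getD k [] →
          decide (pre r j ∈ x j) = w i m j k := by
  classical
  have hJ : Cov (ι × List ι × List (List Bool) × ℕ × ℕ) := by
    apply hc.of_le
    apply mk_prod_le (le_max_left _ _) (le_max_right _ _)
    apply mk_prod_le (le_max_left _ _) (Cardinal.mk_list_le_max ι)
    exact le_trans Cardinal.mk_le_aleph0 (le_max_left _ _)
  obtain ⟨z, hz⟩ := hJ.generic (V := ℕ × Finset (List Bool))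
    (fun p => {z | (Function.Injective fun k : Fin (n p.1) => p.2.2.1.getD k []) →
      ∃ m, p.2.2.2.2 ≤ m ∧ ∀ j, m ≤ j → j < L p.1 m → (∀ t ∈ p.2.1, f t j < (z j).1) ∧
        ∀ (r : ℕ → Bool) (k : Fin (n p.1)), pre r p.2.2.2.1 = p.2.2.1.getD k [] →
          decide (pre r j ∈ (z j).2) = w p.1 m j k}) (by
    rintro ⟨i, τ, σ, l, N⟩ a m0
    by_cases hσ : Function.Injective fun k : Fin (n i) => σ.getD k []
    · set m := max m0 (max l N) with hm
      have hS : ∀ j, ∃ S : Finset (List Bool), l ≤ j → ∀ (r : ℕ → Bool) (k : Fin (n i)),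
          pre r l = σ.getD k [] → decide (pre r j ∈ S) = w i m j k := by
        intro j
        by_cases hj : l ≤ j
        · obtain ⟨S, hS⟩ := exists_signs _ l j hj hσ (w i m j)
          exact ⟨S, fun _ => hS⟩
        · exact ⟨∅, fun h => (hj h).elim⟩
      choose S hS using hS
      refine ⟨fun j => if j < m then a j else (τ.toFinset.sup (fun t => f t j) + 1, S j), L i m,
        fun j hj => ?_, fun b hb _ => ⟨m, by simp [hm], fun j hj1 hj2 => ?_⟩⟩
      · have : j < m := by omega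
        simp [this]
      · have h1 := hb j hj2
        simp only [if_neg (show ¬ j < m by omega)] at h1
        simp only [← h1]
        refine ⟨fun t ht => Nat.lt_succ_of_le ?_, hS j (by omega)⟩
        exact Finset.le_sup (f := fun t => f t j) (List.mem_toFinset.2 ht)
    · exact ⟨a, 0, Agree.refl _ _, fun b _ h => (hσ h).elim⟩)
  exact ⟨fun j => (z j).1, fun j => (z j).2, fun i τ σ l N => hz (i, τ, σ, l, N)⟩

theorem getD_ofFn {n : ℕ} (σ : Fin n → List Bool) (k : Fin n) :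
    (List.ofFn σ).getD k [] = σ k := by
  rw [List.getD_eq_getElem _ _ (by simp)]
  simp

/-- thresholds against an unbounded monotone family give a non-meager family -/
theorem nm_of_unbdd {T : Type} (f : T → ℕ → ℕ) (hf : ∀ t, Monotone (f t))
    (hu : ¬ ∃ g : ℕ → ℕ, ∀ t, ∀ᶠ m in atTop, f t m ≤ g m) (h : ℕ → ℕ) :
    NM fun t => {j | f t j < h j} := by
  intro L
  by_contra hc
  push Not at hc
  apply hu
  refine ⟨fun m => (Finset.range (L m)).sup h, fun t => ?_⟩
  filter_upwards [hc t] with m hm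
  obtain ⟨j, h1, h2, h3⟩ := hm
  have h4 : f t j < h j := h3
  exact (hf t h1).trans (h4.le.trans (Finset.le_sup (f := h) (Finset.mem_range.2 h2)))

theorem K2 {ι : Type} (hc : Cov ι) (hb : ¬ Bdd ι) (n : ι → ℕ) (L : ι → ℕ → ℕ)
    (w : ∀ i, ℕ → ℕ → Fin (n i) → Bool) :
    ∃ (A : ι → Set ℕ) (P : (ℕ → Bool) → ℕ → Bool), NM A ∧ Pat n L w A P := by
  classical
  unfold Bdd at hb
  push Not at hb
  obtain ⟨f0, hf0⟩ := hb
  let f : ι → ℕ → ℕ := fun t m => (Finset.range (m + 1)).sup (f0 t)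
  have hf : ∀ t, Monotone (f t) := fun t a b hab =>
    Finset.sup_mono (Finset.range_subset_range.2 (by omega))
  have hu : ¬ ∃ g : ℕ → ℕ, ∀ t, ∀ᶠ m in atTop, f t m ≤ g m := by
    rintro ⟨g, hg⟩
    obtain ⟨t, ht⟩ := hf0 g
    obtain ⟨m, hm1, hm2⟩ := (ht.and_eventually (hg t)).exists
    have : f0 t m ≤ f t m := Finset.le_sup (f := f0 t) (Finset.mem_range.2 (by omega))
    omega
  obtain ⟨h, x, hx⟩ := exists_generic hc n L w f
  refine ⟨fun t => {j | f t j < h j}, fun r j => decide (pre r j ∈ x j),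
    nm_of_unbdd f hf hu h, ?_⟩
  intro i t r hr
  obtain ⟨l, hl⟩ := exists_sep r hr
  rw [frequently_atTop]
  intro N
  obtain ⟨m, hm1, hm2⟩ := hx i (List.ofFn t) (List.ofFn fun k => pre (r k) l) l N
    (by simpa only [getD_ofFn] using hl)
  refine ⟨m, hm1, fun j h1 h2 k => ⟨(hm2 j h1 h2).1 _ (by simp [List.mem_ofFn]), ?_⟩⟩
  exact (hm2 j h1 h2).2 (r k) k (getD_ofFn (fun k => pre (r k) l) k).symm

/-- cut points obtained by iterating `g` -/
def cut (g : ℕ → ℕ) : ℕ → ℕ
  | 0 => 0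
  | k + 1 => max (cut g k + 1) (g (cut g k))

theorem cut_strictMono (g : ℕ → ℕ) : StrictMono (cut g) :=
  strictMono_nat_of_lt_succ fun k => lt_of_lt_of_le (Nat.lt_succ_self _) (le_max_left _ _)

theorem le_cut (g : ℕ → ℕ) (k : ℕ) : k ≤ cut g k := (cut_strictMono g).le_apply

theorem g_le_cut (g : ℕ → ℕ) (k : ℕ) : g (cut g k) ≤ cut g (k + 1) := le_max_right _ _

theorem K1 {ι T : Type} (hc : Cov ι) (hb : Bdd ι) (n : ι → ℕ) (L : ι → ℕ → ℕ)
    (w : ∀ i, ℕ → ℕ → Fin (n i) → Bool) (A : T → Set ℕ) (hA : Cent A) (hN : NM A) :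
    ∃ (A' : T → Set ℕ) (P : (ℕ → Bool) → ℕ → Bool), NM A' ∧ Pat n L w A' P := by
  classical
  obtain ⟨h0, x, hx⟩ := exists_generic hc n L w (fun _ _ => 0)
  have hx' : ∀ (p : ι × List (List Bool) × ℕ) (N : ℕ), ∃ m,
      (Function.Injective fun k : Fin (n p.1) => p.2.1.getD k []) →
      N ≤ m ∧ ∀ j, m ≤ j → j < L p.1 m →
        ∀ (r : ℕ → Bool) (k : Fin (n p.1)), pre r p.2.2 = p.2.1.getD k [] →
          decide (pre r j ∈ x j) = w p.1 m j k := by
    rintro ⟨i, σ, l⟩ N
    by_cases hσ : Function.Injective fun k : Fin (n i) => σ.getD k []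
    · obtain ⟨m, h1, h2⟩ := hx i [] σ l N hσ
      exact ⟨m, fun _ => ⟨h1, fun j h3 h4 => (h2 j h3 h4).2⟩⟩
    · exact ⟨0, fun h => (hσ h).elim⟩
  choose M hM using hx'
  have hJ : Bdd (ι × List (List Bool) × ℕ) := by
    apply hb.of_le
    apply mk_prod_le (le_max_left _ _) (le_max_right _ _)
    exact le_trans Cardinal.mk_le_aleph0 (le_max_left _ _)
  obtain ⟨g, hg⟩ := hJ (fun p N => L p.1 (M p N))
  refine ⟨fun t => {j | ∃ k ∈ A t, cut g k ≤ j ∧ j < cut g (k + 1)},
    fun r j => decide (pre r j ∈ x j), ?_, ?_⟩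
  · intro L'
    obtain ⟨t, ht⟩ := hN (fun k => L' (cut g k))
    refine ⟨t, frequently_atTop.2 fun N => ?_⟩
    obtain ⟨k, hk1, hk2⟩ := frequently_atTop.1 ht N
    refine ⟨cut g k, hk1.trans (le_cut g k), ?_⟩
    rintro j h1 h2 ⟨k', hk', h3, h4⟩
    have h5 : k < k' + 1 := (cut_strictMono g).lt_iff_lt.1 (lt_of_le_of_lt h1 h4)
    have h6 := le_cut g k'
    exact hk2 k' (by omega) (by omega) hk'
  · intro i t r hr
    obtain ⟨l, hl⟩ := exists_sep r hr
    set p : ι × List (List Bool) × ℕ := (i, List.ofFn fun k => pre (r k) l, l) with hp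
    have hinj : Function.Injective fun k : Fin (n p.1) => p.2.1.getD k [] := by
      simpa only [hp, getD_ofFn] using hl
    obtain ⟨N0, hN0⟩ := eventually_atTop.1 (hg p)
    rw [frequently_atTop]
    intro N
    obtain ⟨k, hk1, hk2⟩ := frequently_atTop.1 (hA (Finset.univ.image t)) (max N N0)
    have h1 := le_cut g k
    obtain ⟨h2, h3⟩ := hM p (cut g k) hinj
    have h4 : L i (M p (cut g k)) ≤ g (cut g k) := hN0 _ (by omega)
    have h5 := g_le_cut g k
    refine ⟨M p (cut g k), by omega, fun j hj1 hj2 k' => ⟨⟨k, hk2 _ (by simp), by omega,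
      by omega⟩, ?_⟩⟩
    exact h3 j hj1 hj2 (r k') k' (getD_ofFn (fun k => pre (r k) l) k').symm

/-- a dominating family and an ultrafilter give a centered non-meager family -/
theorem of_dominating {T : Type} (f : T → ℕ → ℕ)
    (hf : ∀ g : ℕ → ℕ, ∃ t, ∀ᶠ m in atTop, g m ≤ f t m) :
    ∃ A : T → Set ℕ, Cent A ∧ NM A := by
  classical
  let E : T → Set ℕ := fun t => {j | ∃ k, cut (f t) (2 * k) ≤ j ∧ j < cut (f t) (2 * k + 1)}
  let U := Filter.hyperfilter ℕ
  refine ⟨fun t => if E t ∈ U then E t else (E t)ᶜ, fun s => ?_, fun L => ?_⟩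
  · have h1 : ∀ᶠ m in (U : Filter ℕ), ∀ t ∈ s, m ∈ (if E t ∈ U then E t else (E t)ᶜ) := by
      rw [Filter.eventually_all_finset]
      intro t _
      split_ifs with h
      · exact h
      · exact (Ultrafilter.compl_mem_iff_notMem).2 h
    have h2 : (U : Filter ℕ) ≤ atTop := by
      rw [← Nat.cofinite_eq_atTop]; exact Filter.hyperfilter_le_cofinite
    exact h1.frequently.filter_mono h2
  · obtain ⟨t, ht⟩ := hf L
    obtain ⟨N0, hN0⟩ := eventually_atTop.1 ht
    refine ⟨t, frequently_atTop.2 fun N => ?_⟩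
    set K := max N N0 with hK
    have hs := cut_strictMono (f t)
    beta_reduce
    split_ifs with h
    · have h1 := le_cut (f t) (2 * K + 1)
      have h2 := hN0 (cut (f t) (2 * K + 1)) (by omega)
      have h3 := g_le_cut (f t) (2 * K + 1)
      refine ⟨cut (f t) (2 * K + 1), by omega, ?_⟩
      rintro j hj1 hj2 ⟨k, hk1, hk2⟩
      have h4 : 2 * K + 1 < 2 * k + 1 := hs.lt_iff_lt.1 (by omega)
      have h5 : 2 * k < 2 * K + 1 + 1 := hs.lt_iff_lt.1 (by omega)
      omega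
    · have h1 := le_cut (f t) (2 * K)
      have h2 := hN0 (cut (f t) (2 * K)) (by omega)
      have h3 := g_le_cut (f t) (2 * K)
      refine ⟨cut (f t) (2 * K), by omega, fun j hj1 hj2 hj => hj ⟨K, hj1, by omega⟩⟩

/-- Simon's theorem: an unbounded family gives a centered non-meager family of the same size -/
theorem simon {T : Type} (f : T → ℕ → ℕ) (hf : ∀ t, Monotone (f t))
    (hu : ¬ ∃ g : ℕ → ℕ, ∀ t, ∀ᶠ m in atTop, f t m ≤ g m) :
    ∃ A : List T → Set ℕ, Cent A ∧ NM A := by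
  classical
  let F : List T → ℕ → ℕ := fun s m => s.toFinset.sup fun t => f t m
  by_cases hd : ∀ g : ℕ → ℕ, ∃ s, ∀ᶠ m in atTop, g m ≤ F s m
  · exact of_dominating F hd
  · push Not at hd
    obtain ⟨h, hh⟩ := hd
    have hF : ∀ s, Monotone (F s) := fun s a b hab =>
      Finset.sup_mono_fun fun t _ => hf t hab
    refine ⟨fun s => {j | F s j < h j}, fun S => ?_, nm_of_unbdd F hF ?_ h⟩
    · refine (hh (S.toList.flatten)).mono fun m hm s hs => lt_of_le_of_lt ?_ hm
      apply Finset.sup_mono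
      intro t ht
      simp only [List.mem_toFinset, List.mem_flatten, Finset.mem_toList] at ht ⊢
      exact ⟨s, hs, ht⟩
    · rintro ⟨g, hg⟩
      refine hu ⟨g, fun t => ?_⟩
      simpa [F] using hg [t]

/-- the combinatorial core of the free set theorem -/
theorem K {ι : Type} (hc : Cov ι) (n : ι → ℕ) (L : ι → ℕ → ℕ)
    (w : ∀ i, ℕ → ℕ → Fin (n i) → Bool) :
    ∃ (T : Type) (A : T → Set ℕ) (P : (ℕ → Bool) → ℕ → Bool), #T ≤ 𝔠 ∧ NM A ∧ Pat n L w A P := by
  by_cases hb : Bdd ι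
  · obtain ⟨A, hA, hN⟩ := of_dominating (T := ℕ → ℕ) id (fun g => ⟨g, by simp⟩)
    obtain ⟨A', P, h1, h2⟩ := K1 hc hb n L w A hA hN
    exact ⟨ℕ → ℕ, A', P, by simp, h1, h2⟩
  · obtain ⟨A, P, h1, h2⟩ := K2 hc hb n L w
    exact ⟨ι, A, P, hc.le_continuum, h1, h2⟩

open Classical in
/-- the member of the free family with parameters `p` and code `r` -/
noncomputable def pt {T : Type} (A : T → Set ℕ) (P : (ℕ → Bool) → ℕ → Bool)
    (t : T) (m0 : ℕ) (y r : ℕ → Bool) : ℕ → Bool :=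
  fun j => if j ∈ A t ∧ m0 ≤ j then P r j else y j

theorem Pat.pt {ι T : Type} {n : ι → ℕ} {L : ι → ℕ → ℕ} {w : ∀ i, ℕ → ℕ → Fin (n i) → Bool}
    {A : T → Set ℕ} {P : (ℕ → Bool) → ℕ → Bool} (h : Pat n L w A P) (i : ι)
    (t : Fin (n i) → T) (m0 : Fin (n i) → ℕ) (y r : Fin (n i) → ℕ → Bool)
    (hr : Function.Injective r) :
    ∃ᶠ m in atTop, ∀ j, m ≤ j → j < L i m →
      (fun k => pt A P (t k) (m0 k) (y k) (r k) j) = w i m j := by
  refine ((h i t r hr).and_eventually (eventually_ge_atTop (Finset.univ.sup m0))).mono ?_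
  rintro m ⟨h1, h2⟩ j hj1 hj2
  funext k
  have h3 : m0 k ≤ Finset.univ.sup m0 := Finset.le_sup (Finset.mem_univ k)
  obtain ⟨h4, h5⟩ := h1 j hj1 hj2 k
  simp only [Free.pt]
  rw [if_pos ⟨h4, by omega⟩, h5]

theorem pt_match {T : Type} {A : T → Set ℕ} {P : (ℕ → Bool) → ℕ → Bool} {t : T} (m0 : ℕ)
    {y : ℕ → Bool} (r : ℕ → Bool) {L : ℕ → ℕ} {w : ℕ → ℕ → Bool}
    (h : ∃ᶠ m in atTop, (∀ j, m ≤ j → j < L m → j ∉ A t) ∧
      ∀ j, m ≤ j → j < L m → y j = w m j) :
    ∃ᶠ m in atTop, ∀ j, m ≤ j → j < L m → pt A P t m0 y r j = w m j := by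
  refine h.mono ?_
  rintro m ⟨h1, h2⟩ j hj1 hj2
  simp only [pt]
  rw [if_neg (fun h => h1 j hj1 hj2 h.1), h2 j hj1 hj2]

theorem pt_agree {T : Type} (A : T → Set ℕ) (P : (ℕ → Bool) → ℕ → Bool) (t : T) (m0 : ℕ)
    (y r : ℕ → Bool) : Agree m0 (pt A P t m0 y r) y := by
  intro j hj
  simp only [pt]
  rw [if_neg (fun h => by omega)]

/-- matching infinitely many blocks from an infinite supply is a dense open requirement -/
theorem do_match {S : ℕ → Prop} (hS : ∃ᶠ m in atTop, S m) (L : ℕ → ℕ) (w : ℕ → ℕ → Bool)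
    (N : ℕ) : DO {y : ℕ → Bool | ∃ m, N ≤ m ∧ S m ∧ ∀ j, m ≤ j → j < L m → y j = w m j} := by
  intro a m0
  obtain ⟨m, hm1, hm2⟩ := frequently_atTop.1 hS (max N m0)
  refine ⟨fun j => if j < m then a j else w m j, L m, fun j hj => ?_,
    fun b hb => ⟨m, by omega, hm2, fun j h1 h2 => ?_⟩⟩
  · have : j < m := by omega
    simp [this]
  · have := hb j h2
    simp only [if_neg (show ¬ j < m by omega)] at this
    exact this.symm

end Pool.Agent.H895Z.Free
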