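import Pool.Agent.H895Z.FreeK

set_option autoImplicit false

/-!
# Nowhere meager free sets for fewer than `cov(M)` meager relations
-/

open Cardinal Filter Set Topology

namespace Pool.Agent.H895Z.Free

/-- a coding of a space by binary sequences through a scheme of open sets -/
structure Coding (X : Type) [TopologicalSpace X] where
  φ : (ℕ → Bool) → X
  U : (ℕ → Bool) → ℕ → Set X
  isOpen : ∀ a n, IsOpen (U a n)
  zero : ∀ a, U a 0 = Set.univ
  mem : ∀ a n, φ a ∈ U a n
  agree : ∀ a b n, Agree n a b → U a n = U b n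
  ext : ∀ a n V, IsOpen V → (V ∩ U a n).Nonempty → ∃ b n', Agree n a b ∧ U b n' ⊆ V

theorem exists_coding_metric (X : Type) [MetricSpace X] [CompleteSpace X]
    [SecondCountableTopology X] [Nonempty X] : Nonempty (Coding X) := by
  classical
  let d := TopologicalSpace.denseSeq X
  have hd : DenseRange d := TopologicalSpace.denseRange_denseSeq X
  let B : Option (ℕ × ℕ) → Set X := fun p =>
    match p with
    | none => Set.univ
    | some q => Metric.ball (d q.1) (1 / ((q.2 : ℝ) + 1))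
  let rk : Option (ℕ × ℕ) → ℕ := fun p =>
    match p with
    | none => 0
    | some q => q.2 + 1
  let c : Option (ℕ × ℕ) → X := fun p =>
    match p with
    | none => d 0
    | some q => d q.1
  have hBo : ∀ p, IsOpen (B p) := by
    rintro (_ | q)
    · exact isOpen_univ
    · exact Metric.isOpen_ball
  have hc : ∀ p, c p ∈ B p := by
    rintro (_ | q)
    · exact mem_univ _
    · exact Metric.mem_ball_self (by positivity)
  have hdiam : ∀ p N, N < rk p → ∀ x ∈ B p, dist x (c p) < 1 / ((N : ℝ) + 1) := by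
    rintro (_ | q) N hN x hx
    · simp [rk] at hN
    · have h1 : N ≤ q.2 := by simpa [rk, Nat.lt_succ_iff] using hN
      have h2 : dist x (d q.1) < 1 / ((q.2 : ℝ) + 1) := hx
      refine lt_of_lt_of_le h2 ?_
      have : (N : ℝ) ≤ q.2 := by exact_mod_cast h1
      gcongr
  obtain ⟨st, h1, h2, h3, h4⟩ :=
    machine (P := Option (ℕ × ℕ)) (fun q p => closure (B q) ⊆ B p ∧ rk p < rk q) none
  have hanti : ∀ a n k, B (st a (n + k)) ⊆ B (st a n) ∧ rk (st a n) ≤ rk (st a (n + k)) ∧
      (rk (st a n) < rk (st a (n + k)) → closure (B (st a (n + k))) ⊆ B (st a n)) ∧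
      (rk (st a n) = rk (st a (n + k)) → st a (n + k) = st a n) := by
    intro a n k
    induction k with
    | zero => exact ⟨Subset.rfl, le_rfl, fun h => (lt_irrefl _ h).elim, fun _ => rfl⟩
    | succ k ih =>
      rcases h2 a (n + k) with h | h
      · rw [← add_assoc, h]; exact ih
      · rw [← add_assoc]
        exact ⟨subset_closure.trans (h.1.trans ih.1), ih.2.1.trans h.2.le,
          fun _ => h.1.trans ih.1, fun h' => by have := ih.2.1; have := h.2; omega⟩
  have hne : ∀ a, ∃ x, ∀ n, x ∈ B (st a n) := by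
    intro a
    by_cases hb : ∃ N, ∀ n, rk (st a n) ≤ N
    · obtain ⟨N, hN⟩ := hb
      obtain ⟨n0, hn0⟩ : ∃ n0, ∀ n, rk (st a n) ≤ rk (st a n0) := by
        have hfin : (Set.range fun n => rk (st a n)).Finite :=
          (Set.finite_Iic N).subset (by rintro _ ⟨n, rfl⟩; exact hN n)
        obtain ⟨_, ⟨n0, rfl⟩, h⟩ := hfin.exists_maximal ⟨_, ⟨0, rfl⟩⟩
        refine ⟨n0, fun n => ?_⟩
        by_contra hlt
        have := h ⟨n, rfl⟩ (le_of_not_ge hlt)
        exact hlt this
      refine ⟨c (st a n0), fun n => ?_⟩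
      rcases le_total n n0 with h | h
      · obtain ⟨k, rfl⟩ := Nat.exists_eq_add_of_le h
        exact (hanti a n k).1 (hc _)
      · obtain ⟨k, rfl⟩ := Nat.exists_eq_add_of_le h
        rw [(hanti a n0 k).2.2.2 (le_antisymm (hanti a n0 k).2.1 (hn0 _))]
        exact hc _
    · push Not at hb
      have hcau : CauchySeq fun n => c (st a n) := by
        rw [Metric.cauchySeq_iff']
        intro ε hε
        obtain ⟨N, hN⟩ := exists_nat_one_div_lt hε
        obtain ⟨n0, hn0⟩ := hb N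
        refine ⟨n0, fun n hn => ?_⟩
        obtain ⟨k, rfl⟩ := Nat.exists_eq_add_of_le hn
        exact (hdiam _ N hn0 _ ((hanti a n0 k).1 (hc _))).trans hN
      obtain ⟨x, hx⟩ := cauchySeq_tendsto_of_complete hcau
      refine ⟨x, fun n => ?_⟩
      obtain ⟨n1, hn1⟩ := hb (rk (st a n))
      have hle : n ≤ n1 := by
        by_contra hlt
        obtain ⟨k, rfl⟩ := Nat.exists_eq_add_of_le (le_of_not_ge hlt)
        have := (hanti a n1 k).2.1
        omega
      obtain ⟨k, rfl⟩ := Nat.exists_eq_add_of_le hle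
      apply (hanti a n k).2.2.1 hn1
      apply mem_closure_of_tendsto hx
      filter_upwards [eventually_ge_atTop (n + k)] with m hm
      obtain ⟨k', rfl⟩ := Nat.exists_eq_add_of_le hm
      exact (hanti a (n + k) k').1 (hc _)
  choose φ hφ using hne
  refine ⟨⟨φ, fun a n => B (st a n), fun a n => hBo _, fun a => by rw [h1], hφ,
    fun a b n h => by rw [h3 a b n h], ?_⟩⟩
  rintro a n V hV ⟨z, hz⟩
  obtain ⟨ε, hε, hball⟩ := Metric.isOpen_iff.1 (hV.inter (hBo (st a n))) z hz
  obtain ⟨N0, hN0⟩ := exists_nat_one_div_lt (half_pos hε)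
  set N := max N0 (rk (st a n)) with hN
  have hN1 : 1 / ((N : ℝ) + 1) < ε / 2 := by
    refine lt_of_le_of_lt ?_ hN0
    have : (N0 : ℝ) ≤ N := by exact_mod_cast le_max_left _ _
    gcongr
  obtain ⟨i, hi⟩ := hd.exists_dist_lt z (half_pos hε)
  have hsub : closure (B (some (i, N))) ⊆ V ∩ B (st a n) := by
    refine Subset.trans ?_ hball
    refine (Metric.closure_ball_subset_closedBall).trans ?_
    intro y hy
    rw [Metric.mem_closedBall] at hy
    rw [Metric.mem_ball]
    have := dist_triangle y (d i) z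
    rw [dist_comm (d i) z] at this
    simp only at hy
    linarith
  obtain ⟨b, n', -, hb1, hb2⟩ := h4 a n (some (i, N))
    ⟨hsub.trans inter_subset_right, by show rk (st a n) < N + 1; omega⟩
  refine ⟨b, n', hb1, ?_⟩
  simp only [hb2]
  exact subset_closure.trans (hsub.trans inter_subset_left)

theorem exists_coding (X : Type) [TopologicalSpace X] [PolishSpace X] [Nonempty X] :
    Nonempty (Coding X) := by
  letI := TopologicalSpace.upgradeIsCompletelyMetrizable X
  exact exists_coding_metric X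

theorem Coding.do_open {X : Type} [TopologicalSpace X] (C : Coding X) {n : ℕ}
    {O : Set (Fin n → X)} (hO : IsOpen O) (hd : Dense O) :
    DO {a : ℕ → Fin n → Bool | (fun k => C.φ fun j => a j k) ∈ O} := by
  intro a m
  have h1 : IsOpen (Set.pi Set.univ fun k : Fin n => C.U (fun j => a j k) m) :=
    isOpen_set_pi Set.finite_univ fun k _ => C.isOpen _ _
  obtain ⟨z, hz1, hz2⟩ := hd.inter_open_nonempty _ h1
    ⟨fun k => C.φ fun j => a j k, fun k _ => C.mem _ _⟩
  obtain ⟨V, hV1, hV2⟩ := isOpen_pi_iff'.1 hO z hz2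
  choose b n' hb1 hb2 using fun k =>
    C.ext (fun j => a j k) m (V k) (hV1 k).1 ⟨z k, (hV1 k).2, hz1 k (mem_univ k)⟩
  refine ⟨fun j k => b k j, Finset.univ.sup n', fun j hj => funext fun k => hb1 k j hj,
    fun a'' h => hV2 fun k _ => hb2 k ?_⟩
  have h2 : n' k ≤ Finset.univ.sup n' := Finset.le_sup (Finset.mem_univ k)
  rw [C.agree (b k) (fun j => a'' j k) (n' k) fun j hj => congrFun (h j (by omega)) k]
  exact C.mem _ _

theorem exists_seq_of_meagre {Z : Type} [TopologicalSpace Z] {R : Set Z} (hR : IsMeagre R) :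
    ∃ O : ℕ → Set Z, (∀ k, IsOpen (O k)) ∧ (∀ k, Dense (O k)) ∧ ∀ z, (∀ k, z ∈ O k) → z ∉ R := by
  obtain ⟨S, h1, h2, h3, h4⟩ := mem_residual_iff.1 hR
  obtain ⟨O, hO⟩ := (h3.insert Set.univ).exists_eq_range (Set.insert_nonempty _ _)
  have hm : ∀ k, O k ∈ insert Set.univ S := fun k => hO ▸ mem_range_self k
  refine ⟨O, fun k => ?_, fun k => ?_, fun z hz => h4 fun t ht => ?_⟩
  · rcases hm k with h | h
    · rw [h]; exact isOpen_univ
    · exact h1 _ h
  · rcases hm k with h | h
    · rw [h]; exact dense_univ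
    · exact h2 _ h
  · have : t ∈ range O := hO ▸ mem_insert_of_mem _ ht
    obtain ⟨k, rfl⟩ := this
    exact hz k

theorem Coding.chop {X : Type} [TopologicalSpace X] (C : Coding X) {n : ℕ}
    {R : Set (Fin n → X)} (hR : IsMeagre R) :
    ∃ (L : ℕ → ℕ) (w : ℕ → ℕ → Fin n → Bool), ∀ a : ℕ → Fin n → Bool,
      (∃ᶠ m in atTop, ∀ j, m ≤ j → j < L m → a j = w m j) →
        (fun k => C.φ fun j => a j k) ∉ R := by
  obtain ⟨O, h1, h2, h3⟩ := exists_seq_of_meagre hR
  obtain ⟨L, w, h⟩ := chop_seq _ fun k => C.do_open (h1 k) (h2 k)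
  exact ⟨L, w, fun a ha => h3 _ (h a ha)⟩

theorem Coding.chop1 {X : Type} [TopologicalSpace X] (C : Coding X)
    {M : Set X} (hM : IsMeagre M) :
    ∃ (L : ℕ → ℕ) (w : ℕ → ℕ → Bool), ∀ a : ℕ → Bool,
      (∃ᶠ m in atTop, ∀ j, m ≤ j → j < L m → a j = w m j) → C.φ a ∉ M := by
  have h1 : IsMeagre ((fun f : Fin 1 → X => f 0) ⁻¹' M) :=
    hM.preimage_of_isOpenMap (continuous_apply 0) (isOpenMap_eval 0)
  obtain ⟨L, w, h⟩ := C.chop h1
  refine ⟨L, fun m j => w m j 0, fun a ha => h (fun j _ => a j) (ha.mono ?_)⟩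
  intro m hm j h1 h2
  funext k
  rw [hm j h1 h2, Subsingleton.elim k 0]

/-- a sequence with a prescribed stem matching infinitely many blocks -/
theorem exists_match {S : ℕ → Prop} (hS : ∃ᶠ m in atTop, S m) (L : ℕ → ℕ) (w : ℕ → ℕ → Bool)
    (b : ℕ → Bool) (m0 : ℕ) : ∃ y : ℕ → Bool, Agree m0 y b ∧
      ∃ᶠ m in atTop, S m ∧ ∀ j, m ≤ j → j < L m → y j = w m j := by
  obtain ⟨y, hy⟩ := (cov_of_countable ℕ).bool _ fun N => do_match hS L w N
  refine ⟨fun j => if j < m0 then b j else y j, fun j hj => by simp [hj], ?_⟩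
  rw [frequently_atTop]
  intro N
  obtain ⟨m, h1, h2, h3⟩ := hy (max N m0)
  refine ⟨m, by omega, h2, fun j hj1 hj2 => ?_⟩
  simp only [if_neg (show ¬ j < m0 by omega)]
  exact h3 j hj1 hj2

theorem free_main (X : Type) [TopologicalSpace X] [PolishSpace X]
    (ι : Type) (n : ι → ℕ) (R : ∀ i, Set (Fin (n i) → X)) (hR : ∀ i, IsMeagre (R i))
    (hc : Cov ι) : ∃ A : Set X,
      (∀ U : Set X, IsOpen U → U.Nonempty → ¬ IsMeagre (A ∩ U)) ∧
      ∀ (i : ι) (x : Fin (n i) → X), Function.Injective x → (∀ k, x k ∈ A) → x ∉ R i := by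
  classical
  rcases isEmpty_or_nonempty X with hX | hX
  · refine ⟨∅, fun U _ ⟨x, _⟩ => (hX.false x).elim, fun i x _ _ hx => ?_⟩
    have : Nonempty (Fin (n i) → X) := ⟨x⟩
    obtain ⟨y, hy⟩ := (dense_of_mem_residual (hR i)).nonempty
    obtain rfl : x = y := funext fun k => (hX.false (x k)).elim
    exact hy hx
  obtain ⟨C⟩ := exists_coding X
  choose L w hw using fun i => C.chop (hR i)
  obtain ⟨T, A, P, hT, hN, hP⟩ := K hc n L w
  have hcard : #(T × ℕ × (ℕ → Bool)) ≤ #(ℕ → Bool) := by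
    have h1 : #(ℕ → Bool) = 𝔠 := by simp
    rw [h1]
    refine mk_prod_le Cardinal.aleph0_le_continuum hT (mk_prod_le Cardinal.aleph0_le_continuum ?_
      h1.le)
    simp [Cardinal.aleph0_le_continuum]
  obtain ⟨e⟩ := (Cardinal.le_def _ _).1 hcard
  let a : T × ℕ × (ℕ → Bool) → ℕ → Bool := fun p => pt A P p.1 p.2.1 p.2.2 (e p)
  refine ⟨range fun p => C.φ (a p), fun U hU hne hM => ?_, fun i x hx hxA => ?_⟩
  · obtain ⟨L', w', h'⟩ := C.chop1 hM
    obtain ⟨t, ht⟩ := hN L'
    obtain ⟨b, m0, -, hb⟩ := C.ext (fun _ => false) 0 U hU (by rw [C.zero]; simpa using hne)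
    obtain ⟨y, hy1, hy2⟩ := exists_match ht L' w' b m0
    refine h' (a (t, m0, y)) (pt_match m0 _ hy2) ⟨⟨_, rfl⟩, hb ?_⟩
    rw [← C.agree _ b m0 ((pt_agree A P t m0 y (e (t, m0, y))).trans hy1)]
    exact C.mem _ _
  · choose p hp using hxA
    have hinj : Function.Injective fun k => e (p k) := by
      intro k k' h
      apply hx
      rw [← hp k, ← hp k', e.injective h]
    have h1 := hw i _ (hP.pt i (fun k => (p k).1) (fun k => (p k).2.1) (fun k => (p k).2.2) _ hinj)
    have h2 : x = fun k => C.φ (a (p k)) := funext fun k => (hp k).symm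
    rw [h2]
    exact h1

end Pool.Agent.H895Z.Free
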