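import Mathlib

set_option autoImplicit false

/-! Independent families and the invariants `non(meager)` and `i(meager)`.
A subset of `ℕ` is identified with its characteristic function, a point of the Cantor space. -/

namespace Pool.Agent.H895Z.Indep

/-- an independent family of infinite subsets of `ℕ` -/
def IsIndep (𝒜 : Set (ℕ → Bool)) : Prop :=
  (∀ a ∈ 𝒜, {n | a n = true}.Infinite) ∧
  ∀ F G : Finset (ℕ → Bool), (F : Set (ℕ → Bool)) ⊆ 𝒜 → (G : Set (ℕ → Bool)) ⊆ 𝒜 →
    Disjoint F G → (F.Nonempty ∨ G.Nonempty) →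
    {n | (∀ a ∈ F, a n = true) ∧ ¬ ∃ b ∈ G, b n = true}.Infinite

/-- the least size of a non-meager subset of the Cantor space -/
noncomputable def nonM : Cardinal.{0} :=
  sInf {c | ∃ Y : Set (ℕ → Bool), ¬ IsMeagre Y ∧ Cardinal.mk Y = c}

/-- the least size of a non-meager independent family -/
noncomputable def iM : Cardinal.{0} :=
  sInf {c | ∃ 𝒜 : Set (ℕ → Bool), IsIndep 𝒜 ∧ ¬ IsMeagre 𝒜 ∧ Cardinal.mk 𝒜 = c}

end Pool.Agent.H895Z.Indep
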