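import Pool.Agent.H895Z.FreeMain
import Pool.Agent.H895Z.IndepDefs

set_option autoImplicit false

/-! A non-meager independent family of size `non(meager)`. -/

open Cardinal Filter Set Topology

namespace Pool.Agent.H895Z.Indep

open Pool.Agent.H895Z.Free

theorem mem_cyl {a b : ℕ → Bool} {n : ℕ} : b ∈ PiNat.cylinder a n ↔ Agree n a b := by
  rw [PiNat.mem_cylinder_iff]
  exact ⟨fun h j hj => (h j hj).symm, fun h j hj => (h j hj).symm⟩

theorem exists_cyl {V : Set (ℕ → Bool)} (hV : IsOpen V) {z : ℕ → Bool} (hz : z ∈ V) :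
    ∃ n, PiNat.cylinder z n ⊆ V := by
  obtain ⟨s, ⟨x, n, rfl⟩, h1, h2⟩ :=
    (PiNat.isTopologicalBasis_cylinders (fun _ : ℕ => Bool)).exists_subset_of_mem_open hz hV
  exact ⟨n, by rw [PiNat.mem_cylinder_iff_eq.1 h1]; exact h2⟩

theorem meagre_of_do {D : Set (ℕ → Bool)} (hD : DO D) : IsMeagre Dᶜ := by
  apply IsNowhereDense.isMeagre
  unfold IsNowhereDense
  apply Set.eq_empty_of_forall_notMem
  intro x hx
  obtain ⟨m, hm⟩ := exists_cyl isOpen_interior hx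
  obtain ⟨a', m', h1, h2⟩ := hD x m
  have h3 : a' ∈ closure Dᶜ := interior_subset (hm (mem_cyl.2 h1))
  obtain ⟨u, hu1, hu2⟩ := mem_closure_iff.1 h3 _ (PiNat.isOpen_cylinder (fun _ : ℕ => Bool) a' m')
    (PiNat.self_mem_cylinder a' m')
  exact hu2 (h2 u (mem_cyl.1 hu1))

/-- the identity coding of the Cantor space -/
def idCoding : Coding (ℕ → Bool) where
  φ := id
  U := fun a n => PiNat.cylinder a n
  isOpen := fun a n => PiNat.isOpen_cylinder (fun _ : ℕ => Bool) a n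
  zero := fun a => PiNat.cylinder_zero a
  mem := fun a n => PiNat.self_mem_cylinder a n
  agree := fun a b n h => (PiNat.mem_cylinder_iff_eq.1 (mem_cyl.2 h)).symm
  ext := by
    rintro a n V hV ⟨z, hz1, hz2⟩
    obtain ⟨m, hm⟩ := exists_cyl hV hz1
    exact ⟨z, m, mem_cyl.1 hz2, hm⟩

theorem meagre_no_match {S : ℕ → Prop} (hS : ∃ᶠ m in atTop, S m) (L : ℕ → ℕ)
    (w : ℕ → ℕ → Bool) :
    IsMeagre {y : ℕ → Bool | ¬ ∃ᶠ m in atTop, S m ∧ ∀ j, m ≤ j → j < L m → y j = w m j} := by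
  refine (isMeagre_iUnion fun N => meagre_of_do (do_match hS L w N)).mono ?_
  intro y hy
  simp only [mem_setOf_eq, frequently_atTop, not_forall] at hy
  obtain ⟨N, hN⟩ := hy
  exact mem_iUnion.2 ⟨N, hN⟩

theorem exists_mem_not {Y M : Set (ℕ → Bool)} (hY : ¬ IsMeagre Y) (hM : IsMeagre M) :
    ∃ y ∈ Y, y ∉ M := by
  by_contra hc
  push Not at hc
  exact hY (hM.mono hc)

theorem aleph0_le {Y : Set (ℕ → Bool)} (hY : ¬ IsMeagre Y) : ℵ₀ ≤ #Y := by
  rw [Cardinal.aleph0_le_mk_iff]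
  by_contra hfin
  rw [not_infinite_iff_finite] at hfin
  apply hY
  have h1 : ∀ y : ℕ → Bool, IsMeagre ({a | a ≠ y}ᶜ) := by
    intro y
    apply meagre_of_do
    intro a m
    refine ⟨fun j => if j < m then a j else !(y j), m + 1, fun j hj => by simp [hj],
      fun b hb h => ?_⟩
    have := hb m (by omega)
    simp [h] at this
  refine (isMeagre_iUnion fun y : Y => h1 y).mono fun y hy => mem_iUnion.2 ⟨⟨y, hy⟩, by simp⟩

theorem exists_family {Y : Set (ℕ → Bool)} (hY : ¬ IsMeagre Y) :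
    ∃ A : List Y → Set ℕ, Cent A ∧ NM A := by
  classical
  let f0 : Y → ℕ → ℕ := fun y m => sInf {j | m ≤ j ∧ y.1 j = true}
  let f : Y → ℕ → ℕ := fun t m => (Finset.range (m + 1)).sup (f0 t)
  have hf : ∀ t, Monotone (f t) := fun t a b hab =>
    Finset.sup_mono (Finset.range_subset_range.2 (by omega))
  apply simon f hf
  rintro ⟨g, hg⟩
  have hT : ∃ᶠ _m in (atTop : Filter ℕ), True := Frequently.of_forall fun _ => trivial
  obtain ⟨y, hyY, hy⟩ := exists_mem_not hY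
    ((meagre_no_match hT (fun m => g m + 1) (fun _ _ => false)).union
      (meagre_no_match hT (fun m => m + 1) (fun _ _ => true)))
  simp only [mem_union, mem_setOf_eq, not_or, not_not] at hy
  obtain ⟨m, ⟨-, hm1⟩, hm2⟩ := (hy.1.and_eventually (hg ⟨y, hyY⟩)).exists
  obtain ⟨j, hj1, -, hj2⟩ := frequently_atTop.1 hy.2 m
  have hne : ({j | m ≤ j ∧ y j = true} : Set ℕ).Nonempty := ⟨j, hj1, hj2 j le_rfl (by omega)⟩
  have h1 := Nat.sInf_mem hne
  have h2 : f0 ⟨y, hyY⟩ m ≤ f ⟨y, hyY⟩ m :=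
    Finset.le_sup (f := f0 ⟨y, hyY⟩) (Finset.mem_range.2 (by omega))
  have h3 := hm1 (f0 ⟨y, hyY⟩ m) h1.1 (by omega)
  have h4 : y (f0 ⟨y, hyY⟩ m) = true := h1.2
  simp [h3] at h4

theorem exists_indep {Y : Set (ℕ → Bool)} (hY : ¬ IsMeagre Y) :
    ∃ 𝒜 : Set (ℕ → Bool), IsIndep 𝒜 ∧ ¬ IsMeagre 𝒜 ∧ #𝒜 ≤ #Y := by
  classical
  obtain ⟨A0, hA0, hN0⟩ := exists_family hY
  obtain ⟨A, P, hN, hP⟩ := K1 (ι := Σ n : ℕ, Fin n → Bool) (cov_of_countable _)
    (bdd_of_countable _) (fun i => i.1) (fun _ m => m + 1) (fun i _ _ => i.2) A0 hA0 hN0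
  have hinf := aleph0_le hY
  have hcard : #(List Y × Y) ≤ #Y :=
    mk_prod_le hinf ((Cardinal.mk_list_le_max Y).trans (max_le hinf le_rfl)) le_rfl
  obtain ⟨e⟩ := (Cardinal.le_def _ _).1 (hcard.trans (Cardinal.mk_set_le Y))
  let a : List Y × Y → ℕ → Bool := fun p => pt A P p.1 0 p.2 (e p)
  have key : ∀ F G : Finset (ℕ → Bool), (F : Set (ℕ → Bool)) ⊆ range a →
      (G : Set (ℕ → Bool)) ⊆ range a → Disjoint F G →
      {n | (∀ a ∈ F, a n = true) ∧ ¬ ∃ b ∈ G, b n = true}.Infinite := by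
    intro F G hF hG hFG
    let x : Fin (F ∪ G).card → ℕ → Bool := fun k => (F ∪ G).equivFin.symm k
    have hx : Function.Injective x :=
      Subtype.val_injective.comp (F ∪ G).equivFin.symm.injective
    have hxs : ∀ b ∈ F ∪ G, ∃ k, x k = b := fun b hb =>
      ⟨(F ∪ G).equivFin ⟨b, hb⟩, by simp [x]⟩
    have hxA : ∀ k, x k ∈ range a := by
      intro k
      rcases Finset.mem_union.1 ((F ∪ G).equivFin.symm k).2 with h | h
      · exact hF h
      · exact hG h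
    choose p hp using hxA
    have hinj : Function.Injective fun k => e (p k) := by
      intro k k' h
      apply hx
      rw [← hp k, ← hp k', e.injective h]
    have h1 := hP.pt ⟨(F ∪ G).card, fun k => decide (x k ∈ F)⟩ (fun k => (p k).1) (fun _ => 0)
      (fun k => (p k).2) _ hinj
    rw [← Nat.frequently_atTop_iff_infinite]
    refine h1.mono fun m hm => ?_
    have h2 : ∀ k, x k m = decide (x k ∈ F) := by
      intro k
      have h3 : a (p k) m = decide (x k ∈ F) := congrFun (hm m le_rfl (by omega)) k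
      rw [← h3, hp k]
    refine ⟨fun b hb => ?_, ?_⟩
    · obtain ⟨k, rfl⟩ := hxs b (Finset.mem_union_left _ hb)
      rw [h2 k]; simpa using hb
    · rintro ⟨b, hb, hbm⟩
      obtain ⟨k, rfl⟩ := hxs b (Finset.mem_union_right _ hb)
      rw [h2 k] at hbm
      exact Finset.disjoint_left.1 hFG (by simpa using hbm) hb
  refine ⟨range a, ⟨fun b hb => ?_, fun F G hF hG hFG _ => key F G hF hG hFG⟩, fun hM => ?_,
    Cardinal.mk_range_le.trans hcard⟩
  · simpa using key {b} ∅ (by simpa using hb) (by simp) (by simp)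
  · obtain ⟨L', w', h'⟩ := idCoding.chop1 hM
    obtain ⟨t, ht⟩ := hN L'
    obtain ⟨y, hyY, hy⟩ := exists_mem_not hY (meagre_no_match ht L' w')
    exact h' (a (t, ⟨y, hyY⟩)) (pt_match 0 _ (not_not.1 hy)) ⟨_, rfl⟩

theorem not_meagre_univ : ¬ IsMeagre (Set.univ : Set (ℕ → Bool)) := by
  intro h1
  have h2 : (∅ : Set (ℕ → Bool)) ∈ residual (ℕ → Bool) := by
    simpa [IsMeagre] using h1
  simpa using (dense_of_mem_residual h2).nonempty

theorem main : iM = nonM ∧ ∃ 𝒜 : Set (ℕ → Bool), IsIndep 𝒜 ∧ ¬ IsMeagre 𝒜 ∧ #𝒜 = nonM := by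
  have hne : {c | ∃ Y : Set (ℕ → Bool), ¬ IsMeagre Y ∧ #Y = c}.Nonempty :=
    ⟨_, Set.univ, not_meagre_univ, rfl⟩
  obtain ⟨Y, hY, hYc⟩ := csInf_mem hne
  obtain ⟨𝒜, h1, h2, h3⟩ := exists_indep hY
  have h4 : #𝒜 = nonM := le_antisymm (h3.trans hYc.le) (csInf_le' ⟨𝒜, h2, rfl⟩)
  refine ⟨le_antisymm (csInf_le' ⟨𝒜, h1, h2, h4⟩) ?_, 𝒜, h1, h2, h4⟩
  refine le_csInf ⟨_, 𝒜, h1, h2, rfl⟩ ?_
  rintro c ⟨B, -, hB, rfl⟩
  exact csInf_le' ⟨B, hB, rfl⟩

end Pool.Agent.H895Z.Indep
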