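import Pool.Agent.H895Z.FreeMain

set_option autoImplicit false

/-!
# From a Luzin set to a Luzin rational subspace
-/

open Cardinal Filter Set Metric

namespace Pool.Agent.H895Z.Luzin

open Pool.Agent.H895Z.Free

/-- bounded families of fewer than `κ` sequences are captured by slaloms of width `h` -/
def Loc (h : ℕ → ℕ) (κ : Cardinal.{0}) : Prop :=
  ∀ (β : ℕ → ℕ) (F : Set (ℕ → ℕ)), #F < κ → (∀ f ∈ F, ∀ l, f l < β l) →
    ∃ σ : ℕ → Finset ℕ, (∀ l, (σ l).card ≤ h l) ∧ ∀ f ∈ F, ∀ᶠ l in atTop, f l ∈ σ l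

theorem loc_aleph1 : Loc (fun l => l + 1) ℵ₁ := by
  classical
  intro β F hF _
  have hc : F.Countable := by
    rw [← Cardinal.le_aleph0_iff_set_countable]
    rw [← Cardinal.succ_aleph0] at hF
    exact Order.lt_succ_iff.1 hF
  obtain ⟨g, hg⟩ := (hc.insert (fun _ => 0)).exists_eq_range (Set.insert_nonempty _ _)
  refine ⟨fun l => (Finset.range (l + 1)).image fun i => g i l, fun l => ?_, fun f hf => ?_⟩
  · exact Finset.card_image_le.trans (by simp)
  · have : f ∈ range g := hg ▸ mem_insert_of_mem _ hf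
    obtain ⟨i, rfl⟩ := this
    filter_upwards [eventually_ge_atTop i] with l hl
    exact Finset.mem_image.2 ⟨i, Finset.mem_range.2 (by omega), rfl⟩

variable {E : Type} [NormedAddCommGroup E] [ProperSpace E]

/-- the radius with index `m` -/
noncomputable def rad (m : ℕ) : ℝ := 1 / ((m : ℝ) + 1)

theorem rad_pos (m : ℕ) : 0 < rad m := by unfold rad; positivity

theorem rad_anti {m m' : ℕ} (h : m ≤ m') : rad m' ≤ rad m := by
  unfold rad
  have : (m : ℝ) ≤ m' := by exact_mod_cast h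
  gcongr

theorem approx {h : ℕ → ℕ} {κ : Cardinal.{0}} (hL : Loc h κ) (A : Set E) (hA : #A < κ)
    (M : ℕ → ℕ) : ∃ σ : ℕ → Finset E, (∀ l, (σ l).card ≤ h l) ∧
      (∀ l, ∀ a' ∈ σ l, ‖a'‖ ≤ l) ∧
      ∀ a ∈ A, ∀ᶠ l in atTop, ∃ a' ∈ σ l, dist a a' < rad (M l) := by
  classical
  have h1 : ∀ l : ℕ, ∃ (β : ℕ) (e : ℕ → E), (∀ i, ‖e i‖ ≤ l) ∧
      ∀ a : E, ∃ i, i < β ∧ (‖a‖ ≤ l → dist a (e i) < rad (M l)) := by
    intro l
    obtain ⟨t, ht, hfin, hcov⟩ :=
      finite_cover_balls_of_compact (isCompact_closedBall (0 : E) (l : ℝ)) (rad_pos (M l))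
    let L := hfin.toFinset.toList
    refine ⟨L.length + 1, fun i => L.getD i 0, fun i => ?_, fun a => ?_⟩
    · by_cases hi : i < L.length
      · have : L.getD i 0 ∈ L := by
          rw [List.getD_eq_getElem _ _ hi]; exact List.getElem_mem hi
        have h2 : L.getD i 0 ∈ t := by simpa [L] using this
        simpa using ht h2
      · beta_reduce
        rw [List.getD_eq_default _ _ (by omega)]; simp
    · by_cases ha : ‖a‖ ≤ l
      · have : a ∈ ⋃ x ∈ t, ball x (rad (M l)) := hcov (by simpa using ha)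
        obtain ⟨x, hx, hax⟩ := mem_iUnion₂.1 this
        have hxL : x ∈ L := by simpa [L] using hx
        obtain ⟨i, hi, rfl⟩ := List.getElem_of_mem hxL
        refine ⟨i, by omega, fun _ => ?_⟩
        beta_reduce
        rw [List.getD_eq_getElem _ _ hi]
        exact hax
      · exact ⟨0, by omega, fun h => (ha h).elim⟩
  choose β e he g hg using h1
  obtain ⟨σ, hσ1, hσ2⟩ := hL β ((fun a l => g l a) '' A) (lt_of_le_of_lt mk_image_le hA)
    (by rintro _ ⟨a, -, rfl⟩ l; exact (hg l a).1)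
  refine ⟨fun l => (σ l).image (e l), fun l => Finset.card_image_le.trans (hσ1 l), ?_, ?_⟩
  · intro l a' ha'
    obtain ⟨i, -, rfl⟩ := Finset.mem_image.1 ha'
    exact he l i
  · intro a ha
    obtain ⟨N, hN⟩ := exists_nat_ge ‖a‖
    filter_upwards [hσ2 _ ⟨a, ha, rfl⟩, eventually_ge_atTop N] with l h1 h2
    refine ⟨_, Finset.mem_image_of_mem _ h1, (hg l a).2 (hN.trans ?_)⟩
    exact_mod_cast h2

/-- one move serves every centre and every small set of translations -/
def Serve (k : ℕ) (ρ R : ℝ) (W : Set E) (m : ℕ) : Prop :=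
  ∀ c : E, ‖c‖ ≤ 1 → ∀ s : Finset E, s.card ≤ k → (∀ a ∈ s, ‖a‖ ≤ R) →
    ∃ b, dist b c + rad m ≤ ρ ∧ ∀ a ∈ s, ball (b + a) (2 * rad m) ⊆ W

theorem exists_serve (B : ℕ → Set E) (hBo : ∀ i, IsOpen (B i))
    (hB : ∀ U : Set E, IsOpen U → ∀ z ∈ U, ∃ i, z ∈ B i ∧ B i ⊆ U)
    {U : Set E} (hU : IsOpen U) (hd : Dense U) (k : ℕ) {ρ : ℝ} (hρ : 0 < ρ) {R : ℝ}
    (hR : 0 ≤ R) (m0 : ℕ) :
    ∃ (W : Finset ℕ) (m : ℕ), m0 ≤ m ∧ (⋃ i ∈ W, B i) ⊆ U ∧ Serve k ρ R (⋃ i ∈ W, B i) m := by
  classical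
  let K : Set (E × (Fin k → E)) := closedBall 0 1 ×ˢ closedBall 0 R
  have hK : IsCompact K := (isCompact_closedBall _ _).prod (isCompact_closedBall _ _)
  let p : Set (E × (Fin k → E)) → Prop := fun t =>
    ∃ (W : Finset ℕ) (m : ℕ), m0 ≤ m ∧ (⋃ i ∈ W, B i) ⊆ U ∧ ∀ z ∈ t,
      ∃ b, dist b z.1 + rad m ≤ ρ ∧ ∀ j, ball (b + z.2 j) (2 * rad m) ⊆ ⋃ i ∈ W, B i
  have key : p K := by
    refine hK.induction_on (p := p) ⟨∅, m0, le_rfl, by simp, by simp⟩ ?_ ?_ ?_
    · rintro s t hst ⟨W, m, h1, h2, h3⟩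
      exact ⟨W, m, h1, h2, fun z hz => h3 z (hst hz)⟩
    · rintro s t ⟨W, m, h1, h2, h3⟩ ⟨W', m', h1', h2', h3'⟩
      refine ⟨W ∪ W', max m m', h1.trans (le_max_left _ _), ?_, ?_⟩
      · rw [Finset.set_biUnion_union]; exact union_subset h2 h2'
      · rintro z (hz | hz)
        · obtain ⟨b, hb1, hb2⟩ := h3 z hz
          have := rad_anti (le_max_left m m')
          refine ⟨b, by linarith, fun j => ?_⟩
          rw [Finset.set_biUnion_union]
          exact (ball_subset_ball (by linarith)).trans ((hb2 j).trans subset_union_left)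
        · obtain ⟨b, hb1, hb2⟩ := h3' z hz
          have := rad_anti (le_max_right m m')
          refine ⟨b, by linarith, fun j => ?_⟩
          rw [Finset.set_biUnion_union]
          exact (ball_subset_ball (by linarith)).trans ((hb2 j).trans subset_union_right)
    · rintro ⟨c0, a0⟩ -
      have hd' : Dense (⋂ j : Fin k, (fun b => b + a0 j) ⁻¹' U) := by
        refine dense_iInter_of_isOpen (fun j => hU.preimage (by fun_prop)) (fun j => ?_)
        exact hd.preimage (Homeomorph.addRight (a0 j)).isOpenMap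
      obtain ⟨b, hb1, hb2⟩ := hd'.inter_open_nonempty (ball c0 (ρ / 2)) isOpen_ball
        ⟨c0, mem_ball_self (by linarith)⟩
      have ho : IsOpen (⋂ j : Fin k, (fun b => b + a0 j) ⁻¹' U) :=
        isOpen_iInter_of_finite fun j => hU.preimage (by fun_prop)
      obtain ⟨ε, hε, hεb⟩ := Metric.isOpen_iff.1 ho b hb2
      obtain ⟨m1, hm1⟩ := exists_nat_one_div_lt (show 0 < min (ε / 4) (ρ / 4) by positivity)
      set m := max m0 m1 with hm
      have hη1 : rad m ≤ rad m1 := rad_anti (le_max_right _ _)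
      have hη2 : rad m < ε / 4 := lt_of_le_of_lt hη1 (lt_of_lt_of_le hm1 (min_le_left _ _))
      have hη3 : rad m < ρ / 4 := lt_of_le_of_lt hη1 (lt_of_lt_of_le hm1 (min_le_right _ _))
      have hη0 := rad_pos m
      let C : Set E := ⋃ j : Fin k, closedBall (b + a0 j) (3 * rad m)
      have hC : IsCompact C := isCompact_iUnion fun j => isCompact_closedBall _ _
      have hCU : C ⊆ U := by
        intro y hy
        obtain ⟨j, hj⟩ := mem_iUnion.1 hy
        have h1 : y - a0 j ∈ ball b ε := by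
          rw [mem_closedBall, dist_eq_norm] at hj
          rw [mem_ball, dist_eq_norm]
          have : y - a0 j - b = y - (b + a0 j) := by abel
          rw [this]; linarith
        have h2 := mem_iInter.1 (hεb h1) j
        simpa using h2
      let I := {i : ℕ // B i ⊆ U}
      obtain ⟨t, ht⟩ := hC.elim_finite_subcover (fun i : I => B i.1) (fun i => hBo i.1) (by
        intro y hy
        obtain ⟨i, hi1, hi2⟩ := hB U hU y (hCU hy)
        exact mem_iUnion.2 ⟨⟨i, hi2⟩, hi1⟩)
      refine ⟨ball (c0, a0) (rad m), mem_nhdsWithin_of_mem_nhds (ball_mem_nhds _ hη0),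
        t.image Subtype.val, m, le_max_left _ _, ?_, ?_⟩
      · intro y hy
        obtain ⟨i, hi, hy⟩ := mem_iUnion₂.1 hy
        obtain ⟨i', -, rfl⟩ := Finset.mem_image.1 hi
        exact i'.2 hy
      · rintro ⟨c, a⟩ hz
        rw [mem_ball, Prod.dist_eq, max_lt_iff] at hz
        refine ⟨b, ?_, fun j y hy => ?_⟩
        · have h1 := dist_triangle b c0 c
          rw [dist_comm c0 c] at h1
          have h2 : dist b c0 < ρ / 2 := hb1
          have h3 : dist c c0 < rad m := hz.1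
          show dist b c + rad m ≤ ρ
          linarith
        · have h1 : dist (a j) (a0 j) ≤ dist a a0 := dist_le_pi_dist a a0 j
          have h2 : dist a a0 < rad m := hz.2
          have h3 : dist y (b + a j) < 2 * rad m := hy
          have h4 := dist_triangle y (b + a j) (b + a0 j)
          rw [dist_add_left] at h4
          have hyC : y ∈ C := mem_iUnion.2 ⟨j, by rw [mem_closedBall]; linarith⟩
          obtain ⟨i, hi, hy⟩ := mem_iUnion₂.1 (ht hyC)
          exact mem_iUnion₂.2 ⟨i.1, Finset.mem_image_of_mem _ hi, hy⟩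
  obtain ⟨W, m, h1, h2, h3⟩ := key
  refine ⟨W, m, h1, h2, fun c hc s hs hsR => ?_⟩
  let L := s.toList
  have hL : L.length ≤ k := by simpa [L] using hs
  obtain ⟨b, hb1, hb2⟩ := h3 (c, fun j => L.getD j 0) ⟨by simpa using hc, by
    rw [mem_closedBall, dist_zero_right, pi_norm_le_iff_of_nonneg hR]
    intro j
    by_cases hj : (j : ℕ) < L.length
    · have : L.getD j 0 ∈ L := by
        rw [List.getD_eq_getElem _ _ hj]; exact List.getElem_mem hj
      exact hsR _ (by simpa [L] using this)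
    · show ‖L.getD j 0‖ ≤ R
      rw [List.getD_eq_default _ _ (by omega)]; simpa using hR⟩
  refine ⟨b, hb1, fun a ha => ?_⟩
  have haL : a ∈ L := by simpa [L] using ha
  obtain ⟨i, hi, rfl⟩ := List.getElem_of_mem haL
  have := hb2 ⟨i, by omega⟩
  simp only at this
  rwa [List.getD_eq_getElem _ _ hi] at this

/-- the key lemma: a binary sequence selects one vector whose translates inherit its genericity -/
theorem key {h : ℕ → ℕ} {κ : Cardinal.{0}} (hL : Loc h κ) :
    ∃ D : Set E → ℕ → Set (ℕ → Bool), (∀ U, IsOpen U → Dense U → ∀ N, DO (D U N)) ∧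
      ∀ (x : ℕ → Bool) (A : Set E), #A < κ →
        ∃ b : E, ∀ U, (∀ N, x ∈ D U N) → ∀ a ∈ A, b + a ∈ U := by
  classical
  obtain ⟨B, hBo, hB⟩ : ∃ B : ℕ → Set E, (∀ i, IsOpen (B i)) ∧
      ∀ U : Set E, IsOpen U → ∀ z ∈ U, ∃ i, z ∈ B i ∧ B i ⊆ U := by
    obtain ⟨b, hb1, -, hb2⟩ := TopologicalSpace.exists_countable_basis E
    obtain ⟨B, hB⟩ := (hb1.insert ∅).exists_eq_range (Set.insert_nonempty _ _)
    refine ⟨B, fun i => ?_, fun U hU z hz => ?_⟩
    · have : B i ∈ insert ∅ b := hB ▸ mem_range_self i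
      rcases this with h | h
      · rw [h]; exact isOpen_empty
      · exact hb2.isOpen h
    · obtain ⟨v, hv, h1, h2⟩ := hb2.exists_subset_of_mem_open hz hU
      have : v ∈ range B := hB ▸ mem_insert_of_mem _ hv
      obtain ⟨i, rfl⟩ := this
      exact ⟨i, h1, h2⟩
  -- state: counter, open set, previous radius, radius
  obtain ⟨st, h0, h1, h2, h3⟩ := machine (P := ℕ × Finset ℕ × ℕ × ℕ)
    (fun q p => p.1 < q.1 ∧ q.2.2.1 = p.2.2.2 ∧ p.2.2.2 ≤ q.2.2.2) (0, ∅, 0, 0)
  let Good : Set E → ℕ × Finset ℕ × ℕ × ℕ → Prop := fun U q =>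
    (⋃ i ∈ q.2.1, B i) ⊆ U ∧ Serve (h q.1) (rad q.2.2.1) (q.1 : ℝ) (⋃ i ∈ q.2.1, B i) q.2.2.2
  refine ⟨fun U N => {x | ∃ n, N < (st x n).1 ∧ Good U (st x n)}, ?_, ?_⟩
  · intro U hU hd N a n
    set p := st a n with hp
    obtain ⟨W, m, hm, hW1, hW2⟩ := exists_serve B hBo hB hU hd (h (max N p.1 + 1))
      (rad_pos p.2.2.2) (R := ((max N p.1 + 1 : ℕ) : ℝ)) (by positivity) p.2.2.2
    obtain ⟨b, n', -, hb1, hb2⟩ := h3 a n (max N p.1 + 1, W, p.2.2.2, m)
      ⟨Nat.lt_succ_of_le (le_max_right _ _), rfl, hm⟩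
    refine ⟨b, n', hb1, fun a'' ha'' => ⟨n', ?_⟩⟩
    rw [← h2 b a'' n' ha'', hb2]
    exact ⟨Nat.lt_succ_of_le (le_max_left _ _), hW1, hW2⟩
  · intro x A hA
    have hmono : ∀ n k, (st x n).1 ≤ (st x (n + k)).1 ∧
        ((st x n).1 = (st x (n + k)).1 → st x (n + k) = st x n) := by
      intro n k
      induction k with
      | zero => exact ⟨le_rfl, fun _ => rfl⟩
      | succ k ih =>
        rcases h1 x (n + k) with h | h
        · rw [← add_assoc, h]; exact ih
        · rw [← add_assoc]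
          exact ⟨ih.1.trans h.1.le, fun h' => by have := ih.1; have := h.1; omega⟩
    have huniq : ∀ n n', (st x n).1 = (st x n').1 → st x n = st x n' := by
      intro n n' hn
      rcases le_total n n' with h | h
      · obtain ⟨k, rfl⟩ := Nat.exists_eq_add_of_le h
        exact ((hmono n k).2 hn).symm
      · obtain ⟨k, rfl⟩ := Nat.exists_eq_add_of_le h
        exact (hmono n' k).2 hn.symm
    let M : ℕ → ℕ := fun l => if hl : ∃ n, (st x n).1 = l then (st x hl.choose).2.2.2 else 0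
    have hM : ∀ n, M (st x n).1 = (st x n).2.2.2 := by
      intro n
      have hl : ∃ n', (st x n').1 = (st x n).1 := ⟨n, rfl⟩
      simp only [M, dif_pos hl]
      rw [huniq _ _ hl.choose_spec]
    obtain ⟨σ, hσ1, hσ2, hσ3⟩ := approx hL A hA M
    let ρ : ℕ → ℝ := fun n => rad (st x n).2.2.2
    let Q : ℕ → E → E → Prop := fun n c b => dist b c + ρ (n + 1) ≤ ρ n ∧
      ∀ a ∈ σ (st x (n + 1)).1, ball (b + a) (2 * ρ (n + 1)) ⊆ ⋃ i ∈ (st x (n + 1)).2.1, B i
    let c : ℕ → E := fun n => Nat.rec 0 (fun n c => if hq : ∃ b, Q n c b then hq.choose else c) n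
    have hc0 : c 0 = 0 := rfl
    have hcs : ∀ n, c (n + 1) = if hq : ∃ b, Q n (c n) b then hq.choose else c n := fun _ => rfl
    have hρ : ∀ n, ρ (n + 1) ≤ ρ n := by
      intro n
      rcases h1 x n with h | h
      · simp only [ρ, h, le_refl]
      · exact rad_anti h.2.2
    have hstep : ∀ n, closedBall (c (n + 1)) (ρ (n + 1)) ⊆ closedBall (c n) (ρ n) := by
      intro n
      rw [hcs]
      split_ifs with hq
      · exact closedBall_subset_closedBall' (by have := hq.choose_spec.1; linarith)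
      · exact closedBall_subset_closedBall (hρ n)
    have hanti : Antitone fun n => closedBall (c n) (ρ n) := antitone_nat_of_succ_le hstep
    obtain ⟨b, hb⟩ := IsCompact.nonempty_iInter_of_sequence_nonempty_isCompact_isClosed
      (fun n => closedBall (c n) (ρ n)) hstep
      (fun n => ⟨c n, mem_closedBall_self (rad_pos _).le⟩) (isCompact_closedBall _ _)
      (fun n => isClosed_closedBall)
    have hc1 : ∀ n, ‖c n‖ ≤ 1 := by
      intro n
      have := hanti (Nat.zero_le n) (mem_closedBall_self (rad_pos _).le)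
      simp only [hc0, ρ, h0, rad] at this
      simpa using this
    refine ⟨b, fun U hx a ha => ?_⟩
    obtain ⟨N, hN⟩ := eventually_atTop.1 (hσ3 a ha)
    obtain ⟨n, hn1, hn2⟩ := hx N
    have hex : ∃ j, st x j = st x n := ⟨n, rfl⟩
    have hj := Nat.find_spec hex
    obtain ⟨j, hj0⟩ : ∃ j, Nat.find hex = j + 1 := by
      apply Nat.exists_eq_add_one_of_ne_zero
      intro h
      rw [h, h0] at hj
      rw [← hj] at hn1
      simp at hn1
    have hne : st x j ≠ st x n := Nat.find_min hex (by omega)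
    rw [hj0] at hj
    have hr : (st x (j + 1)).2.2.1 = (st x j).2.2.2 := by
      rcases h1 x j with h | h
      · exact (hne (h ▸ hj)).elim
      · exact h.2.1
    rw [← hj] at hn1 hn2
    have hq : ∃ b, Q j (c j) b := by
      obtain ⟨b', hb1, hb2⟩ := hn2.2 (c j) (hc1 j) (σ (st x (j + 1)).1) (hσ1 _) (hσ2 _)
      rw [hr] at hb1
      exact ⟨b', hb1, hb2⟩
    have hQ : Q j (c j) (c (j + 1)) := by
      rw [hcs, dif_pos hq]; exact hq.choose_spec
    obtain ⟨a', ha1, ha2⟩ := hN _ hn1.le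
    rw [hM] at ha2
    refine hn2.1 (hQ.2 a' ha1 ?_)
    have h4 : dist b (c (j + 1)) ≤ ρ (j + 1) := mem_iInter.1 hb (j + 1)
    have h5 := dist_add_add_le b a (c (j + 1)) a'
    rw [mem_ball]
    have : dist a a' < ρ (j + 1) := ha2
    linarith

theorem mk_span_lt {V : Type} [AddCommGroup V] [Module ℚ V] {κ : Cardinal.{0}} (hκ : ℵ₀ < κ)
    {S : Set V} (hS : #S < κ) : #(Submodule.span ℚ S : Set V) < κ := by
  rw [Finsupp.span_eq_range_linearCombination]
  refine lt_of_le_of_lt (mk_range_le (f := Finsupp.linearCombination ℚ ((↑) : S → V))) ?_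
  rcases isEmpty_or_nonempty S with h | h
  · have : #(S →₀ ℚ) ≤ 1 := Cardinal.le_one_iff_subsingleton.2 inferInstance
    exact lt_of_le_of_lt this (one_lt_aleph0.trans hκ)
  · rw [Cardinal.mk_finsupp_of_infinite', Cardinal.mk_eq_aleph0 ℚ]
    exact max_lt hS hκ

theorem main {h : ℕ → ℕ} {κ : Cardinal.{0}} (hκ : ℵ₀ < κ) (hreg : κ.IsRegular) (hL : Loc h κ)
    (n : ℕ) (X : Set (Fin n → ℝ)) (hX : κ ≤ #X)
    (hXM : ∀ A : Set (Fin n → ℝ), IsMeagre A → #(X ∩ A : Set _) < κ) :
    ∃ G : Submodule ℚ (Fin n → ℝ), κ ≤ #(G : Set (Fin n → ℝ)) ∧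
      ∀ A : Set (Fin n → ℝ), IsMeagre A → #((G : Set (Fin n → ℝ)) ∩ A : Set _) < κ := by
  classical
  rcases Nat.eq_zero_or_pos n with rfl | hn
  · exfalso
    have : #X ≤ 1 := Cardinal.le_one_iff_subsingleton.2 inferInstance
    exact absurd (hX.trans this) (not_le.2 (one_lt_aleph0.trans hκ))
  let i0 : Fin n := ⟨0, hn⟩
  obtain ⟨D, hD, hkey⟩ := key (E := Fin n → ℝ) hL
  let Ω := κ.ord.ToType
  have hΩ : #Ω = κ := by simp [Ω]
  obtain ⟨e⟩ := (Cardinal.le_def Ω X).1 (hΩ ▸ hX)
  have hIio : ∀ α : Ω, #(Iio α) < κ := fun α => mk_Iio_toType_ord_lt α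
  choose! Φ hΦ using hkey
  let F : (α : Ω) → ((γ : Ω) → γ < α → Fin n → ℝ) → Fin n → ℝ := fun α g =>
    Φ (dig ((e α).1 i0)) (Submodule.span ℚ (range fun γ : Iio α => g γ.1 γ.2))
  let b : Ω → Fin n → ℝ := (wellFounded_lt (α := Ω)).fix F
  have hb0 : ∀ α, b α = F α fun γ _ => b γ := fun α => WellFounded.fix_eq _ _ _
  have hb : ∀ α U, (∀ N, dig ((e α).1 i0) ∈ D U N) →
      ∀ a ∈ Submodule.span ℚ (b '' Iio α), b α + a ∈ U := by
    intro α U hU a ha
    rw [hb0]
    have hr : (range fun γ : Iio α => b γ.1) = b '' Iio α := by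
      rw [Set.image_eq_range]
    refine hΦ _ _ ?_ U hU a (by rw [hr]; exact ha)
    rw [hr]
    exact mk_span_lt hκ (lt_of_le_of_lt mk_image_le (hIio α))
  -- for a meager set, few indices are bad
  have hbad : ∀ A : Set (Fin n → ℝ), IsMeagre A → ∃ S : Set Ω, #S < κ ∧
      ∀ α, α ∉ S → ∀ a ∈ Submodule.span ℚ (b '' Iio α), b α + a ∉ A := by
    intro A hA
    obtain ⟨O, hO1, hO2, hO3⟩ := exists_seq_of_meagre hA
    let Y : Set (Fin n → ℝ) := ⋃ k, ⋃ N, (fun v => v i0) ⁻¹' {x : ℝ | dig x ∉ D (O k) N}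
    have hY : IsMeagre Y := isMeagre_iUnion fun k => isMeagre_iUnion fun N =>
      (meagre_dig (hD _ (hO1 k) (hO2 k) N)).preimage_of_isOpenMap (continuous_apply i0)
        (isOpenMap_eval i0)
    refine ⟨{α | (e α).1 ∈ Y}, lt_of_le_of_lt ?_ (hXM Y hY), fun α hα a ha => ?_⟩
    · refine mk_le_of_injective (f := fun α => ⟨(e α.1).1, (e α.1).2, α.2⟩) ?_
      intro α β hαβ
      have h1 : (e α.1).1 = (e β.1).1 := Subtype.mk.inj hαβ
      exact Subtype.ext (e.injective (Subtype.ext h1))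
    · refine hO3 _ fun k => hb α _ (fun N => ?_) a ha
      by_contra hc
      exact hα (mem_iUnion.2 ⟨k, mem_iUnion.2 ⟨N, hc⟩⟩)
  have hsing : IsMeagre ({0} : Set (Fin n → ℝ)) := by
    have h1 : IsMeagre ({0} : Set ℝ) := by
      apply IsNowhereDense.isMeagre
      rw [isClosed_singleton.isNowhereDense_iff]
      simp
    refine (h1.preimage_of_isOpenMap (continuous_apply i0) (isOpenMap_eval i0)).mono ?_
    rintro _ rfl
    simp
  refine ⟨Submodule.span ℚ (range b), ?_, fun A hA => ?_⟩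
  · obtain ⟨S, hS, hS'⟩ := hbad _ hsing
    have h1 : κ ≤ #(Sᶜ : Set Ω) := by
      by_contra hc
      have := Cardinal.add_lt_of_lt hκ.le hS (not_le.1 hc)
      rw [Cardinal.mk_sum_compl, hΩ] at this
      exact lt_irrefl _ this
    refine h1.trans (mk_le_of_injective
      (f := fun α => ⟨b α.1, Submodule.subset_span (mem_range_self _)⟩) ?_)
    have h2 : ∀ α β : Ω, α ∉ S → β < α → b α ≠ b β := by
      intro α β hα hβ hc
      refine hS' α hα (-b β) (Submodule.neg_mem _ (Submodule.subset_span ⟨β, hβ, rfl⟩)) ?_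
      simp [hc]
    intro α β hαβ
    have h3 : b α.1 = b β.1 := congrArg Subtype.val hαβ
    rcases lt_trichotomy α.1 β.1 with h | h | h
    · exact (h2 _ _ β.2 h h3.symm).elim
    · exact Subtype.ext h
    · exact (h2 _ _ α.2 h h3).elim
  · let A' : Set (Fin n → ℝ) := ⋃ q : {q : ℚ // q ≠ 0}, (fun v => q.1 • v) ⁻¹' A
    have hA' : IsMeagre A' := isMeagre_iUnion fun q =>
      hA.preimage_of_isOpenMap (continuous_const_smul _) (isOpenMap_smul₀ q.2)
    obtain ⟨S, hS, hS'⟩ := hbad _ hA'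
    let T : Set Ω := ⋃ β ∈ S, Iic β
    have hT : #T < κ := by
      refine (card_biUnion_lt_iff_forall_of_isRegular hreg hS).2 fun β _ => ?_
      rw [← Iio_insert]
      exact lt_of_le_of_lt mk_insert_le
        (Cardinal.add_lt_of_lt hκ.le (hIio β) (one_lt_aleph0.trans hκ))
    have hfin : ∀ s : Finset Ω, ∀ v ∈ Submodule.span ℚ (b '' (s : Set Ω)), v ∈ A →
        v ∈ Submodule.span ℚ (b '' T) := by
      intro s
      induction s using Finset.induction_on_max with
      | empty => intro v hv _; simp at hv; simp [hv]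
      | insert β s hs ih =>
        intro v hv hvA
        by_cases hβ : β ∈ S
        · refine Submodule.span_mono (image_mono ?_) hv
          intro γ hγ
          refine mem_iUnion₂.2 ⟨β, hβ, ?_⟩
          rcases Finset.mem_insert.1 (Finset.mem_coe.1 hγ) with rfl | h
          · exact mem_Iic.2 le_rfl
          · exact mem_Iic.2 (hs γ h).le
        · rw [Finset.coe_insert, image_insert_eq, Submodule.mem_span_insert] at hv
          obtain ⟨q, a, ha, rfl⟩ := hv
          by_cases hq : q = 0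
          · subst hq
            rw [zero_smul, zero_add] at hvA ⊢
            exact ih a ha hvA
          · exfalso
            have ha' : a ∈ Submodule.span ℚ (b '' Iio β) :=
              Submodule.span_mono (image_mono fun γ hγ => hs γ hγ) ha
            refine hS' β hβ (q⁻¹ • a) (Submodule.smul_mem _ _ ha') (mem_iUnion.2 ⟨⟨q, hq⟩, ?_⟩)
            show q • (b β + q⁻¹ • a) ∈ A
            rwa [smul_add, smul_smul, mul_inv_cancel₀ hq, one_smul]
    refine lt_of_le_of_lt (mk_le_mk_of_subset ?_)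
      (mk_span_lt hκ (lt_of_le_of_lt (mk_image_le (f := b) (s := T)) hT))
    rintro v ⟨hv, hvA⟩
    rw [← image_univ] at hv
    obtain ⟨s, -, hs⟩ := (Submodule.mem_span_image_iff_exists_fun ℚ).1 hv
    obtain ⟨c, rfl⟩ := hs
    refine hfin s _ (Submodule.sum_mem _ fun i _ => Submodule.smul_mem _ _
      (Submodule.subset_span ⟨i, i.2, rfl⟩)) hvA

end Pool.Agent.H895Z.Luzin
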