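import Pool.Agent.H895Z.SHCore

set_option autoImplicit false

/-! # Reduction and amalgamation -/

open Set

namespace Pool.Agent.H895Z.SH

open Fact Sum

variable {K Ω : Type} [LinearOrder Ω] {D : Ω → Datum K Ω}

/-- `a` and `b` have a common extension -/
def Compat (D : Ω → Datum K Ω) (a b : Set (Fact K Ω)) : Prop := ∃ r, Valid D r ∧ a ∪ b ⊆ r

/-- the step `η` is correctly described by its data -/
structure Good (D : Ω → Datum K Ω) (η : Ω) : Prop where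
  wv : ∀ ξ n j, In (Z (Iio η)) ((D η).W ξ n j).1
  wf : ∀ ξ n j, ((D η).W ξ n j).1.Finite
  pre : ∀ ξ n p, Valid D p → In (Z (Iio η)) p →
    ∃ j r, Valid D r ∧ In (Z (Iio η)) r ∧ p ∪ ((D η).W ξ n j).1 ⊆ r
  ymono : Monotone (D η).Y
  ycov : ∀ a ∈ (Z (Iio η) : Set (K ⊕ Ω)), ∃ m, a ∈ (D η).Y m
  ysub : ∀ m, (D η).Y m ⊆ Z (Iio η)
  ycl : ∀ m, Closed D ((D η).Y m)
  yw : ∀ m, ClW (D η) ((D η).Y m)
  cy : ∀ n i, inl ((D η).C n i) ∉ (D η).Y (n + i)
  ct : ∀ n i, inl ((D η).C n i) ∈ (D η).T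
  tc : (D η).T.Countable
  tsub : (D η).T ⊆ Z (Iio η)
  tcl : Closed D (D η).T
  tw : ClW (D η) (D η).T

theorem closed_Z {L : Set Ω} (hL : IsLowerSet L) (hg : ∀ η ∈ L, Good D η) :
    Closed D (Z L : Set (K ⊕ Ω)) := by
  intro η hη
  have hη' : η ∈ L := by simpa using hη
  have h : (Z (Iio η) : Set (K ⊕ Ω)) ⊆ Z L := Z_mono fun γ hγ => hL (le_of_lt hγ) hη'
  exact ⟨(hg η hη').tsub.trans h, by simp, fun ξ _ n j => ((hg η hη').wv ξ n j).mono h⟩

/-- reduction property at the level `L` -/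
def PB (D : Ω → Datum K Ω) (L : Set Ω) : Prop :=
  ∀ p, Valid D p → In (Z L) p → ∀ T, Closed D T → ∃ p', p ⊆ p' ∧ Valid D p' ∧ In (Z L) p' ∧
    ∀ q, Valid D q → In T q → res p' T ⊆ q → Compat D q p'

/-- amalgamation property at the level `L` -/
def PA (D : Ω → Datum K Ω) (L : Set Ω) : Prop :=
  ∀ Y T, Closed D Y → Closed D T → Y ⊆ Z L → T ⊆ Z L → ∀ p q ρ, Valid D p → In Y p →
    Valid D q → In T q → Valid D ρ → In (Y ∩ T) ρ →
    (∀ ρ', Valid D ρ' → In (Y ∩ T) ρ' → ρ ⊆ ρ' → Compat D ρ' p ∧ Compat D ρ' q) →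
    ∃ p' q', p ⊆ p' ∧ q ⊆ q' ∧ Valid D p' ∧ In Y p' ∧ Valid D q' ∧ In T q' ∧
      res p' T = res q' Y

omit [LinearOrder Ω] in
/-- the reduction inside a closed set -/
theorem PB.rel {L : Set Ω} (h : PB D L) {p : Set (Fact K Ω)} {Y T : Set (K ⊕ Ω)}
    (hp : Valid D p) (hY : Closed D Y) (hT : Closed D T) (hpY : In Y p) (hL : In (Z L) p) :
    ∃ p', p ⊆ p' ∧ Valid D p' ∧ In Y p' ∧ In (Z L) p' ∧
      ∀ q, Valid D q → In (Y ∩ T) q → res p' T ⊆ q → Compat D q p' := by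
  obtain ⟨p', h1, h2, h3, h4⟩ := h p hp hL _ (hY.inter hT)
  refine ⟨res p' Y, hpY.sub_res h1, h2.res hY, res_in _ _, h3.sub (res_sub _ _),
    fun q hq hq' hr => ?_⟩
  obtain ⟨r, hr1, hr2⟩ := h4 q hq hq' (fun φ hφ => hr ⟨⟨hφ.1, hφ.2.trans inter_subset_left⟩,
    hφ.2.trans inter_subset_right⟩)
  exact ⟨r, hr1, (union_subset_union_right _ (res_sub _ _)).trans hr2⟩

omit [LinearOrder Ω] in
theorem Compat.res {a b : Set (Fact K Ω)} (h : Compat D a b) {Y : Set (K ⊕ Ω)} (hY : Closed D Y)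
    (ha : In Y a) (hb : In Y b) : ∃ r, Valid D r ∧ In Y r ∧ a ⊆ r ∧ b ⊆ r := by
  obtain ⟨r, h1, h2⟩ := h
  exact ⟨SH.res r Y, h1.res hY, res_in _ _, ha.sub_res (subset_union_left.trans h2),
    hb.sub_res (subset_union_right.trans h2)⟩

omit [LinearOrder Ω] in
theorem PB_empty : PB D ∅ := by
  intro p hp hH T _
  obtain ⟨p', h1, h2, h3, h4⟩ := hp.full hH
  exact ⟨p', h1, h2, h3 _ hH, fun q hq hT hr => ⟨_, h4 T q hq hT hr, Subset.rfl⟩⟩

omit [LinearOrder Ω] in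
theorem PA_empty : PA D ∅ := by
  intro Y T hY hT hYL hTL p q ρ hp hpY hq hqT hρ hρI H
  obtain ⟨p1, h1, h2, h3, h4⟩ :=
    (H ρ hρ hρI Subset.rfl).1.res hY (hρI.mono inter_subset_left) hpY
  obtain ⟨p2, h5, h6, h7, h8⟩ := h1.full (h2.mono hYL)
  have hp2Y := h7 _ h2
  have hI : In (Y ∩ T) (res p2 T) := (hp2Y.sub (res_sub _ _)).inter (res_in _ _)
  obtain ⟨q1, g1, g2, g3, g4⟩ := (H (res p2 T) (h6.res hT) hI
    ((hρI.mono inter_subset_right).sub_res (h3.trans h5))).2.res hT (res_in _ _) hqT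
  have hsub : res p2 T ⊆ res q1 Y := (hp2Y.sub (res_sub _ _)).sub_res g3
  refine ⟨res q1 Y ∪ p2, q1, (h4.trans h5).trans subset_union_right, g4,
    h8 T _ (g1.res hY) (g2.sub (res_sub _ _)) hsub, (res_in _ _).union hp2Y, g1, g2, ?_⟩
  apply Subset.antisymm
  · rintro φ ⟨h | h, h'⟩
    · exact h
    · exact hsub ⟨h, h'⟩
  · intro φ h
    exact ⟨Or.inl h, g2 _ h.1⟩

theorem exists_level {L : Set Ω} {p : Set (Fact K Ω)} (hp : p.Finite) (hL : In (Z L) p) :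
    In (Z ∅) p ∨ ∃ η ∈ L, In (Z (Iic η)) p := by
  let S : Set Ω := inr ⁻¹' ⋃ φ ∈ p, fsupp φ
  have hS : S.Finite := (hp.biUnion fun φ _ => fsupp_finite φ).preimage inr_injective.injOn
  have key : ∀ L' : Set Ω, S ⊆ L' → In (Z L') p := by
    rintro L' h φ hφ (ξ | η) ha
    · simp
    · exact inr_Z.2 (h (mem_biUnion hφ ha))
  rcases S.eq_empty_or_nonempty with h | h
  · exact Or.inl (key _ h.subset)
  · obtain ⟨η, hη, hmax⟩ := exists_max_image S id hS h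
    obtain ⟨φ, hφ, ha⟩ := mem_iUnion₂.1 hη
    exact Or.inr ⟨η, inr_Z.1 (hL φ hφ ha), key _ fun γ hγ => hmax γ hγ⟩

theorem lim_step {L : Set Ω} (hL : IsLowerSet L) (hg : ∀ η ∈ L, Good D η)
    (ih : ∀ η ∈ L, PA D (Iic η) ∧ PB D (Iic η)) : PA D L ∧ PB D L := by
  have key : ∀ p : Set (Fact K Ω), p.Finite → In (Z L) p → ∃ L', L' ⊆ L ∧
      Closed D (Z L' : Set (K ⊕ Ω)) ∧ PA D L' ∧ PB D L' ∧ In (Z L') p := by
    intro p hp h
    rcases exists_level hp h with h1 | ⟨η, hη, h1⟩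
    · exact ⟨∅, empty_subset _, closed_Z isLowerSet_empty (by simp), PA_empty, PB_empty, h1⟩
    · have h2 : Iic η ⊆ L := fun γ hγ => hL hγ hη
      exact ⟨Iic η, h2, closed_Z (isLowerSet_Iic η) fun γ hγ => hg γ (h2 hγ), (ih η hη).1,
        (ih η hη).2, h1⟩
  constructor
  · intro Y T hY hT hYL hTL p q ρ hp hpY hq hqT hρ hρI H
    obtain ⟨L', -, hZ, hA, -, hI⟩ := key (p ∪ q) (hp.fin.union hq.fin)
      ((hpY.mono hYL).union (hqT.mono hTL))
    obtain ⟨p', q', h1, h2, h3, h4, h5, h6, h7⟩ := hA (Y ∩ Z L') (T ∩ Z L') (hY.inter hZ)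
      (hT.inter hZ) inter_subset_right inter_subset_right p q (res ρ (Z L')) hp
      (hpY.inter (hI.sub subset_union_left)) hq (hqT.inter (hI.sub subset_union_right))
      (hρ.res hZ) (fun φ hφ a ha => ⟨⟨(hρI _ hφ.1 ha).1, hφ.2 ha⟩, (hρI _ hφ.1 ha).2, hφ.2 ha⟩)
      (by
        intro ρ' h1 h2 h3
        obtain ⟨⟨r, g1, g2⟩, r', g3, g4⟩ := H (ρ' ∪ ρ)
          (hρ.lower' h1 (h2.mono fun a ha => ha.1.2) h3)
          (In.union (h2.mono fun a ha => ⟨ha.1.1, ha.2.1⟩) hρI) subset_union_right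
        exact ⟨⟨r, g1, (union_subset_union_left _ subset_union_left).trans g2⟩,
          r', g3, (union_subset_union_left _ subset_union_left).trans g4⟩)
    refine ⟨p', q', h1, h2, h3, h4.mono inter_subset_left, h5, h6.mono inter_subset_left, ?_⟩
    ext φ
    constructor
    · intro h
      have : φ ∈ res p' (T ∩ Z L') := ⟨h.1, subset_inter h.2 ((h4 _ h.1).trans inter_subset_right)⟩
      rw [h7] at this
      exact ⟨this.1, this.2.trans inter_subset_left⟩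
    · intro h
      have : φ ∈ res q' (Y ∩ Z L') := ⟨h.1, subset_inter h.2 ((h6 _ h.1).trans inter_subset_right)⟩
      rw [← h7] at this
      exact ⟨this.1, this.2.trans inter_subset_left⟩
  · intro p hp hI T hT
    obtain ⟨L', h0, -, -, hB, hI'⟩ := key p hp.fin hI
    obtain ⟨p', h1, h2, h3, h4⟩ := hB p hp hI' T hT
    exact ⟨p', h1, h2, h3.mono (Z_mono h0), h4⟩

/-- deciding finitely many values inside a closed set -/
theorem decide_many {η : Ω} (hη : Good D η) {Y : Set (K ⊕ Ω)} (hY : Closed D Y)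
    (hYL : Y ⊆ Z (Iio η)) (hW : ClW (D η) Y) (S : Set (K × ℕ)) (hS : S.Finite)
    (hSY : ∀ s ∈ S, inl s.1 ∈ Y) {p : Set (Fact K Ω)} (hp : Valid D p) (hpY : In Y p) :
    ∃ p', p ⊆ p' ∧ Valid D p' ∧ In Y p' ∧ ∃ N, ∀ s ∈ S, Dec (D η) p' s.1 s.2 N := by
  induction S, hS using Set.Finite.induction_on with
  | empty => exact ⟨p, Subset.rfl, hp, hpY, 0, by simp⟩
  | @insert s S _ _ ih =>
    obtain ⟨p', h1, h2, h3, N, h4⟩ := ih fun t ht => hSY t (mem_insert_of_mem _ ht)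
    obtain ⟨j, r, g1, -, g2⟩ := hη.pre s.1 s.2 p' h2 (h3.mono hYL)
    have g3 := hW s.1 (hSY s (mem_insert _ _)) s.2 j
    have g4 : p' ⊆ res r Y := h3.sub_res (subset_union_left.trans g2)
    refine ⟨res r Y, h1.trans g4, g1.res hY, res_in _ _, max N ((D η).W s.1 s.2 j).2, ?_⟩
    rintro t (rfl | ht)
    · exact ⟨j, g3.sub_res (subset_union_right.trans g2), le_max_right _ _⟩
    · exact (h4 t ht).mono g4 (le_max_left _ _)

omit [LinearOrder Ω] in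
/-- adding common points for finitely many pairs -/
theorem add_pairs (S : Set (K × K)) (hS : S.Finite) (N : ℕ) {p : Set (Fact K Ω)} (hp : Valid D p)
    (h : ∀ s ∈ S, ∀ k, cl s.1 s.2 k ∉ p ∧ cl s.2 s.1 k ∉ p) :
    ∃ e, In (Z ∅) e ∧ (∀ ξ ξ' k, cl ξ ξ' k ∉ e) ∧ Valid D (p ∪ e) ∧
      ∀ s ∈ S, ∃ x, N ≤ x ∧ bit s.1 x true ∈ e ∧ bit s.2 x true ∈ e := by
  induction S, hS using Set.Finite.induction_on with
  | empty => exact ⟨∅, by simp [In], by simp, by simpa using hp, by simp⟩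
  | @insert s S _ _ ih =>
    obtain ⟨e, h1, h2, h3, h4⟩ := ih fun t ht => h t (mem_insert_of_mem _ ht)
    obtain ⟨x, hx, h5⟩ := h3.add_pair s.1 s.2
      (fun k hk => hk.elim (h s (mem_insert _ _) k).1 (h2 _ _ _))
      (fun k hk => hk.elim (h s (mem_insert _ _) k).2 (h2 _ _ _)) N
    refine ⟨e ∪ {bit s.1 x true, bit s.2 x true}, h1.union ?_, ?_, by rwa [← union_assoc], ?_⟩
    · rintro φ (rfl | rfl) <;> simp
    · intro ξ ξ' k hk
      exact h2 ξ ξ' k (by simpa using hk)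
    · rintro t (rfl | ht)
      · exact ⟨x, hx, by simp, by simp⟩
      · obtain ⟨y, g1, g2, g3⟩ := h4 t ht
        exact ⟨y, g1, Or.inl g2, Or.inl g3⟩

theorem fs_Iic {η : Ω} {φ : Fact K Ω} (h : fsupp φ ⊆ Z (Iic η)) (h' : inr η ∉ fsupp φ) :
    fsupp φ ⊆ Z (Iio η) := by
  rintro (ξ | γ) ha
  · simp
  · have h1 : γ ≤ η := by simpa using h ha
    have h2 : γ ≠ η := fun hc => h' (hc ▸ ha)
    simpa using lt_of_le_of_ne h1 h2

theorem succ_B {η : Ω} (hg : ∀ γ, γ ≤ η → Good D γ) (hA : PA D (Iio η)) (hB : PB D (Iio η)) :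
    PB D (Iic η) := by
  classical
  intro p hp hpL T hT
  have hZ : Closed D (Z (Iio η) : Set (K ⊕ Ω)) :=
    closed_Z (isLowerSet_Iio η) fun γ hγ => hg γ (le_of_lt hγ)
  have hZ' : Closed D (Z (Iic η) : Set (K ⊕ Ω)) := closed_Z (isLowerSet_Iic η) hg
  have hZZ : (Z (Iio η) : Set (K ⊕ Ω)) ⊆ Z (Iic η) := Z_mono Iio_subset_Iic_self
  have hη := hg η le_rfl
  by_cases hηT : inr η ∈ T
  swap
  · obtain ⟨p0, h1, h2, h3, h4⟩ := hB _ (hp.res hZ) (res_in _ _) T hT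
    refine ⟨p0 ∪ p, subset_union_right, hp.lower' h2 h3 h1, (h3.mono hZZ).union hpL,
      fun q hq hqT hr => ?_⟩
    obtain ⟨r, g1, g2⟩ := h4 q hq hqT ((res_mono subset_union_left _).trans hr)
    have g3 : p0 ⊆ res r (Z (Iio η)) := h3.sub_res (subset_union_right.trans g2)
    have g4 : Valid D (res r (Z (Iio η)) ∪ p) :=
      hp.lower' (g1.res hZ) (res_in _ _) (h1.trans g3)
    refine ⟨_, hq.lower' g4 (((res_in _ _).mono hZZ).union hpL) ?_, ?_⟩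
    · intro φ hφ
      exact Or.inl ⟨g2 (Or.inl hφ.1), fs_Iic hφ.2 fun hc => hηT (hqT _ hφ.1 hc)⟩
    · rintro φ (h | h | h)
      · exact Or.inr h
      · exact Or.inl (Or.inl (g3 h))
      · exact Or.inl (Or.inr h)
  -- a level containing everything `p` mentions below `η`
  obtain ⟨n0, hn0⟩ : ∃ n0, ∀ φ ∈ p, ∀ a ∈ fsupp φ, a ∈ (Z (Iio η) : Set (K ⊕ Ω)) →
      a ∈ (D η).Y n0 := by
    have hfin : ((⋃ φ ∈ p, fsupp φ) ∩ Z (Iio η)).Finite :=
      (hp.fin.biUnion fun φ _ => fsupp_finite φ).inter_of_left _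
    choose! m hm using hη.ycov
    obtain ⟨M, hM⟩ := (hfin.image m).bddAbove
    exact ⟨M, fun φ hφ a ha hz =>
      hη.ymono (hM ⟨a, ⟨mem_biUnion hφ ha, hz⟩, rfl⟩) (hm a hz)⟩
  set Y := (D η).Y n0 with hYdef
  have hY : Closed D Y := hη.ycl n0
  have hYL : Y ⊆ Z (Iio η) := hη.ysub n0
  have hT' : Closed D (T ∩ Z (Iio η)) := hT.inter hZ
  obtain ⟨p0, h1, h2, h3, h3', h4⟩ := hB.rel (T := T ∩ Z (Iio η)) (hp.res hZ) hY hT'
    (fun φ hφ a ha => hn0 φ hφ.1 a ha (hφ.2 ha)) (res_in _ _)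
  let Lw : Set (Fact K Ω) := {φ | ∃ n, n < n0 ∧ (∀ v, stem η n v ∉ p) ∧ φ = low η n n0}
  have hLw : Lw.Finite := ((finite_lt_nat n0).image fun n => (low η n n0 : Fact K Ω)).subset
    (by rintro _ ⟨n, h, -, rfl⟩; exact ⟨n, h, rfl⟩)
  have hpl : Valid D (p ∪ Lw) := by
    have a : ∀ φ, φ ∈ p ∪ Lw → (∀ n, φ ≠ low η n n0) → φ ∈ p := by
      rintro φ (h | ⟨n, -, -, h⟩) h'
      · exact h
      · exact (h' n h).elim
    refine ⟨hp.fin.union hLw, ?_, ?_, ?_, ?_, ?_, ?_, ?_⟩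
    · intro ξ x g1 g2
      exact hp.v1 _ _ (a _ g1 (by simp)) (a _ g2 (by simp))
    · intro ξ ξ' k g1
      exact hp.ne _ _ _ (a _ g1 (by simp))
    · intro ξ ξ' k x g1 hk g2 g3
      exact hp.v2 _ _ _ _ (a _ g1 (by simp)) hk (a _ g2 (by simp)) (a _ g3 (by simp))
    · intro γ n v v' g1 g2
      exact hp.v3 _ _ _ _ (a _ g1 (by simp)) (a _ g2 (by simp))
    · rintro γ n v u g1 (g2 | ⟨n', -, g2, g3⟩)
      · exact hp.v4 _ _ _ _ (a _ g1 (by simp)) g2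
      · simp only [low.injEq] at g3
        obtain ⟨rfl, rfl, rfl⟩ := g3
        exact (g2 v (a _ g1 (by simp))).elim
    · intro γ ξ n g1
      exact hp.v5 _ _ _ (a _ g1 (by simp))
    · intro γ ξ m n v g1 g2 hm
      exact (hp.v6 _ _ _ _ _ (a _ g1 (by simp)) (a _ g2 (by simp)) hm).mono
        subset_union_left le_rfl
  have hLwI : In (Z (Iic η)) Lw := by rintro _ ⟨n, -, -, rfl⟩; simp
  have hres : res (p ∪ Lw) (Z (Iio η)) ⊆ p0 := by
    rintro φ ⟨h | ⟨n, -, -, rfl⟩, h'⟩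
    · exact h1 ⟨h, h'⟩
    · simp at h'
  refine ⟨p0 ∪ (p ∪ Lw), subset_union_left.trans subset_union_right, hpl.lower' h2 h3' hres,
    (h3'.mono hZZ).union (hpL.union hLwI), fun q hq hqT hr => ?_⟩
  -- the new stem values of `q`
  let ι : ℕ → ℕ := fun n => if n < n0 then n0 else 0
  let Ns : Set ℕ := {n | (∃ v, stem η n v ∈ q) ∧ ∀ v, stem η n v ∉ p}
  have hNs : Ns.Finite := by
    obtain ⟨k, -, -, hk, -⟩ := exists_fresh hq.fin 0
    exact (finite_lt_nat k).subset (by rintro n ⟨⟨v, hv⟩, -⟩; exact hk _ _ _ hv)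
  let As : Set K := {ξ | (∃ m, com η ξ m ∈ p) ∧ inl ξ ∉ T}
  have hAs : As.Finite := by
    refine ((hp.fin.biUnion fun φ _ => fsupp_finite φ).preimage inl_injective.injOn).subset ?_
    rintro ξ ⟨⟨m, hm⟩, -⟩
    exact mem_biUnion hm (by simp [fsupp])
  have hAY : ∀ ξ ∈ As, inl ξ ∈ Y := by
    rintro ξ ⟨⟨m, hm⟩, -⟩
    exact hn0 _ hm _ (by simp [fsupp]) (by simp)
  have hCY : ∀ n, inl ((D η).C n (ι n)) ∉ Y := by
    intro n hc
    refine hη.cy n (ι n) (hη.ymono ?_ hc)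
    simp only [ι]; split_ifs <;> omega
  have hCT : ∀ n i, inl ((D η).C n i) ∈ T ∩ Z (Iio η) := fun n i =>
    ⟨(hT η hηT).2.1 n i, by simp⟩
  have hWT : ClW (D η) (T ∩ Z (Iio η)) := fun ξ hξ n j =>
    ((hT η hηT).2.2 ξ hξ.1 n j).inter (hη.wv ξ n j)
  obtain ⟨q1, a1, a2, a3, N1, a4⟩ := decide_many hη hT' inter_subset_right hWT
    ((fun n => ((D η).C n (ι n), n)) '' Ns) (hNs.image _)
    (by rintro _ ⟨n, -, rfl⟩; exact hCT _ _) (hq.res hZ)
    ((hqT.sub (res_sub _ _)).inter (res_in _ _))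
  obtain ⟨q2, b1, b2, b3, -, b4⟩ := hB.rel (T := Y) a2 hT' hY a3 (a3.mono inter_subset_right)
  have hρI : In (Y ∩ (T ∩ Z (Iio η))) (res q2 Y) := (res_in _ _).inter (b3.sub (res_sub _ _))
  have hp0ρ : res p0 (T ∩ Z (Iio η)) ⊆ res q2 Y := by
    intro φ hφ
    refine ⟨b1 (a1 ⟨hr ⟨Or.inl hφ.1, hφ.2.trans inter_subset_left⟩,
      hφ.2.trans inter_subset_right⟩), h3 _ hφ.1⟩
  obtain ⟨p1, c1, c2, c3, c4⟩ := (h4 _ (b2.res hY) hρI hp0ρ).res hY (res_in _ _) h3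
  obtain ⟨p1', d1, d2, d3, N2, d4⟩ := decide_many hη hY hYL (hη.yw n0) (As ×ˢ Ns)
    (hAs.prod hNs) (fun s hs => hAY _ hs.1) c1 c2
  obtain ⟨p2, e1, e2, e3, -, e4⟩ := hB.rel (T := T ∩ Z (Iio η)) d2 hY hT' d3 (d3.mono hYL)
  have hρρ : res q2 Y ⊆ res p2 (T ∩ Z (Iio η)) :=
    (b3.sub (res_sub _ _)).sub_res (c3.trans (d1.trans e1))
  obtain ⟨p', q', f1, f2, f3, f4, f5, f6, f7⟩ := hA Y (T ∩ Z (Iio η)) hY hT' hYL
    inter_subset_right p2 q2 (res p2 (T ∩ Z (Iio η))) e2 e3 b2 b3 (e2.res hT')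
    ((e3.sub (res_sub _ _)).inter (res_in _ _))
    (fun ρ' g1 g2 g3 => ⟨e4 ρ' g1 g2 g3, b4 ρ' g1 (by rwa [inter_comm]) (hρρ.trans g3)⟩)
  have hr0 : Valid D (p' ∪ q') := f3.union f5 f4 f6 (f7 ▸ res_sub _ _) (f7 ▸ res_sub _ _)
  obtain ⟨e, g1, -, g3, g4⟩ := add_pairs ((fun s : K × ℕ => (s.1, (D η).C s.2 (ι s.2))) ''
      (As ×ˢ Ns)) ((hAs.prod hNs).image _) (max N1 N2) hr0 (by
    rintro _ ⟨⟨ξ, n⟩, hs, rfl⟩ k
    constructor
    · rintro (h | h)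
      · exact hCY n (fs_cl.1 (f4 _ h)).2
      · exact hs.1.2 (fs_cl.1 (f6 _ h)).1.1
    · rintro (h | h)
      · exact hCY n (fs_cl.1 (f4 _ h)).1
      · exact hs.1.2 (fs_cl.1 (f6 _ h)).2.1)
  set r1 := p' ∪ q' ∪ e with hr1
  have hr1L : In (Z (Iio η)) r1 :=
    ((f4.mono hYL).union (f6.mono inter_subset_right)).union (g1.mono (Z_mono (empty_subset _)))
  have hq1r : q1 ⊆ r1 := fun φ h => Or.inl (Or.inr (f2 (b1 h)))
  have hp1r : p1' ⊆ r1 := fun φ h => Or.inl (Or.inl (f1 (e1 h)))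
  have hp0r : p0 ⊆ r1 := c4.trans (d1.trans hp1r)
  -- first the facts of `q`, then the commitments of `p`
  have hv1 : Valid D (r1 ∪ q) := hq.lower' g3 hr1L (a1.trans hq1r)
  let E : Set (Fact K Ω) := {φ | ∃ ξ m, com η ξ m ∈ p ∧ φ = com η ξ m}
  have hE : E ⊆ p := by rintro _ ⟨ξ, m, h, rfl⟩; exact h
  have hv2 : Valid D (r1 ∪ q ∪ E) := by
    have a : ∀ φ, φ ∈ r1 ∪ q ∪ E → (∀ ξ m, φ ≠ com η ξ m) → φ ∈ r1 ∪ q := by
      rintro φ (h | ⟨ξ, m, -, h⟩) h'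
      · exact h
      · exact (h' _ _ h).elim
    refine ⟨hv1.fin.union (hp.fin.subset hE), ?_, ?_, ?_, ?_, ?_, ?_, ?_⟩
    · intro ξ x k1 k2
      exact hv1.v1 _ _ (a _ k1 (by simp)) (a _ k2 (by simp))
    · intro ξ ξ' k k1
      exact hv1.ne _ _ _ (a _ k1 (by simp))
    · intro ξ ξ' k x k1 hk k2 k3
      exact hv1.v2 _ _ _ _ (a _ k1 (by simp)) hk (a _ k2 (by simp)) (a _ k3 (by simp))
    · intro γ n v v' k1 k2
      exact hv1.v3 _ _ _ _ (a _ k1 (by simp)) (a _ k2 (by simp))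
    · intro γ n v v' k1 k2
      exact hv1.v4 _ _ _ _ (a _ k1 (by simp)) (a _ k2 (by simp))
    · rintro γ ξ n (k1 | k1)
      · exact hv1.v5 _ _ _ k1
      · exact hp.v5 _ _ _ (hE k1)
    · rintro γ ξ m n v (k1 | ⟨ξ', m', k1, k1'⟩) k2 hm
      · exact (hv1.v6 _ _ _ _ _ k1 (a _ k2 (by simp)) hm).mono subset_union_left le_rfl
      · simp only [com.injEq] at k1'
        obtain ⟨rfl, rfl, rfl⟩ := k1'
        have k3 : stem γ n v ∈ q := by
          rcases a _ k2 (by simp) with h | h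
          · have := hr1L _ h
            simp at this
          · exact h
        by_cases hξ : inl ξ ∈ T
        · have k4 : com γ ξ m ∈ q := hr ⟨Or.inr (Or.inl k1), fs_com.2 ⟨hηT, hξ⟩⟩
          exact (hq.v6 _ _ _ _ _ k4 k3 hm).mono
            (subset_union_right.trans subset_union_left) le_rfl
        by_cases hn : ∀ v, stem γ n v ∉ p
        · have hs : (ξ, n) ∈ As ×ˢ Ns := ⟨⟨⟨m, k1⟩, hξ⟩, ⟨v, k3⟩, hn⟩
          obtain ⟨x, hx, x1, x2⟩ := g4 _ ⟨_, hs, rfl⟩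
          have hs' : r1 ⊆ r1 ∪ q ∪ E := subset_union_left.trans subset_union_left
          refine ⟨ι n, ?_, x, hs' (Or.inr x1), hs' (Or.inr x2),
            (d4 _ hs).mono (hp1r.trans hs') ((le_max_right _ _).trans hx),
            (a4 _ ⟨n, hs.2, rfl⟩).mono (hq1r.trans hs') ((le_max_left _ _).trans hx)⟩
          simp only [ι]
          split_ifs with h
          · exact hq.v4 _ _ _ _ k3 (hr ⟨Or.inr (Or.inr ⟨n, h, hn, rfl⟩), by simpa using hηT⟩)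
          · exact Nat.zero_le _
        · push Not at hn
          obtain ⟨v', hv'⟩ := hn
          have k4 : stem γ n v' ∈ q := hr ⟨Or.inr (Or.inl hv'), by simpa using hηT⟩
          obtain rfl := hq.v3 _ _ _ _ k3 k4
          have k5 := (hp.v6 _ _ _ _ _ k1 hv' hm).res (T := Z (Iio γ)) (by simp) (by simp)
            (fun ξ _ n j => hη.wv ξ n j)
          exact k5.mono ((h1.trans hp0r).trans (subset_union_left.trans subset_union_left)) le_rfl
  refine ⟨_, hv2, ?_⟩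
  rintro φ (h | h | h | h)
  · exact Or.inl (Or.inr h)
  · exact Or.inl (Or.inl (hp0r h))
  · by_cases hφ : inr η ∈ fsupp φ
    · cases φ with
      | bit => simp [fsupp] at hφ
      | cl => simp [fsupp] at hφ
      | stem γ n v =>
        obtain rfl : η = γ := by simpa [fsupp] using hφ
        exact Or.inl (Or.inr (hr ⟨Or.inr (Or.inl h), by simpa using hηT⟩))
      | low γ n v =>
        obtain rfl : η = γ := by simpa [fsupp] using hφ
        exact Or.inl (Or.inr (hr ⟨Or.inr (Or.inl h), by simpa using hηT⟩))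
      | com γ ξ m =>
        obtain rfl : η = γ := by simpa [fsupp] using hφ
        exact Or.inr ⟨ξ, m, h, rfl⟩
    · exact Or.inl (Or.inl (hp0r (h1 ⟨h, fs_Iic (hpL _ h) hφ⟩)))
  · obtain ⟨n, k1, k2, rfl⟩ := h
    exact Or.inl (Or.inr (hr ⟨Or.inr (Or.inr ⟨n, k1, k2, rfl⟩), by simpa using hηT⟩))

/-- the case where the top coordinate is missing from the second set -/
theorem succ_A_aux {η : Ω} (hg : ∀ γ, γ ≤ η → Good D γ) (hA : PA D (Iio η))
    {Y T : Set (K ⊕ Ω)} (hY : Closed D Y) (hT : Closed D T) (hTL : T ⊆ Z (Iic η))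
    (hη : inr η ∉ T) {p q ρ : Set (Fact K Ω)} (hp : Valid D p) (hpY : In Y p)
    (hq : Valid D q) (hqT : In T q) (hρ : Valid D ρ) (hρI : In (Y ∩ T) ρ)
    (H : ∀ ρ', Valid D ρ' → In (Y ∩ T) ρ' → ρ ⊆ ρ' → Compat D ρ' p ∧ Compat D ρ' q) :
    ∃ p' q', p ⊆ p' ∧ q ⊆ q' ∧ Valid D p' ∧ In Y p' ∧ Valid D q' ∧ In T q' ∧
      res p' T = res q' Y := by
  have hZ : Closed D (Z (Iio η) : Set (K ⊕ Ω)) :=
    closed_Z (isLowerSet_Iio η) fun γ hγ => hg γ (le_of_lt hγ)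
  have hTL' : T ⊆ Z (Iio η) := by
    rintro (ξ | γ) ha
    · simp
    · have h1 : γ ≤ η := by simpa using hTL ha
      have h2 : γ ≠ η := fun hc => hη (hc ▸ ha)
      simpa using lt_of_le_of_ne h1 h2
  obtain ⟨p', q', f1, f2, f3, f4, f5, f6, f7⟩ := hA (Y ∩ Z (Iio η)) T (hY.inter hZ) hT
    inter_subset_right hTL' (res p (Z (Iio η))) q ρ (hp.res hZ)
    ((hpY.sub (res_sub _ _)).inter (res_in _ _)) hq hqT hρ
    (hρI.mono fun a ha => ⟨⟨ha.1, hTL' ha.2⟩, ha.2⟩)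
    (fun ρ' g1 g2 g3 => by
      obtain ⟨⟨r, k1, k2⟩, k3⟩ := H ρ' g1 (g2.mono fun a ha => ⟨ha.1.1, ha.2⟩) g3
      exact ⟨⟨r, k1, (union_subset_union_right _ (res_sub _ _)).trans k2⟩, k3⟩)
  refine ⟨p' ∪ p, q', subset_union_right, f2, hp.lower' f3 (f4.mono inter_subset_right) f1,
    (f4.mono inter_subset_left).union hpY, f5, f6, ?_⟩
  ext φ
  constructor
  · intro h
    have : φ ∈ res p' T := ⟨h.1.elim id fun h' => f1 ⟨h', h.2.trans hTL'⟩, h.2⟩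
    rw [f7] at this
    exact ⟨this.1, this.2.trans inter_subset_left⟩
  · intro h
    have : φ ∈ res q' (Y ∩ Z (Iio η)) := ⟨h.1, subset_inter h.2 ((f6 _ h.1).trans hTL')⟩
    rw [← f7] at this
    exact ⟨Or.inl this.1, this.2⟩

theorem succ_A {η : Ω} (hg : ∀ γ, γ ≤ η → Good D γ) (hA : PA D (Iio η)) (hB : PB D (Iio η))
    (hB' : PB D (Iic η)) : PA D (Iic η) := by
  intro Y T hY hT hYL hTL p q ρ hp hpY hq hqT hρ hρI H
  by_cases hηT : inr η ∈ T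
  swap
  · exact succ_A_aux hg hA hY hT hTL hηT hp hpY hq hqT hρ hρI H
  by_cases hηY : inr η ∈ Y
  swap
  · obtain ⟨q', p', f1, f2, f3, f4, f5, f6, f7⟩ := succ_A_aux hg hA hT hY hYL hηY hq hqT hp hpY
      hρ (by rwa [inter_comm]) (fun ρ' g1 g2 g3 => (H ρ' g1 (by rwa [inter_comm]) g3).symm)
    exact ⟨p', q', f2, f1, f5, f6, f3, f4, f7.symm⟩
  have hZ : Closed D (Z (Iio η) : Set (K ⊕ Ω)) :=
    closed_Z (isLowerSet_Iio η) fun γ hγ => hg γ (le_of_lt hγ)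
  have hη := hg η le_rfl
  obtain ⟨p1, a1, a2, a3, a4⟩ :=
    (H ρ hρ hρI Subset.rfl).1.res hY (hρI.mono inter_subset_left) hpY
  have hρ1 : ρ ⊆ res p1 T := (hρI.mono inter_subset_right).sub_res a3
  obtain ⟨q1, b1, b2, b3, b4⟩ := (H (res p1 T) (a1.res hT)
    ((a2.sub (res_sub _ _)).inter (res_in _ _)) hρ1).2.res hT (res_in _ _) hqT
  obtain ⟨q2, c1, c2, c3, -, c4⟩ := hB'.rel (T := Y) b1 hT hY b2 (b2.mono hTL)
  have hρ2I : In (Y ∩ T) (res q2 Y) := (res_in _ _).inter (c3.sub (res_sub _ _))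
  obtain ⟨p3, d1, d2, d3, d4⟩ := (H (res q2 Y) (c2.res hY) hρ2I
    ((hρI.mono inter_subset_left).sub_res (hρ1.trans (b3.trans c1)))).1.res hY (res_in _ _) hpY
  have hY' := hY.inter hZ
  have hT' := hT.inter hZ
  obtain ⟨p5, e1, e2, e3, -, e4⟩ := hB.rel (T := T ∩ Z (Iio η)) (d1.res hZ) hY' hT'
    ((d2.sub (res_sub _ _)).inter (res_in _ _)) (res_in _ _)
  obtain ⟨p', q', f1, f2, f3, f4, f5, f6, f7⟩ := hA (Y ∩ Z (Iio η)) (T ∩ Z (Iio η)) hY' hT'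
    inter_subset_right inter_subset_right p5 (res q2 (Z (Iio η))) (res p5 (T ∩ Z (Iio η)))
    e2 e3 (c2.res hZ) ((c3.sub (res_sub _ _)).inter (res_in _ _)) (e2.res hT')
    ((e3.sub (res_sub _ _)).inter (res_in _ _))
    (fun ρ' g1 g2 g3 => by
      refine ⟨e4 ρ' g1 g2 g3, ?_⟩
      have k1 : Valid D (ρ' ∪ res q2 Y) := (c2.res hY).lower' g1 (g2.mono fun a ha => ha.1.2)
        (fun φ hφ => g3 ⟨e1 ⟨d3 hφ.1, hφ.2⟩, subset_inter (c3 _ hφ.1.1) hφ.2⟩)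
      obtain ⟨r, k2, k3⟩ := c4 _ k1 (In.union (g2.mono fun a ha => ⟨ha.2.1, ha.1.1⟩)
        (by rwa [inter_comm])) subset_union_right
      exact ⟨r, k2, (union_subset_union subset_union_left (res_sub _ _)).trans k3⟩)
  have hE : p ∪ res q2 Y ⊆ p3 := union_subset d4 d3
  have hEL : In (Z (Iic η)) (p ∪ res q2 Y) := (d2.mono hYL).sub hE
  have hpT : res p T ⊆ q2 := (res_mono a4 _).trans (b3.trans c1)
  refine ⟨p' ∪ (p ∪ res q2 Y), q' ∪ q2, subset_union_left.trans subset_union_right,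
    (b4.trans c1).trans subset_union_right, ?_,
    (f4.mono inter_subset_left).union (hpY.union (res_in _ _)),
    c2.lower' f5 (f6.mono inter_subset_right) f2, (f6.mono inter_subset_left).union c3, ?_⟩
  · refine d1.lower f3 (f4.mono inter_subset_right) (e1.trans f1) hE ?_
    intro γ ξ m n v hγ k1 k2 hm
    obtain rfl : γ = η := le_antisymm (by simpa using hEL _ k2) (by simpa using hγ)
    have k5 := (d1.v6 _ _ _ _ _ (hE k1) (hE k2) hm).res (T := Z (Iio γ)) (by simp) (by simp)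
      (fun ξ _ n j => hη.wv ξ n j)
    exact k5.mono ((e1.trans f1).trans subset_union_left) le_rfl
  · ext φ
    constructor
    · rintro ⟨h | h | h, h'⟩
      · have : φ ∈ res p' (T ∩ Z (Iio η)) :=
          ⟨h, subset_inter h' ((f4 _ h).trans inter_subset_right)⟩
        rw [f7] at this
        exact ⟨Or.inl this.1, this.2.trans inter_subset_left⟩
      · exact ⟨Or.inr (hpT ⟨h, h'⟩), hpY _ h⟩
      · exact ⟨Or.inr h.1, h.2⟩
    · rintro ⟨h | h, h'⟩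
      · have : φ ∈ res q' (Y ∩ Z (Iio η)) :=
          ⟨h, subset_inter h' ((f6 _ h).trans inter_subset_right)⟩
        rw [← f7] at this
        exact ⟨Or.inl this.1, this.2.trans inter_subset_left⟩
      · exact ⟨Or.inr (Or.inr ⟨h, h'⟩), c3 _ h⟩

/-- the reduction lemma -/
theorem reduction [WellFoundedLT Ω] {ζ : Ω} (hg : ∀ η, η < ζ → Good D η) : PB D (Iio ζ) := by
  have key : ∀ η, η < ζ → PA D (Iic η) ∧ PB D (Iic η) := by
    intro η
    induction η using WellFoundedLT.induction with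
    | ind η ih =>
      intro hη
      have hg' : ∀ γ, γ ≤ η → Good D γ := fun γ hγ => hg γ (lt_of_le_of_lt hγ hη)
      obtain ⟨hA, hB⟩ := lim_step (isLowerSet_Iio η) (fun γ hγ => hg' γ (le_of_lt hγ))
        fun γ hγ => ih γ hγ (lt_trans hγ hη)
      have hB' := succ_B hg' hA hB
      exact ⟨succ_A hg' hA hB hB', hB'⟩
  exact (lim_step (isLowerSet_Iio ζ) hg key).2

end Pool.Agent.H895Z.SH
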