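import Mathlib

set_option autoImplicit false

/-!
# A finite condition iteration which adds an almost disjoint family and selections for it

A condition is a finite set of facts. The main lemmas are the reduction lemma and the
amalgamation lemma for closed sets of coordinates.
-/

open Set

namespace Pool.Agent.H895Z.SH

/-- the atomic pieces of information of a condition -/
inductive Fact (K Ω : Type) : Type
  | bit (ξ : K) (x : ℕ) (b : Bool)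
  | cl (ξ ξ' : K) (k : ℕ)
  | stem (η : Ω) (n v : ℕ)
  | low (η : Ω) (n v : ℕ)
  | com (η : Ω) (ξ : K) (n : ℕ)

/-- the data attached to one step of the iteration -/
structure Datum (K Ω : Type) : Type where
  W : K → ℕ → ℕ → Set (Fact K Ω) × ℕ
  Y : ℕ → Set (K ⊕ Ω)
  C : ℕ → ℕ → K
  T : Set (K ⊕ Ω)

variable {K Ω : Type}

open Fact Sum

/-- the coordinates used by a fact -/
def fsupp : Fact K Ω → Set (K ⊕ Ω)
  | bit ξ _ _ => {inl ξ}
  | cl ξ ξ' _ => {inl ξ, inl ξ'}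
  | stem η _ _ => {inr η}
  | low η _ _ => {inr η}
  | com η ξ _ => {inr η, inl ξ}

theorem fsupp_finite (φ : Fact K Ω) : (fsupp φ).Finite := by
  cases φ <;> simp [fsupp]

@[simp] theorem fs_bit {T : Set (K ⊕ Ω)} {ξ : K} {x : ℕ} {b : Bool} :
    fsupp (bit ξ x b : Fact K Ω) ⊆ T ↔ inl ξ ∈ T := by simp [fsupp]
@[simp] theorem fs_cl {T : Set (K ⊕ Ω)} {ξ ξ' : K} {x : ℕ} :
    fsupp (cl ξ ξ' x : Fact K Ω) ⊆ T ↔ inl ξ ∈ T ∧ inl ξ' ∈ T := by
  simp [fsupp, insert_subset_iff]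
@[simp] theorem fs_stem {T : Set (K ⊕ Ω)} {η : Ω} {n v : ℕ} :
    fsupp (stem η n v : Fact K Ω) ⊆ T ↔ inr η ∈ T := by simp [fsupp]
@[simp] theorem fs_low {T : Set (K ⊕ Ω)} {η : Ω} {n v : ℕ} :
    fsupp (low η n v : Fact K Ω) ⊆ T ↔ inr η ∈ T := by simp [fsupp]
@[simp] theorem fs_com {T : Set (K ⊕ Ω)} {η : Ω} {ξ : K} {n : ℕ} :
    fsupp (com η ξ n : Fact K Ω) ⊆ T ↔ inr η ∈ T ∧ inl ξ ∈ T := by
  simp [fsupp, insert_subset_iff]

/-- all the facts of `p` use coordinates of `T` only -/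
def In (T : Set (K ⊕ Ω)) (p : Set (Fact K Ω)) : Prop := ∀ φ ∈ p, fsupp φ ⊆ T

/-- the restriction of `p` to `T` -/
def res (p : Set (Fact K Ω)) (T : Set (K ⊕ Ω)) : Set (Fact K Ω) := {φ | φ ∈ p ∧ fsupp φ ⊆ T}

theorem res_sub (p : Set (Fact K Ω)) (T : Set (K ⊕ Ω)) : res p T ⊆ p := fun _ h => h.1

theorem res_in (p : Set (Fact K Ω)) (T : Set (K ⊕ Ω)) : In T (res p T) := fun _ h => h.2

theorem In.sub_res {T : Set (K ⊕ Ω)} {p r : Set (Fact K Ω)} (h : In T p) (hr : p ⊆ r) :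
    p ⊆ res r T := fun φ hφ => ⟨hr hφ, h φ hφ⟩

theorem In.mono {T T' : Set (K ⊕ Ω)} {p : Set (Fact K Ω)} (h : In T p) (hT : T ⊆ T') :
    In T' p := fun φ hφ => (h φ hφ).trans hT

theorem In.sub {T : Set (K ⊕ Ω)} {p q : Set (Fact K Ω)} (h : In T p) (hq : q ⊆ p) :
    In T q := fun φ hφ => h φ (hq hφ)

theorem In.union {T : Set (K ⊕ Ω)} {p q : Set (Fact K Ω)} (h : In T p) (h' : In T q) :
    In T (p ∪ q) := fun φ hφ => hφ.elim (h φ) (h' φ)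

theorem In.inter {T Y : Set (K ⊕ Ω)} {p : Set (Fact K Ω)} (h : In T p) (h' : In Y p) :
    In (T ∩ Y) p := fun φ hφ => subset_inter (h φ hφ) (h' φ hφ)

theorem res_mono {p q : Set (Fact K Ω)} (h : p ⊆ q) (T : Set (K ⊕ Ω)) : res p T ⊆ res q T :=
  fun _ hφ => ⟨h hφ.1, hφ.2⟩

/-- `p` decides the value of the step's function at `(ξ, n)` to be at most `x` -/
def Dec (d : Datum K Ω) (p : Set (Fact K Ω)) (ξ : K) (n x : ℕ) : Prop :=
  ∃ j, (d.W ξ n j).1 ⊆ p ∧ (d.W ξ n j).2 ≤ x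

/-- `p` shows that `ξ` is caught at `n` by one of the first `v + 1` chosen sets -/
def Wit (d : Datum K Ω) (p : Set (Fact K Ω)) (ξ : K) (n v : ℕ) : Prop :=
  ∃ i, i ≤ v ∧ ∃ x, bit ξ x true ∈ p ∧ bit (d.C n i) x true ∈ p ∧ Dec d p ξ n x ∧
    Dec d p (d.C n i) n x

theorem Dec.mono {d : Datum K Ω} {p q : Set (Fact K Ω)} {ξ : K} {n x y : ℕ} (h : Dec d p ξ n x)
    (hq : p ⊆ q) (hy : x ≤ y) : Dec d q ξ n y := by
  obtain ⟨j, h1, h2⟩ := h
  exact ⟨j, h1.trans hq, h2.trans hy⟩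

theorem Wit.mono {d : Datum K Ω} {p q : Set (Fact K Ω)} {ξ : K} {n v w : ℕ} (h : Wit d p ξ n v)
    (hq : p ⊆ q) (hw : v ≤ w) : Wit d q ξ n w := by
  obtain ⟨i, hi, x, h1, h2, h3, h4⟩ := h
  exact ⟨i, hi.trans hw, x, hq h1, hq h2, h3.mono hq le_rfl, h4.mono hq le_rfl⟩

/-- the conditions -/
structure Valid (D : Ω → Datum K Ω) (p : Set (Fact K Ω)) : Prop where
  fin : p.Finite
  v1 : ∀ ξ x, bit ξ x true ∈ p → bit ξ x false ∉ p
  ne : ∀ ξ ξ' k, cl ξ ξ' k ∈ p → ξ ≠ ξ'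
  v2 : ∀ ξ ξ' k x, cl ξ ξ' k ∈ p → k ≤ x → bit ξ x true ∈ p → bit ξ' x true ∉ p
  v3 : ∀ η n v v', stem η n v ∈ p → stem η n v' ∈ p → v = v'
  v4 : ∀ η n v u, stem η n v ∈ p → low η n u ∈ p → u ≤ v
  v5 : ∀ η ξ n, com η ξ n ∈ p → inl ξ ∉ (D η).T
  v6 : ∀ η ξ m n v, com η ξ m ∈ p → stem η n v ∈ p → m ≤ n → Wit (D η) p ξ n v

/-- `T` contains the supports of the deciding conditions of `d` for its members -/
def ClW (d : Datum K Ω) (T : Set (K ⊕ Ω)) : Prop :=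
  ∀ ξ, inl ξ ∈ T → ∀ n j, In T (d.W ξ n j).1

/-- closed sets of coordinates -/
def Closed (D : Ω → Datum K Ω) (T : Set (K ⊕ Ω)) : Prop :=
  ∀ η, inr η ∈ T → (D η).T ⊆ T ∧ (∀ n i, inl ((D η).C n i) ∈ T) ∧ ClW (D η) T

theorem Closed.inter {D : Ω → Datum K Ω} {T Y : Set (K ⊕ Ω)} (h : Closed D T) (h' : Closed D Y) :
    Closed D (T ∩ Y) := fun η hη =>
  ⟨subset_inter (h η hη.1).1 (h' η hη.2).1, fun n i => ⟨(h η hη.1).2.1 n i, (h' η hη.2).2.1 n i⟩,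
    fun ξ hξ n j => ((h η hη.1).2.2 ξ hξ.1 n j).inter ((h' η hη.2).2.2 ξ hξ.2 n j)⟩

variable {D : Ω → Datum K Ω}

theorem valid_empty : Valid D (∅ : Set (Fact K Ω)) := by
  constructor <;> simp

theorem Wit.res {d : Datum K Ω} {p : Set (Fact K Ω)} {ξ : K} {n v : ℕ} (h : Wit d p ξ n v)
    {T : Set (K ⊕ Ω)} (hξ : inl ξ ∈ T) (hC : ∀ n i, inl (d.C n i) ∈ T) (hW : ClW d T) :
    Wit d (res p T) ξ n v := by
  obtain ⟨i, hi, x, h1, h2, ⟨j, h3, h3'⟩, ⟨j', h4, h4'⟩⟩ := h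
  exact ⟨i, hi, x, ⟨h1, by simpa using hξ⟩, ⟨h2, by simpa using hC n i⟩,
    ⟨j, (hW ξ hξ n j).sub_res h3, h3'⟩, ⟨j', (hW _ (hC n i) n j').sub_res h4, h4'⟩⟩

theorem Valid.res {p : Set (Fact K Ω)} (h : Valid D p) {T : Set (K ⊕ Ω)} (hT : Closed D T) :
    Valid D (res p T) where
  fin := h.fin.subset (res_sub _ _)
  v1 ξ x h1 h2 := h.v1 ξ x h1.1 h2.1
  ne ξ ξ' k h1 := h.ne ξ ξ' k h1.1
  v2 ξ ξ' k x h1 h2 h3 h4 := h.v2 ξ ξ' k x h1.1 h2 h3.1 h4.1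
  v3 η n v v' h1 h2 := h.v3 η n v v' h1.1 h2.1
  v4 η n v u h1 h2 := h.v4 η n v u h1.1 h2.1
  v5 η ξ n h1 := h.v5 η ξ n h1.1
  v6 η ξ m n v h1 h2 h3 := by
    have h4 := fs_com.1 h1.2
    exact (h.v6 η ξ m n v h1.1 h2.1 h3).res h4.2 (hT η h4.1).2.1 (hT η h4.1).2.2

/-- free amalgamation -/
theorem Valid.union {p q : Set (Fact K Ω)} {Y T : Set (K ⊕ Ω)} (hp : Valid D p) (hq : Valid D q)
    (hY : In Y p) (hT : In T q) (h1 : SH.res p T ⊆ q) (h2 : SH.res q Y ⊆ p) :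
    Valid D (p ∪ q) := by
  have a : ∀ φ, φ ∈ p ∪ q → fsupp φ ⊆ Y → φ ∈ p := fun φ h h' => h.elim id fun h => h2 ⟨h, h'⟩
  have b : ∀ φ, φ ∈ p ∪ q → fsupp φ ⊆ T → φ ∈ q := fun φ h h' => h.elim (fun h => h1 ⟨h, h'⟩) id
  refine ⟨hp.fin.union hq.fin, ?_, ?_, ?_, ?_, ?_, ?_, ?_⟩
  · rintro ξ x (h | h) h'
    · exact hp.v1 ξ x h (a _ h' (by simpa using hY _ h))
    · exact hq.v1 ξ x h (b _ h' (by simpa using hT _ h))
  · rintro ξ ξ' k (h | h)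
    · exact hp.ne _ _ _ h
    · exact hq.ne _ _ _ h
  · rintro ξ ξ' k x (h | h) hk h3 h4
    · have := fs_cl.1 (hY _ h)
      exact hp.v2 ξ ξ' k x h hk (a _ h3 (by simpa using this.1)) (a _ h4 (by simpa using this.2))
    · have := fs_cl.1 (hT _ h)
      exact hq.v2 ξ ξ' k x h hk (b _ h3 (by simpa using this.1)) (b _ h4 (by simpa using this.2))
  · rintro η n v v' (h | h) h'
    · exact hp.v3 _ _ _ _ h (a _ h' (by simpa using hY _ h))
    · exact hq.v3 _ _ _ _ h (b _ h' (by simpa using hT _ h))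
  · rintro η n v v' (h | h) h'
    · exact hp.v4 _ _ _ _ h (a _ h' (by simpa using hY _ h))
    · exact hq.v4 _ _ _ _ h (b _ h' (by simpa using hT _ h))
  · rintro ξ ξ' k (h | h)
    · exact hp.v5 _ _ _ h
    · exact hq.v5 _ _ _ h
  · rintro η ξ m n v (h | h) h' hm
    · exact (hp.v6 _ _ _ _ _ h (a _ h' (by simpa using (fs_com.1 (hY _ h)).1)) hm).mono
        subset_union_left le_rfl
    · exact (hq.v6 _ _ _ _ _ h (b _ h' (by simpa using (fs_com.1 (hT _ h)).1)) hm).mono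
        subset_union_right le_rfl

/-- the coordinates of the almost disjoint family and of the steps in `L` -/
def Z (L : Set Ω) : Set (K ⊕ Ω) := range inl ∪ inr '' L

@[simp] theorem inl_Z {L : Set Ω} {ξ : K} : inl ξ ∈ (Z L : Set (K ⊕ Ω)) := by simp [Z]
@[simp] theorem inr_Z {L : Set Ω} {η : Ω} : inr η ∈ (Z L : Set (K ⊕ Ω)) ↔ η ∈ L := by simp [Z]

theorem Z_mono {L L' : Set Ω} (h : L ⊆ L') : (Z L : Set (K ⊕ Ω)) ⊆ Z L' :=
  union_subset_union_right _ (image_mono h)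

/-- extension of the lower part of a condition, keeping a set `E` of upper facts -/
theorem Valid.lower {r r' E : Set (Fact K Ω)} {L : Set Ω} (hr : Valid D r) (hr' : Valid D r')
    (hL : In (Z L) r') (h : SH.res r (Z L) ⊆ r') (hE : E ⊆ r)
    (hW : ∀ η ξ m n v, η ∉ L → com η ξ m ∈ E → stem η n v ∈ E → m ≤ n →
      Wit (D η) (r' ∪ E) ξ n v) : Valid D (r' ∪ E) := by
  have a : ∀ φ, φ ∈ r' ∪ E → fsupp φ ⊆ Z L → φ ∈ r' :=
    fun φ h1 h' => h1.elim id fun h1 => h ⟨hE h1, h'⟩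
  have b : ∀ φ, φ ∈ r' ∪ E → ¬ fsupp φ ⊆ Z L → φ ∈ E :=
    fun φ h1 h' => h1.elim (fun h1 => (h' (hL _ h1)).elim) id
  refine ⟨hr'.fin.union (hr.fin.subset hE), ?_, ?_, ?_, ?_, ?_, ?_, ?_⟩
  · intro ξ x h1 h2
    exact hr'.v1 ξ x (a _ h1 (by simp)) (a _ h2 (by simp))
  · intro ξ ξ' k h1
    exact hr'.ne _ _ _ (a _ h1 (by simp))
  · intro ξ ξ' k x h1 hk h2 h3
    exact hr'.v2 _ _ _ _ (a _ h1 (by simp)) hk (a _ h2 (by simp)) (a _ h3 (by simp))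
  · intro η n v v' h1 h2
    by_cases hη : η ∈ L
    · exact hr'.v3 _ _ _ _ (a _ h1 (by simpa)) (a _ h2 (by simpa))
    · exact hr.v3 _ _ _ _ (hE (b _ h1 (by simpa))) (hE (b _ h2 (by simpa)))
  · intro η n v v' h1 h2
    by_cases hη : η ∈ L
    · exact hr'.v4 _ _ _ _ (a _ h1 (by simpa)) (a _ h2 (by simpa))
    · exact hr.v4 _ _ _ _ (hE (b _ h1 (by simpa))) (hE (b _ h2 (by simpa)))
  · rintro η ξ n (h1 | h1)
    · exact hr'.v5 _ _ _ h1
    · exact hr.v5 _ _ _ (hE h1)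
  · intro η ξ m n v h1 h2 hm
    by_cases hη : η ∈ L
    · exact (hr'.v6 _ _ _ _ _ (a _ h1 (by simpa)) (a _ h2 (by simpa)) hm).mono
        subset_union_left le_rfl
    · exact hW _ _ _ _ _ hη (b _ h1 (by simpa)) (b _ h2 (by simpa)) hm

theorem Valid.lower' {r r' : Set (Fact K Ω)} {L : Set Ω} (hr : Valid D r) (hr' : Valid D r')
    (hL : In (Z L) r') (h : SH.res r (Z L) ⊆ r') : Valid D (r' ∪ r) :=
  hr.lower hr' hL h Subset.rfl fun _ _ _ _ _ _ h1 h2 hm =>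
    (hr.v6 _ _ _ _ _ h1 h2 hm).mono subset_union_right le_rfl

/-- a bound for the numbers used in the bits of a condition -/
theorem exists_fresh {p : Set (Fact K Ω)} (hp : p.Finite) (N : ℕ) :
    ∃ k, N ≤ k ∧ (∀ ξ x b, bit ξ x b ∈ p → x < k) ∧ (∀ η n v, stem η n v ∈ p → n < k) ∧
      ∀ η n v, low η n v ∈ p → v < k := by
  let g : Fact K Ω → ℕ := fun φ => match φ with
    | bit _ x _ => x
    | stem _ n _ => n
    | low _ _ v => v
    | _ => 0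
  obtain ⟨M, hM⟩ := (hp.image g).bddAbove
  have h : ∀ φ ∈ p, g φ ≤ M := fun φ hφ => hM ⟨φ, hφ, rfl⟩
  refine ⟨max N (M + 1), le_max_left _ _, fun ξ x b h1 => ?_, fun ξ x b h1 => ?_,
    fun ξ x b h1 => ?_⟩ <;>
  · have := h _ h1
    simp only [g] at this
    omega

/-- adding facts about the almost disjoint family only -/
theorem Valid.addH {p e : Set (Fact K Ω)} (hp : Valid D p) (he : e.Finite)
    (heH : In (Z ∅) e)
    (v1 : ∀ ξ x, bit ξ x true ∈ p ∪ e → bit ξ x false ∉ p ∪ e)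
    (ne : ∀ ξ ξ' k, cl ξ ξ' k ∈ e → ξ ≠ ξ')
    (v2 : ∀ ξ ξ' k x, cl ξ ξ' k ∈ p ∪ e → k ≤ x → bit ξ x true ∈ p ∪ e →
      bit ξ' x true ∉ p ∪ e) : Valid D (p ∪ e) := by
  have b : ∀ φ, φ ∈ p ∪ e → ¬ fsupp φ ⊆ Z ∅ → φ ∈ p :=
    fun φ h1 h' => h1.elim id (fun h1 => (h' (heH _ h1)).elim)
  refine ⟨hp.fin.union he, v1, ?_, v2, ?_, ?_, ?_, ?_⟩
  · rintro ξ ξ' k (h | h)
    · exact hp.ne _ _ _ h
    · exact ne _ _ _ h
  · intro η n v v' h1 h2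
    exact hp.v3 _ _ _ _ (b _ h1 (by simp)) (b _ h2 (by simp))
  · intro η n v v' h1 h2
    exact hp.v4 _ _ _ _ (b _ h1 (by simp)) (b _ h2 (by simp))
  · intro η ξ n h1
    exact hp.v5 _ _ _ (b _ h1 (by simp))
  · intro η ξ m n v h1 h2 hm
    exact (hp.v6 _ _ _ _ _ (b _ h1 (by simp)) (b _ h2 (by simp)) hm).mono subset_union_left le_rfl

/-- a new common point of two members which are not yet separated -/
theorem Valid.add_pair {p : Set (Fact K Ω)} (hp : Valid D p) (ξ ξ' : K)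
    (h1 : ∀ k, cl ξ ξ' k ∉ p) (h2 : ∀ k, cl ξ' ξ k ∉ p) (N : ℕ) :
    ∃ x, N ≤ x ∧ Valid D (p ∪ {bit ξ x true, bit ξ' x true}) := by
  obtain ⟨x, hx, hf, -, -⟩ := exists_fresh hp.fin N
  have hb : ∀ a y b, bit a y b ∈ p ∪ {bit ξ x true, bit ξ' x true} →
      (bit a y b ∈ p ∧ y < x) ∨ (y = x ∧ b = true ∧ (a = ξ ∨ a = ξ')) := by
    rintro a y b (h | h)
    · exact Or.inl ⟨h, hf _ _ _ h⟩
    · simp only [mem_insert_iff, mem_singleton_iff, bit.injEq] at h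
      tauto
  refine ⟨x, hx, hp.addH (by simp) ?_ ?_ (by simp) ?_⟩
  · intro φ hφ
    rcases hφ with rfl | rfl <;> simp
  · intro a y h3 h4
    rcases hb _ _ _ h4 with h5 | h5
    · rcases hb _ _ _ h3 with h6 | h6
      · exact hp.v1 _ _ h6.1 h5.1
      · omega
    · simp at h5
  · intro a a' k y h3 hk h4 h5
    have h3' : cl a a' k ∈ p := by simpa using h3
    rcases hb _ _ _ h4 with h6 | h6 <;> rcases hb _ _ _ h5 with h7 | h7
    · exact hp.v2 _ _ _ _ h3' hk h6.1 h7.1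
    · omega
    · omega
    · have := hp.ne _ _ _ h3'
      rcases h6.2.2 with rfl | rfl <;> rcases h7.2.2 with rfl | rfl
      · exact this rfl
      · exact h1 _ h3'
      · exact h2 _ h3'
      · exact this rfl

theorem Valid.add_cl {p : Set (Fact K Ω)} (hp : Valid D p) {ξ ξ' : K} (h : ξ ≠ ξ') :
    ∃ k, Valid D (p ∪ {cl ξ ξ' k}) := by
  obtain ⟨k, -, hf, -, -⟩ := exists_fresh hp.fin 0
  refine ⟨k, hp.addH (by simp) ?_ ?_ ?_ ?_⟩
  · rintro φ rfl; simp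
  · intro a y h3 h4
    exact hp.v1 a y (by simpa using h3) (by simpa using h4)
  · intro a a' k' h3
    simp only [mem_singleton_iff, cl.injEq] at h3
    rw [h3.1, h3.2.1]; exact h
  · intro a a' k' y h3 hk h4 h5
    have h4' : bit a y true ∈ p := by simpa using h4
    have h5' : bit a' y true ∈ p := by simpa using h5
    rcases h3 with h3 | h3
    · exact hp.v2 _ _ _ _ h3 hk h4' h5'
    · simp only [mem_singleton_iff, cl.injEq] at h3
      have := hf _ _ _ h4'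
      omega

/-- the exact reduction for conditions which only speak of the almost disjoint family -/
theorem Valid.full {p : Set (Fact K Ω)} (hp : Valid D p) (hH : In (Z ∅) p) :
    ∃ p', p ⊆ p' ∧ Valid D p' ∧ (∀ Y, In Y p → In Y p') ∧
      ∀ T q, Valid D q → In T q → SH.res p' T ⊆ q → Valid D (q ∪ p') := by
  let e : Set (Fact K Ω) := {φ | ∃ ξ ξ' k x, (cl ξ ξ' k ∈ p ∨ cl ξ' ξ k ∈ p) ∧ k ≤ x ∧
    bit ξ x true ∈ p ∧ φ = bit ξ' x false}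
  have he : e.Finite := by
    let g : Fact K Ω → Fact K Ω → Fact K Ω := fun φ ψ => match φ, ψ with
      | cl _ ξ' _, bit _ x _ => bit ξ' x false
      | _, _ => φ
    let g' : Fact K Ω → Fact K Ω → Fact K Ω := fun φ ψ => match φ, ψ with
      | cl ξ' _ _, bit _ x _ => bit ξ' x false
      | _, _ => φ
    refine ((hp.fin.image2 g hp.fin).union (hp.fin.image2 g' hp.fin)).subset ?_
    rintro _ ⟨ξ, ξ', k, x, h1 | h1, -, h2, rfl⟩
    · exact Or.inl ⟨_, h1, _, h2, rfl⟩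
    · exact Or.inr ⟨_, h1, _, h2, rfl⟩
  have a1 : ∀ ξ x, bit ξ x true ∈ p ∪ e → bit ξ x true ∈ p := by
    rintro ξ x (h | ⟨_, _, _, _, -, -, -, h⟩)
    · exact h
    · simp at h
  have a2 : ∀ ξ ξ' x, cl ξ ξ' x ∈ p ∪ e → cl ξ ξ' x ∈ p := by
    rintro ξ ξ' x (h | ⟨_, _, _, _, -, -, -, h⟩)
    · exact h
    · simp at h
  have hY : ∀ Y, In Y p → In Y (p ∪ e) := by
    intro Y h
    refine h.union ?_
    rintro _ ⟨ξ, ξ', k, x, h1 | h1, -, -, rfl⟩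
    · simpa using (fs_cl.1 (h _ h1)).2
    · simpa using (fs_cl.1 (h _ h1)).1
  have hv : Valid D (p ∪ e) := by
    refine hp.addH he ((hY _ hH).sub subset_union_right) ?_ ?_ ?_
    · rintro ξ x h1 (h2 | ⟨ξ1, ξ2, k, y, h3, hk, h4, h5⟩)
      · exact hp.v1 _ _ (a1 _ _ h1) h2
      · simp only [bit.injEq] at h5
        obtain ⟨rfl, rfl, -⟩ := h5
        rcases h3 with h3 | h3
        · exact hp.v2 _ _ _ _ h3 hk h4 (a1 _ _ h1)
        · exact hp.v2 _ _ _ _ h3 hk (a1 _ _ h1) h4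
    · intro ξ ξ' k h1
      exact hp.ne _ _ _ (a2 _ _ _ (Or.inr h1))
    · intro ξ ξ' k x h1 hk h2 h3
      exact hp.v2 _ _ _ _ (a2 _ _ _ h1) hk (a1 _ _ h2) (a1 _ _ h3)
  refine ⟨p ∪ e, subset_union_left, hv, hY, fun T q hq hT hr => ?_⟩
  have b : ∀ φ, φ ∈ q ∪ (p ∪ e) → fsupp φ ⊆ T → φ ∈ q :=
    fun φ h h' => h.elim id fun h => hr ⟨h, h'⟩
  have v1 : ∀ ξ x, bit ξ x true ∈ q ∪ (p ∪ e) → bit ξ x false ∉ q ∪ (p ∪ e) := by
    rintro ξ x (h1 | h1) h2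
    · exact hq.v1 _ _ h1 (b _ h2 (by simpa using hT _ h1))
    · rcases h2 with h2 | h2
      · exact hq.v1 _ _ (b _ (Or.inr h1) (by simpa using hT _ h2)) h2
      · exact hv.v1 _ _ h1 h2
  refine hq.addH hv.fin (hY _ hH) v1 hv.ne ?_
  rintro ξ ξ' k x (h1 | h1) hk h2 h3
  · have := fs_cl.1 (hT _ h1)
    exact hq.v2 _ _ _ _ h1 hk (b _ h2 (by simpa using this.1)) (b _ h3 (by simpa using this.2))
  · have h1' := a2 _ _ _ h1
    rcases h2 with h2 | h2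
    · rcases h3 with h3 | h3
      · refine hq.v2 _ _ _ _ (b _ (Or.inr h1) ?_) hk h2 h3
        exact fs_cl.2 ⟨by simpa using hT _ h2, by simpa using hT _ h3⟩
      · exact v1 _ _ (Or.inl h2)
          (Or.inr (Or.inr ⟨ξ', ξ, k, x, Or.inr h1', hk, a1 _ _ h3, rfl⟩))
    · exact v1 _ _ h3 (Or.inr (Or.inr ⟨ξ, ξ', k, x, Or.inl h1', hk, a1 _ _ h2, rfl⟩))

end Pool.Agent.H895Z.SH
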