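import Pool.Agent.Helper539.SPForcing

set_option autoImplicit false

/-! Isbell-Mrowka spaces, the star-Hurewicz property, a combinatorial principle and its
translation to the forcing language. -/

namespace Pool.Agent.H895Z.SH

open Pool.Agent.Helper539.SPForcing

/-- an almost disjoint family of infinite subsets of `ℕ` -/
def IsAD (𝒜 : Set (Set ℕ)) : Prop :=
  (∀ a ∈ 𝒜, a.Infinite) ∧ ∀ a ∈ 𝒜, ∀ b ∈ 𝒜, a ≠ b → (a ∩ b).Finite

/-- the topology of the Isbell-Mrowka space `Ψ(𝒜)` on the disjoint union of `ℕ` and `𝒜` -/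
def psiTop (𝒜 : Set (Set ℕ)) : TopologicalSpace (ℕ ⊕ 𝒜) :=
  TopologicalSpace.generateFrom
    ({s : Set (ℕ ⊕ 𝒜) | ∃ n : ℕ, s = {Sum.inl n}} ∪
      {s : Set (ℕ ⊕ 𝒜) | ∃ a : 𝒜, ∃ F : Set ℕ, F.Finite ∧
        s = insert (Sum.inr a) (Sum.inl '' ((a : Set ℕ) \ F))})

/-- the star of `S` with respect to the family `𝒰` -/
def star {X : Type} (S : Set X) (𝒰 : Set (Set X)) : Set X :=
  ⋃₀ {V | V ∈ 𝒰 ∧ (V ∩ S).Nonempty}

/-- the star-Hurewicz property -/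
def StarHurewicz {X : Type} (t : TopologicalSpace X) : Prop :=
  ∀ 𝒰 : ℕ → Set (Set X), (∀ n, (∀ U ∈ 𝒰 n, @IsOpen X t U) ∧ ⋃₀ 𝒰 n = Set.univ) →
    ∃ ℱ : ℕ → Set (Set X), (∀ n, ℱ n ⊆ 𝒰 n ∧ (ℱ n).Finite) ∧
      ∀ x, ∀ᶠ n in Filter.atTop, x ∈ star (⋃₀ ℱ n) (𝒰 n)

/-- the bounding number -/
noncomputable def bb : Cardinal.{0} :=
  sInf {c | ∃ B : Set (ℕ → ℕ), Cardinal.mk B = c ∧
    ¬ ∃ h : ℕ → ℕ, ∀ f ∈ B, ∀ᶠ n in Filter.atTop, f n ≤ h n}

/-- The principle: there are infinite pairwise almost disjoint sets `A ξ`, the family of the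
functions `g ξ` is unbounded, and for every `f` there are finite sets `F n` such that each `A ξ`
meets, for almost all `n`, some `A ξ'` with `ξ'` in `F n` above `f (ξ, n)` and `f (ξ', n)`. -/
def SHPr (K : Type) (g : K → ℕ → ℕ) : Prop :=
  ∃ A : K → Set ℕ,
    (∀ ξ N, ∃ k, N ≤ k ∧ k ∈ A ξ) ∧
    (∀ ξ ξ', ξ ≠ ξ' → ∃ m, ∀ x, x ∈ A ξ ∧ x ∈ A ξ' → x < m) ∧
    (∀ h : ℕ → ℕ, ∃ ξ, ∀ m, ∃ n, m ≤ n ∧ h n < g ξ n) ∧
    ∀ f : K × ℕ → ℕ, ∃ F : ℕ → Finset K, ∀ ξ, ∃ m, ∀ n, m ≤ n →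
      ∃ ξ', ξ' ∈ F n ∧ ∃ x, x ∈ A ξ ∧ x ∈ A ξ' ∧ f (ξ, n) ≤ x ∧ f (ξ', n) ≤ x

/-- the value at `a` of the function named by `f` satisfies the ground model predicate `Q` -/
def FVal {P : Type} [Preorder P] {X Y : Type} (f : X → Y → Set P) (a : X) (Q : Y → Set P) :
    Set P :=
  fex fun u => fand (meets (f a u)) (Q u)

/-- the set of the conditions of `P` which force `SHPr K g` -/
def FSHPr (P : Type) [Preorder P] (K : Type) (g : K → ℕ → ℕ) : Set P :=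
  fex fun A : K → ℕ → Set P =>
    fand (fall fun ξ => fall fun N => fex fun k => fand (fground (N ≤ k)) (meets (A ξ k)))
    (fand (fall fun ξ => fall fun ξ' => fimp (fground (ξ ≠ ξ')) (fex fun m => fall fun x =>
      fimp (fand (meets (A ξ x)) (meets (A ξ' x))) (fground (x < m))))
    (fand (fall fun h : ℕ → ℕ → Set P => fimp (IsFun h) (fex fun ξ => fall fun m => fex fun n =>
      fand (fground (m ≤ n)) (FVal h n fun u => fground (u < g ξ n))))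
    (fall fun f : K × ℕ → ℕ → Set P => fimp (IsFun f) (fex fun F : ℕ → Finset K → Set P =>
      fand (IsFun F) (fall fun ξ => fex fun m => fall fun n => fimp (fground (m ≤ n))
        (FVal F n fun s => fex fun ξ' => fand (fground (ξ' ∈ s)) (fex fun x =>
          fand (meets (A ξ x)) (fand (meets (A ξ' x))
            (fand (FVal f (ξ, n) fun u => fground (u ≤ x))
              (FVal f (ξ', n) fun u => fground (u ≤ x)))))))))))

end Pool.Agent.H895Z.SH
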