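import Mathlib

set_option autoImplicit false

/-! An almost disjoint family of size `𝔡` made of the columns of `ℕ × ℕ` and of the graphs of an
everywhere dominating family of eventually different functions. -/

open Cardinal Filter Set

namespace Pool.Agent.H895Z.SelA

/-- dominating families -/
def Dom (D : Set (ℕ → ℕ)) : Prop := ∀ f : ℕ → ℕ, ∃ g ∈ D, ∀ᶠ n in atTop, f n ≤ g n

theorem Dom.aleph0_le {D : Set (ℕ → ℕ)} (h : Dom D) : ℵ₀ ≤ #D := by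
  rw [Cardinal.aleph0_le_mk_iff]
  by_contra hfin
  rw [not_infinite_iff_finite] at hfin
  have : Fintype D := Fintype.ofFinite _
  obtain ⟨g, hg, hn⟩ := h fun n => (Finset.univ.sup fun d : D => d.1 n) + 1
  obtain ⟨n, hn⟩ := hn.exists
  have : g n ≤ Finset.univ.sup fun d : D => d.1 n :=
    Finset.le_sup (f := fun d : D => d.1 n) (Finset.mem_univ (⟨g, hg⟩ : D))
  omega

theorem exists_min : ∃ D : Set (ℕ → ℕ), Dom D ∧ ∀ D', Dom D' → #D ≤ #D' := by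
  have hne : {c | ∃ D : Set (ℕ → ℕ), Dom D ∧ #D = c}.Nonempty :=
    ⟨_, Set.univ, fun f => ⟨f, mem_univ _, by simp⟩, rfl⟩
  obtain ⟨D, hD, hc⟩ := csInf_mem hne
  exact ⟨D, hD, fun D' hD' => hc.le.trans (csInf_le' ⟨D', hD', rfl⟩)⟩

/-- an everywhere dominating family of eventually different functions -/
theorem exists_family {D : Set (ℕ → ℕ)} (hD : Dom D) : ∃ H : D × ℕ → ℕ → ℕ,
    (∀ g : ℕ → ℕ, ∃ p, ∀ k, g k < H p k) ∧ ∀ p q, p ≠ q → {k | H p k = H q k}.Finite := by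
  classical
  refine ⟨fun p k => Nat.pair (p.1.1 k + p.2 + 1)
    (Encodable.encode ((List.range k).map p.1.1, p.2)), fun g => ?_, fun p q hpq => ?_⟩
  · obtain ⟨f, hf, hn⟩ := hD g
    obtain ⟨N, hN⟩ := eventually_atTop.1 hn
    refine ⟨(⟨f, hf⟩, (Finset.range N).sup g), fun k => lt_of_lt_of_le ?_ (Nat.left_le_pair _ _)⟩
    by_cases hk : k < N
    · have : g k ≤ (Finset.range N).sup g := Finset.le_sup (f := g) (Finset.mem_range.2 hk)
      simp only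
      omega
    · have := hN k (by omega)
      simp only
      omega
  · by_cases h2 : p.2 = q.2
    · have h1 : p.1.1 ≠ q.1.1 := fun h => hpq (Prod.ext (Subtype.ext h) h2)
      obtain ⟨j, hj⟩ := Function.ne_iff.1 h1
      refine (Set.finite_le_nat j).subset fun k hk => ?_
      by_contra hlt
      have h3 := Encodable.encode_injective (Nat.pair_eq_pair.1 hk).2
      have h4 := congrArg (fun s : List ℕ × ℕ => s.1.getD j 0) h3
      have h5 : j < k := by simpa using hlt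
      apply hj
      simpa [List.getD_eq_getElem?_getD, h5] using h4
    · refine Set.finite_empty.subset fun k hk => h2 ?_
      have h3 := Encodable.encode_injective (Nat.pair_eq_pair.1 hk).2
      exact congrArg (fun s : List ℕ × ℕ => s.2) h3

/-- a column -/
def col (k : ℕ) : Set ℕ := range fun m => Nat.pair k m

/-- a graph -/
def gr (h : ℕ → ℕ) : Set ℕ := range fun k => Nat.pair k (h k)

theorem col_infinite (k : ℕ) : (col k).Infinite :=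
  Set.infinite_range_of_injective fun _ _ h => (Nat.pair_eq_pair.1 h).2

theorem gr_infinite (h : ℕ → ℕ) : (gr h).Infinite :=
  Set.infinite_range_of_injective fun _ _ h => (Nat.pair_eq_pair.1 h).1

theorem col_col {k l : ℕ} (h : k ≠ l) : (col k ∩ col l).Finite := by
  refine Set.finite_empty.subset ?_
  rintro _ ⟨⟨m, rfl⟩, ⟨m', hm⟩⟩
  exact h (Nat.pair_eq_pair.1 hm).1.symm

theorem col_gr (k : ℕ) (h : ℕ → ℕ) : (col k ∩ gr h).Finite := by
  refine (Set.finite_singleton (Nat.pair k (h k))).subset ?_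
  rintro _ ⟨⟨m, hm⟩, ⟨k', rfl⟩⟩
  obtain rfl := (Nat.pair_eq_pair.1 hm).1
  rfl

theorem gr_gr {h h' : ℕ → ℕ} (hh : {k | h k = h' k}.Finite) : (gr h ∩ gr h').Finite := by
  refine (hh.image fun k => Nat.pair k (h k)).subset ?_
  rintro _ ⟨⟨k, rfl⟩, ⟨k', hk⟩⟩
  obtain ⟨rfl, h2⟩ := Nat.pair_eq_pair.1 hk
  exact ⟨k', h2.symm, rfl⟩

theorem exists_ad : ∃ (A : Set (Set ℕ)), (∀ a ∈ A, a.Infinite) ∧
    (∀ a ∈ A, ∀ b ∈ A, a ≠ b → (a ∩ b).Finite) ∧ (∃ D, Dom D ∧ #D = #A) ∧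
    (∀ D, Dom D → #A ≤ #D) ∧ (∀ k, col k ∈ A) ∧ (∀ g : ℕ → ℕ, ∃ h, gr h ∈ A ∧ ∀ k, g k < h k) ∧
    (∀ a ∈ A, (∃ k, a = col k) ∨ ∃ h, a = gr h) := by
  obtain ⟨D, hD, hmin⟩ := exists_min
  obtain ⟨H, hH1, hH2⟩ := exists_family hD
  have hinf := hD.aleph0_le
  have hle : #(range col ∪ range (fun p => gr (H p)) : Set (Set ℕ)) ≤ #D := by
    refine (Cardinal.mk_union_le _ _).trans ?_
    have h1 : #(range col) ≤ #D := Cardinal.mk_range_le.trans (by simpa using hinf)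
    have h2 : #(range fun p => gr (H p)) ≤ #D := by
      refine Cardinal.mk_range_le.trans ?_
      simp only [Cardinal.mk_prod, Cardinal.lift_id, Cardinal.mk_nat, Cardinal.lift_aleph0]
      exact (Cardinal.mul_eq_left hinf hinf Cardinal.aleph0_ne_zero).le
    exact (add_le_add h1 h2).trans (Cardinal.add_eq_self hinf).le
  have hge : #D ≤ #(range col ∪ range (fun p => gr (H p)) : Set (Set ℕ)) := by
    refine Cardinal.mk_le_of_injective
      (f := fun d : D => ⟨gr (H (d, 0)), Or.inr ⟨_, rfl⟩⟩) fun d d' h => ?_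
    by_contra hne
    have h1 := gr_gr (hH2 (d, 0) (d', 0) fun h => hne (congrArg Prod.fst h))
    have h2 : gr (H (d, 0)) = gr (H (d', 0)) := congrArg Subtype.val h
    rw [← h2, Set.inter_self] at h1
    exact gr_infinite _ h1
  refine ⟨range col ∪ range fun p => gr (H p), ?_, ?_, ⟨D, hD, le_antisymm hge hle⟩,
    fun D' hD' => hle.trans (hmin D' hD'), fun k => Or.inl ⟨k, rfl⟩, fun g => ?_, ?_⟩
  · rintro a (⟨k, rfl⟩ | ⟨p, rfl⟩)
    · exact col_infinite k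
    · exact gr_infinite _
  · rintro a (⟨k, rfl⟩ | ⟨p, rfl⟩) b (⟨l, rfl⟩ | ⟨q, rfl⟩) hab
    · exact col_col fun h => hab (by rw [h])
    · exact col_gr _ _
    · rw [Set.inter_comm]; exact col_gr _ _
    · exact gr_gr (hH2 p q fun h => hab (by rw [h]))
  · obtain ⟨p, hp⟩ := hH1 g
    exact ⟨H p, Or.inr ⟨p, rfl⟩, hp⟩
  · rintro a (⟨k, rfl⟩ | ⟨p, rfl⟩)
    · exact Or.inl ⟨k, rfl⟩
    · exact Or.inr ⟨_, rfl⟩

theorem nhd {A : Set (Set ℕ)} {V : Set (ℕ ⊕ A)}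
    (hV : TopologicalSpace.GenerateOpen
      ({s : Set (ℕ ⊕ A) | ∃ n : ℕ, s = {Sum.inl n}} ∪
         {s : Set (ℕ ⊕ A) | ∃ a : A, ∃ F : Set ℕ, F.Finite ∧
            s = insert (Sum.inr a) (Sum.inl '' ((a : Set ℕ) \ F))}) V) (a : A)
    (ha : Sum.inr a ∈ V) : {n | n ∈ (a : Set ℕ) ∧ Sum.inl n ∉ V}.Finite := by
  induction hV with
  | basic s hs =>
    rcases hs with ⟨n, rfl⟩ | ⟨b, F, hF, rfl⟩
    · simp at ha
    · obtain rfl : a = b := by simpa using ha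
      refine hF.subset fun n hn => ?_
      by_contra hc
      exact hn.2 (Or.inr ⟨n, ⟨hn.1, hc⟩, rfl⟩)
  | univ => simp
  | inter s t _ _ ihs iht =>
    refine ((ihs ha.1).union (iht ha.2)).subset fun n hn => ?_
    by_cases h : Sum.inl n ∈ s
    · exact Or.inr ⟨hn.1, fun h' => hn.2 ⟨h, h'⟩⟩
    · exact Or.inl ⟨hn.1, h⟩
  | sUnion S _ ih =>
    obtain ⟨s, hs, has⟩ := ha
    exact (ih s hs has).subset fun n hn => ⟨hn.1, fun h => hn.2 ⟨s, hs, h⟩⟩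

theorem main : ∃ A : Set (Set ℕ),
    (∀ a ∈ A, a.Infinite) ∧ (∀ a ∈ A, ∀ b ∈ A, a ≠ b → (a ∩ b).Finite) ∧
    (∃ D : Set (ℕ → ℕ), (∀ f : ℕ → ℕ, ∃ g ∈ D, ∀ᶠ n in Filter.atTop, f n ≤ g n) ∧
        Cardinal.mk D = Cardinal.mk A) ∧
    (∀ D : Set (ℕ → ℕ), (∀ f : ℕ → ℕ, ∃ g ∈ D, ∀ᶠ n in Filter.atTop, f n ≤ g n) →
        Cardinal.mk A ≤ Cardinal.mk D) ∧
    ∀ t : TopologicalSpace (ℕ ⊕ A),
      t = TopologicalSpace.generateFrom
        ({s : Set (ℕ ⊕ A) | ∃ n : ℕ, s = {Sum.inl n}} ∪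
         {s : Set (ℕ ⊕ A) | ∃ a : A, ∃ F : Set ℕ, F.Finite ∧
            s = insert (Sum.inr a) (Sum.inl '' ((a : Set ℕ) \ F))}) →
      ¬ (∀ U : ℕ → Set (Set (ℕ ⊕ A)),
          (∀ n, (∀ u ∈ U n, @IsOpen _ t u) ∧ ⋃₀ U n = Set.univ) →
          ∀ Dn : Set (ℕ ⊕ A), @Dense _ t Dn →
          ∃ F : ℕ → Set (ℕ ⊕ A),
            (∀ n, F n ⊆ Dn ∧ ∀ x, ∃ V : Set (ℕ ⊕ A), @IsOpen _ t V ∧ x ∈ V ∧ V ∩ F n ⊆ {x}) ∧
            ∀ x, ∃ n, ∃ u ∈ U n, x ∈ u ∧ (u ∩ F n).Nonempty) := by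
  obtain ⟨A, h1, h2, h3, h4, h5, h6, h7⟩ := exists_ad
  refine ⟨A, h1, h2, h3, h4, ?_⟩
  rintro t rfl hsel
  let E : ℕ → A → Set ℕ := fun n a => {m | m ∈ (a : Set ℕ) ∧ (Nat.unpair m).1 < n ∧
    ∃ h, (a : Set ℕ) = gr h}
  have hE : ∀ n a, (E n a).Finite := by
    intro n a
    by_cases ha : ∃ h, (a : Set ℕ) = gr h
    · obtain ⟨h, ha⟩ := ha
      refine ((Set.finite_lt_nat n).image fun k => Nat.pair k (h k)).subset ?_
      rintro m ⟨hm, hn, -⟩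
      rw [ha] at hm
      obtain ⟨k, rfl⟩ := hm
      exact ⟨k, by simpa using hn, rfl⟩
    · exact Set.finite_empty.subset fun m hm => ha hm.2.2
  obtain ⟨F, hF1, hF2⟩ := hsel
    (fun n => {s : Set (ℕ ⊕ A) | ∃ m : ℕ, s = {Sum.inl m}} ∪
      {s | ∃ a : A, s = insert (Sum.inr a) (Sum.inl '' ((a : Set ℕ) \ E n a))})
    (fun n => ⟨by
      rintro u (⟨m, rfl⟩ | ⟨a, rfl⟩)
      · exact TopologicalSpace.GenerateOpen.basic _ (Or.inl ⟨m, rfl⟩)
      · exact TopologicalSpace.GenerateOpen.basic _ (Or.inr ⟨a, E n a, hE n a, rfl⟩), by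
      apply Set.eq_univ_of_forall
      rintro (m | a)
      · exact ⟨_, Or.inl ⟨m, rfl⟩, rfl⟩
      · exact ⟨_, Or.inr ⟨a, rfl⟩, mem_insert _ _⟩⟩)
    (range Sum.inl) (by
      letI := TopologicalSpace.generateFrom
        ({s : Set (ℕ ⊕ A) | ∃ n : ℕ, s = {Sum.inl n}} ∪
         {s : Set (ℕ ⊕ A) | ∃ a : A, ∃ F : Set ℕ, F.Finite ∧
            s = insert (Sum.inr a) (Sum.inl '' ((a : Set ℕ) \ F))})
      rw [dense_iff_inter_open]
      rintro V hV ⟨m | a, hx⟩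
      · exact ⟨_, hx, m, rfl⟩
      · obtain ⟨m, hm1, hm2⟩ := (h1 a a.2).exists_notMem_finite (nhd hV a hx)
        exact ⟨Sum.inl m, by_contra fun h => hm2 ⟨hm1, h⟩, m, rfl⟩)
  have hfin : ∀ n k, ∃ B, ∀ m, Sum.inl (Nat.pair k m) ∈ F n → m ≤ B := by
    intro n k
    obtain ⟨V, hV, hx, hsub⟩ := (hF1 n).2 (Sum.inr ⟨col k, h5 k⟩)
    obtain ⟨B, hB⟩ := (nhd hV _ hx).bddAbove
    refine ⟨B, fun m hm => (Nat.right_le_pair k m).trans (hB ⟨⟨m, rfl⟩, fun h => ?_⟩)⟩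
    simpa using hsub ⟨h, hm⟩
  choose B hB using hfin
  obtain ⟨h, hA, hh⟩ := h6 fun k => (Finset.range (k + 1)).sup fun n => B n k
  obtain ⟨n, u, hu, hx, z, hz1, hz2⟩ := hF2 (Sum.inr ⟨gr h, hA⟩)
  rcases hu with ⟨m, rfl⟩ | ⟨a, rfl⟩
  · simp at hx
  · obtain rfl : (⟨gr h, hA⟩ : A) = a := by simpa using hx
    rcases hz1 with rfl | ⟨m, ⟨⟨k, rfl⟩, hm⟩, rfl⟩
    · simpa using (hF1 n).1 hz2
    · have hk : n ≤ k := by
        by_contra hlt
        exact hm ⟨⟨k, rfl⟩, by simpa using hlt, h, rfl⟩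
      have h8 := hB n k _ hz2
      have h9 : B n k ≤ (Finset.range (k + 1)).sup fun n => B n k :=
        Finset.le_sup (f := fun n => B n k) (Finset.mem_range.2 (by omega))
      have := hh k
      omega

end Pool.Agent.H895Z.SelA
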