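import Pool.Agent.H895Z.SHOuter
import Pool.Agent.H895Z.SHDefs
import Pool.Agent.H895Z.SelA

set_option autoImplicit false

/-! # The forcing notion, and the implication from the principle -/

open Set Cardinal Filter

namespace Pool.Agent.H895Z.SH

open Fact Sum Pool.Agent.Helper539.SPForcing

variable {K Ω : Type} [LinearOrder Ω]

/-- the conditions: a stage together with a condition of that stage -/
structure Cond (K Ω : Type) [LinearOrder Ω] : Type where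
  s : St K Ω
  p : Set (Fact K Ω)
  v : s.V p

instance : Preorder (Cond K Ω) where
  le c' c := c'.s ≤ c.s ∧ c.p ⊆ c'.p
  le_refl _ := ⟨le_rfl, Subset.rfl⟩
  le_trans _ _ _ h h' := ⟨h.1.trans h'.1, h'.2.trans h.2⟩

/-- the name of the member `ξ` of the almost disjoint family -/
def nA (ξ : K) (x : ℕ) : Set (Cond K Ω) := {c | bit ξ x true ∈ c.p}

theorem down_nA (ξ : K) (x : ℕ) : Down (nA ξ x : Set (Cond K Ω)) := fun _ h _ hq => hq.2 h

theorem Cond.add_point (c : Cond K Ω) (ξ : K) (N : ℕ) :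
    ∃ c', c' ≤ c ∧ ∃ x, N ≤ x ∧ c' ∈ nA ξ x := by
  obtain ⟨x, hx, h⟩ := c.v.1.add_pair ξ ξ (fun k hk => c.v.1.ne _ _ _ hk rfl)
    (fun k hk => c.v.1.ne _ _ _ hk rfl) N
  refine ⟨⟨c.s, _, h, c.v.2.union ?_⟩, ⟨le_rfl, subset_union_left⟩, x, hx, Or.inr (by simp)⟩
  rintro φ (rfl | rfl) <;> simp

theorem Cond.commit (c : Cond K Ω) {η : Ω} (hη : η < c.s.ζ) {ξ : K}
    (hξ : inl ξ ∉ (c.s.D η).T) : ∃ c', c' ≤ c ∧ ∃ m, com η ξ m ∈ c'.p := by
  obtain ⟨m, -, -, hm, -⟩ := exists_fresh c.v.1.fin 0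
  have hp := c.v.1
  have hv : Valid c.s.D (c.p ∪ {com η ξ m}) := by
    refine ⟨hp.fin.union (finite_singleton _), ?_, ?_, ?_, ?_, ?_, ?_, ?_⟩
    · intro a x g1 g2
      exact hp.v1 a x (by simpa using g1) (by simpa using g2)
    · intro a a' k g1
      exact hp.ne a a' k (by simpa using g1)
    · intro a a' k x g1 hk g2 g3
      exact hp.v2 a a' k x (by simpa using g1) hk (by simpa using g2) (by simpa using g3)
    · intro γ n v v' g1 g2
      exact hp.v3 γ n v v' (by simpa using g1) (by simpa using g2)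
    · intro γ n v v' g1 g2
      exact hp.v4 γ n v v' (by simpa using g1) (by simpa using g2)
    · rintro γ a n (g1 | g1)
      · exact hp.v5 _ _ _ g1
      · simp only [mem_singleton_iff, com.injEq] at g1
        obtain ⟨rfl, rfl, -⟩ := g1
        exact hξ
    · rintro γ a k n v (g1 | g1) g2 hk
      · exact (hp.v6 γ a k n v g1 (by simpa using g2) hk).mono subset_union_left le_rfl
      · simp only [mem_singleton_iff, com.injEq] at g1
        have := hm γ n v (by simpa using g2)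
        omega
  refine ⟨⟨c.s, _, hv, c.v.2.union ?_⟩, ⟨le_rfl, subset_union_left⟩, m, Or.inr rfl⟩
  rintro φ rfl
  simpa using hη

variable [WellFoundedLT Ω]

theorem Cond.fill (c : Cond K Ω) {η : Ω} (hη : η < c.s.ζ) (n : ℕ) :
    ∃ c', c' ≤ c ∧ ∃ v, stem η n v ∈ c'.p := by
  have hg := c.s.good η hη
  let T : Set (K ⊕ Ω) := insert (inr η) (c.s.D η).T
  have hTK : ∀ ξ, inl ξ ∈ T → inl ξ ∈ (c.s.D η).T := fun ξ h => by simpa [T] using h
  have hT : Closed c.s.D T := by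
    rintro γ (h | h)
    · obtain rfl : γ = η := inr_injective h
      exact ⟨subset_insert _ _, fun n i => Or.inr (hg.ct n i),
        fun ξ hξ n j => (hg.tw ξ (hTK ξ hξ) n j).mono (subset_insert _ _)⟩
    · obtain ⟨h1, h2, h3⟩ := hg.tcl γ h
      exact ⟨h1.trans (subset_insert _ _), fun n i => Or.inr (h2 n i),
        fun ξ hξ n j => (h3 ξ (hTK ξ hξ) n j).mono (subset_insert _ _)⟩
  obtain ⟨p', a1, a2, a3, a4⟩ := reduction c.s.good c.p c.v.1 c.v.2 T hT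
  by_cases h : ∃ v, stem η n v ∈ p'
  · exact ⟨⟨c.s, p', a2, a3⟩, ⟨le_rfl, a1⟩, h⟩
  push Not at h
  obtain ⟨v, -, -, -, hv⟩ := exists_fresh a2.fin 0
  have hp := a2.res hT
  have hq : Valid c.s.D (res p' T ∪ {stem η n v}) := by
    refine ⟨hp.fin.union (finite_singleton _), ?_, ?_, ?_, ?_, ?_, ?_, ?_⟩
    · intro a x g1 g2
      exact hp.v1 a x (by simpa using g1) (by simpa using g2)
    · intro a a' k g1
      exact hp.ne a a' k (by simpa using g1)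
    · intro a a' k x g1 hk g2 g3
      exact hp.v2 a a' k x (by simpa using g1) hk (by simpa using g2) (by simpa using g3)
    · rintro γ k u u' (g1 | g1) (g2 | g2)
      · exact hp.v3 _ _ _ _ g1 g2
      · simp only [mem_singleton_iff, stem.injEq] at g2
        obtain ⟨rfl, rfl, -⟩ := g2
        exact (h _ g1.1).elim
      · simp only [mem_singleton_iff, stem.injEq] at g1
        obtain ⟨rfl, rfl, -⟩ := g1
        exact (h _ g2.1).elim
      · simp only [mem_singleton_iff, stem.injEq] at g1 g2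
        omega
    · rintro γ k u u' (g1 | g1) g2
      · exact hp.v4 γ k u u' g1 (by simpa using g2)
      · simp only [mem_singleton_iff, stem.injEq] at g1
        have g3 : low γ k u' ∈ res p' T := by simpa using g2
        have := hv _ _ _ g3.1
        omega
    · intro γ a k g1
      exact hp.v5 γ a k (by simpa using g1)
    · rintro γ a k l u g1 (g2 | g2) hk
      · exact (hp.v6 γ a k l u (by simpa using g1) g2 hk).mono subset_union_left le_rfl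
      · simp only [mem_singleton_iff, stem.injEq] at g2
        obtain ⟨rfl, -, -⟩ := g2
        have g3 : com γ a k ∈ res p' T := by simpa using g1
        exact (hp.v5 _ _ _ g3 (hTK a (fs_com.1 g3.2).2)).elim
  have hI : In T (res p' T ∪ {stem η n v}) := (res_in _ _).union (by
    rintro φ rfl
    exact fs_stem.2 (mem_insert _ _))
  obtain ⟨r, b1, b2⟩ := a4 _ hq hI subset_union_left
  refine ⟨⟨c.s, _, c.s.res_V b1⟩, ⟨le_rfl, c.v.2.sub_res (a1.trans (subset_union_right.trans b2))⟩,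
    v, b2 (Or.inl (Or.inr rfl)), by simpa using hη⟩

theorem Sizes.capture_name (H : Sizes K Ω) {X : Type} (hX : #X ≤ #K)
    {f : X → ℕ → Set (Cond K Ω)} {q : Cond K Ω} (hq : q ∈ IsFun f) :
    ∃ s, s ≤ q.s ∧ ∃ W : X → ℕ → Set (Fact K Ω) × ℕ, (∀ x j, s.V (W x j).1) ∧
      (∀ x, s.Pre (W x)) ∧
      ∀ x j c, c ≤ q → c.s ≤ s → (W x j).1 ⊆ c.p → c ∈ meets (f x (W x j).2) := by
  let R : X → St K Ω → Set (Fact K Ω) → ℕ → Prop := fun x s w v =>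
    ∀ c, c ≤ q → c.s ≤ s → w ⊆ c.p → c ∈ meets (f x v)
  have hR : ∀ x s s' w v, R x s w v → s' ≤ s → R x s' w v :=
    fun x s s' w v h hs c h1 h2 h3 => h c h1 (h2.trans hs) h3
  obtain ⟨s, h1, h2⟩ := H.tasks hX q.s (fun x s => ∃ W : ℕ → Set (Fact K Ω) × ℕ,
      (∀ j, s.V (W j).1 ∧ R x s (W j).1 (W j).2) ∧ s.Pre W)
    (by
      rintro x s s' ⟨W, g1, g2⟩ h
      exact ⟨W, fun j => ⟨(g1 j).1.up h, hR _ _ _ _ _ (g1 j).2 h⟩, g2.up h⟩)
    (by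
      intro x s0 h0
      refine H.capture s0 (R x) (hR x) fun s hs t ht => ?_
      have hsq := hs.trans h0
      by_cases h : ∃ r, s.V r ∧ q.p ∪ t ⊆ r
      · obtain ⟨r, g1, g2⟩ := h
        have g3 : (⟨s, r, g1⟩ : Cond K Ω) ≤ q := ⟨hsq, subset_union_left.trans g2⟩
        obtain ⟨c, g4, v, g5⟩ := IsFun.total (down_IsFun f _ hq _ g3) x
        exact ⟨c.s, g4.1, c.p, v, c.v, (subset_union_right.trans g2).trans g4.2,
          fun c' _ k2 k3 => down_meets _ _ g5 _ ⟨k2, k3⟩⟩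
      · refine ⟨s, le_rfl, t, 0, ht, Subset.rfl, fun c k1 k2 k3 => (h ⟨_, St.down_V k2 c.v.1,
          union_subset ((q.v.up hsq).2.sub_res k1.2) (ht.2.sub_res k3)⟩).elim⟩)
  choose W g1 g2 using h2
  exact ⟨s, h1, W, fun x j => (g1 x j).1, g2, fun x j => (g1 x j).2⟩

theorem Sizes.unbounded (H : Sizes K Ω) {g : K → ℕ → ℕ} (hg : Function.Surjective g)
    {h : ℕ → ℕ → Set (Cond K Ω)} {q : Cond K Ω} (hq : q ∈ IsFun h) :
    ∃ r, r ≤ q ∧ ∃ ξ, ∀ m c, c ≤ r → ∃ c', c' ≤ c ∧ ∃ n, m ≤ n ∧ ∃ u, c' ∈ meets (h n u) ∧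
      u < g ξ n := by
  classical
  obtain ⟨s, h1, W, h2, h3, h4⟩ := H.capture_name (Cardinal.mk_le_aleph0.trans H.unc.le) hq
  obtain ⟨T, a1, a2, a3, a4⟩ := s.countable_closure (S := ⋃ n, ⋃ j, supp (W n j).1)
    (countable_iUnion fun n => countable_iUnion fun j => (supp_finite (h2 n j).1.fin).countable)
    (iUnion_subset fun n => iUnion_subset fun j => in_iff.1 (h2 n j).2)
  have hW : ∀ n j, In T (W n j).1 := fun n j => in_iff.2 fun a ha =>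
    a1 (mem_iUnion.2 ⟨n, mem_iUnion.2 ⟨j, ha⟩⟩)
  obtain ⟨t, ht⟩ := (countable_in a2).exists_eq_range ⟨∅, finite_empty, by simp [In]⟩
  have key : ∀ i n, ∃ j, Valid s.D (t i) → In T (t i) →
      ∃ r, Valid s.D r ∧ In T r ∧ t i ∪ (W n j).1 ⊆ r := by
    intro i n
    by_cases hi : Valid s.D (t i) ∧ In T (t i)
    · obtain ⟨j, r, g1, g2⟩ := h3 n (t i) ⟨hi.1, hi.2.mono a3⟩
      exact ⟨j, fun _ _ => ⟨res r T, g1.1.res a4, res_in _ _,
        (hi.2.union (hW n j)).sub_res g2⟩⟩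
    · exact ⟨0, fun g1 g2 => (hi ⟨g1, g2⟩).elim⟩
  choose J hJ using key
  obtain ⟨ξ, hξ⟩ := hg fun n => (Finset.range (n + 1)).sup (fun i => (W n (J i n)).2) + 1
  refine ⟨⟨s, q.p, q.v.up h1⟩, ⟨h1, Subset.rfl⟩, ξ, fun m c hc => ?_⟩
  have hcs : c.s ≤ s := hc.1
  obtain ⟨p', b1, b2, b3, b4⟩ := reduction c.s.good c.p c.v.1 c.v.2 T (a4.congr hcs.2 a3)
  have b5 : Valid c.s.D (res p' T) := b2.res (a4.congr hcs.2 a3)
  have : res p' T ∈ range t := ht ▸ ⟨b5.fin, res_in _ _⟩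
  obtain ⟨i, hi⟩ := this
  obtain ⟨r, g1, g2, g3⟩ := hJ i (max m i)
    (hi ▸ b5.congr (fun η hη => (hcs.2 η hη).symm) ((res_in _ _).mono a3)) (hi ▸ res_in _ _)
  obtain ⟨r', k1, k2, k3, k4⟩ := (b4 r (g1.congr hcs.2 (g2.mono a3)) g2
    (hi ▸ subset_union_left.trans g3)).res c.s.closed ((g2.mono a3).mono (St.Z_le hcs)) b3
  have hle : (⟨c.s, r', k1, k2⟩ : Cond K Ω) ≤ c := ⟨le_rfl, b1.trans k4⟩
  refine ⟨_, hle, max m i, le_max_left _ _, _, h4 _ (J i (max m i)) _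
    (hle.trans (hc.trans ⟨h1, Subset.rfl⟩)) hcs ((subset_union_right.trans g3).trans k3), ?_⟩
  rw [hξ]
  exact Nat.lt_succ_of_le (Finset.le_sup (f := fun j => (W (max m i) (J j (max m i))).2)
    (Finset.mem_range.2 (Nat.lt_succ_of_le (le_max_right _ _))))

theorem Sizes.selection (H : Sizes K Ω) {f : K × ℕ → ℕ → Set (Cond K Ω)} {q : Cond K Ω}
    (hq : q ∈ IsFun f) : ∃ r, r ≤ q ∧ ∃ F : ℕ → Finset K → Set (Cond K Ω), r ∈ IsFun F ∧
      ∀ ξ c, c ≤ r → ∃ c', c' ≤ c ∧ ∃ m, ∀ n, m ≤ n → ∀ e, e ≤ c' → ∃ e', e' ≤ e ∧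
        ∃ s, e' ∈ meets (F n s) ∧ ∃ ξ', ξ' ∈ s ∧ ∃ x, e' ∈ nA ξ x ∧ e' ∈ nA ξ' x ∧
          (∃ u, e' ∈ meets (f (ξ, n) u) ∧ u ≤ x) ∧ ∃ u, e' ∈ meets (f (ξ', n) u) ∧ u ≤ x := by
  classical
  obtain ⟨s, h1, W, h2, h3, h4⟩ := H.capture_name (X := K × ℕ) (by
    rw [Cardinal.mk_prod, Cardinal.lift_id, Cardinal.lift_id, Cardinal.mk_nat]
    exact (mul_le_mul' le_rfl H.unc.le).trans (Cardinal.mul_eq_self H.unc.le).le) hq
  obtain ⟨s', a1, a2, a3⟩ := H.new_step s (fun ξ n => W (ξ, n)) (fun ξ n j => h2 _ j)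
    fun ξ n => h3 _
  set η := s.ζ with hη
  set d := s'.D η with hd
  have hg := s'.good η a2
  obtain ⟨τ, hτ⟩ := (hg.tc.preimage inl_injective).exists_eq_range ⟨_, hg.ct 0 0⟩
  let Fs : ℕ → ℕ → Finset K := fun n v =>
    (Finset.range (v + 1)).image (d.C n) ∪ (Finset.range (n + 1)).image τ
  let F : ℕ → Finset K → Set (Cond K Ω) := fun n t => {c | ∃ v, stem η n v ∈ c.p ∧ t = Fs n v}
  have hF : ∀ n t, Down (F n t) := by
    rintro n t c ⟨v, g1, g2⟩ c' hc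
    exact ⟨v, hc.2 g1, g2⟩
  let r : Cond K Ω := ⟨s', q.p, q.v.up (a1.trans h1)⟩
  have hr : r ≤ q := ⟨a1.trans h1, Subset.rfl⟩
  have hlt : ∀ c, c ≤ r → η < c.s.ζ := fun c hc => lt_of_lt_of_le a2 hc.1.1
  have hD : ∀ c, c ≤ r → c.s.D η = d := fun c hc => hc.1.2 η a2
  refine ⟨r, hr, F, ⟨fun n => mem_fex.2 fun c hc => ?_, fun n t t' => mem_fimp.2 ?_⟩, ?_⟩
  · obtain ⟨c', g1, v, g2⟩ := c.fill (hlt c hc) n
    exact ⟨c', g1, Fs n v, meets_of_mem ⟨v, g2, rfl⟩⟩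
  · rintro c - ⟨g1, g2⟩
    obtain ⟨c1, k1, v, k2, rfl⟩ := exists_of_meets (hF n t) g1
    obtain ⟨c2, k3, v', k4, rfl⟩ := exists_of_meets (hF n t') (down_meets _ _ g2 _ k1)
    exact ⟨c, le_rfl, by rw [c2.v.1.v3 _ _ _ _ (k3.2 k2) k4]; rfl⟩
  intro ξ c hc
  by_cases hξ : inl ξ ∈ d.T
  · have : ξ ∈ range τ := hτ ▸ hξ
    obtain ⟨j, rfl⟩ := this
    refine ⟨c, le_rfl, j, fun n hn e he => ?_⟩
    obtain ⟨e1, g1, v, g2⟩ := e.fill (hlt e (he.trans hc)) n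
    obtain ⟨e2, g3, u, g4⟩ :=
      IsFun.total (down_IsFun f _ hq _ (g1.trans (he.trans (hc.trans hr)))) (τ j, n)
    obtain ⟨e3, g5, x, g6, g7⟩ := e2.add_point (τ j) u
    refine ⟨e3, g5.trans (g3.trans g1), Fs n v, meets_of_mem ⟨v, g5.2 (g3.2 g2), rfl⟩, τ j, ?_,
      x, g7, g7, ⟨u, down_meets _ _ g4 _ g5, g6⟩, u, down_meets _ _ g4 _ g5, g6⟩
    exact Finset.mem_union_right _
      (Finset.mem_image_of_mem _ (Finset.mem_range.2 (Nat.lt_succ_of_le hn)))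
  · obtain ⟨c', g1, m, g2⟩ := c.commit (hlt c hc) (by rwa [hD c hc])
    refine ⟨c', g1, m, fun n hn e he => ?_⟩
    have her := he.trans (g1.trans hc)
    obtain ⟨e1, g3, v, g4⟩ := e.fill (hlt e her) n
    have g5 := e1.v.1.v6 _ _ _ _ _ (g3.2 (he.2 g2)) g4 hn
    rw [hD e1 (g3.trans her)] at g5
    obtain ⟨i, hi, x, k1, k2, ⟨j, k3, k4⟩, j', k5, k6⟩ := g5
    rw [a3] at k3 k4 k5 k6
    have hq1 : e1 ≤ q := g3.trans (her.trans hr)
    have hs1 : e1.s ≤ s := (g3.trans her).1.trans a1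
    refine ⟨e1, g3, Fs n v, meets_of_mem ⟨v, g4, rfl⟩, d.C n i, ?_, x, k1, k2,
      ⟨_, h4 _ j e1 hq1 hs1 k3, k4⟩, _, h4 _ j' e1 hq1 hs1 k5, k6⟩
    exact Finset.mem_union_left _
      (Finset.mem_image_of_mem _ (Finset.mem_range.2 (Nat.lt_succ_of_le hi)))

theorem mem_FVal {P : Type} [Preorder P] {X Y : Type} {f : X → Y → Set P} {a : X}
    {Q : Y → Set P} {p : P} (u : Y) (hQ : Down (Q u)) (h1 : p ∈ meets (f a u)) (h2 : p ∈ Q u) :
    p ∈ FVal f a Q := mem_fex_of_mem u (down_fand (down_meets _) hQ) ⟨h1, h2⟩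

theorem Sizes.forces (H : Sizes K Ω) {g : K → ℕ → ℕ} (hg : Function.Surjective g)
    (c : Cond K Ω) : c ∈ FSHPr (Cond K Ω) K g := by
  refine mem_fex.2 fun q _ => ⟨q, le_rfl, nA, fun ξ N => mem_fex.2 fun q' _ => ?_,
    fun ξ ξ' => mem_fimp.2 fun q' _ hne => ?_, fun h => mem_fimp.2 fun q' _ hq => ?_,
    fun f => mem_fimp.2 fun q' _ hq => ?_⟩
  · obtain ⟨c', h1, x, h2, h3⟩ := q'.add_point ξ N
    exact ⟨c', h1, x, h2, meets_of_mem h3⟩
  · obtain ⟨k, hk⟩ := q'.v.1.add_cl (ξ := ξ) (ξ' := ξ') hne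
    refine ⟨⟨q'.s, _, hk, q'.v.2.union (by rintro φ rfl; simp)⟩, ⟨le_rfl, subset_union_left⟩,
      mem_fex_of_mem k (down_fall fun _ => down_fimp _ _) fun x => mem_fimp.2 ?_⟩
    rintro e he ⟨g1, g2⟩
    obtain ⟨e1, k1, k2⟩ := exists_of_meets (down_nA ξ x) g1
    obtain ⟨e2, k3, k4⟩ := exists_of_meets (down_nA ξ' x) (down_meets _ _ g2 _ k1)
    refine ⟨e, le_rfl, ?_⟩
    by_contra hc
    exact e2.v.1.v2 ξ ξ' k x (k3.2 (k1.2 (he.2 (Or.inr rfl)))) (not_lt.1 hc) (k3.2 k2) k4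
  · obtain ⟨r, h1, ξ, h2⟩ := H.unbounded hg hq
    refine ⟨r, h1, mem_fex_of_mem ξ (down_fall fun _ => down_fex _) fun m =>
      mem_fex.2 fun e he => ?_⟩
    obtain ⟨e', g1, n, g2, u, g3, g4⟩ := h2 m e he
    exact ⟨e', g1, n, g2, mem_FVal u (down_fground _) g3 g4⟩
  · obtain ⟨r, h1, F, h2, h3⟩ := H.selection hq
    refine ⟨r, h1, mem_fex_of_mem F (down_fand (down_IsFun _) (down_fall fun _ => down_fex _))
      ⟨h2, fun ξ => mem_fex.2 fun e he => ?_⟩⟩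
    obtain ⟨e', g1, m, g2⟩ := h3 ξ e he
    refine ⟨e', g1, m, fun n => mem_fimp.2 fun e1 he1 hn => ?_⟩
    obtain ⟨e2, k1, s, k2, ξ', k3, x, k4, k5, ⟨u, k6, k7⟩, u', k8, k9⟩ := g2 n hn e1 he1
    refine ⟨e2, k1, mem_FVal s (down_fex _) k2 (mem_fex_of_mem ξ'
      (down_fand (down_fground _) (down_fex _)) ⟨k3, mem_fex_of_mem x
        (down_fand (down_meets _) (down_fand (down_meets _) (down_fand (down_fex _) (down_fex _))))
        ⟨meets_of_mem k4, meets_of_mem k5, mem_FVal u (down_fground _) k6 k7,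
          mem_FVal u' (down_fground _) k8 k9⟩⟩)⟩

/-- the iterated power sets of the Baire space -/
def Lv : ℕ → Type
  | 0 => ℕ → ℕ
  | m + 1 => Set (Lv m)

theorem forcing_part : ∃ (P : Type) (_ : Preorder P) (K : Type) (g : K → ℕ → ℕ),
    Nonempty P ∧ ∀ p : P, p ∈ FSHPr P K g := by
  let K := Σ m, Lv m
  have hlt : ∀ m, #(Lv m) < #(Lv (m + 1)) := fun m => by
    show _ < #(Set (Lv m))
    rw [Cardinal.mk_set]; exact Cardinal.cantor _
  have hmono : Monotone fun m => #(Lv m) := monotone_nat_of_le_succ fun m => (hlt m).le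
  have hle : ∀ m, #(Lv m) ≤ #K := fun m => mk_le_of_injective (f := Sigma.mk m) sigma_mk_injective
  have hinf : ∀ m, ℵ₀ ≤ #(Lv m) := fun m =>
    le_trans (Cardinal.aleph0_le_mk (ℕ → ℕ)) (hmono (Nat.zero_le m))
  let Ω := (Order.succ #K).ord.ToType
  have hΩ : #Ω = Order.succ #K := by simp [Ω]
  have H : Sizes K Ω := by
    refine ⟨lt_of_le_of_lt (hinf 0) (lt_of_lt_of_le (hlt 0) (hle 1)),
      ⟨fun m => {k | k.1 ≤ m}, fun m m' h k hk => le_trans hk h, fun ξ => ⟨ξ.1, le_refl ξ.1⟩,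
        fun m => ?_⟩, fun η => Order.lt_succ_iff.1 (mk_Iio_toType_ord_lt η), fun S hS => ?_⟩
    · refine lt_of_le_of_lt ?_ (lt_of_lt_of_le (hlt m) (hle _))
      have h1 : {k : K | k.1 ≤ m} ⊆ ⋃ j : Iic m, range (Sigma.mk j.1) := by
        rintro ⟨j, a⟩ hj
        exact mem_iUnion.2 ⟨⟨j, hj⟩, a, rfl⟩
      refine (mk_le_mk_of_subset h1).trans ((mk_iUnion_le _).trans ?_)
      exact (mul_le_mul' (Cardinal.mk_le_aleph0.trans (hinf m))
        (ciSup_le' fun j => mk_range_le.trans (hmono j.2))).trans (Cardinal.mul_eq_self (hinf m)).le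
    · by_contra hc
      push Not at hc
      rw [eq_univ_of_forall hc, Cardinal.mk_univ, hΩ] at hS
      exact absurd hS (not_le.2 (Order.lt_succ _))
  let g : K → ℕ → ℕ := fun k => match k with
    | ⟨0, a⟩ => a
    | ⟨_ + 1, _⟩ => fun _ => 0
  have hg : Function.Surjective g := fun a => ⟨⟨0, a⟩, rfl⟩
  obtain ⟨η0, -⟩ := H.big ∅ (by simp)
  obtain ⟨η, -, hη⟩ := (wellFounded_lt (α := Ω)).has_min univ ⟨η0, trivial⟩
  let d : Datum K Ω := ⟨fun _ _ _ => (∅, 0), fun _ => ∅, fun _ _ => ⟨0, fun _ => 0⟩, ∅⟩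
  exact ⟨Cond K Ω, inferInstance, K, g,
    ⟨⟨⟨η, fun _ => d, fun γ hγ => (hη γ trivial hγ).elim⟩, ∅, valid_empty, by simp [In]⟩⟩,
    H.forces hg⟩

theorem zfc_part {K : Type} {g : K → ℕ → ℕ} (h : SHPr K g) :
    ∃ 𝒜 : Set (Set ℕ), IsAD 𝒜 ∧ bb ≤ #𝒜 ∧ StarHurewicz (psiTop 𝒜) := by
  classical
  obtain ⟨A, h1, h2, h3, h4⟩ := h
  have hinf : ∀ ξ, (A ξ).Infinite := fun ξ => infinite_of_forall_exists_gt fun N => by
    obtain ⟨k, g1, g2⟩ := h1 ξ (N + 1)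
    exact ⟨k, g2, g1⟩
  have hfin : ∀ ξ ξ', ξ ≠ ξ' → (A ξ ∩ A ξ').Finite := fun ξ ξ' hne => by
    obtain ⟨m, hm⟩ := h2 ξ ξ' hne
    exact (finite_lt_nat m).subset hm
  have hinj : Function.Injective A := fun ξ ξ' he => by
    by_contra hne
    have := hfin ξ ξ' hne
    rw [← he, inter_self] at this
    exact hinf ξ this
  refine ⟨range A, ⟨?_, ?_⟩, ?_, fun 𝒰 h𝒰 => ?_⟩
  · rintro _ ⟨ξ, rfl⟩; exact hinf ξ
  · rintro _ ⟨ξ, rfl⟩ _ ⟨ξ', rfl⟩ hne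
    exact hfin ξ ξ' fun h => hne (by rw [h])
  · rw [mk_range_eq _ hinj]
    refine le_trans (csInf_le' ⟨range g, rfl, ?_⟩) mk_range_le
    rintro ⟨h, hh⟩
    obtain ⟨ξ, hξ⟩ := h3 h
    obtain ⟨m, hm⟩ := eventually_atTop.1 (hh _ ⟨ξ, rfl⟩)
    obtain ⟨n, g1, g2⟩ := hξ m
    exact absurd (hm n g1) (not_le.2 g2)
  · have hU : ∀ n x, ∃ U, U ∈ 𝒰 n ∧ x ∈ U := fun n x => by
      have : x ∈ ⋃₀ 𝒰 n := (h𝒰 n).2 ▸ mem_univ x
      exact this
    choose U hU1 hU2 using hU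
    let pt : K → ℕ ⊕ range A := fun ξ => inr ⟨A ξ, ξ, rfl⟩
    have hf : ∀ z : K × ℕ, ∃ N, ∀ x, x ∈ A z.1 → N ≤ x → inl x ∈ U z.2 (pt z.1) := by
      intro z
      obtain ⟨M, hM⟩ := (SelA.nhd ((h𝒰 z.2).1 _ (hU1 z.2 (pt z.1))) _ (hU2 z.2 (pt z.1))).bddAbove
      refine ⟨M + 1, fun x g1 g2 => ?_⟩
      by_contra hc
      have := hM ⟨g1, hc⟩
      omega
    choose f hf using hf
    obtain ⟨F, hF⟩ := h4 f
    refine ⟨fun n => (fun ξ => U n (pt ξ)) '' (F n) ∪ (fun k => U n (inl k)) '' Iic n,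
      fun n => ⟨?_, ((F n).finite_toSet.image _).union ((finite_Iic n).image _)⟩, ?_⟩
    · rintro _ (⟨ξ, -, rfl⟩ | ⟨k, -, rfl⟩) <;> exact hU1 _ _
    · rintro (k | ⟨_, ξ, rfl⟩)
      · filter_upwards [eventually_ge_atTop k] with n hn
        exact ⟨_, ⟨hU1 n (inl k), inl k, hU2 _ _, _, Or.inr ⟨k, hn, rfl⟩, hU2 _ _⟩, hU2 _ _⟩
      · obtain ⟨m, hm⟩ := hF ξ
        filter_upwards [eventually_ge_atTop m] with n hn
        obtain ⟨ξ', g1, x, g2, g3, g4, g5⟩ := hm n hn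
        exact ⟨_, ⟨hU1 n (pt ξ), inl x, hf (ξ, n) x g2 g4, _, Or.inl ⟨ξ', g1, rfl⟩,
          hf (ξ', n) x g3 g5⟩, hU2 _ _⟩

end Pool.Agent.H895Z.SH
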