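import Pool.Agent.H895Z.SHAmalg
import Pool.Agent.H895Z.ADBasic

set_option autoImplicit false

/-! # Stages of the iteration, ordered by end extension -/

open Set Cardinal

namespace Pool.Agent.H895Z.SH

open Fact Sum

theorem exists_closure {X : Type} (c : X → X → Set X) (hc : ∀ a b, (c a b).Countable) :
    ∃ cl : Set X → Set X, Monotone cl ∧ (∀ S, S ⊆ cl S) ∧
      (∀ S, ∀ a ∈ cl S, ∀ b ∈ cl S, c a b ⊆ cl S) ∧
      (∀ S Z, S ⊆ Z → (∀ a ∈ Z, ∀ b ∈ Z, c a b ⊆ Z) → cl S ⊆ Z) ∧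
      ∀ S, #(cl S) ≤ max #S ℵ₀ := by
  refine ⟨fun S => ⋂₀ {Z | S ⊆ Z ∧ ∀ a ∈ Z, ∀ b ∈ Z, c a b ⊆ Z}, ?_, ?_, ?_, ?_, ?_⟩
  · intro S S' h
    exact sInter_subset_sInter fun Z hZ => ⟨Subset.trans h hZ.1, hZ.2⟩
  · intro S
    exact subset_sInter fun Z hZ => hZ.1
  · intro S a ha b hb
    exact subset_sInter fun Z hZ => hZ.2 a (ha Z hZ) b (hb Z hZ)
  · intro S Z h1 h2
    exact sInter_subset_of_mem ⟨h1, h2⟩
  · intro S
    let it : ℕ → Set X := fun k =>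
      Nat.rec S (fun _ (A : Set X) => A ∪ ⋃ z : ↥A × ↥A, c z.1.1 z.2.1) k
    have hs : ∀ k, it (k + 1) = it k ∪ ⋃ z : ↥(it k) × ↥(it k), c z.1.1 z.2.1 :=
      fun _ => rfl
    have hm : Monotone it := monotone_nat_of_le_succ fun k => by
      rw [hs]; exact subset_union_left
    have hμ : ℵ₀ ≤ max #S ℵ₀ := le_max_right _ _
    have hcard : ∀ k, #↥(it k) ≤ max #S ℵ₀ := by
      intro k
      induction k with
      | zero => exact le_max_left _ _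
      | succ k ih =>
        rw [hs]
        refine (mk_union_le _ _).trans (Cardinal.add_le_of_le hμ ih ?_)
        refine (mk_iUnion_le _).trans ?_
        have h1 : #(↥(it k) × ↥(it k)) ≤ max #S ℵ₀ := by
          rw [Cardinal.mk_prod, Cardinal.lift_id]
          exact (mul_le_mul' ih ih).trans (Cardinal.mul_eq_self hμ).le
        have h2 : (⨆ z : ↥(it k) × ↥(it k), #(c z.1.1 z.2.1)) ≤ max #S ℵ₀ :=
          ciSup_le' fun z => (Cardinal.le_aleph0_iff_set_countable.2 (hc _ _)).trans hμ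
        exact (mul_le_mul' h1 h2).trans (Cardinal.mul_eq_self hμ).le
    have hU : (⋂₀ {Z | S ⊆ Z ∧ ∀ a ∈ Z, ∀ b ∈ Z, c a b ⊆ Z}) ⊆ ⋃ k, it k := by
      refine sInter_subset_of_mem ⟨subset_iUnion it 0, ?_⟩
      intro a ha b hb
      obtain ⟨k, hk⟩ := mem_iUnion.1 ha
      obtain ⟨l, hl⟩ := mem_iUnion.1 hb
      refine Subset.trans ?_ (subset_iUnion it (max k l + 1))
      rw [hs]
      exact (subset_iUnion (fun z : ↥(it (max k l)) × ↥(it (max k l)) => c z.1.1 z.2.1)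
        (⟨a, hm (le_max_left _ _) hk⟩, ⟨b, hm (le_max_right _ _) hl⟩)).trans subset_union_right
    refine (mk_le_mk_of_subset hU).trans ((mk_iUnion_le _).trans ?_)
    have h2 : (⨆ k, #↥(it k)) ≤ max #S ℵ₀ := ciSup_le' hcard
    rw [Cardinal.mk_nat]
    exact (mul_le_mul' hμ h2).trans (Cardinal.mul_eq_self hμ).le

variable {K Ω : Type}

/-- the coordinates used by a set of facts -/
def supp (p : Set (Fact K Ω)) : Set (K ⊕ Ω) := ⋃ φ ∈ p, fsupp φ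

theorem in_iff {T : Set (K ⊕ Ω)} {p : Set (Fact K Ω)} : In T p ↔ supp p ⊆ T := by
  simp [In, supp]

theorem supp_finite {p : Set (Fact K Ω)} (hp : p.Finite) : (supp p).Finite :=
  hp.biUnion fun φ _ => fsupp_finite φ

theorem in_level {p : Set (Fact K Ω)} (hp : p.Finite) {T : ℕ → Set (K ⊕ Ω)} (hT : Monotone T)
    (h : In (⋃ k, T k) p) : ∃ k, In (T k) p := by
  have h1 : ∀ a ∈ supp p, ∃ k, a ∈ T k := fun a ha => mem_iUnion.1 (in_iff.1 h ha)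
  choose! m hm using h1
  obtain ⟨M, hM⟩ := ((supp_finite hp).image m).bddAbove
  exact ⟨M, in_iff.2 fun a ha => hT (hM ⟨a, ha, rfl⟩) (hm a ha)⟩

theorem countable_in {T : Set (K ⊕ Ω)} (hT : T.Countable) :
    {p : Set (Fact K Ω) | p.Finite ∧ In T p}.Countable := by
  have h1 : (inl ⁻¹' T : Set K).Countable := hT.preimage inl_injective
  have h2 : (inr ⁻¹' T : Set Ω).Countable := hT.preimage inr_injective
  have h : {φ : Fact K Ω | fsupp φ ⊆ T}.Countable := by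
    have a1 := (h1.prod (countable_univ (α := ℕ × Bool))).image
      fun z => (bit z.1 z.2.1 z.2.2 : Fact K Ω)
    have a2 := (h1.prod (h1.prod (countable_univ (α := ℕ)))).image
      fun z => (cl z.1 z.2.1 z.2.2 : Fact K Ω)
    have a3 := (h2.prod (countable_univ (α := ℕ × ℕ))).image
      fun z => (stem z.1 z.2.1 z.2.2 : Fact K Ω)
    have a4 := (h2.prod (countable_univ (α := ℕ × ℕ))).image
      fun z => (low z.1 z.2.1 z.2.2 : Fact K Ω)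
    have a5 := (h2.prod (h1.prod (countable_univ (α := ℕ)))).image
      fun z => (com z.1 z.2.1 z.2.2 : Fact K Ω)
    refine ((((a1.union a2).union a3).union a4).union a5).mono ?_
    intro φ hφ
    cases φ with
    | bit ξ x b =>
      exact Or.inl (Or.inl (Or.inl (Or.inl ⟨(ξ, x, b), ⟨fs_bit.1 hφ, trivial⟩, rfl⟩)))
    | cl ξ ξ' k =>
      exact Or.inl (Or.inl (Or.inl (Or.inr
        ⟨(ξ, ξ', k), ⟨(fs_cl.1 hφ).1, (fs_cl.1 hφ).2, trivial⟩, rfl⟩)))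
    | stem η n v => exact Or.inl (Or.inl (Or.inr ⟨(η, n, v), ⟨fs_stem.1 hφ, trivial⟩, rfl⟩))
    | low η n v => exact Or.inl (Or.inr ⟨(η, n, v), ⟨fs_low.1 hφ, trivial⟩, rfl⟩)
    | com η ξ n =>
      exact Or.inr ⟨(η, ξ, n), ⟨(fs_com.1 hφ).1, (fs_com.1 hφ).2, trivial⟩, rfl⟩
  refine (countable_setOf_finite_subset h).mono ?_
  intro p hp
  exact ⟨hp.1, hp.2⟩

variable [LinearOrder Ω]

theorem Valid.congr {D D' : Ω → Datum K Ω} {ζ : Ω} (h : ∀ η, η < ζ → D' η = D η)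
    {p : Set (Fact K Ω)} (hp : Valid D p) (hI : In (Z (Iio ζ)) p) : Valid D' p :=
  ⟨hp.fin, hp.v1, hp.ne, hp.v2, hp.v3, hp.v4,
    fun η ξ n h1 => by
      rw [h η (by simpa using hI _ h1)]; exact hp.v5 η ξ n h1,
    fun η ξ m n v h1 h2 h3 => by
      rw [h η (by simpa using hI _ h2)]; exact hp.v6 η ξ m n v h1 h2 h3⟩

theorem Closed.congr {D D' : Ω → Datum K Ω} {ζ : Ω} (h : ∀ η, η < ζ → D' η = D η)
    {T : Set (K ⊕ Ω)} (hT : Closed D T) (hI : T ⊆ Z (Iio ζ)) : Closed D' T := fun η hη => by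
  rw [h η (by simpa using hI hη)]; exact hT η hη

theorem Good.congr {D D' : Ω → Datum K Ω} {η : Ω} (h : ∀ γ, γ < η → D' γ = D γ)
    (h' : D' η = D η) (hg : Good D η) : Good D' η := by
  refine ⟨?_, ?_, ?_, ?_, ?_, ?_, ?_, ?_, ?_, ?_, ?_, ?_, ?_, ?_⟩ <;> rw [h']
  · exact hg.wv
  · exact hg.wf
  · intro ξ n p hp hI
    obtain ⟨j, r, h1, h2, h3⟩ := hg.pre ξ n p (hp.congr (fun γ hγ => (h γ hγ).symm) hI) hI
    exact ⟨j, r, h1.congr h h2, h2, h3⟩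
  · exact hg.ymono
  · exact hg.ycov
  · exact hg.ysub
  · exact fun m => (hg.ycl m).congr h (hg.ysub m)
  · exact hg.yw
  · exact hg.cy
  · exact hg.ct
  · exact hg.tc
  · exact hg.tsub
  · exact hg.tcl.congr h hg.tsub
  · exact hg.tw

/-- a stage of the iteration -/
structure St (K Ω : Type) [LinearOrder Ω] : Type where
  ζ : Ω
  D : Ω → Datum K Ω
  good : ∀ η, η < ζ → Good D η

instance : Preorder (St K Ω) where
  le s' s := s.ζ ≤ s'.ζ ∧ ∀ η, η < s.ζ → s'.D η = s.D η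
  le_refl _ := ⟨le_rfl, fun _ _ => rfl⟩
  le_trans _ _ _ h h' := ⟨h'.1.trans h.1, fun η hη =>
    (h.2 η (lt_of_lt_of_le hη h'.1)).trans (h'.2 η hη)⟩

/-- the conditions of a stage -/
def St.V (s : St K Ω) (p : Set (Fact K Ω)) : Prop := Valid s.D p ∧ In (Z (Iio s.ζ)) p

theorem St.Z_le {s s' : St K Ω} (h : s' ≤ s) : (Z (Iio s.ζ) : Set (K ⊕ Ω)) ⊆ Z (Iio s'.ζ) :=
  Z_mono (Iio_subset_Iio h.1)

theorem St.V.up {s s' : St K Ω} (h : s' ≤ s) {p : Set (Fact K Ω)} (hp : s.V p) : s'.V p :=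
  ⟨hp.1.congr h.2 hp.2, hp.2.mono (St.Z_le h)⟩

theorem St.closed (s : St K Ω) : Closed s.D (Z (Iio s.ζ) : Set (K ⊕ Ω)) :=
  closed_Z (isLowerSet_Iio _) s.good

theorem St.res_V (s : St K Ω) {p : Set (Fact K Ω)} (hp : Valid s.D p) :
    s.V (res p (Z (Iio s.ζ))) := ⟨hp.res s.closed, res_in _ _⟩

theorem St.down_V {s s' : St K Ω} (h : s' ≤ s) {p : Set (Fact K Ω)} (hp : Valid s'.D p) :
    s.V (res p (Z (Iio s.ζ))) :=
  ⟨(hp.res (s.closed.congr h.2 Subset.rfl)).congr (fun η hη => (h.2 η hη).symm) (res_in _ _),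
    res_in _ _⟩

/-- the family `W` is predense among the conditions of the stage -/
def St.Pre (s : St K Ω) (W : ℕ → Set (Fact K Ω) × ℕ) : Prop :=
  ∀ t, s.V t → ∃ j r, s.V r ∧ t ∪ (W j).1 ⊆ r

theorem St.Pre.up {s s' : St K Ω} (h : s' ≤ s) {W : ℕ → Set (Fact K Ω) × ℕ} (hW : s.Pre W) :
    s'.Pre W := by
  intro t ht
  obtain ⟨j, r, h1, h2⟩ := hW _ (St.down_V h ht.1)
  have h3 := h1.up h
  refine ⟨j, r ∪ t, ⟨ht.1.lower' h3.1 h1.2 (subset_union_left.trans h2), h3.2.union ht.2⟩, ?_⟩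
  exact union_subset subset_union_right ((subset_union_right.trans h2).trans subset_union_left)

theorem St.closure (s : St K Ω) (d : Datum K Ω) (h1 : ∀ ξ n j, (d.W ξ n j).1.Finite)
    (h2 : ∀ ξ n j, In (Z (Iio s.ζ)) (d.W ξ n j).1) :
    ∃ cl : Set (K ⊕ Ω) → Set (K ⊕ Ω), Monotone cl ∧ (∀ S, S ⊆ cl S) ∧
      (∀ S, S ⊆ Z (Iio s.ζ) → cl S ⊆ Z (Iio s.ζ) ∧ Closed s.D (cl S) ∧ ClW d (cl S)) ∧
      ∀ S, #(cl S) ≤ max #S ℵ₀ := by
  let sw : Datum K Ω → K → Set (K ⊕ Ω) := fun d ξ => ⋃ n, ⋃ j, supp (d.W ξ n j).1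
  let c : K ⊕ Ω → K ⊕ Ω → Set (K ⊕ Ω) := fun a b => match a, b with
    | inl ξ, _ => sw d ξ
    | inr η, inl ξ => {x | η < s.ζ ∧ x ∈ sw (s.D η) ξ}
    | inr η, inr _ => {x | η < s.ζ ∧ x ∈ (s.D η).T}
  have hc : ∀ a b, (c a b).Countable := by
    rintro (ξ | η) b
    · exact countable_iUnion fun n => countable_iUnion fun j => (supp_finite (h1 ξ n j)).countable
    · by_cases hη : η < s.ζ
      · rcases b with ξ | γ
        · exact (countable_iUnion fun n => countable_iUnion fun j =>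
            (supp_finite ((s.good η hη).wf ξ n j)).countable).mono fun x hx => hx.2
        · exact (s.good η hη).tc.mono fun x hx => hx.2
      · rcases b with ξ | γ <;> exact countable_empty.mono fun x hx => (hη hx.1).elim
  obtain ⟨cl, a1, a2, a3, a4, a5⟩ := exists_closure c hc
  refine ⟨cl, a1, a2, fun S hS => ?_, a5⟩
  have hZ : cl S ⊆ Z (Iio s.ζ) := by
    refine a4 S _ hS ?_
    rintro (ξ | η) - b -
    · exact iUnion_subset fun n => iUnion_subset fun j => in_iff.1 (h2 ξ n j)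
    · rcases b with ξ | γ
      · rintro x ⟨hη, hx⟩
        obtain ⟨n, hx⟩ := mem_iUnion.1 hx
        obtain ⟨j, hx⟩ := mem_iUnion.1 hx
        exact Z_mono (Iio_subset_Iio hη.le) (in_iff.1 ((s.good η hη).wv ξ n j) hx)
      · rintro x ⟨hη, hx⟩
        exact Z_mono (Iio_subset_Iio hη.le) ((s.good η hη).tsub hx)
  refine ⟨hZ, fun η hη => ?_, fun ξ hξ n j => ?_⟩
  · have hη' : η < s.ζ := by simpa using hZ hη
    have hT : (s.D η).T ⊆ cl S := fun x hx => a3 S _ hη _ hη ⟨hη', hx⟩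
    refine ⟨hT, fun n i => hT ((s.good η hη').ct n i), fun ξ hξ n j => in_iff.2 fun x hx => ?_⟩
    exact a3 S _ hη _ hξ ⟨hη', mem_iUnion.2 ⟨n, mem_iUnion.2 ⟨j, hx⟩⟩⟩
  · exact in_iff.2 fun x hx => a3 S _ hξ _ hξ (mem_iUnion.2 ⟨n, mem_iUnion.2 ⟨j, hx⟩⟩)

theorem St.countable_closure (s : St K Ω) {S : Set (K ⊕ Ω)} (hS : S.Countable)
    (hZ : S ⊆ Z (Iio s.ζ)) :
    ∃ T, S ⊆ T ∧ T.Countable ∧ T ⊆ Z (Iio s.ζ) ∧ Closed s.D T := by
  obtain ⟨cl, -, a2, a3, a4⟩ := s.closure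
    { s.D s.ζ with W := fun _ _ _ => (∅, 0) } (by simp) (by simp [In])
  refine ⟨cl S, a2 S, ?_, (a3 S hZ).1, (a3 S hZ).2.1⟩
  rw [← Cardinal.le_aleph0_iff_set_countable] at hS ⊢
  exact (a4 S).trans (max_le hS le_rfl)

/-- the cardinality assumptions on the index sets -/
structure Sizes (K Ω : Type) [LinearOrder Ω] : Prop where
  unc : ℵ₀ < #K
  lev : ∃ lev : ℕ → Set K, Monotone lev ∧ (∀ ξ, ∃ m, ξ ∈ lev m) ∧ ∀ m, #(lev m) < #K
  ini : ∀ η : Ω, #(Iio η) ≤ #K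
  big : ∀ S : Set Ω, #S ≤ #K → ∃ η, η ∉ S

variable [WellFoundedLT Ω]

theorem Sizes.sup (H : Sizes K Ω) {L : Set Ω} (hL : IsLowerSet L) (h : #L ≤ #K) :
    ∃ ζ, Iio ζ = L := by
  obtain ⟨ζ, h1, h2⟩ := (wellFounded_lt (α := Ω)).has_min Lᶜ (H.big L h)
  refine ⟨ζ, Subset.antisymm (fun η hη => ?_) fun η hη => ?_⟩
  · by_contra hc
    exact h2 η hc hη
  · by_contra hc
    exact h1 (hL (not_lt.1 hc) hη)

theorem Sizes.chain (H : Sizes K Ω) {ι : Type} [Nonempty ι] (hι : #ι ≤ #K) (f : ι → St K Ω)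
    (hf : ∀ i j, f i ≤ f j ∨ f j ≤ f i) : ∃ e, ∀ i, e ≤ f i := by
  classical
  obtain ⟨ζ, hζ⟩ := H.sup (L := ⋃ i, Iio (f i).ζ) (isLowerSet_iUnion fun i => isLowerSet_Iio _)
    ((mk_iUnion_le _).trans ((mul_le_mul' hι (ciSup_le' fun i => H.ini _)).trans
      (Cardinal.mul_eq_self H.unc.le).le))
  let i0 : ι := Classical.arbitrary ι
  let D : Ω → Datum K Ω := fun η =>
    if h : ∃ i, η < (f i).ζ then (f h.choose).D η else (f i0).D η
  have hD : ∀ i η, η < (f i).ζ → D η = (f i).D η := by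
    intro i η hη
    have h : ∃ i, η < (f i).ζ := ⟨i, hη⟩
    simp only [D, dif_pos h]
    rcases hf i h.choose with h1 | h1
    · exact (h1.2 η h.choose_spec).symm
    · exact h1.2 η hη
  refine ⟨⟨ζ, D, fun η hη => ?_⟩, fun i => ⟨?_, hD i⟩⟩
  · have : η ∈ ⋃ i, Iio (f i).ζ := hζ ▸ hη
    obtain ⟨i, hi⟩ := mem_iUnion.1 this
    exact ((f i).good η hi).congr (fun γ hγ => hD i γ (hγ.trans hi)) (hD i η hi)
  · by_contra hc
    have : ζ ∈ ⋃ i, Iio (f i).ζ := mem_iUnion.2 ⟨i, not_le.1 hc⟩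
    rw [← hζ] at this
    exact lt_irrefl ζ this

theorem Sizes.tasks (H : Sizes K Ω) {ι : Type} (hι : #ι ≤ #K) (s0 : St K Ω)
    (Q : ι → St K Ω → Prop) (ho : ∀ i s s', Q i s → s' ≤ s → Q i s')
    (hd : ∀ i s, s ≤ s0 → ∃ s', s' ≤ s ∧ Q i s') : ∃ s1, s1 ≤ s0 ∧ ∀ i, Q i s1 := by
  obtain ⟨_, _⟩ := exists_wellOrder ι
  have : Nonempty (St K Ω) := ⟨s0⟩
  have key : ∀ (A : Set ι) (f : ι → St K Ω), (∀ i ∈ A, f i ≤ s0) →
      (∀ i ∈ A, ∀ j ∈ A, i < j → f j ≤ f i) → ∃ e, e ≤ s0 ∧ ∀ i ∈ A, e ≤ f i := by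
    intro A f h1 h2
    obtain ⟨e, he⟩ := H.chain (ι := Option A) (by
      rw [Cardinal.mk_option]
      exact Cardinal.add_le_of_le H.unc.le ((mk_set_le A).trans hι)
        (one_le_aleph0.trans H.unc.le)) (fun o => o.elim s0 fun i => f i) (by
      rintro (_ | i) (_ | j)
      · exact Or.inl le_rfl
      · exact Or.inr (h1 j j.2)
      · exact Or.inl (h1 i i.2)
      · rcases lt_trichotomy i.1 j.1 with h | h | h
        · exact Or.inr (h2 i i.2 j j.2 h)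
        · left; show f i ≤ f j; rw [h]
        · exact Or.inl (h2 j j.2 i i.2 h))
    exact ⟨e, he none, fun i hi => he (some ⟨i, hi⟩)⟩
  obtain ⟨f, h1, h2⟩ := AD.wf_rec (Ω := ι) (V := St K Ω) (fun i v => v ≤ s0 ∧ Q i v)
    (fun _ u _ v => v ≤ u) (by
      intro α f g1 g2
      obtain ⟨e, e1, e2⟩ := key (Iio α) f (fun i hi => (g1 i hi).1)
        fun i _ j hj hij => g2 i j hij hj
      obtain ⟨v, v1, v2⟩ := hd α e e1
      exact ⟨v, ⟨v1.trans e1, v2⟩, fun γ hγ => v1.trans (e2 γ hγ)⟩)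
  obtain ⟨e, e1, e2⟩ := key univ f (fun i _ => (h1 i).1) fun i _ j _ hij => h2 i j hij
  exact ⟨e, e1, fun i => ho i _ _ (h1 i).2 (e2 i trivial)⟩

/-- a dense relation is captured by a countable predense family of some later stage -/
theorem Sizes.capture (H : Sizes K Ω) (s0 : St K Ω) (R : St K Ω → Set (Fact K Ω) → ℕ → Prop)
    (ho : ∀ s s' w v, R s w v → s' ≤ s → R s' w v)
    (hd : ∀ s, s ≤ s0 → ∀ t, s.V t → ∃ s', s' ≤ s ∧ ∃ w v, s'.V w ∧ t ⊆ w ∧ R s' w v) :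
    ∃ s', s' ≤ s0 ∧ ∃ W : ℕ → Set (Fact K Ω) × ℕ,
      (∀ j, s'.V (W j).1 ∧ R s' (W j).1 (W j).2) ∧ s'.Pre W := by
  let A := {z : St K Ω × Set (K ⊕ Ω) // z.1 ≤ s0 ∧ z.2.Countable ∧ z.2 ⊆ Z (Iio z.1.ζ) ∧
    Closed z.1.D z.2}
  have step : ∀ z : A, ∃ z' : A, z'.1.1 ≤ z.1.1 ∧ z.1.2 ⊆ z'.1.2 ∧
      ∀ t, Valid z.1.1.D t → In z.1.2 t →
        ∃ w v, Valid z'.1.1.D w ∧ In z'.1.2 w ∧ t ⊆ w ∧ R z'.1.1 w v := by
    rintro ⟨⟨s, T⟩, h1, h2, h3, h4⟩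
    let ι := {t : Set (Fact K Ω) // Valid s.D t ∧ In T t}
    have hι0 : {t : Set (Fact K Ω) | Valid s.D t ∧ In T t}.Countable := by
      refine (countable_in h2).mono ?_
      intro t ht
      exact ⟨ht.1.fin, ht.2⟩
    have hι : Countable ι := hι0.to_subtype
    obtain ⟨s1, a1, a2⟩ := H.tasks (ι := ι) (Cardinal.mk_le_aleph0.trans H.unc.le) s
      (fun t s' => ∃ w v, s'.V w ∧ t.1 ⊆ w ∧ R s' w v)
      (by
        rintro t s' s'' ⟨w, v, g1, g2, g3⟩ h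
        exact ⟨w, v, g1.up h, g2, ho _ _ _ _ g3 h⟩)
      (fun t s' h => hd s' (h.trans h1) t.1 (St.V.up h ⟨t.2.1, t.2.2.mono h3⟩))
    choose w v b1 b2 b3 using a2
    obtain ⟨T', c1, c2, c3, c4⟩ := s1.countable_closure (S := T ∪ ⋃ t, supp (w t))
      (h2.union (countable_iUnion fun t => (supp_finite (b1 t).1.fin).countable))
      (union_subset (h3.trans (St.Z_le a1)) (iUnion_subset fun t => in_iff.1 (b1 t).2))
    refine ⟨⟨(s1, T'), a1.trans h1, c2, c3, c4⟩, a1, subset_union_left.trans c1,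
      fun t g1 g2 => ⟨w ⟨t, g1, g2⟩, v ⟨t, g1, g2⟩, (b1 _).1, in_iff.2 ?_, b2 ⟨t, g1, g2⟩, b3 _⟩⟩
    exact ((subset_iUnion (fun t => supp (w t)) _).trans subset_union_right).trans c1
  choose F hF1 hF2 hF3 using step
  let z : ℕ → A := fun k => F^[k] ⟨(s0, ∅), le_rfl, countable_empty, empty_subset _,
    fun _ h => h.elim⟩
  have hz : ∀ k, z (k + 1) = F (z k) := fun k => Function.iterate_succ_apply' _ _ _
  have hanti : Antitone fun k => (z k).1.1 := antitone_nat_of_succ_le fun k => by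
    rw [hz]; exact hF1 _
  have hmono : Monotone fun k => (z k).1.2 := monotone_nat_of_le_succ fun k => by
    rw [hz]; exact hF2 _
  obtain ⟨e, he⟩ := H.chain (ι := ℕ) (Cardinal.mk_le_aleph0.trans H.unc.le)
    (fun k => (z k).1.1) fun i j => (le_total j i).imp (fun h => hanti h) fun h => hanti h
  let T : Set (K ⊕ Ω) := ⋃ k, (z k).1.2
  have hTc : T.Countable := countable_iUnion fun k => (z k).2.2.1
  have hcl : ∀ k, Closed e.D (z k).1.2 := fun k => (z k).2.2.2.2.congr (he k).2 (z k).2.2.2.1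
  have hsub : ∀ k, (z k).1.2 ⊆ T := subset_iUnion fun k => (z k).1.2
  have hT : Closed e.D T := by
    intro η hη
    obtain ⟨k, hk⟩ := mem_iUnion.1 hη
    refine ⟨(hcl k η hk).1.trans (hsub k), fun n i => hsub k ((hcl k η hk).2.1 n i),
      fun ξ hξ n j => ?_⟩
    obtain ⟨l, hl⟩ := mem_iUnion.1 hξ
    exact ((hcl (max k l) η (hmono (le_max_left _ _) hk)).2.2 ξ
      (hmono (le_max_right _ _) hl) n j).mono (hsub _)
  have hTZ : T ⊆ Z (Iio e.ζ) := iUnion_subset fun k => (z k).2.2.2.1.trans (St.Z_le (he k))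
  let 𝒲 : Set (Set (Fact K Ω) × ℕ) := {x | Valid e.D x.1 ∧ In T x.1 ∧ R e x.1 x.2}
  have h𝒲 : 𝒲.Countable := by
    refine ((countable_in hTc).prod (countable_univ (α := ℕ))).mono ?_
    intro x hx
    exact ⟨⟨hx.1.fin, hx.2.1⟩, trivial⟩
  have key : ∀ t, Valid e.D t → In T t → ∃ x ∈ 𝒲, t ⊆ x.1 := by
    intro t h1 h2
    obtain ⟨k, hk⟩ := in_level h1.fin hmono h2
    obtain ⟨w, v, g1, g2, g3, g4⟩ := hF3 (z k) t
      (h1.congr (fun η hη => ((he k).2 η hη).symm) (hk.mono (z k).2.2.2.1)) hk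
    rw [← hz] at g1 g2 g4
    exact ⟨(w, v), ⟨g1.congr (he (k + 1)).2 (g2.mono (z (k + 1)).2.2.2.1), g2.mono (hsub _),
      ho _ _ _ _ g4 (he _)⟩, g3⟩
  obtain ⟨x0, hx0, -⟩ := key ∅ valid_empty (by simp [In])
  obtain ⟨W, hW⟩ := h𝒲.exists_eq_range ⟨x0, hx0⟩
  have hWm : ∀ j, W j ∈ 𝒲 := fun j => hW ▸ mem_range_self j
  refine ⟨e, he 0, W, fun j => ⟨⟨(hWm j).1, (hWm j).2.1.mono hTZ⟩, (hWm j).2.2⟩, fun t ht => ?_⟩
  obtain ⟨t', a1, a2, a3, a4⟩ := reduction e.good t ht.1 ht.2 T hT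
  obtain ⟨x, hx, hx'⟩ := key _ (a2.res hT) (res_in _ _)
  obtain ⟨r, b1, b2, b3, b4⟩ := (a4 x.1 hx.1 hx.2.1 hx').res e.closed (hx.2.1.mono hTZ) a3
  have : x ∈ range W := hW ▸ hx
  obtain ⟨j, rfl⟩ := this
  exact ⟨j, r, ⟨b1, b2⟩, union_subset (a1.trans b4) b3⟩

/-- a new step of the iteration -/
theorem Sizes.new_step (H : Sizes K Ω) (s : St K Ω) (W : K → ℕ → ℕ → Set (Fact K Ω) × ℕ)
    (h1 : ∀ ξ n j, s.V (W ξ n j).1) (h2 : ∀ ξ n, s.Pre (W ξ n)) :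
    ∃ s', s' ≤ s ∧ s.ζ < s'.ζ ∧ (s'.D s.ζ).W = W := by
  classical
  obtain ⟨cl, a1, a2, a3, a4⟩ := s.closure { s.D s.ζ with W := W } (fun ξ n j => (h1 ξ n j).1.fin)
    fun ξ n j => (h1 ξ n j).2
  obtain ⟨lev, b1, b2, b3⟩ := H.lev
  have hZ : #(Z (Iio s.ζ) : Set (K ⊕ Ω)) ≤ #K :=
    (mk_union_le _ _).trans (Cardinal.add_le_of_le H.unc.le mk_range_le
      (mk_image_le.trans (H.ini _)))
  obtain ⟨e⟩ := (Cardinal.le_def _ _).1 hZ
  let S : ℕ → Set (K ⊕ Ω) := fun m => Subtype.val '' (e ⁻¹' lev m)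
  have hSZ : ∀ m, S m ⊆ Z (Iio s.ζ) := by rintro m _ ⟨a, -, rfl⟩; exact a.2
  have hSc : ∀ m, #(S m) < #K := fun m =>
    lt_of_le_of_lt (mk_image_le.trans (mk_preimage_of_injective _ _ e.injective)) (b3 m)
  have hex : ∀ m, ∃ ξ, inl ξ ∉ cl (S m) := by
    intro m
    by_contra hc
    push Not at hc
    have h3 : #K ≤ #(cl (S m)) := mk_le_of_injective (f := fun ξ => ⟨inl ξ, hc ξ⟩)
      fun ξ ξ' h => inl_injective (Subtype.mk.inj h)
    exact absurd (h3.trans (a4 _)) (not_le.2 (max_lt (hSc m) H.unc))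
  choose c hc using hex
  let T0 : Set (K ⊕ Ω) := range fun m => inl (c m)
  have hT0 : T0 ⊆ Z (Iio s.ζ) := by rintro _ ⟨m, rfl⟩; simp
  let d : Datum K Ω := ⟨W, fun m => cl (S m), fun n i => c (n + i), cl T0⟩
  let D := Function.update s.D s.ζ d
  have hD : ∀ η, η < s.ζ → D η = s.D η := fun η hη => Function.update_of_ne hη.ne _ _
  have hD' : D s.ζ = d := Function.update_self _ _ _
  obtain ⟨ζ, hζ⟩ := H.sup (isLowerSet_Iic s.ζ) (by
    rw [← Iio_insert]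
    exact mk_insert_le.trans (Cardinal.add_le_of_le H.unc.le (H.ini _)
      (one_le_aleph0.trans H.unc.le)))
  have hlt : s.ζ < ζ := by
    have : s.ζ ∈ Iio ζ := hζ ▸ mem_Iic.2 le_rfl
    exact this
  refine ⟨⟨ζ, D, fun η hη => ?_⟩, ⟨hlt.le, hD⟩, hlt, by simp only [hD']; rfl⟩
  have hη' : η ∈ Iic s.ζ := hζ ▸ hη
  rcases lt_or_eq_of_le (mem_Iic.1 hη') with h | rfl
  · exact (s.good η h).congr (fun γ hγ => hD γ (hγ.trans h)) (hD η h)
  refine ⟨?_, ?_, ?_, ?_, ?_, ?_, ?_, ?_, ?_, ?_, ?_, ?_, ?_, ?_⟩ <;> rw [hD']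
  · exact fun ξ n j => (h1 ξ n j).2
  · exact fun ξ n j => (h1 ξ n j).1.fin
  · intro ξ n p hp hI
    obtain ⟨j, r, g1, g2⟩ := h2 ξ n p ⟨hp.congr (fun γ hγ => (hD γ hγ).symm) hI, hI⟩
    exact ⟨j, r, g1.1.congr hD g1.2, g1.2, g2⟩
  · exact fun m m' h => a1 (image_mono (preimage_mono (b1 h)))
  · intro a ha
    obtain ⟨m, hm⟩ := b2 (e ⟨a, ha⟩)
    exact ⟨m, a2 _ ⟨⟨a, ha⟩, hm, rfl⟩⟩
  · exact fun m => (a3 _ (hSZ m)).1
  · exact fun m => (a3 _ (hSZ m)).2.1.congr hD (a3 _ (hSZ m)).1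
  · exact fun m => (a3 _ (hSZ m)).2.2
  · exact fun n i => hc (n + i)
  · exact fun n i => a2 _ ⟨n + i, rfl⟩
  · rw [← Cardinal.le_aleph0_iff_set_countable]
    exact (a4 _).trans (max_le (mk_range_le.trans Cardinal.mk_le_aleph0) le_rfl)
  · exact (a3 _ hT0).1
  · exact (a3 _ hT0).2.1.congr hD (a3 _ hT0).1
  · exact (a3 _ hT0).2.2

end Pool.Agent.H895Z.SH
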