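import Mathlib
import Pool.Agent.H895Z.WDeg

set_option autoImplicit false

namespace Pool.Agent.H895Z.Wei

open Cardinal

/-- the test problems: countable domain, co-countable solution sets -/
def Test : Type :=
  {D : Set (ℕ → ℕ) // #D ≤ ℵ₀} × {N : Set ((ℕ → ℕ) × (ℕ → ℕ)) // #N ≤ ℵ₀}

/-- the problem given by a test -/
def Test.prob (t : Test) : Problem := ⟨fun x => {z | x ∈ t.1.1 ∧ (x, z) ∉ t.2.1}⟩

theorem mk_baire : #(ℕ → ℕ) = 𝔠 := by simp

theorem mk_Test : #Test ≤ 𝔠 := by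
  have h1 : #{D : Set (ℕ → ℕ) // #D ≤ ℵ₀} ≤ 𝔠 := by
    refine (mk_bounded_set_le_of_infinite _ _).trans ?_
    rw [mk_baire, continuum_power_aleph0]
  have h2 : #{N : Set ((ℕ → ℕ) × (ℕ → ℕ)) // #N ≤ ℵ₀} ≤ 𝔠 := by
    refine (mk_bounded_set_le_of_infinite _ _).trans ?_
    rw [mk_prod, mk_baire]
    simp
  unfold Test
  rw [mk_prod, lift_id, lift_id]
  calc _ ≤ 𝔠 * 𝔠 := mul_le_mul' h1 h2
    _ = 𝔠 := continuum_mul_self

theorem countable_computable : {φ : List ℕ → List ℕ | Computable φ}.Countable := by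
  have : {φ : List ℕ → List ℕ | Computable φ} ⊆ Set.range (fun c : Nat.Partrec.Code =>
      fun w : List ℕ => by
        classical
        exact if h : (c.eval (Encodable.encode w)).Dom then
          (Encodable.decode ((c.eval (Encodable.encode w)).get h) : Option (List ℕ)).getD []
        else []) := by
    intro φ hφ
    obtain ⟨c, hc⟩ := Nat.Partrec.Code.exists_code.1 hφ
    refine ⟨c, funext fun w => ?_⟩
    have h1 : c.eval (Encodable.encode w) = Part.some (Encodable.encode (φ w)) := by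
      rw [hc]; simp
    simp [h1]
  exact (Set.countable_range _).mono this

theorem exists_test {f g : Problem} (h : ¬ WLE f g) :
    ∃ t : Test, WLE t.prob f ∧ ¬ WLE t.prob g := by
  classical
  let I := {φ : List ℕ → List ℕ | Computable φ} × {φ : List ℕ → List ℕ | Computable φ}
  have : Countable {φ : List ℕ → List ℕ | Computable φ} := countable_computable
  have h1 : ∀ i : I, ∃ x z₀, (f.sol x).Nonempty ∧ ∀ x', Computes i.1.1 x x' →
      (g.sol x').Nonempty → ∃ y ∈ g.sol x', ∀ z, Computes i.2.1 (join x y) z →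
        z ∉ f.sol x ∧ z = z₀ := by
    rintro ⟨⟨φ, hφ⟩, ⟨ψ, hψ⟩⟩
    unfold WLE at h
    push Not at h
    obtain ⟨x, hx, h⟩ := h φ ψ hφ hψ
    by_cases hc : ∃ x', Computes φ x x' ∧ (g.sol x').Nonempty
    · obtain ⟨x', c1, hx'⟩ := hc
      obtain ⟨y, hy, h⟩ := h x' c1 hx'
      by_cases hz : ∃ z, Computes ψ (join x y) z
      · obtain ⟨z₀, hz₀⟩ := hz
        refine ⟨x, z₀, hx, fun x'' c2 _ => ?_⟩
        obtain rfl := c1.unique c2
        exact ⟨y, hy, fun z hz => ⟨h z hz, hz.unique hz₀⟩⟩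
      · refine ⟨x, x, hx, fun x'' c2 _ => ?_⟩
        obtain rfl := c1.unique c2
        exact ⟨y, hy, fun z hz' => absurd ⟨z, hz'⟩ hz⟩
    · exact ⟨x, x, hx, fun x' c1 hx' => absurd ⟨x', c1, hx'⟩ hc⟩
  choose x z₀ hx h1 using h1
  let D : Set (ℕ → ℕ) := Set.range x
  let N : Set ((ℕ → ℕ) × (ℕ → ℕ)) := {p | p.2 ∉ f.sol p.1 ∧ ∃ i, (x i, z₀ i) = p}
  have hD : #D ≤ ℵ₀ := le_aleph0_iff_set_countable.2 (Set.countable_range _)
  have hN : #N ≤ ℵ₀ := le_aleph0_iff_set_countable.2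
    ((Set.countable_range (fun i => (x i, z₀ i))).mono (fun p hp => hp.2))
  let t : Test := (⟨D, hD⟩, ⟨N, hN⟩)
  have hsub : ∀ i, f.sol (x i) ⊆ t.prob.sol (x i) :=
    fun i z hz => ⟨⟨i, rfl⟩, fun hN => hN.1 hz⟩
  refine ⟨t, WLE.of_sub ?_, ?_⟩
  · rintro _ ⟨z, ⟨i, rfl⟩, -⟩
    exact ⟨hx i, hsub i⟩
  · rintro ⟨φ, ψ, hφ, hψ, hred⟩
    let i : I := (⟨φ, hφ⟩, ⟨ψ, hψ⟩)
    obtain ⟨x', c1, hx', hred⟩ := hred (x i) ((hx i).mono (hsub i))
    obtain ⟨y, hy, h2⟩ := h1 i x' c1 hx'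
    obtain ⟨z, c2, hz⟩ := hred y hy
    obtain ⟨h3, h4⟩ := h2 z c2
    exact hz.2 ⟨h3, i, by rw [h4]⟩

/-- the Weihrauch degrees embed into the power set of a set of size at most continuum -/
theorem exists_embedding : ∃ F : Degree → Set Test, ∀ a b, F a ⊆ F b ↔ a ≤ b := by
  refine ⟨fun a => {t | toAntisymmetrization (· ≤ ·) t.prob ≤ a}, fun a b => ⟨fun h => ?_,
    fun h t (ht : toAntisymmetrization (· ≤ ·) t.prob ≤ a) =>
      show toAntisymmetrization (· ≤ ·) t.prob ≤ b from le_trans ht h⟩⟩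
  induction a using Antisymmetrization.induction_on with | _ f
  induction b using Antisymmetrization.induction_on with | _ g
  rw [toAntisymmetrization_le_toAntisymmetrization_iff]
  by_contra hc
  obtain ⟨t, h1, h2⟩ := exists_test hc
  have : toAntisymmetrization (· ≤ ·) t.prob ≤ toAntisymmetrization (· ≤ ·) g :=
    h (toAntisymmetrization_le_toAntisymmetrization_iff.2 h1)
  exact h2 (toAntisymmetrization_le_toAntisymmetrization_iff.1 this)

theorem chain_lt {X Z : Type} (h : Principle X Z) (C : Set Degree) (hC : IsChain (· ≤ ·) C) :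
    #C < 2 ^ 𝔠 := by
  obtain ⟨⟨E, hE⟩, ⟨E', hE'⟩, ⟨S, hS⟩, h⟩ := h
  by_contra hc
  push Not at hc
  have h1 : 𝔠 ≤ #X := by
    have : Function.Surjective E := fun τ => by
      obtain ⟨x, hx⟩ := hE τ
      exact ⟨x, hx.symm⟩
    simpa using mk_le_of_surjective this
  have h2 : #X ≤ 𝔠 := by simpa using mk_le_of_injective hE'
  have h3 : #Z ≤ #C := by
    refine le_trans ?_ hc
    have := mk_le_of_injective hS
    rw [mk_set, le_antisymm h2 h1] at this
    exact this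
  obtain ⟨e⟩ := (le_def _ _).1 h3
  obtain ⟨ι⟩ := (le_def _ _).1 (mk_Test.trans h1)
  obtain ⟨F, hF⟩ := exists_embedding
  refine h ⟨fun z => ι '' F (e z).1, fun z z' hzz => ?_, fun z z' => ?_⟩
  · have h4 : F (e z).1 = F (e z').1 := Set.image_injective.2 ι.injective hzz
    apply e.injective
    exact Subtype.ext (le_antisymm ((hF _ _).1 h4.le) ((hF _ _).1 h4.ge))
  · rcases hC.total (e z).2 (e z').2 with h4 | h4
    · exact Or.inl (Set.image_mono ((hF _ _).2 h4))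
    · exact Or.inr (Set.image_mono ((hF _ _).2 h4))

theorem zfc_part {X Z : Type} (h : Principle X Z) :
    (∀ C : Set Degree, IsChain (· ≤ ·) C → #C < 2 ^ 𝔠) ∧
    ∃ C : Set Degree, IsMaxChain (· ≤ ·) C ∧ #C < 2 ^ 𝔠 :=
  ⟨chain_lt h, _, maxChain_spec, chain_lt h _ maxChain_spec.isChain⟩

end Pool.Agent.H895Z.Wei
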